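import Mathlib
import Pool.Graph.R_seed8.Helper669.Forcing

set_option autoImplicit false
set_option linter.unusedSectionVars false
set_option linter.unusedVariables false

/-!
# Basic facts on forcing

Closure of forcing notions under lower bounds of directed families, decreasing sequences,
projections, mixing of names, transport along isomorphisms. (Several of these lemmas are taken
over from the library modules `Pool.Graph.R_seed8.W873`.)
-/

namespace Pool.Agent.H638.ST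

open Set Cardinal Pool.Agent.Helper669.Forcing

section

variable {P : Type} [Preorder P]

/-- directed families of at most `lam` conditions have lower bounds -/
def DC (lam : Cardinal.{0}) (P : Type) [Preorder P] : Prop :=
  ∀ (ι : Type) (D : ι → P), #ι ≤ lam → Nonempty ι → (∀ i j, ∃ k, D k ≤ D i ∧ D k ≤ D j) →
    ∃ p, ∀ i, p ≤ D i

/-- directed families of less than `κ` conditions have lower bounds: `κ`-directed closed -/
def DCL (κ : Cardinal.{0}) (P : Type) [Preorder P] : Prop :=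
  ∀ (ι : Type) (D : ι → P), #ι < κ → Nonempty ι → (∀ i j, ∃ k, D k ≤ D i ∧ D k ≤ D j) →
    ∃ p, ∀ i, p ≤ D i

theorem DC.dcl {κ : Cardinal.{0}} (h : DC κ P) : DCL κ P :=
  fun ι D hι => h ι D hι.le

theorem DCL.dc {κ lam : Cardinal.{0}} (h : DCL κ P) (hl : lam < κ) : DC lam P :=
  fun ι D hι => h ι D (hι.trans_lt hl)

theorem DC.mono {κ lam : Cardinal.{0}} (h : DC κ P) (hl : lam ≤ κ) : DC lam P :=
  fun ι D hι => h ι D (hι.trans hl)

theorem exists_wo (J : Type) : ∃ _ : LinearOrder J, WellFoundedLT J := by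
  classical
  exact ⟨linearOrderOfSTO WellOrderingRel, ⟨WellOrderingRel.isWellOrder.wf⟩⟩

/-- decreasing sequences of conditions, in which each step achieves something -/
theorem exists_chain {lam : Cardinal.{0}} (h0 : ℵ₀ ≤ lam) (hP : DC lam P) {J : Type}
    [LinearOrder J] [WellFoundedLT J] (hJ : ∀ j : J, #(Iio j) ≤ lam) (p0 : P)
    (Φ : J → P → P → Prop) (step : ∀ j, ∀ m ≤ p0, ∃ m' ≤ m, Φ j m m') :
    ∃ M : J → P, (∀ j, M j ≤ p0) ∧ (∀ j' j, j' < j → M j ≤ M j') ∧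
      ∀ j, ∃ m ≤ p0, (∀ j' < j, m ≤ M j') ∧ M j ≤ m ∧ Φ j m (M j) := by
  classical
  choose! nx hnx1 hnx2 using step
  let G : (j : J) → ((j' : J) → j' < j → P) → P := fun j ih =>
    if h : ∃ m, m ≤ p0 ∧ ∀ j' (h' : j' < j), m ≤ ih j' h' then nx j h.choose else p0
  let M : J → P := (wellFounded_lt (α := J)).fix G
  have hM : ∀ j, M j = G j fun j' _ => M j' := fun j => (wellFounded_lt (α := J)).fix_eq G j
  have key : ∀ j, (∃ m ≤ p0, (∀ j' < j, m ≤ M j') ∧ M j ≤ m ∧ Φ j m (M j)) := by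
    intro j
    induction j using (wellFounded_lt (α := J)).induction with
    | _ j ih =>
      have h1 : ∀ j' < j, ∀ j'' < j', M j' ≤ M j'' := by
        intro j' hj' j'' hj''
        obtain ⟨m, _, h2, h3, _⟩ := ih j' hj'
        exact h3.trans (h2 j'' hj'')
      have h2 : ∀ j' < j, M j' ≤ p0 := by
        intro j' hj'
        obtain ⟨m, h3, _, h4, _⟩ := ih j' hj'
        exact h4.trans h3
      obtain ⟨m, hm⟩ := hP (Option (Iio j)) (fun o => match o with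
        | none => p0
        | some a => M a.1) (by
          rw [mk_option]
          exact add_le_of_le h0 (hJ j) (one_le_aleph0.trans h0)) ⟨none⟩ (by
          rintro (_ | a) (_ | b)
          · exact ⟨none, le_rfl, le_rfl⟩
          · exact ⟨some b, h2 b.1 b.2, le_rfl⟩
          · exact ⟨some a, le_rfl, h2 a.1 a.2⟩
          · rcases lt_trichotomy a.1 b.1 with h3 | h3 | h3
            · exact ⟨some b, h1 b.1 b.2 a.1 h3, le_rfl⟩
            · exact ⟨some a, le_rfl, by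
                change M a.1 ≤ M b.1
                rw [h3]⟩
            · exact ⟨some a, le_rfl, h1 a.1 a.2 b.1 h3⟩)
      have hex : ∃ m, m ≤ p0 ∧ ∀ j' (h' : j' < j), m ≤ M j' :=
        ⟨m, hm none, fun j' hj' => hm (some ⟨j', hj'⟩)⟩
      have h3 : M j = nx j hex.choose := by
        rw [hM j]
        exact dif_pos hex
      obtain ⟨h4, h5⟩ := hex.choose_spec
      refine ⟨hex.choose, h4, h5, ?_, ?_⟩
      · rw [h3]
        exact hnx1 j _ h4
      · rw [h3]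
        exact hnx2 j _ h4
  refine ⟨M, fun j => ?_, fun j' j hj => ?_, key⟩
  · obtain ⟨m, h1, _, h2, _⟩ := key j
    exact h2.trans h1
  · obtain ⟨m, _, h1, h2, _⟩ := key j
    exact h2.trans (h1 j' hj)

/-- chains -/
theorem DC.lb {lam : Cardinal.{0}} (hP : DC lam P) {J : Type} [LinearOrder J] [Nonempty J]
    (hJ : #J ≤ lam) (M : J → P) (hM : ∀ j' j, j' < j → M j ≤ M j') : ∃ p, ∀ j, p ≤ M j := by
  refine hP J M hJ inferInstance fun i j => ?_
  rcases lt_trichotomy i j with h | h | h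
  · exact ⟨j, hM i j h, le_rfl⟩
  · exact ⟨i, le_rfl, by rw [h]⟩
  · exact ⟨i, le_rfl, hM j i h⟩

theorem DC.prod {lam : Cardinal.{0}} {Q : Type} [Preorder Q] (hP : DC lam P) (hQ : DC lam Q) :
    DC lam (P × Q) := by
  intro ι D hι hne hd
  obtain ⟨p, hp⟩ := hP ι (fun i => (D i).1) hι hne
    (fun i j => let ⟨k, h1, h2⟩ := hd i j; ⟨k, h1.1, h2.1⟩)
  obtain ⟨q, hq⟩ := hQ ι (fun i => (D i).2) hι hne
    (fun i j => let ⟨k, h1, h2⟩ := hd i j; ⟨k, h1.2, h2.2⟩)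
  exact ⟨(p, q), fun i => ⟨hp i, hq i⟩⟩

theorem DC.pi {lam : Cardinal.{0}} {X : Type} {Q : X → Type} [∀ x, Preorder (Q x)]
    (hQ : ∀ x, DC lam (Q x)) : DC lam (∀ x, Q x) := by
  intro ι D hι hne hd
  choose q hq using fun x => hQ x ι (fun i => D i x) hι hne
    (fun i j => let ⟨k, h1, h2⟩ := hd i j; ⟨k, h1 x, h2 x⟩)
  exact ⟨q, fun i x => hq x i⟩

/-! ### Sentences -/

theorem meets_dn {N : Set P} {p q : P} (h : p ∈ meets N) (hq : q ≤ p) : q ∈ meets N :=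
  down_meets N p h q hq

theorem meets_of_dense {N : Set P} {p : P} (h : ∀ q ≤ p, ∃ r ≤ q, r ∈ meets N) :
    p ∈ meets N := by
  intro q hq
  obtain ⟨r, hr, h'⟩ := h q hq
  obtain ⟨s, hs, n, hn, hsn⟩ := h' r le_rfl
  exact ⟨s, hs.trans hr, n, hn, hsn⟩

theorem meets_of_dense' {N : Set P} {p : P} (h : ∀ q ≤ p, ∃ r ≤ q, r ∈ N) : p ∈ meets N :=
  fun q hq => let ⟨r, hr, h'⟩ := h q hq; ⟨r, hr, r, h', le_rfl⟩

theorem mem_meets_fground {h : Prop} {p : P} : p ∈ meets (fground (P := P) h) ↔ h := by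
  constructor
  · intro h1
    obtain ⟨_, _, _, hs, _⟩ := h1 p le_rfl
    exact hs
  · intro h1
    exact meets_of_mem h1

theorem not_meets {N : Set P} {p : P} (h : p ∉ meets N) : ∃ q ≤ p, q ∈ fnot (meets N) := by
  by_contra hcon
  push Not at hcon
  refine h (meets_of_dense fun q hq => ?_)
  have h1 := hcon q hq
  simp only [fnot, Set.mem_ofPred_eq, not_forall, not_not] at h1
  obtain ⟨r, hr, h2⟩ := h1
  exact ⟨r, hr, h2⟩

/-- a set is regular if it contains each condition below which it is dense -/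
def Reg (φ : Set P) : Prop := ∀ p, (∀ q ≤ p, ∃ r ≤ q, r ∈ φ) → p ∈ φ

theorem reg_meets (N : Set P) : Reg (meets N) := fun _ h => meets_of_dense h

theorem reg_fnot {φ : Set P} (hd : Down φ) : Reg (fnot φ) := by
  intro p h q hq hφ
  obtain ⟨r, hr, h1⟩ := h q hq
  exact h1 r le_rfl (hd q hφ r hr)

theorem reg_fand {φ ψ : Set P} (h : Reg φ) (h' : Reg ψ) : Reg (fand φ ψ) := fun p hp =>
  ⟨h p fun q hq => let ⟨r, hr, h1⟩ := hp q hq; ⟨r, hr, h1.1⟩,
    h' p fun q hq => let ⟨r, hr, h1⟩ := hp q hq; ⟨r, hr, h1.2⟩⟩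

theorem reg_fall {ι : Sort*} {φ : ι → Set P} (h : ∀ i, Reg (φ i)) : Reg (fall φ) :=
  fun p hp i => h i p fun q hq => let ⟨r, hr, h1⟩ := hp q hq; ⟨r, hr, h1 i⟩

theorem reg_fimp (φ : Set P) {ψ : Set P} (hφ : Down φ) : Reg (fimp φ ψ) :=
  reg_fnot (down_fand hφ (down_fnot _))

theorem reg_fex {ι : Sort*} (φ : ι → Set P) : Reg (fex φ) :=
  reg_fnot (down_fall fun _ => down_fnot _)

theorem reg_fground (h : Prop) : Reg (fground (P := P) h) := by
  intro p hp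
  obtain ⟨_, _, h1⟩ := hp p le_rfl
  exact h1

/-- the meaning of a regular closed set -/
theorem mem_meets_reg {φ : Set P} (hd : Down φ) (hr : Reg φ) {p : P} : p ∈ meets φ ↔ p ∈ φ := by
  constructor
  · intro h
    refine hr p fun q hq => ?_
    obtain ⟨r, hr', s, hs, hle⟩ := h q hq
    exact ⟨r, hr', hd s hs r hle⟩
  · exact meets_of_mem

/-- either `φ` or its negation holds, below a condition -/
theorem decide_of (φ : Set P) (p : P) : ∃ q ≤ p, q ∈ φ ∨ q ∈ fnot φ := by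
  by_cases h : ∃ q ≤ p, q ∈ φ
  · obtain ⟨q, hq, h'⟩ := h
    exact ⟨q, hq, Or.inl h'⟩
  · push Not at h
    exact ⟨p, le_rfl, Or.inr h⟩

/-- `φ or ψ` -/
def for' (φ ψ : Set P) : Set P := fnot (fand (fnot φ) (fnot ψ))

theorem down_for' (φ ψ : Set P) : Down (for' φ ψ) := down_fnot _

theorem mem_for' {φ ψ : Set P} {p : P} :
    p ∈ for' φ ψ ↔ ∀ q ≤ p, ∃ r ≤ q, r ∈ φ ∨ r ∈ ψ := by
  constructor
  · intro h q hq
    by_contra hcon
    push Not at hcon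
    exact h q hq ⟨fun r hr hn => (hcon r hr).1 hn, fun r hr hn => (hcon r hr).2 hn⟩
  · intro h q hq h'
    obtain ⟨r, hr, h1⟩ := h q hq
    exact h1.elim (h'.1 r hr) (h'.2 r hr)

theorem for'_elim {φ ψ : Set P} {p : P} (h : p ∈ for' φ ψ) : ∃ q ≤ p, q ∈ φ ∨ q ∈ ψ :=
  mem_for'.1 h p le_rfl

/-- `φ` if and only if `ψ` -/
def feqv (φ ψ : Set P) : Set P := fand (fimp φ ψ) (fimp ψ φ)

theorem down_feqv (φ ψ : Set P) : Down (feqv φ ψ) := down_fand (down_fimp _ _) (down_fimp _ _)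

theorem mem_feqv_meets {M N : Set P} {p : P} :
    p ∈ feqv (meets M) (meets N) ↔ ∀ q ≤ p, (q ∈ meets M ↔ q ∈ meets N) := by
  constructor
  · rintro ⟨h1, h2⟩ q hq
    refine ⟨fun h => meets_of_dense fun r hr => ?_, fun h => meets_of_dense fun r hr => ?_⟩
    · exact mem_fimp.1 h1 r (hr.trans hq) (meets_dn h hr)
    · exact mem_fimp.1 h2 r (hr.trans hq) (meets_dn h hr)
  · intro h
    exact ⟨mem_fimp.2 fun q hq h' => ⟨q, le_rfl, (h q hq).1 h'⟩,
      mem_fimp.2 fun q hq h' => ⟨q, le_rfl, (h q hq).2 h'⟩⟩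

theorem mem_fimp_meets {φ : Set P} (hφ : Down φ) {N : Set P} {p : P} :
    p ∈ fimp φ (meets N) ↔ ∀ q ≤ p, q ∈ φ → q ∈ meets N := by
  rw [mem_fimp]
  constructor
  · intro h q hq h'
    exact meets_of_dense fun r hr => h r (hr.trans hq) (hφ q h' r hr)
  · intro h q hq h'
    exact ⟨q, le_rfl, h q hq h'⟩

end

/-! ### Projections -/

section

variable {P Q : Type} [Preorder P] [Preorder Q]

/-- projections of forcing notions -/
structure Pj (π : Q → P) : Prop where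
  mono : ∀ q q' : Q, q' ≤ q → π q' ≤ π q
  lift : ∀ q, ∀ p ≤ π q, ∃ q' ≤ q, π q' ≤ p

/-- the pullback of a name -/
def pb (π : Q → P) (N : Set P) : Set Q := {q | ∃ s ∈ N, π q ≤ s}

variable {π : Q → P}

theorem down_pb (h : Pj π) (N : Set P) : Down (pb π N) := by
  rintro q ⟨s, hs, h1⟩ q' hq'
  exact ⟨s, hs, (h.mono _ _ hq').trans h1⟩

theorem mem_pb (h : Pj π) {N : Set P} {q : Q} : q ∈ meets (pb π N) ↔ π q ∈ meets N := by
  constructor
  · intro h1 p hp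
    obtain ⟨q', hq', h2⟩ := h.lift q p hp
    obtain ⟨r, hr, s, ⟨s', hs', h3⟩, h4⟩ := h1 q' hq'
    exact ⟨π r, (h.mono _ _ hr).trans h2, s', hs', (h.mono _ _ h4).trans h3⟩
  · intro h1 q' hq'
    obtain ⟨r, hr, s, hs, h2⟩ := h1 (π q') (h.mono _ _ hq')
    obtain ⟨q'', hq'', h3⟩ := h.lift q' r hr
    exact ⟨q'', hq'', q'', ⟨s, hs, h3.trans h2⟩, le_rfl⟩

theorem pj_fimp (h : Pj π) {φ ψ : Set P} {φ' ψ' : Set Q} {q : Q} (hq : π q ∈ fimp φ ψ)
    (h1 : ∀ q, q ∈ φ' → π q ∈ φ) (h2 : ∀ q, π q ∈ ψ → q ∈ ψ') (hd : Down ψ) :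
    q ∈ fimp φ' ψ' := by
  refine mem_fimp.2 fun q' hq' h3 => ?_
  obtain ⟨p, hp, h4⟩ := mem_fimp.1 hq (π q') (h.mono _ _ hq') (h1 _ h3)
  obtain ⟨q'', hq'', h5⟩ := h.lift q' p hp
  exact ⟨q'', hq'', h2 _ (hd _ h4 _ h5)⟩

theorem pj_fex (h : Pj π) {ι ι' : Sort _} {φ : ι → Set P} {φ' : ι' → Set Q} {q : Q}
    (hq : π q ∈ fex φ) (f : ι → ι')
    (h1 : ∀ i q, π q ∈ φ i → q ∈ φ' (f i)) (hd : ∀ i, Down (φ i)) :
    q ∈ fex φ' := by
  refine mem_fex.2 fun q' hq' => ?_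
  obtain ⟨p, hp, i, h2⟩ := mem_fex.1 hq (π q') (h.mono _ _ hq')
  obtain ⟨q'', hq'', h3⟩ := h.lift q' p hp
  exact ⟨q'', hq'', f i, h1 _ _ (hd i _ h2 _ h3)⟩

theorem pj_isFun (h : Pj π) {X Y : Type} {E : X → Y → Set P} {q : Q} (hq : π q ∈ IsFun E) :
    q ∈ IsFun fun x y => pb π (E x y) := by
  refine ⟨fun x => ?_, fun x y y' => ?_⟩
  · exact pj_fex h (hq.1 x) id (fun y q hq => (mem_pb h).2 hq) (fun y => down_meets _)
  · exact pj_fimp h (hq.2 x y y') (fun q hq => ⟨(mem_pb h).1 hq.1, (mem_pb h).1 hq.2⟩)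
      (fun q hq => hq) (down_fground _)

theorem pj_feqv (h : Pj π) {M N : Set P} {q : Q} (hq : π q ∈ feqv (meets M) (meets N)) :
    q ∈ feqv (meets (pb π M)) (meets (pb π N)) :=
  mem_feqv_meets.2 fun q' hq' => by
    rw [mem_pb h, mem_pb h]
    exact mem_feqv_meets.1 hq _ (h.mono _ _ hq')

end

/-! ### Mixing of names -/

section

variable {Q : Type} [Preorder Q]

theorem exists_rg (q : Q) (G : Set Q) (hG : ∀ q' ≤ q, ∃ a ≤ q', a ∈ G) :
    ∃ D : Q → Set Q, (∀ q' ≤ q, ∃ r ≤ q', ∃ a, r ∈ D a) ∧ (∀ a, ∀ r ∈ D a, r ≤ a ∧ a ∈ G) ∧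
      (∀ a, Down (D a)) ∧ ∀ a b r, r ∈ D a → r ∈ D b → a = b := by
  refine ⟨fun a => {r | a ∈ G ∧ r ≤ a ∧ ∀ a', WellOrderingRel a' a → a' ∈ G → ∀ s ≤ r, ¬ s ≤ a'},
    fun q' hq' => ?_, fun a r hr => ⟨hr.2.1, hr.1⟩, ?_, ?_⟩
  · obtain ⟨a, ha, haG⟩ := hG q' hq'
    obtain ⟨a0, ⟨h1, s, h2, h3⟩, hmin⟩ := (IsWellFounded.wf (r := WellOrderingRel (α := Q))).has_min
      {a | a ∈ G ∧ ∃ s, s ≤ q' ∧ s ≤ a} ⟨a, haG, a, ha, le_rfl⟩
    exact ⟨s, h2, a0, h1, h3, fun a' ha' ha'G t ht hta => hmin a' ⟨ha'G, t, ht.trans h2, hta⟩ ha'⟩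
  · rintro a r ⟨h1, h2, h3⟩ r' hr'
    exact ⟨h1, hr'.trans h2, fun a' ha' ha'G s hs => h3 a' ha' ha'G s (hs.trans hr')⟩
  · rintro a b r ⟨h1, h2, h3⟩ ⟨h4, h5, h6⟩
    rcases trichotomous_of WellOrderingRel a b with h | h | h
    · exact absurd h2 (h6 a h h1 r le_rfl)
    · exact h
    · exact absurd h5 (h3 b h h4 r le_rfl)

/-- the mixed name -/
def mx {X : Type} (D : Q → Set Q) (N : Q → X → Set Q) (x : X) : Set Q :=
  {r | ∃ a, r ∈ D a ∧ r ∈ meets (N a x)}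

theorem mem_mx {X : Type} {D : Q → Set Q} (hD : ∀ a, Down (D a))
    (hu : ∀ a b r, r ∈ D a → r ∈ D b → a = b) {N : Q → X → Set Q} {x : X} {a r : Q}
    (hr : r ∈ D a) : r ∈ meets (mx D N x) ↔ r ∈ meets (N a x) := by
  constructor
  · intro h
    refine meets_of_dense fun q hq => ?_
    obtain ⟨t, ht, s, ⟨b, hsb, hs⟩, hts⟩ := h q hq
    have h1 : a = b := hu a b t (hD a r hr t (ht.trans hq)) (hD b s hsb t hts)
    subst h1
    exact ⟨t, ht, meets_dn hs hts⟩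
  · intro h
    exact meets_of_mem ⟨a, hr, h⟩

/-- Mixing of ground model objects: if below each `q' ≤ q` there is a condition with a good
object, then there is a name of a good object. -/
theorem exists_name {Y : Type} (q : Q) (Ok : Q → Y → Prop) (hOk : ∀ q' ≤ q, ∃ a ≤ q', ∃ y, Ok a y)
    (hdn : ∀ a y, Ok a y → ∀ b ≤ a, Ok b y) :
    ∃ N : Y → Set Q, (∀ y, Down (N y)) ∧ (∀ q' ≤ q, ∃ r ≤ q', ∃ y, r ∈ N y) ∧
      (∀ y, ∀ r ∈ N y, Ok r y) ∧ ∀ y y' r, r ∈ N y → r ∈ N y' → y = y' := by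
  classical
  obtain ⟨D, hD1, hD2, hD3, hD4⟩ := exists_rg q {a | ∃ y, Ok a y} (fun q' hq' => by
    obtain ⟨a, ha, y, hy⟩ := hOk q' hq'
    exact ⟨a, ha, y, hy⟩)
  have h1 : ∀ a, ∃ Y' : Set Y, (∃ y, Ok a y) → ∃ y, Y' = {y} ∧ Ok a y := by
    intro a
    by_cases h : ∃ y, Ok a y
    · obtain ⟨y, hy⟩ := h
      exact ⟨{y}, fun _ => ⟨y, rfl, hy⟩⟩
    · exact ⟨∅, fun h' => absurd h' h⟩
  choose Y' hY' using h1
  refine ⟨fun y => {r | ∃ a, r ∈ D a ∧ y ∈ Y' a}, ?_, ?_, ?_, ?_⟩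
  · rintro y r ⟨a, h2, h3⟩ r' hr'
    exact ⟨a, hD3 a r h2 r' hr', h3⟩
  · intro q' hq'
    obtain ⟨r, hr, a, ha⟩ := hD1 q' hq'
    obtain ⟨y, hy, _⟩ := hY' a (hD2 a r ha).2
    exact ⟨r, hr, y, a, ha, by rw [hy]; rfl⟩
  · rintro y r ⟨a, h2, h3⟩
    obtain ⟨y', hy, h4⟩ := hY' a (hD2 a r h2).2
    rw [hy] at h3
    rw [Set.mem_singleton_iff.1 h3]
    exact hdn a y' h4 r (hD2 a r h2).1
  · rintro y y' r ⟨a, h2, h3⟩ ⟨b, h4, h5⟩
    have hab := hD4 a b r h2 h4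
    subst hab
    obtain ⟨y'', hy, _⟩ := hY' a (hD2 a r h2).2
    rw [hy] at h3 h5
    rw [Set.mem_singleton_iff.1 h3, Set.mem_singleton_iff.1 h5]

end

/-! ### Isomorphisms -/

section

variable {P Q : Type} [Preorder P] [Preorder Q]

theorem mem_iso_meets (e : Q ≃o P) {N : Set P} {q : Q} :
    q ∈ meets (e ⁻¹' N) ↔ e q ∈ meets N := by
  constructor
  · intro h p hp
    obtain ⟨r, hr, s, hs, hrs⟩ := h (e.symm p) (by rw [← e.le_iff_le]; simpa using hp)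
    exact ⟨e r, by rw [← e.symm.le_iff_le]; simpa using hr, e s, hs, e.monotone hrs⟩
  · intro h q' hq'
    obtain ⟨r, hr, s, hs, hrs⟩ := h (e q') (e.monotone hq')
    refine ⟨e.symm r, by rw [← e.le_iff_le]; simpa using hr, e.symm s, by simpa using hs, ?_⟩
    exact e.symm.monotone hrs

theorem pj_iso (e : Q ≃o P) : Pj (fun q => e q) where
  mono _ _ h := e.monotone h
  lift q p hp := ⟨e.symm p, by rw [← e.le_iff_le]; simpa using hp, by simp⟩

theorem pj_fst : Pj (fun q : P × Q => q.1) where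
  mono _ _ h := h.1
  lift q p hp := ⟨(p, q.2), ⟨hp, le_rfl⟩, le_rfl⟩

theorem pj_snd : Pj (fun q : P × Q => q.2) where
  mono _ _ h := h.2
  lift q p hp := ⟨(q.1, p), ⟨le_rfl, hp⟩, le_rfl⟩

theorem Pj.comp {R : Type} [Preorder R] {π : Q → P} {ρ : R → Q} (h : Pj π) (h' : Pj ρ) :
    Pj (fun r => π (ρ r)) where
  mono _ _ hr := h.mono _ _ (h'.mono _ _ hr)
  lift r p hp := by
    obtain ⟨q, hq, h1⟩ := h.lift (ρ r) p hp
    obtain ⟨r', hr', h2⟩ := h'.lift r q hq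
    exact ⟨r', hr', (h.mono _ _ h2).trans h1⟩

end

end Pool.Agent.H638.ST
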