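import Mathlib
import Pool.Agent.H638.ST.Base

set_option autoImplicit false
set_option linter.unusedSectionVars false
set_option linter.unusedVariables false

/-!
# The strong tree property in forcing extensions: definitions

The sentences of the forcing language are sets of conditions, see
`Pool.Graph.R_seed8.Helper669.Forcing`. A name for a subset of `Θ` is a map `Θ → Set P`; `x t` is
the set of the conditions attached to `t`, and `meets (x t)` says that `t` is an element.
-/

namespace Pool.Agent.H638.ST

open Set Cardinal Pool.Agent.Helper669.Forcing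

section

variable {P : Type} [Preorder P] {Θ : Type}

variable (P) in
/-- names for subsets of `Θ` -/
abbrev Nm (Θ : Type) : Type := Θ → Set P

/-- `x ⊆ y` -/
def fsub (x y : Nm P Θ) : Set P := fall fun t => fimp (meets (x t)) (meets (y t))

/-- `x = y` -/
def feq (x y : Nm P Θ) : Set P := fand (fsub x y) (fsub y x)

/-- `x ∩ y` -/
def ninter (x y : Nm P Θ) : Nm P Θ := fun t => fand (meets (x t)) (meets (y t))

/-- `x` has less than `κ` elements: for some cardinal `ν < κ` there is a function on `ν` whose
range contains `x` -/
def SmallN (κ : Cardinal.{0}) (x : Nm P Θ) : Set P :=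
  fex fun ν : Cardinal.{0} => fand (fground (ν < κ)) (fex fun f : ν.out → Θ → Set P =>
    fand (IsFun f) (fall fun t => fimp (meets (x t)) (fex fun i => meets (f i t))))

/-- `d` is a `P_κ(Θ)`-list: it assigns to each subset `x` of `Θ` with less than `κ` elements a
subset of `x`. -/
def IsList (κ : Cardinal.{0}) (d : Nm P Θ → Nm P Θ) : Set P :=
  fand
    (fall fun x : Nm P Θ => fall fun y : Nm P Θ =>
      fimp (fand (SmallN κ x) (fand (SmallN κ y) (feq x y))) (feq (d x) (d y)))
    (fall fun x : Nm P Θ => fimp (SmallN κ x) (fsub (d x) x))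

/-- `C` is a closed unbounded subset of `P_κ(Θ)`; `meets (C x)` says that `x` is in `C`. -/
def IsClubN (κ : Cardinal.{0}) (C : Nm P Θ → Set P) : Set P :=
  fand
    (fall fun x : Nm P Θ => fall fun y : Nm P Θ =>
      fimp (fand (fand (SmallN κ x) (SmallN κ y)) (fand (feq x y) (meets (C x)))) (meets (C y)))
  (fand
    (fall fun x : Nm P Θ => fimp (SmallN κ x) (fex fun y : Nm P Θ =>
      fand (SmallN κ y) (fand (fsub x y) (meets (C y)))))
    (fall fun I : Type => fall fun _ : LinearOrder I => fall fun _ : WellFoundedLT I =>
      fall fun _ : Nonempty I => fall fun _ : #I < κ => fall fun X : I → Nm P Θ =>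
      fimp (fand (fall fun i : I => fand (SmallN κ (X i)) (meets (C (X i))))
          (fall fun i : I => fall fun j : I => fall fun _ : i ≤ j => fsub (X i) (X j)))
        (meets (C fun t => fex fun i => meets (X i t)))))

/-- The list `d` is thin: for the `y` in a closed unbounded set there are less than `κ` sets
`d x ∩ y` with `y ⊆ x`. -/
def ThinN (κ : Cardinal.{0}) (d : Nm P Θ → Nm P Θ) : Set P :=
  fex fun C : Nm P Θ → Set P => fand (IsClubN κ C)
    (fall fun y : Nm P Θ => fimp (fand (SmallN κ y) (meets (C y)))
      (fex fun ν : Cardinal.{0} => fand (fground (ν < κ)) (fex fun F : ν.out → Nm P Θ =>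
        fall fun x : Nm P Θ => fimp (fand (SmallN κ x) (fsub y x))
          (fex fun i => feq (ninter (d x) y) (F i)))))

/-- `b` is a cofinal branch of the list `d`. -/
def BranchN (κ : Cardinal.{0}) (d : Nm P Θ → Nm P Θ) (b : Nm P Θ) : Set P :=
  fall fun x : Nm P Θ => fimp (SmallN κ x) (fex fun z : Nm P Θ =>
    fand (SmallN κ z) (fand (fsub x z) (feq (ninter (d z) x) (ninter b x))))

variable (P) in
/-- In the extension `κ` has the strong tree property: for every set `Θ` every thin
`P_κ(Θ)`-list has a cofinal branch. -/
def StrongTP (κ : Cardinal.{0}) : Set P :=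
  fall fun Θ : Type => fall fun d : Nm P Θ → Nm P Θ =>
    fimp (fand (IsList κ d) (ThinN κ d)) (fex fun b : Nm P Θ => BranchN κ d b)

variable (P) in
/-- In the extension the ordinal `c` is an infinite cardinal. -/
def IsCardIn (c : Ordinal.{0}) : Set P :=
  fand (fground (Ordinal.omega0 ≤ c)) (fall fun b : Ordinal.{0} => fall fun _ : b < c =>
    fnot (fex fun f : b.ToType → c.ToType → Set P => fand (IsFun f) (IsOnto f)))

variable (P) in
/-- In the extension the ordinal `c` is a regular infinite cardinal. -/
def IsRegIn (c : Ordinal.{0}) : Set P :=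
  fand (IsCardIn P c) (fall fun b : Ordinal.{0} => fall fun _ : b < c =>
    fall fun f : b.ToType → c.ToType → Set P => fimp (IsFun f)
      (fex fun d : c.ToType => fall fun i : b.ToType => fall fun v : c.ToType =>
        fimp (meets (f i v)) (fground (v ≤ d))))

variable (P) in
/-- In the extension `c = ℵ_β`: `c` is an infinite cardinal, and there is a strictly increasing
function from `β` onto the set of the infinite cardinals below `c`. -/
def IsAlephIn (β c : Ordinal.{0}) : Set P :=
  fand (IsCardIn P c) (fex fun f : β.ToType → c.ToType → Set P =>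
    fand (IsFun f)
    (fand (fall fun i : β.ToType => fall fun j : β.ToType => fall fun _ : i < j =>
        fall fun v : c.ToType => fall fun w : c.ToType =>
        fimp (fand (meets (f i v)) (meets (f j w))) (fground (v < w)))
    (fand (fall fun i : β.ToType => fall fun v : c.ToType =>
        fimp (meets (f i v)) (IsCardIn P v.toOrd.1))
      (fall fun v : c.ToType => fimp (IsCardIn P v.toOrd.1)
        (fex fun i => meets (f i v))))))

end

/-! ### Large cardinals -/

/-- `P_κ(X)` -/
abbrev Pk (κ : Cardinal.{0}) (X : Type) : Type := {s : Set X // #s < κ}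

section

variable {Q : Type} [Preorder Q]

/-- In the extension: `U` is a `κ`-complete ultrafilter on `X`. -/
def IsUfn (κ : Cardinal.{0}) {X : Type} (U : (X → Set Q) → Set Q) : Set Q :=
  fand (fall fun A : X → Set Q => fall fun A' : X → Set Q =>
    fimp (fand (meets (U A)) (fall fun a : X => fimp (meets (A a)) (meets (A' a))))
      (meets (U A')))
  (fand (fall fun A : X → Set Q => for' (meets (U A)) (meets (U fun a => fnot (meets (A a)))))
  (fand (fnot (meets (U fun _ => fground False)))
    (fall fun I : Type => fall fun _ : #I < κ => fall fun A : I → X → Set Q =>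
      fimp (fall fun i : I => meets (U (A i)))
        (meets (U fun a => fall fun i : I => meets (A i a))))))

/-- In the extension: `U` is a normal fine `κ`-complete ultrafilter on `P_κ(X)`. (This is used
for extensions by `κ`-directed closed forcing, which have the same `P_κ(X)` as the ground model.)
Normality: if for almost all `s` there is an `x ∈ s` with `g s x`, then there is an `x` such that
`g s x` for almost all `s`. -/
def IsNuf (κ : Cardinal.{0}) {X : Type} (U : (Pk κ X → Set Q) → Set Q) : Set Q :=
  fand (IsUfn κ U)
  (fand (fall fun x : X => meets (U fun s => fground (x ∈ s.1)))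
    (fall fun g : Pk κ X → X → Set Q =>
      fimp (meets (U fun s => fex fun x : X => fand (fground (x ∈ s.1)) (meets (g s x))))
        (fex fun x : X => meets (U fun s => meets (g s x)))))

end

/-- `κ` is an indestructibly supercompact cardinal: in all extensions by `κ`-directed closed
forcing there are normal fine `κ`-complete ultrafilters on all `P_κ(X)`. -/
def Isu (κ : Cardinal.{0}) : Prop :=
  κ.IsInaccessible ∧ ∀ (Q : Type) [Preorder Q], DCL κ Q → ∀ (X : Type) (q : Q),
    q ∈ fex fun U : (Pk κ X → Set Q) → Set Q => IsNuf κ U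

/-! ### Collapsing -/

/-- Partial functions `f` with less than `σ` elements from `X` to `Y`, with `f x ∈ B x`. -/
structure Pf (X Y : Type) (B : X → Set Y) (σ : Cardinal.{0}) where
  f : X → Option Y
  small : #{x : X // f x ≠ none} < σ
  mem : ∀ x y, f x = some y → y ∈ B x

instance {X Y : Type} {B : X → Set Y} {σ : Cardinal.{0}} : Preorder (Pf X Y B σ) where
  le q p := ∀ x y, p.f x = some y → q.f x = some y
  le_refl p x y h := h
  le_trans p q r h h' x y h'' := h x y (h' x y h'')

theorem Pf.le_def {X Y : Type} {B : X → Set Y} {σ : Cardinal.{0}} {q p : Pf X Y B σ} :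
    q ≤ p ↔ ∀ x y, p.f x = some y → q.f x = some y := Iff.rfl

/-- the collapse of `μ` to `γ` -/
abbrev Cg (γ μ : Cardinal.{0}) : Type :=
  Pf γ.ord.ToType μ.ord.ToType (fun _ => univ) γ

/-- the Levy collapse `Col(σ, <κ)` -/
abbrev Lv (σ κ : Cardinal.{0}) : Type :=
  Pf (κ.ord.ToType × σ.ord.ToType) κ.ord.ToType (fun x => Iio x.1) σ

section

variable {G : Type} [LinearOrder G]

/-- the supremum of `k` and the `κ i`, `i < j` -/
noncomputable def nu (k : Cardinal.{0}) (κ : G → Cardinal.{0}) (j : G) : Cardinal.{0} :=
  max k (⨆ i : Iio j, κ i.1)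

/-- the coordinate `j` of the product of Levy collapses -/
abbrev Ec (k : Cardinal.{0}) (κ : G → Cardinal.{0}) (j : G) : Type :=
  Lv (Order.succ (nu k κ j)) (κ j)

/-- the product of Levy collapses, with full support -/
abbrev EE (k : Cardinal.{0}) (κ : G → Cardinal.{0}) : Type := ∀ j : G, Ec k κ j

end

/-- the successor of `lam` as a type -/
abbrev Kl (lam : Cardinal.{0}) : Type := (Order.succ lam).ord.ToType

/-- `lam` as a type -/
abbrev Ll (lam : Cardinal.{0}) : Type := lam.ord.ToType

/-- families of at most `lam` elements are bounded -/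
def Bd (lam : Cardinal.{0}) (K : Type) [LT K] : Prop :=
  ∀ (ι : Type) (f : ι → K), #ι ≤ lam → ∃ b, ∀ i, f i < b

/-- the sequences of cardinals of one block -/
structure Sq (γ k : Cardinal.{0}) (κ : γ.ord.ToType → Cardinal.{0}) : Prop where
  reg : γ.IsRegular
  lt : γ < k
  isuk : Isu k
  isu : ∀ i, Isu (κ i)
  k_lt : ∀ i, k < κ i
  mono : StrictMono κ

/-! ### Coherent families, trees, systems -/

section

variable {Q : Type} [Preorder Q]

/-- subsets of `Θ` with at most `lam` elements -/
abbrev Sm (lam : Cardinal.{0}) (Θ : Type) : Type := {x : Set Θ // #x ≤ lam}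

/-- In the extension: for each subset `x` (of the ground model) of `Θ` with at most `lam` elements
there are given at most `lam` subsets `F x ξ` of `x`, and for `x ⊆ y` the set `F y ζ ∩ x` is one
of the `F x ξ`. -/
def CohFam (lam : Cardinal.{0}) {Θ : Type} (F : Sm lam Θ → Ll lam → Nm Q Θ) : Set Q :=
  fall fun x : Sm lam Θ => fall fun y : Sm lam Θ => fall fun _ : x.1 ⊆ y.1 =>
    fall fun ζ : Ll lam => fex fun ξ : Ll lam => fall fun t : Θ => fall fun _ : t ∈ x.1 =>
      feqv (meets (F x ξ t)) (meets (F y ζ t))

/-- In the extension: `b` is a branch of the coherent family, that is, each `b ∩ x` is one of the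
`F x ξ`. -/
def CBr (lam : Cardinal.{0}) {Θ : Type} (F : Sm lam Θ → Ll lam → Nm Q Θ) (b : Nm Q Θ) : Set Q :=
  fall fun x : Sm lam Θ => fex fun ξ : Ll lam => fall fun t : Θ => fall fun _ : t ∈ x.1 =>
    feqv (meets (F x ξ t)) (meets (b t))

/-- In the extension: `E α ξ β ζ` says, for `α ≤ β`, that the node `(α, ξ)` is the restriction of
the node `(β, ζ)` to the level `α`. -/
def IsTr {K W : Type} [LinearOrder K] (E : K → W → K → W → Set Q) : Set Q :=
  fand
    (fall fun α : K => fall fun β : K => fall fun _ : α ≤ β => fall fun ζ : W =>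
      fex fun ξ : W => meets (E α ξ β ζ))
    (fall fun α : K => fall fun β : K => fall fun δ : K => fall fun _ : α ≤ β =>
      fall fun _ : β ≤ δ => fall fun ξ : W => fall fun ζ : W => fall fun υ : W =>
      fimp (fand (meets (E α ξ δ υ)) (meets (E β ζ δ υ))) (meets (E α ξ β ζ)))

/-- In the extension: `B` is a cofinal branch of `E`. -/
def IsCb {K W : Type} [LinearOrder K] (E : K → W → K → W → Set Q) (B : K → W → Set Q) : Set Q :=
  fand
    (fall fun α : K => fex fun β : K => fand (fground (α ≤ β)) (fex fun ξ : W => meets (B β ξ)))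
    (fall fun α : K => fall fun β : K => fall fun _ : α ≤ β => fall fun ξ : W =>
      fall fun ζ : W => fimp (fand (meets (B α ξ)) (meets (B β ζ))) (meets (E α ξ β ζ)))

/-- In the extension: a system of relations. -/
def IsSy {K W I : Type} [LinearOrder K] (R : I → K → W → K → W → Set Q) : Set Q :=
  fand
    (fall fun α : K => fall fun β : K => fall fun _ : α ≤ β =>
      fex fun l : I => fex fun ξ : W => fex fun ζ : W => meets (R l α ξ β ζ))
    (fall fun l : I => fall fun α : K => fall fun β : K => fall fun δ : K =>
      fall fun _ : α ≤ β => fall fun _ : β ≤ δ => fall fun ξ : W => fall fun ζ : W =>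
      fall fun υ : W => fimp (fand (meets (R l α ξ δ υ)) (meets (R l β ζ δ υ)))
        (meets (R l α ξ β ζ)))

/-- In the extension: `E` has a cofinal branch. -/
def HasCb {K W : Type} [LinearOrder K] (E : K → W → K → W → Set Q) : Set Q :=
  fex fun B : K → W → Set Q => IsCb E B

end

end Pool.Agent.H638.ST
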