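import Mathlib
import Pool.Agent.H638.ST.Defs

set_option autoImplicit false
set_option linter.unusedSectionVars false
set_option linter.unusedVariables false

namespace Pool.Agent.H638.ST

open Set Cardinal Pool.Agent.Helper669.Forcing

/-! # Facts on `Pf` (conditions that are small functions) -/

section

variable {X Y : Type} {B : X → Set Y} {σ : Cardinal.{0}}

/-- The union of a decreasing family, with its values. -/
theorem exists_union (hσ : σ.IsRegular) {J : Type} (hJ : #J < σ) (M : J → Pf X Y B σ)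
    (hM : ∀ i j x y z, (M i).f x = some y → (M j).f x = some z → y = z) :
    ∃ p : Pf X Y B σ, (∀ j, p ≤ M j) ∧ ∀ x, p.f x ≠ none → ∃ j, p.f x = (M j).f x := by
  classical
  let g : X → Option Y := fun x => if h : ∃ j, (M j).f x ≠ none then (M h.choose).f x else none
  have hg : ∀ x, g x ≠ none → ∃ j, g x = (M j).f x := by
    intro x hx
    by_cases h : ∃ j, (M j).f x ≠ none
    · exact ⟨h.choose, dif_pos h⟩
    · exact absurd (dif_neg h) hx
  have hg2 : ∀ j x y, (M j).f x = some y → g x = some y := by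
    intro j x y hy
    have h : ∃ j, (M j).f x ≠ none := ⟨j, by rw [hy]; exact Option.some_ne_none y⟩
    have h1 : g x = (M h.choose).f x := dif_pos h
    obtain ⟨z, hz⟩ := Option.ne_none_iff_exists'.1 h.choose_spec
    rw [h1, hz, hM _ _ x z y hz hy]
  have hsm : #{x : X // g x ≠ none} < σ := by
    have h1 : ∀ a : {x : X // g x ≠ none}, ∃ j, (M j).f a.1 ≠ none := by
      intro a
      obtain ⟨j, hj⟩ := hg a.1 a.2
      exact ⟨j, by rw [← hj]; exact a.2⟩
    choose t ht using h1
    have h2 : #{x : X // g x ≠ none} ≤ #(Σ j : J, {x : X // (M j).f x ≠ none}) := by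
      refine mk_le_of_injective (f := fun a => ⟨t a, ⟨a.1, ht a⟩⟩) ?_
      intro a b hab
      have h3 := congrArg (fun c : (Σ j : J, {x : X // (M j).f x ≠ none}) => c.2.1) hab
      exact Subtype.ext h3
    refine h2.trans_lt ?_
    rw [mk_sigma]
    exact sum_lt_of_isRegular hσ hJ fun j => (M j).small
  refine ⟨⟨g, hsm, ?_⟩, fun j x y hy => hg2 j x y hy, hg⟩
  intro x y hxy
  obtain ⟨j, hj⟩ := hg x (by rw [hxy]; exact Option.some_ne_none y)
  exact (M j).mem x y (by rw [← hj]; exact hxy)

/-- directed families of less than `σ` conditions have lower bounds (unions) -/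
theorem dcl_pf (hσ : σ.IsRegular) : DCL σ (Pf X Y B σ) := by
  intro ι D hι hne hd
  obtain ⟨p, hp, _⟩ := exists_union hσ hι D (by
    intro i j x y z hy hz
    obtain ⟨k, h1, h2⟩ := hd i j
    have h3 := h1 x y hy
    have h4 := h2 x z hz
    rw [h3] at h4
    exact Option.some.inj h4)
  exact ⟨p, hp⟩

theorem dc_pf {ν : Cardinal.{0}} (hσ : σ.IsRegular) (h : ν < σ) : DC ν (Pf X Y B σ) :=
  (dcl_pf hσ).dc h

/-- small domains of glued functions -/
theorem pfL_small (hσ : ℵ₀ ≤ σ) {g : X → Option Y} {S T : Set X} (hS : #S < σ) (hT : #T < σ)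
    (h : ∀ x, g x ≠ none → x ∈ S ∨ x ∈ T) : #{x : X // g x ≠ none} < σ := by
  have h1 : #{x : X // g x ≠ none} ≤ #(S ∪ T : Set X) :=
    mk_subtype_le_of_subset fun x hx => h x hx
  exact (h1.trans (mk_union_le S T)).trans_lt (add_lt_of_lt hσ hS hT)

/-- two conditions which agree where both are defined -/
theorem exists_join (hσ : ℵ₀ ≤ σ) (p q : Pf X Y B σ)
    (h : ∀ x y z, p.f x = some y → q.f x = some z → y = z) :
    ∃ r : Pf X Y B σ, r ≤ p ∧ r ≤ q ∧ ∀ x, r.f x ≠ none → r.f x = p.f x ∨ r.f x = q.f x := by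
  classical
  let g : X → Option Y := fun x => if p.f x ≠ none then p.f x else q.f x
  have hg : ∀ x, g x = p.f x ∨ g x = q.f x := by
    intro x
    by_cases h1 : p.f x ≠ none
    · exact Or.inl (if_pos h1)
    · exact Or.inr (if_neg h1)
  have hsm : #{x : X // g x ≠ none} < σ := by
    refine pfL_small hσ (S := {x | p.f x ≠ none}) (T := {x | q.f x ≠ none}) p.small q.small ?_
    intro x hx
    rcases hg x with h1 | h1
    · left; show p.f x ≠ none; rw [← h1]; exact hx
    · right; show q.f x ≠ none; rw [← h1]; exact hx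
  refine ⟨⟨g, hsm, ?_⟩, ?_, ?_, fun x _ => hg x⟩
  · intro x y hxy
    rcases hg x with h1 | h1
    · exact p.mem x y (by rw [← h1]; exact hxy)
    · exact q.mem x y (by rw [← h1]; exact hxy)
  · intro x y hy
    show g x = some y
    have h1 : p.f x ≠ none := by rw [hy]; exact Option.some_ne_none y
    exact (if_pos h1).trans hy
  · intro x y hy
    show g x = some y
    by_cases h1 : p.f x ≠ none
    · obtain ⟨z, hz⟩ := Option.ne_none_iff_exists'.1 h1
      have h2 : g x = p.f x := if_pos h1
      rw [h2, hz, h x z y hz hy]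
    · exact (if_neg h1).trans hy

/-- adding one value -/
theorem exists_ext_at (hσ : ℵ₀ ≤ σ) (p : Pf X Y B σ) (x : X) (y : Y) (hx : p.f x = none)
    (hy : y ∈ B x) : ∃ q ≤ p, q.f x = some y := by
  classical
  let g : X → Option Y := Function.update p.f x (some y)
  have hg1 : g x = some y := Function.update_self _ _ _
  have hg2 : ∀ z, z ≠ x → g z = p.f z := fun z hz => Function.update_of_ne hz _ _
  have hsm : #{x : X // g x ≠ none} < σ := by
    refine pfL_small hσ (S := {x | p.f x ≠ none}) (T := {x}) p.small ?_ ?_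
    · rw [mk_singleton]; exact one_lt_aleph0.trans_le hσ
    · intro z hz
      by_cases h : z = x
      · right; exact h
      · left; show p.f z ≠ none; rw [← hg2 z h]; exact hz
  refine ⟨⟨g, hsm, ?_⟩, ?_, hg1⟩
  · intro z w hw
    by_cases h : z = x
    · subst h
      rw [hg1] at hw
      rw [← Option.some.inj hw]; exact hy
    · exact p.mem z w (by rw [← hg2 z h]; exact hw)
  · intro z w hw
    show g z = some w
    by_cases h : z = x
    · subst h; rw [hx] at hw; exact absurd hw (by simp)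
    · rw [hg2 z h, hw]

/-- adding values on a small set -/
theorem exists_ext_set (hσ : ℵ₀ ≤ σ) (p : Pf X Y B σ) (A : Set X) (hA : #A < σ)
    (hB : ∀ x ∈ A, (B x).Nonempty) : ∃ q ≤ p, ∀ x ∈ A, q.f x ≠ none := by
  classical
  let g : X → Option Y := fun x => if p.f x ≠ none then p.f x else
    if h : x ∈ A then some (hB x h).choose else none
  have hg1 : ∀ x, p.f x ≠ none → g x = p.f x := fun x hx => if_pos hx
  have hg2 : ∀ x, ¬ p.f x ≠ none → g x = if h : x ∈ A then some (hB x h).choose else none :=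
    fun x hx => if_neg hx
  have hsm : #{x : X // g x ≠ none} < σ := by
    refine pfL_small hσ (S := {x | p.f x ≠ none}) (T := A) p.small hA ?_
    intro x hx
    by_cases h1 : p.f x ≠ none
    · left; exact h1
    · right
      rw [hg2 x h1] at hx
      by_contra h2
      rw [dif_neg h2] at hx
      exact hx rfl
  refine ⟨⟨g, hsm, ?_⟩, ?_, ?_⟩
  · intro x y hxy
    by_cases h1 : p.f x ≠ none
    · exact p.mem x y (by rw [← hg1 x h1]; exact hxy)
    · rw [hg2 x h1] at hxy
      by_cases h2 : x ∈ A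
      · rw [dif_pos h2] at hxy
        rw [← Option.some.inj hxy]
        exact (hB x h2).choose_spec
      · rw [dif_neg h2] at hxy
        exact absurd hxy (by simp)
  · intro x y hy
    show g x = some y
    rw [hg1 x (by rw [hy]; exact Option.some_ne_none y), hy]
  · intro x hx
    show g x ≠ none
    by_cases h1 : p.f x ≠ none
    · rw [hg1 x h1]; exact h1
    · rw [hg2 x h1, dif_pos hx]; exact Option.some_ne_none _

/-- subsets of size less than `σ` -/
theorem pfL_mk_small {χ : Cardinal.{0}} {Z : Type} (h0 : ℵ₀ ≤ χ) (hZ : #Z ≤ χ)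
    (hpow : ∀ ν < σ, χ ^ ν ≤ χ) : #{t : Set Z // #t < σ} ≤ χ := by
  have hσχ : σ ≤ χ := by
    by_contra hlt
    push Not at hlt
    have h1 := hpow χ hlt
    have h2 : χ < χ ^ χ := (cantor χ).trans_le
      (power_le_power_right ((natCast_lt_aleph0 (n := 2)).le.trans h0))
    exact absurd (h2.trans_le h1) (lt_irrefl _)
  have hcov : (Set.univ : Set {t : Set Z // #t < σ}) ⊆
      ⋃ a : σ.ord.ToType, {t | #t.1 ≤ #(Iio a)} := by
    intro t _
    have h1 : (#t.1).ord < σ.ord := ord_lt_ord.2 t.2
    have h2 : (#t.1).ord < Ordinal.type (α := σ.ord.ToType) (· < ·) := by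
      rw [Ordinal.type_toType]; exact h1
    obtain ⟨a, ha⟩ : ∃ a : σ.ord.ToType,
        Ordinal.typein (α := σ.ord.ToType) (· < ·) a = (#t.1).ord :=
      Ordinal.typein_surj (· < ·) h2
    refine mem_iUnion.2 ⟨a, ?_⟩
    have h4 : #(Iio a) = #t.1 := by
      have h5 := congrArg Ordinal.card ha
      rw [card_ord] at h5
      rw [← h5]
      rfl
    show #t.1 ≤ #(Iio a)
    exact h4.ge
  calc #{t : Set Z // #t < σ} = #(Set.univ : Set {t : Set Z // #t < σ}) := mk_univ.symm
    _ ≤ #(⋃ a : σ.ord.ToType, {t : {t : Set Z // #t < σ} | #t.1 ≤ #(Iio a)}) :=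
        mk_le_mk_of_subset hcov
    _ ≤ Cardinal.sum fun a : σ.ord.ToType => #{t : {t : Set Z // #t < σ} | #t.1 ≤ #(Iio a)} :=
        mk_iUnion_le_sum_mk
    _ ≤ Cardinal.sum fun _ : σ.ord.ToType => χ := by
        refine sum_le_sum _ _ fun a => ?_
        have h1 : #{t : {t : Set Z // #t < σ} | #t.1 ≤ #(Iio a)} ≤ #{t : Set Z // #t ≤ #(Iio a)} := by
          refine mk_le_of_injective (f := fun t => ⟨t.1.1, t.2⟩) ?_
          intro s t hst
          have := congrArg (fun c : {t : Set Z // #t ≤ #(Iio a)} => c.1) hst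
          exact Subtype.ext (Subtype.ext this)
        have h2 : #(Iio a) < σ := by simpa using mk_Iio_lt a
        refine (h1.trans (mk_bounded_set_le Z _)).trans ?_
        exact (power_le_power_right (max_le hZ h0)).trans (hpow _ h2)
    _ = #σ.ord.ToType * χ := by rw [sum_const']
    _ ≤ χ * χ := by
        gcongr
        rw [mk_ord_toType]; exact hσχ
    _ = χ := mul_eq_self h0

/-- the number of conditions -/
theorem mk_pf_le {χ : Cardinal.{0}} (h0 : ℵ₀ ≤ χ) (hX : #X ≤ χ) (hY : #Y ≤ χ)
    (hpow : ∀ ν < σ, χ ^ ν ≤ χ) : #(Pf X Y B σ) ≤ χ := by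
  have h1 : #(Pf X Y B σ) ≤ #{t : Set (X × Y) // #t < σ} := by
    have hs : ∀ p : Pf X Y B σ, #({c : X × Y | p.f c.1 = some c.2} : Set (X × Y)) < σ := by
      intro p
      refine lt_of_le_of_lt ?_ p.small
      refine mk_le_of_injective (f := fun c => ⟨c.1.1, by
        have h2 : p.f c.1.1 = some c.1.2 := c.2
        rw [h2]; exact Option.some_ne_none _⟩) ?_
      intro c d hcd
      have h3 : c.1.1 = d.1.1 := congrArg (fun e : {x : X // p.f x ≠ none} => e.1) hcd
      have hc : p.f c.1.1 = some c.1.2 := c.2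
      have hd : p.f d.1.1 = some d.1.2 := d.2
      rw [h3, hd] at hc
      exact Subtype.ext (Prod.ext h3 (Option.some.inj hc).symm)
    refine mk_le_of_injective (f := fun p => ⟨{c | p.f c.1 = some c.2}, hs p⟩) ?_
    intro p q hpq
    have h2 : ({c : X × Y | p.f c.1 = some c.2} : Set (X × Y)) = {c | q.f c.1 = some c.2} :=
      congrArg (fun e : {t : Set (X × Y) // #t < σ} => e.1) hpq
    have h3 : p.f = q.f := by
      funext x
      refine Option.ext fun y => ?_
      have h4 : ((x, y) ∈ ({c : X × Y | p.f c.1 = some c.2} : Set (X × Y))) ↔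
          ((x, y) ∈ ({c : X × Y | q.f c.1 = some c.2} : Set (X × Y))) := by rw [h2]
      exact h4
    cases p; cases q; cases h3; rfl
  refine h1.trans (pfL_mk_small h0 ?_ hpow)
  rw [mk_prod, lift_id, lift_id]
  calc #X * #Y ≤ χ * χ := by gcongr
    _ = χ := mul_eq_self h0

end

theorem mk_cg_le {γ μ : Cardinal.{0}} (h0 : ℵ₀ ≤ μ) (hγ : γ ≤ μ) (h : ∀ ν < γ, μ ^ ν ≤ μ) :
    #(Cg γ μ) ≤ μ :=
  mk_pf_le h0 (by rw [mk_ord_toType]; exact hγ) (by rw [mk_ord_toType]) h

/-- powers below an inaccessible cardinal -/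
theorem inacc_pow {κ ν : Cardinal.{0}} (hκ : κ.IsInaccessible) (h : ν < κ) : κ ^ ν ≤ κ := by
  rcases eq_or_ne ν 0 with rfl | hν
  · rw [power_zero]; exact (one_lt_aleph0.trans hκ.aleph0_lt).le
  induction κ using Cardinal.inductionOn with | _ α
  induction ν using Cardinal.inductionOn with | _ β
  have hprod : #(β × α) = #α := by
    rw [mk_prod, lift_id, lift_id]
    exact mul_eq_right hκ.aleph0_lt.le h.le hν
  have hcof : (#α).ord.cof = #α := hκ.isRegular.cof_ord
  have h1 : #(β → α) ≤ #{s : Set (β × α) // #s < (#(β × α)).ord.cof} := by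
    have hs : ∀ g : β → α, #({c : β × α | g c.1 = c.2} : Set (β × α)) < (#(β × α)).ord.cof := by
      intro g
      rw [hprod, hcof]
      refine lt_of_le_of_lt ?_ h
      refine mk_le_of_injective (f := fun c => c.1.1) ?_
      intro c d hcd
      have hc : g c.1.1 = c.1.2 := c.2
      have hd : g d.1.1 = d.1.2 := d.2
      have h3 : c.1.1 = d.1.1 := hcd
      rw [h3, hd] at hc
      exact Subtype.ext (Prod.ext h3 hc.symm)
    refine mk_le_of_injective (f := fun g => ⟨{c | g c.1 = c.2}, hs g⟩) ?_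
    intro g k hgk
    have h2 : ({c : β × α | g c.1 = c.2} : Set (β × α)) = {c | k c.1 = c.2} :=
      congrArg (fun e : {t : Set (β × α) // #t < (#(β × α)).ord.cof} => e.1) hgk
    funext b
    have h4 : ((b, g b) ∈ ({c : β × α | g c.1 = c.2} : Set (β × α))) := rfl
    rw [h2] at h4
    exact h4.symm
  rw [mk_subset_mk_lt_cof (by rw [hprod]; exact hκ.isStrongPrelimit), hprod] at h1
  rw [power_def]
  exact h1

theorem mk_lv_le {μ κ : Cardinal.{0}} (hκ : κ.IsInaccessible) (h : μ < κ) :
    #(Lv (Order.succ μ) κ) ≤ κ := by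
  have h0 : ℵ₀ ≤ κ := hκ.aleph0_lt.le
  refine mk_pf_le h0 ?_ (by rw [mk_ord_toType]) ?_
  · rw [mk_prod, lift_id, lift_id, mk_ord_toType, mk_ord_toType]
    calc κ * Order.succ μ ≤ κ * κ := by
          gcongr
          exact Order.succ_le_of_lt h
      _ = κ := mul_eq_self h0
  · intro ν hν
    exact inacc_pow hκ ((Order.lt_succ_iff.1 hν).trans_lt h)

theorem dc_lv {μ κ : Cardinal.{0}} (h0 : ℵ₀ ≤ μ) : DC μ (Lv (Order.succ μ) κ) :=
  dc_pf (isRegular_succ h0) (Order.lt_succ μ)

end Pool.Agent.H638.ST
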