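import Mathlib
import Pool.Agent.H638.ST.Pf

set_option autoImplicit false
set_option linter.unusedSectionVars false
set_option linter.unusedVariables false

namespace Pool.Agent.H638.ST

open Set Cardinal Pool.Agent.Helper669.Forcing

/-! # Names of complete ultrafilters, roots of functions into `Pf` -/

section

variable {H X : Type} [Preorder H] {κ : Cardinal.{0}} {U : (X → Set H) → Set H} {q r : H}

theorem ufn_mono (h : q ∈ IsUfn κ U) (hr : r ≤ q) {A A' : X → Set H} (hA : r ∈ meets (U A))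
    (hs : ∀ a, ∀ r' ≤ r, r' ∈ meets (A a) → ∃ r'' ≤ r', r'' ∈ meets (A' a)) :
    r ∈ meets (U A') :=
  meets_of_dense fun q' hq' => mem_fimp.1 (h.1 A A') q' (hq'.trans hr)
    ⟨meets_dn hA hq', fun a => mem_fimp.2 fun s hs' h' => hs a s (hs'.trans hq') h'⟩

theorem ufn_ultra (h : q ∈ IsUfn κ U) (hr : r ≤ q) (A : X → Set H) :
    ∃ r' ≤ r, r' ∈ meets (U A) ∨ r' ∈ meets (U fun a => fnot (meets (A a))) :=
  for'_elim (down_for' _ _ _ (h.2.1 A) _ hr)

theorem ufn_ne (h : q ∈ IsUfn κ U) (hr : r ≤ q) {A : X → Set H} (hA : r ∈ meets (U A)) :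
    ∃ r' ≤ r, ∃ a, r' ∈ meets (A a) := by
  by_contra hcon
  push Not at hcon
  exact h.2.2.1 r hr (ufn_mono h hr hA fun a r' hr' h' => absurd h' (hcon r' hr' a))

theorem ufn_inter (h : q ∈ IsUfn κ U) (hr : r ≤ q) {I : Type} (hI : #I < κ)
    (A : I → X → Set H) (hA : ∀ i, r ∈ meets (U (A i))) :
    r ∈ meets (U fun a => fall fun i : I => meets (A i a)) :=
  meets_of_dense fun q' hq' => mem_fimp.1 (h.2.2.2 I hI A) q' (hq'.trans hr)
    fun i => meets_dn (hA i) hq'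

theorem uf_meets_fall {ι : Sort*} {N : ι → Set H} :
    r ∈ meets (fall fun i => meets (N i)) ↔ ∀ i, r ∈ meets (N i) :=
  mem_meets_reg (down_fall fun i => down_meets _) (reg_fall fun i => reg_meets _)

theorem uf_meets_fand {M N : Set H} :
    r ∈ meets (fand (meets M) (meets N)) ↔ r ∈ meets M ∧ r ∈ meets N :=
  mem_meets_reg (down_fand (down_meets _) (down_meets _)) (reg_fand (reg_meets _) (reg_meets _))

theorem uf_meets_fnot {N : Set H} : r ∈ meets (fnot (meets N)) ↔ r ∈ fnot (meets N) :=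
  mem_meets_reg (down_fnot _) (reg_fnot (down_meets _))

theorem uf_meets_fex {ι : Sort*} {φ : ι → Set H} : r ∈ meets (fex φ) ↔ r ∈ fex φ :=
  mem_meets_reg (down_fnot _) (reg_fex _)

theorem ufn_all (h : q ∈ IsUfn κ U) (hr : r ≤ q) {A : X → Set H}
    (hA : ∀ a, r ∈ meets (A a)) : r ∈ meets (U A) := by
  refine meets_of_dense fun r1 hr1 => ?_
  obtain ⟨r2, hr2, h2 | h2⟩ := ufn_ultra h (hr1.trans hr) A
  · exact ⟨r2, hr2, h2⟩
  · exfalso
    obtain ⟨r3, hr3, a, h3⟩ := ufn_ne h (hr2.trans (hr1.trans hr)) h2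
    exact uf_meets_fnot.1 h3 r3 le_rfl (meets_dn (hA a) (hr3.trans (hr2.trans hr1)))

/-- the intersection of two large sets -/
theorem ufn_and (h : q ∈ IsUfn κ U) (hκ : ℵ₀ ≤ κ) (hr : r ≤ q) {A A' : X → Set H}
    (hA : r ∈ meets (U A)) (hA' : r ∈ meets (U A')) :
    r ∈ meets (U fun a => fand (meets (A a)) (meets (A' a))) := by
  have h1 := ufn_inter h hr (I := Bool) (lt_of_lt_of_le (mk_lt_aleph0) hκ)
    (fun i => if i then A else A') (fun i => by cases i <;> simpa)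
  refine ufn_mono h hr h1 fun a r' hr' h2 => ⟨r', le_rfl, ?_⟩
  rw [uf_meets_fall] at h2
  rw [uf_meets_fand]
  exact ⟨by simpa using h2 true, by simpa using h2 false⟩

/-- If almost all `a` are in the union of less than `κ` sets, then one of them is large. -/
theorem ufn_cov (h : q ∈ IsUfn κ U) (hκ : ℵ₀ ≤ κ) (hr : r ≤ q) {I : Type} (hI : #I < κ)
    (A : I → X → Set H) {B : X → Set H} (hB : r ∈ meets (U B))
    (hc : ∀ a, ∀ r' ≤ r, r' ∈ meets (B a) → ∃ r'' ≤ r', ∃ i, r'' ∈ meets (A i a)) :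
    ∃ r' ≤ r, ∃ i, r' ∈ meets (U (A i)) := by
  by_contra hcon
  push Not at hcon
  have h1 : ∀ i, r ∈ meets (U fun a => fnot (meets (A i a))) := by
    intro i
    refine meets_of_dense fun r1 hr1 => ?_
    obtain ⟨r2, hr2, h2 | h2⟩ := ufn_ultra h (hr1.trans hr) (A i)
    · exact absurd h2 (hcon r2 (hr2.trans hr1) i)
    · exact ⟨r2, hr2, h2⟩
  have h2 := ufn_and h hκ hr (ufn_inter h hr hI _ h1) hB
  obtain ⟨r3, hr3, a, h3⟩ := ufn_ne h hr h2
  rw [uf_meets_fand] at h3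
  obtain ⟨r4, hr4, i, h4⟩ := hc a r3 hr3 h3.2
  rw [uf_meets_fall] at h3
  exact uf_meets_fnot.1 (h3.1 i) r4 hr4 h4

end

section

variable {H K X Y : Type} [Preorder H] {κ σ : Cardinal.{0}} {B : X → Set Y}

/-- In the extension: `c` is the root of the function `Φ`: for each `x` and almost all `β` the
conditions `Φ β` and `c` agree at `x`. -/
def Rt (U : (K → Set H) → Set H) (Φ : K → Pf X Y B σ → Set H) (c : Pf X Y B σ) : Set H :=
  fall fun x : X => meets (U fun β => fex fun c' : Pf X Y B σ =>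
    fand (meets (Φ β c')) (fground (c'.f x = c.f x)))

/-- almost all `Φ β` have the value `v` at `x` -/
def UfAg (U : (K → Set H) → Set H) (Φ : K → Pf X Y B σ → Set H) (x : X) (v : Option Y) : Set H :=
  meets (U fun β => fex fun c' : Pf X Y B σ => fand (meets (Φ β c')) (fground (c'.f x = v)))

variable {U : (K → Set H) → Set H} {h : H} {Φ : K → Pf X Y B σ → Set H}

/-- the values of the condition `Φ β` -/
theorem uf_val (hΦ : h ∈ IsFun Φ) {β : K} {c' : Pf X Y B σ} {r : H} (hr : r ≤ h)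
    (hc : r ∈ meets (Φ β c')) {θ : Pf X Y B σ → Prop}
    (hx : r ∈ meets (fex fun c' : Pf X Y B σ => fand (meets (Φ β c')) (fground (θ c')))) :
    θ c' := by
  rw [uf_meets_fex] at hx
  obtain ⟨r1, hr1, c1, h1, h2⟩ := mem_fex.1 hx r le_rfl
  obtain ⟨_, _, h3⟩ := mem_fimp.1 (hΦ.2 β c' c1) r1 (hr1.trans hr) ⟨meets_dn hc hr1, h1⟩
  have h4 : c' = c1 := h3
  rw [h4]
  exact h2

theorem uf_dec (hΦ : h ∈ IsFun Φ) (β : K) {r : H} (hr : r ≤ h) :
    ∃ r' ≤ r, ∃ c', r' ∈ meets (Φ β c') :=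
  mem_fex.1 (hΦ.1 β) r hr

theorem uf_unique (hκ0 : ℵ₀ ≤ κ) (hU : h ∈ IsUfn κ U) (hΦ : h ∈ IsFun Φ) {x : X}
    {v v' : Option Y} {r : H} (hr : r ≤ h) (h1 : r ∈ UfAg U Φ x v) (h2 : r ∈ UfAg U Φ x v') :
    v = v' := by
  obtain ⟨r1, hr1, β, h3⟩ := ufn_ne hU hr (ufn_and hU hκ0 hr h1 h2)
  rw [uf_meets_fand] at h3
  obtain ⟨r2, hr2, c', hc'⟩ := uf_dec hΦ β (hr1.trans hr)
  have hr2h : r2 ≤ h := hr2.trans (hr1.trans hr)
  have h4 := uf_val hΦ hr2h hc' (θ := fun c' => c'.f x = v) (meets_dn h3.1 hr2)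
  have h5 := uf_val hΦ hr2h hc' (θ := fun c' => c'.f x = v') (meets_dn h3.2 hr2)
  exact h4.symm.trans h5

theorem uf_exists (hκ : ℵ₀ ≤ κ) (hB : ∀ x, #(B x) < κ) (hU : h ∈ IsUfn κ U)
    (hΦ : h ∈ IsFun Φ) (x : X) {r : H} (hr : r ≤ h) :
    ∃ r' ≤ r, ∃ v : Option Y, r' ∈ UfAg U Φ x v := by
  have hI : #(Option (B x)) < κ := by
    rw [mk_option]
    exact add_lt_of_lt hκ (hB x) (one_lt_aleph0.trans_le hκ)
  obtain ⟨r1, hr1, v, h1⟩ := ufn_cov hU hκ hr hI
    (fun v β => fex fun c' : Pf X Y B σ =>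
      fand (meets (Φ β c')) (fground (c'.f x = v.map Subtype.val)))
    (B := fun _ => univ) (ufn_all hU hr fun a => meets_of_mem (mem_univ _)) (by
      intro β r1 hr1 _
      obtain ⟨r2, hr2, c', hc'⟩ := uf_dec hΦ β (hr1.trans hr)
      refine ⟨r2, hr2, ?_⟩
      cases hv : c'.f x with
      | none =>
        exact ⟨none, meets_of_mem (mem_fex.2 fun r3 hr3 => ⟨r3, le_rfl, c', meets_dn hc' hr3, hv⟩)⟩
      | some y =>
        exact ⟨some ⟨y, c'.mem x y hv⟩,
          meets_of_mem (mem_fex.2 fun r3 hr3 => ⟨r3, le_rfl, c', meets_dn hc' hr3, hv⟩)⟩)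
  exact ⟨r1, hr1, _, h1⟩

theorem uf_small (hU : h ∈ IsUfn κ U) (hΦ : h ∈ IsFun Φ) {r : H} (hr : r ≤ h) {A : Type}
    (hA : #A < κ) (hA' : σ ≤ #A) (x : A → X) (hx : Function.Injective x) (y : A → Y)
    (hag : ∀ a, r ∈ UfAg U Φ (x a) (some (y a))) : False := by
  obtain ⟨r1, hr1, β, h1⟩ := ufn_ne hU hr (ufn_inter hU hr hA _ hag)
  rw [uf_meets_fall] at h1
  obtain ⟨r2, hr2, c', hc'⟩ := uf_dec hΦ β (hr1.trans hr)
  have hr2h : r2 ≤ h := hr2.trans (hr1.trans hr)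
  have h2 : ∀ a, c'.f (x a) = some (y a) := fun a =>
    uf_val hΦ hr2h hc' (θ := fun c' => c'.f (x a) = some (y a)) (meets_dn (h1 a) hr2)
  have h3 : #A ≤ #{x : X // c'.f x ≠ none} := by
    refine mk_le_of_injective (f := fun a => ⟨x a, by rw [h2 a]; simp⟩) fun a b hab => ?_
    exact hx (congrArg Subtype.val hab)
  exact absurd (hA'.trans h3) (not_le.2 c'.small)

/-- The existence of roots. (`κ` is regular; the sets `B x` have less than `κ` elements.) -/
theorem exists_root (hκ : κ.IsRegular) (hσ : σ < κ) (hσ0 : ℵ₀ ≤ σ) (hB : ∀ x, #(B x) < κ)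
    (hH : DCL κ H) {U : (K → Set H) → Set H} {h : H} (hU : h ∈ IsUfn κ U)
    (Φ : K → Pf X Y B σ → Set H) (hΦ : h ∈ IsFun Φ) :
    ∃ h' ≤ h, ∃ c : Pf X Y B σ, h' ∈ Rt U Φ c := by
  classical
  have hκ0 : ℵ₀ ≤ κ := hκ.aleph0_le
  by_contra hcon
  push Not at hcon
  -- the step
  have step : ∀ m ≤ h, ∃ m' ≤ m, ∃ x y, m' ∈ UfAg U Φ x (some y) ∧
      ∀ y', m ∉ UfAg U Φ x (some y') := by
    intro m hm
    let D : Type := {x : X // ∃ y, m ∈ UfAg U Φ x (some y)}
    choose g hg using fun x : D => x.2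
    have hD : #D < σ := by
      by_contra hcon1
      push Not at hcon1
      obtain ⟨s, hs⟩ := le_mk_iff_exists_set.1 hcon1
      exact uf_small hU hΦ hm (A := s) (hs.trans_lt hσ) hs.ge (fun a => a.1.1)
        (fun a b hab => Subtype.ext (Subtype.ext hab)) (fun a => g a.1) fun a => hg a.1
    have hgB : ∀ x : D, g x ∈ B x.1 := by
      intro x
      obtain ⟨r1, hr1, β, h1⟩ := ufn_ne hU hm (hg x)
      rw [uf_meets_fex] at h1
      obtain ⟨r2, hr2, c', _, h2⟩ := mem_fex.1 h1 r1 le_rfl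
      exact c'.mem _ _ h2
    let c : Pf X Y B σ := ⟨fun x => if hx : ∃ y, m ∈ UfAg U Φ x (some y) then some (g ⟨x, hx⟩)
        else none, by
      refine lt_of_le_of_lt ?_ hD
      refine mk_le_of_injective (f := fun x => (⟨x.1, ?_⟩ : D)) fun a b hab => ?_
      · by_contra hx
        exact x.2 (dif_neg hx)
      · exact Subtype.ext (congrArg (fun z : D => z.1) hab), by
      intro x y hxy
      by_cases hx : ∃ y, m ∈ UfAg U Φ x (some y)
      · rw [dif_pos hx] at hxy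
        rw [← Option.some.inj hxy]
        exact hgB ⟨x, hx⟩
      · rw [dif_neg hx] at hxy
        exact absurd hxy (by simp)⟩
    have h1 := hcon m hm c
    have h2 : ∃ x, m ∉ UfAg U Φ x (c.f x) := by
      by_contra hcon1
      push Not at hcon1
      exact h1 hcon1
    obtain ⟨x, hx⟩ := h2
    have h3 : ¬ ∃ y, m ∈ UfAg U Φ x (some y) := by
      intro h4
      apply hx
      change m ∈ UfAg U Φ x (if hx : ∃ y, m ∈ UfAg U Φ x (some y) then some (g ⟨x, hx⟩) else none)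
      rw [dif_pos h4]
      exact hg ⟨x, h4⟩
    have h4 : c.f x = none := dif_neg h3
    rw [h4] at hx
    obtain ⟨m1, hm1, h5⟩ := not_meets hx
    obtain ⟨m2, hm2, v, hv⟩ := uf_exists hκ0 hB hU hΦ x (hm1.trans hm)
    cases v with
    | none => exact absurd hv (h5 m2 hm2)
    | some y => exact ⟨m2, hm2.trans hm1, x, y, hv, fun y' hy' => h3 ⟨y', hy'⟩⟩
  obtain ⟨M, hM1, hM2, hM3⟩ := exists_chain hσ0 (hH.dc hσ) (J := σ.ord.ToType)
    (fun j => (mk_Iio_toType_ord_lt j).le) h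
    (fun _ m m' => ∃ x y, m' ∈ UfAg U Φ x (some y) ∧ ∀ y', m ∉ UfAg U Φ x (some y'))
    (fun _ m hm => step m hm)
  choose m hm1 hm2 hm3 x y hx hy using hM3
  have hne : Nonempty σ.ord.ToType := by
    rw [← mk_ne_zero_iff, mk_ord_toType]
    exact (aleph0_pos.trans_le hσ0).ne'
  obtain ⟨p, hp⟩ := (hH.dc hσ).lb (J := σ.ord.ToType) (mk_ord_toType σ).le M hM2
  have hinj : Function.Injective x := by
    have key : ∀ i j, i < j → x i ≠ x j := by
      intro i j hij heq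
      apply hy j (y i)
      rw [← heq]
      exact meets_dn (hx i) (hm2 j i hij)
    intro i j hij
    rcases lt_trichotomy i j with h1 | h1 | h1
    · exact absurd hij (key i j h1)
    · exact h1
    · exact absurd hij.symm (key j i h1)
  exact uf_small hU hΦ ((hp hne.some).trans (hM1 _)) (A := σ.ord.ToType)
    (by rwa [mk_ord_toType]) (mk_ord_toType σ).ge x hinj y fun a => meets_dn (hx a) (hp a)

/-- On small sets almost all `Φ β` agree with the root. -/
theorem Rt.on {U : (K → Set H) → Set H} {h : H} (hκ0 : ℵ₀ ≤ κ) (hU : h ∈ IsUfn κ U)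
    {Φ : K → Pf X Y B σ → Set H} (hΦ : h ∈ IsFun Φ) {c : Pf X Y B σ} (hc : h ∈ Rt U Φ c)
    (A : Set X) (hA : #A < κ) :
    h ∈ meets (U fun β => fex fun c' : Pf X Y B σ =>
      fand (meets (Φ β c')) (fground (∀ x ∈ A, c'.f x = c.f x))) := by
  refine ufn_mono hU le_rfl (ufn_inter hU le_rfl hA _ fun x : A => hc x.1) fun β r hr h1 => ?_
  rw [uf_meets_fall] at h1
  obtain ⟨r1, hr1, c', hc'⟩ := uf_dec hΦ β hr
  refine ⟨r1, hr1, meets_of_mem (mem_fex.2 fun r2 hr2 => ⟨r2, le_rfl, c', meets_dn hc' hr2,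
    fun x hx => ?_⟩)⟩
  exact uf_val hΦ (hr1.trans hr) hc' (θ := fun c' => c'.f x = c.f x) (meets_dn (h1 ⟨x, hx⟩) hr1)

end

end Pool.Agent.H638.ST
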