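import Mathlib
import Pool.Agent.H638.ST.Uf

set_option autoImplicit false
set_option linter.unusedSectionVars false
set_option linter.unusedVariables false

namespace Pool.Agent.H638.ST

open Set Cardinal Pool.Agent.Helper669.Forcing

/-! # Cardinals of the extension -/

/-- the covering property for functions on `lam` -/
def Cov (lam : Cardinal.{0}) (P : Type) [Preorder P] : Prop :=
  ∀ (Z : Type) (g : Ll lam → Z → Set P) (q : P), q ∈ IsFun g → ∃ q' ≤ q,
    ∃ x : Set Z, #x ≤ lam ∧ ∀ ξ z, q' ∈ fimp (meets (g ξ z)) (fground (z ∈ x))

section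

variable {P Q : Type} [Preorder P] [Preorder Q]

theorem down_cardIn (c : Ordinal.{0}) : Down (IsCardIn P c) :=
  down_fand (down_fground _) (down_fall fun _ => down_fall fun _ => down_fnot _)

end

end Pool.Agent.H638.ST
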