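import Mathlib
import Pool.Agent.H638.ST.RegDef

set_option autoImplicit false
set_option linter.unusedSectionVars false
set_option linter.unusedVariables false

namespace Pool.Agent.H638.ST

open Set Cardinal Pool.Agent.Helper669.Forcing

/-! ### The aleph function of the extension -/

theorem alph_down_IsCardIn {P : Type} [Preorder P] (x : Ordinal.{0}) : Down (IsCardIn P x) :=
  down_fand (down_fground _) (down_fall fun _ => down_fall fun _ => down_fnot _)

/-- If the infinite cardinals of the extension are the members of a set `S` of the ground model,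
then its order type gives the index of the alephs. -/
theorem alephIn_of_iso {P : Type} [Preorder P] (p : P) (β c : Ordinal.{0}) (S : Set Ordinal.{0})
    (hS : ∀ x < c, x ∈ S → p ∈ IsCardIn P x) (hS' : ∀ x < c, x ∉ S → p ∈ fnot (IsCardIn P x))
    (hc : p ∈ IsCardIn P c)
    (hβ : Nonempty (β.ToType ≃o {x : Ordinal.{0} // x ∈ S ∧ x < c})) : p ∈ IsAlephIn P β c := by
  obtain ⟨φ⟩ := hβ
  let f : β.ToType → c.ToType → Set P := fun i v => {q | (φ i).1 = v.toOrd.1}
  have hf : ∀ i v (q : P), q ∈ meets (f i v) ↔ (φ i).1 = v.toOrd.1 := by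
    intro i v q
    constructor
    · intro h
      obtain ⟨_, _, _, hs, _⟩ := h q le_rfl
      exact hs
    · intro h
      exact meets_of_mem h
  have hinj : ∀ v w : c.ToType, v.toOrd.1 = w.toOrd.1 → v = w := by
    intro v w h
    have h1 : v.toOrd = w.toOrd := Subtype.ext h
    exact (Ordinal.ToType.mk (o := c)).symm.injective h1
  have hlt : ∀ v w : c.ToType, v.toOrd.1 < w.toOrd.1 → v < w := by
    intro v w h
    have h1 : v.toOrd < w.toOrd := h
    exact (Ordinal.ToType.mk (o := c)).symm.lt_iff_lt.mp h1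
  have hval : ∀ x (hx : x < c), (Ordinal.ToType.mk (o := c) ⟨x, hx⟩).toOrd.1 = x := by
    intro x hx
    simp [Ordinal.ToType.toOrd]
  refine ⟨hc, mem_fex_of_mem (φ := fun f : β.ToType → c.ToType → Set P =>
    fand (IsFun f)
    (fand (fall fun i : β.ToType => fall fun j : β.ToType => fall fun _ : i < j =>
        fall fun v : c.ToType => fall fun w : c.ToType =>
        fimp (fand (meets (f i v)) (meets (f j w))) (fground (v < w)))
    (fand (fall fun i : β.ToType => fall fun v : c.ToType =>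
        fimp (meets (f i v)) (IsCardIn P v.toOrd.1))
      (fall fun v : c.ToType => fimp (IsCardIn P v.toOrd.1)
        (fex fun i => meets (f i v)))))) f ?_ ?_⟩
  · refine down_fand (down_IsFun _) (down_fand ?_ (down_fand ?_ ?_))
    · exact down_fall fun _ => down_fall fun _ => down_fall fun _ => down_fall fun _ =>
        down_fall fun _ => down_fimp _ _
    · exact down_fall fun _ => down_fall fun _ => down_fimp _ _
    · exact down_fall fun _ => down_fimp _ _
  · refine ⟨⟨?_, ?_⟩, ?_, ?_, ?_⟩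
    · intro i
      refine mem_fex_of_mem (Ordinal.ToType.mk (o := c) ⟨(φ i).1, (φ i).2.2⟩) (down_meets _) ?_
      rw [hf, hval]
    · intro i v w
      refine mem_fimp.2 fun q hq h => ⟨q, le_rfl, ?_⟩
      have h1 := (hf i v q).1 h.1
      have h2 := (hf i w q).1 h.2
      exact hinj v w (h1.symm.trans h2)
    · intro i j hij v w
      refine mem_fimp.2 fun q hq h => ⟨q, le_rfl, ?_⟩
      have h1 := (hf i v q).1 h.1
      have h2 := (hf j w q).1 h.2
      have h3 : (φ i).1 < (φ j).1 := φ.lt_iff_lt.mpr hij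
      exact hlt v w (by rw [← h1, ← h2]; exact h3)
    · intro i v
      refine mem_fimp.2 fun q hq h => ⟨q, le_rfl, ?_⟩
      have h1 := (hf i v q).1 h
      rw [← h1]
      exact alph_down_IsCardIn _ _ (hS _ (φ i).2.2 (φ i).2.1) _ hq
    · intro v
      refine mem_fimp.2 fun q hq h => ⟨q, le_rfl, ?_⟩
      have hvc : v.toOrd.1 < c := v.toOrd.2
      by_cases hv : v.toOrd.1 ∈ S
      · refine mem_fex_of_mem (φ.symm ⟨v.toOrd.1, hv, hvc⟩) (down_meets _) ?_
        rw [hf, φ.apply_symm_apply]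
      · exact absurd h (hS' _ hvc hv q hq)

/-- the order type of a set of ordinals with small initial segments -/
theorem exists_iso_of_card {γ : Cardinal.{0}} (hγ : ℵ₀ ≤ γ) (c : Ordinal.{0})
    (S : Set Ordinal.{0})
    (h1 : ∀ x < c, #{y : Ordinal.{0} // y ∈ S ∧ y < x} < Cardinal.lift.{1} γ)
    (h2 : Cardinal.lift.{1} γ ≤ #{y : Ordinal.{0} // y ∈ S ∧ y < c}) :
    Nonempty (γ.ord.ToType ≃o {x : Ordinal.{0} // x ∈ S ∧ x < c}) := by
  have hT : Ordinal.type (α := {x : Ordinal.{0} // x ∈ S ∧ x < c}) (· < ·)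
      = Ordinal.lift.{1} γ.ord := by
    rw [lift_ord]
    apply le_antisymm
    · by_contra hcon
      push Not at hcon
      obtain ⟨x, hx⟩ := Ordinal.typein_surj
        ((· < ·) : {x : Ordinal.{0} // x ∈ S ∧ x < c} → _ → Prop) hcon
      have h3 := congrArg Ordinal.card hx
      rw [Ordinal.card_typein, card_ord] at h3
      have h4 := h1 x.1 x.2.2
      have h5 : #{y : {x : Ordinal.{0} // x ∈ S ∧ x < c} // y < x}
          = #{y : Ordinal.{0} // y ∈ S ∧ y < x.1} := by
        refine Cardinal.mk_congr ⟨fun y => ⟨y.1.1, y.1.2.1, y.2⟩,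
          fun y => ⟨⟨y.1, y.2.1, y.2.2.trans x.2.2⟩, y.2.2⟩, fun y => rfl, fun y => rfl⟩
      rw [h5] at h3
      rw [h3] at h4
      exact lt_irrefl _ h4
    · rw [ord_le, Ordinal.card_type]
      exact h2
  have h3 : Nonempty (((· < ·) : γ.ord.ToType → γ.ord.ToType → Prop) ≃r
      ((· < ·) : {x : Ordinal.{0} // x ∈ S ∧ x < c} → _ → Prop)) := by
    rw [← Ordinal.lift_type_eq.{0, 1, 0}, hT, Ordinal.type_toType]
    simp
  obtain ⟨e⟩ := h3
  exact ⟨OrderIso.ofRelIsoLT e⟩

/-- one more element -/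
theorem exists_iso_succ {β c c' : Ordinal.{0}} {S : Set Ordinal.{0}}
    (h : Nonempty (β.ToType ≃o {x : Ordinal.{0} // x ∈ S ∧ x < c})) (hc : c ∈ S) (hcc : c < c')
    (hno : ∀ x ∈ S, c < x → c' ≤ x) :
    Nonempty ((β + 1).ToType ≃o {x : Ordinal.{0} // x ∈ S ∧ x < c'}) := by
  obtain ⟨e⟩ := h
  have h1 : Ordinal.type (α := {x : Ordinal.{0} // x ∈ S ∧ x < c}) (· < ·)
      = Ordinal.lift.{1} β := by
    have h2 := (Ordinal.lift_type_eq.{0, 1, 0} (r := ((· < ·) : β.ToType → β.ToType → Prop))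
      (s := ((· < ·) : {x : Ordinal.{0} // x ∈ S ∧ x < c} → _ → Prop))).2 ⟨e.toRelIsoLT⟩
    rw [Ordinal.type_toType] at h2
    rw [Ordinal.lift_uzero] at h2
    exact h2.symm
  let t : {x : Ordinal.{0} // x ∈ S ∧ x < c'} := ⟨c, hc, hcc⟩
  have h3 : Ordinal.typein ((· < ·) : {x : Ordinal.{0} // x ∈ S ∧ x < c'} → _ → Prop) t
      = Ordinal.lift.{1} β := by
    rw [← h1, ← Ordinal.type_subrel]
    refine (Ordinal.type_eq.2 ⟨⟨⟨fun y => ⟨y.1.1, y.1.2.1, y.2⟩,
      fun y => ⟨⟨y.1, y.2.1, y.2.2.trans hcc⟩, y.2.2⟩, fun y => rfl, fun y => rfl⟩, ?_⟩⟩)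
    intro a b
    rfl
  have hT : Ordinal.type (α := {x : Ordinal.{0} // x ∈ S ∧ x < c'}) (· < ·)
      = Ordinal.lift.{1} (β + 1) := by
    rw [Ordinal.lift_add, Ordinal.lift_one, ← h3]
    apply le_antisymm
    · by_contra hcon
      push Not at hcon
      obtain ⟨x, hx⟩ := Ordinal.typein_surj
        ((· < ·) : {x : Ordinal.{0} // x ∈ S ∧ x < c'} → _ → Prop) hcon
      have h4 : t < x := by
        rw [← Ordinal.typein_lt_typein
          ((· < ·) : {x : Ordinal.{0} // x ∈ S ∧ x < c'} → _ → Prop), hx]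
        exact Order.lt_add_one_iff.mpr le_rfl
      have h5 : c < x.1 := h4
      exact absurd (hno x.1 x.2.1 h5) (not_le.mpr x.2.2)
    · exact Order.add_one_le_of_lt (Ordinal.typein_lt_type _ t)
  have h3 : Nonempty (((· < ·) : (β + 1).ToType → (β + 1).ToType → Prop) ≃r
      ((· < ·) : {x : Ordinal.{0} // x ∈ S ∧ x < c'} → _ → Prop)) := by
    rw [← Ordinal.lift_type_eq.{0, 1, 0}, hT, Ordinal.type_toType]
    simp
  obtain ⟨e'⟩ := h3
  exact ⟨OrderIso.ofRelIsoLT e'⟩

end Pool.Agent.H638.ST
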