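import Mathlib
import Pool.Agent.H638.ST.Pf

set_option autoImplicit false
set_option linter.unusedSectionVars false
set_option linter.unusedVariables false

namespace Pool.Agent.H638.ST

open Set Cardinal Pool.Agent.Helper669.Forcing

/-! # Cardinal arithmetic of one block

`γ` is regular, `κ i`, `i < γ`, is an increasing sequence of inaccessible cardinals above `k > γ`,
and `lam` is its supremum. -/

/-- a family of less than `c` elements of a regular cardinal `c` has a strict upper bound -/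
theorem card_bd {c : Cardinal.{0}} (hc : c.IsRegular) {ι : Type} (f : ι → c.ord.ToType)
    (hι : #ι < c) : ∃ b, ∀ i, f i < b := by
  by_contra hcon
  push Not at hcon
  have hcof : IsCofinal (range f) := by
    intro a
    obtain ⟨i, hi⟩ := hcon a
    exact ⟨f i, mem_range_self i, hi⟩
  have h1 : Order.cof c.ord.ToType ≤ #(range f) := Order.cof_le hcof
  rw [Ordinal.cof_toType, hc.cof_ord] at h1
  exact absurd (h1.trans mk_range_le) (not_le.mpr hι)

theorem card_iio {c : Cardinal.{0}} (a : c.ord.ToType) : #(Iio a) < c := by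
  simpa using mk_Iio_lt a

/-- `Kl lam` is the successor of `lam` -/
theorem bd_Kl {lam : Cardinal.{0}} (h0 : ℵ₀ ≤ lam) : Bd lam (Kl lam) := by
  intro ι f hι
  exact card_bd (isRegular_succ h0) f (Order.lt_succ_of_le hι)

theorem iio_Kl {lam : Cardinal.{0}} (a : Kl lam) : #(Iio a) ≤ lam :=
  Order.lt_succ_iff.mp (card_iio a)

theorem iio_Ll {lam : Cardinal.{0}} (a : Ll lam) : #(Iio a) < lam := card_iio a

/-- powers below an inaccessible cardinal stay below it -/
theorem card_pow_lt {c a b : Cardinal.{0}} (hc : c.IsInaccessible) (ha : a < c) (hb : b < c) :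
    a ^ b < c := by
  have h0 : ℵ₀ ≤ c := hc.isRegular.aleph0_le
  calc a ^ b ≤ ((2 : Cardinal.{0}) ^ a) ^ b :=
        Cardinal.power_le_power_right (Cardinal.cantor a).le
    _ = (2 : Cardinal.{0}) ^ (a * b) := (Cardinal.power_mul).symm
    _ < c := hc.isStrongLimit.isStrongPrelimit (Cardinal.mul_lt_of_lt h0 ha hb)

/-- a product of at most `ν` cardinals `≤ c` -/
theorem card_prod_le {J : Type} {c ν : Cardinal.{0}} (X : J → Type) (hc : 1 ≤ c)
    (hJ : #J ≤ ν) (hX : ∀ j, #(X j) ≤ c) : #(∀ j, X j) ≤ c ^ ν := by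
  rw [mk_pi]
  calc Cardinal.prod (fun j => #(X j)) ≤ Cardinal.prod (fun _ : J => c) :=
        Cardinal.prod_le_prod _ _ hX
    _ = c ^ #J := Cardinal.prod_const' J c
    _ ≤ c ^ ν := Cardinal.power_le_power_left (Cardinal.one_le_iff_ne_zero.mp hc) hJ

section

variable {γ k : Cardinal.{0}} {κ : γ.ord.ToType → Cardinal.{0}}

theorem Sq.inacc_k (h : Sq γ k κ) : k.IsInaccessible := h.isuk.1

theorem Sq.inacc (h : Sq γ k κ) (i : γ.ord.ToType) : (κ i).IsInaccessible := (h.isu i).1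

theorem Sq.iio (h : Sq γ k κ) (i : γ.ord.ToType) : #(Iio i) < γ := card_iio i

/-- the index set has no greatest element -/
theorem Sq.exists_gt (h : Sq γ k κ) (i : γ.ord.ToType) : ∃ j, i < j := by
  obtain ⟨b, hb⟩ := card_bd h.reg (fun _ : Unit => i)
    (by simpa using Cardinal.one_lt_aleph0.trans_le h.reg.aleph0_le)
  exact ⟨b, hb ()⟩

/-- the successor of an index -/
theorem Sq.exists_succ (h : Sq γ k κ) (i : γ.ord.ToType) : ∃ j, i < j ∧ ∀ z < j, z ≤ i := by
  have hne : ({j | i < j} : Set γ.ord.ToType).Nonempty := h.exists_gt i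
  refine ⟨WellFounded.min (wellFounded_lt (α := γ.ord.ToType)) {j | i < j} hne,
    WellFounded.min_mem (wellFounded_lt (α := γ.ord.ToType)) {j | i < j} hne, ?_⟩
  intro z hz
  by_contra hzi
  exact WellFounded.not_lt_min (wellFounded_lt (α := γ.ord.ToType)) {j | i < j}
    (show z ∈ {j | i < j} from not_le.mp hzi) hz

theorem k_le_nu (i : γ.ord.ToType) : k ≤ nu k κ i := le_max_left _ _

theorem Sq.card_gamma_lt (h : Sq γ k κ) (i : γ.ord.ToType) : γ < κ i := h.lt.trans (h.k_lt i)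

theorem Sq.nu_lt (h : Sq γ k κ) (i : γ.ord.ToType) : nu k κ i < κ i := by
  refine max_lt (h.k_lt i) ?_
  exact Cardinal.iSup_lt_of_isRegular (h.inacc i).isRegular
    ((h.iio i).trans (h.card_gamma_lt i)) (fun j => h.mono j.2)

theorem Sq.le_nu (h : Sq γ k κ) {i j : γ.ord.ToType} (hij : i < j) : κ i ≤ nu k κ j :=
  le_max_of_le_right (le_ciSup (f := fun i : Iio j => κ i.1) Cardinal.bddAbove_of_small ⟨i, hij⟩)

/-- at a successor index `j` of `i` -/
theorem Sq.nu_succ (h : Sq γ k κ) {i j : γ.ord.ToType} (hij : i < j) (hj : ∀ z < j, z ≤ i) :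
    nu k κ j = κ i := by
  refine le_antisymm (max_le (h.k_lt i).le ?_) (h.le_nu hij)
  exact ciSup_le' fun z => h.mono.monotone (hj z.1 z.2)

theorem Sq.card_aleph0_le_nu (h : Sq γ k κ) (j : γ.ord.ToType) : ℵ₀ ≤ nu k κ j :=
  (h.inacc_k.aleph0_lt.le).trans (k_le_nu j)

theorem Sq.sum_le_nu (h : Sq γ k κ) (j : γ.ord.ToType) :
    Cardinal.sum (fun i : Iio j => κ i.1) ≤ nu k κ j := by
  calc Cardinal.sum (fun i : Iio j => κ i.1) ≤ #(Iio j) * ⨆ i : Iio j, κ i.1 :=
        Cardinal.sum_le_mk_mul_iSup _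
    _ ≤ nu k κ j * nu k κ j := by
        refine mul_le_mul' (((h.iio j).le.trans h.lt.le).trans (k_le_nu j)) (le_max_right _ _)
    _ = nu k κ j := Cardinal.mul_eq_self (h.card_aleph0_le_nu j)

theorem Sq.dc_Ec (h : Sq γ k κ) (j : γ.ord.ToType) : DC (nu k κ j) (Ec k κ j) :=
  dc_lv ((h.inacc_k.aleph0_lt.le).trans (k_le_nu j))

theorem Sq.dc_EE (h : Sq γ k κ) : DC k (EE k κ) :=
  DC.pi fun j => (h.dc_Ec j).mono (k_le_nu j)

theorem Sq.mk_Ec (h : Sq γ k κ) (j : γ.ord.ToType) : #(Ec k κ j) ≤ κ j :=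
  mk_lv_le (h.inacc j) (h.nu_lt j)

theorem Sq.card_iic (h : Sq γ k κ) (i : γ.ord.ToType) : #(Iic i) < γ := by
  obtain ⟨j, hj⟩ := h.exists_gt i
  exact (Cardinal.mk_le_mk_of_subset (fun z (hz : z ≤ i) => lt_of_le_of_lt hz hj :
    Iic i ⊆ Iio j)).trans_lt (h.iio j)

theorem Sq.card_one_le (h : Sq γ k κ) (i : γ.ord.ToType) : 1 ≤ κ i :=
  Cardinal.one_le_iff_ne_zero.mpr (h.inacc i).ne_zero

/-- the conditions on the coordinates up to `i` -/
theorem Sq.mk_EE_le (h : Sq γ k κ) (i : γ.ord.ToType) :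
    #(∀ j : Iic i, Ec k κ j.1) ≤ κ i :=
  (card_prod_le (fun j : Iic i => Ec k κ j.1) (h.card_one_le i) (h.card_iic i).le
    (fun j => (h.mk_Ec j.1).trans (h.mono.monotone j.2))).trans
    (inacc_pow (h.inacc i) (h.card_gamma_lt i))

theorem Sq.mk_EE_lt (h : Sq γ k κ) (i : γ.ord.ToType) :
    #(∀ j : Iio i, Ec k κ j.1) < κ i :=
  (card_prod_le (fun j : Iio i => Ec k κ j.1)
    (Cardinal.one_le_aleph0.trans (h.card_aleph0_le_nu i)) (h.iio i).le
    (fun j => (h.mk_Ec j.1).trans (h.le_nu j.2))).trans_lt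
    (card_pow_lt (h.inacc i) (h.nu_lt i) (h.card_gamma_lt i))

theorem Sq.mk_prod_le (h : Sq γ k κ) (i : γ.ord.ToType) {L : Type} (hL : #L ≤ k) :
    #(L × ∀ j : Iic i, Ec k κ j.1) ≤ κ i := by
  rw [mk_prod, Cardinal.lift_id, Cardinal.lift_id]
  calc #L * #(∀ j : Iic i, Ec k κ j.1) ≤ κ i * κ i :=
        mul_le_mul' (hL.trans (h.k_lt i).le) (h.mk_EE_le i)
    _ = κ i := Cardinal.mul_eq_self (h.inacc i).isRegular.aleph0_le

/-- the conditions on the coordinates after `i` -/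
theorem Sq.dc_tail (h : Sq γ k κ) (i : γ.ord.ToType) :
    DC (κ i) (∀ j : Ioi i, Ec k κ j.1) :=
  DC.pi fun j => (h.dc_Ec j.1).mono (h.le_nu j.2)

variable {lam : Cardinal.{0}}

theorem Sq.card_le_lam (h : Sq γ k κ) (hl : lam = ⨆ i, κ i) (i : γ.ord.ToType) : κ i ≤ lam :=
  hl ▸ le_ciSup Cardinal.bddAbove_of_small i

theorem Sq.lt_lam (h : Sq γ k κ) (hl : lam = ⨆ i, κ i) (i : γ.ord.ToType) : κ i < lam := by
  obtain ⟨j, hj⟩ := h.exists_gt i
  exact (h.mono hj).trans_le (h.card_le_lam hl j)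

theorem Sq.card_nonempty (h : Sq γ k κ) : Nonempty γ.ord.ToType := by
  rw [← Cardinal.mk_ne_zero_iff, Cardinal.mk_ord_toType]
  exact h.reg.ne_zero

theorem Sq.k_lt_lam (h : Sq γ k κ) (hl : lam = ⨆ i, κ i) : k < lam := by
  obtain ⟨i⟩ := h.card_nonempty
  exact (h.k_lt i).trans (h.lt_lam hl i)

theorem Sq.aleph0_le_lam (h : Sq γ k κ) (hl : lam = ⨆ i, κ i) : ℵ₀ ≤ lam :=
  h.inacc_k.aleph0_lt.le.trans (h.k_lt_lam hl).le

theorem Sq.exists_of_lt_lam (h : Sq γ k κ) (hl : lam = ⨆ i, κ i) {c : Cardinal.{0}}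
    (hc : c < lam) : ∃ i, c < κ i := by
  rw [hl] at hc
  exact exists_lt_of_lt_ciSup' hc

theorem Sq.sum_eq (h : Sq γ k κ) (hl : lam = ⨆ i, κ i) : Cardinal.sum κ = lam := by
  apply le_antisymm
  · calc Cardinal.sum κ ≤ #(γ.ord.ToType) * ⨆ i, κ i := Cardinal.sum_le_mk_mul_iSup _
      _ ≤ lam * lam := by
          rw [← hl, Cardinal.mk_ord_toType]
          exact mul_le_mul' (h.lt.le.trans (h.k_lt_lam hl).le) le_rfl
      _ = lam := Cardinal.mul_eq_self (h.aleph0_le_lam hl)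
  · rw [hl]
    exact ciSup_le' fun i => Cardinal.le_sum κ i

/-- a rank function with small pieces -/
theorem Sq.exists_rank (h : Sq γ k κ) (hl : lam = ⨆ i, κ i) :
    ∃ rk : Ll lam → γ.ord.ToType, ∀ i, #{ξ // rk ξ = i} ≤ κ i := by
  have h1 : #(Ll lam) = #(Σ i : γ.ord.ToType, (κ i).out) := by
    rw [Cardinal.mk_ord_toType, Cardinal.mk_sigma]
    simp only [Cardinal.mk_out]
    exact (h.sum_eq hl).symm
  obtain ⟨e⟩ := Cardinal.eq.mp h1
  refine ⟨fun ξ => (e ξ).1, fun i => ?_⟩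
  have e2 : {ξ // (e ξ).1 = i} ≃ {s : Σ i : γ.ord.ToType, (κ i).out // s.1 = i} :=
    e.subtypeEquiv fun ξ => Iff.rfl
  have e3 := e2.trans (Equiv.sigmaSubtype i)
  rw [Cardinal.mk_congr e3, Cardinal.mk_out]

/-- `lam ^ ν = lam` for `ν < γ` -/
theorem Sq.lam_pow (h : Sq γ k κ) (hl : lam = ⨆ i, κ i) {ν : Cardinal.{0}} (hν : ν < γ) :
    lam ^ ν ≤ lam := by
  obtain ⟨rk, hrk⟩ := h.exists_rank hl
  have h1 : lam ^ ν = #(ν.out → Ll lam) := by
    rw [← Cardinal.power_def, Cardinal.mk_out, Cardinal.mk_ord_toType]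
  -- pieces
  have hpiece : ∀ b : γ.ord.ToType, #{ξ : Ll lam // rk ξ < b} ≤ nu k κ b := by
    intro b
    refine le_trans ?_ (h.sum_le_nu b)
    calc #{ξ : Ll lam // rk ξ < b} ≤ #(Σ i : Iio b, {ξ : Ll lam // rk ξ = i.1}) := by
          refine Cardinal.mk_le_of_injective
            (f := fun ξ => ⟨⟨rk ξ.1, ξ.2⟩, ⟨ξ.1, rfl⟩⟩) ?_
          intro ξ ζ hξζ
          apply Subtype.ext
          have := congrArg (fun s : (Σ i : Iio b, {ξ : Ll lam // rk ξ = i.1}) => (s.2.1 : Ll lam))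
            hξζ
          exact this
      _ = Cardinal.sum (fun i : Iio b => #{ξ : Ll lam // rk ξ = i.1}) := Cardinal.mk_sigma _
      _ ≤ Cardinal.sum (fun i : Iio b => κ i.1) := Cardinal.sum_le_sum _ _ fun i => hrk i.1
  have hinj : #(ν.out → Ll lam) ≤
      #(Σ b : γ.ord.ToType, (ν.out → {ξ : Ll lam // rk ξ < b})) := by
    have hb : ∀ f : ν.out → Ll lam, ∃ b, ∀ x, rk (f x) < b := fun f =>
      card_bd h.reg (fun x => rk (f x)) (by rwa [Cardinal.mk_out])
    choose b hb using hb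
    refine Cardinal.mk_le_of_injective (f := fun f => ⟨b f, fun x => ⟨f x, hb f x⟩⟩) ?_
    intro f g hfg
    funext x
    have := congrArg (fun s : (Σ b : γ.ord.ToType, (ν.out → {ξ : Ll lam // rk ξ < b})) =>
      ((s.2 x).1 : Ll lam)) hfg
    exact this
  rw [h1]
  refine hinj.trans ?_
  rw [Cardinal.mk_sigma]
  refine le_trans (Cardinal.sum_le_sum _ κ fun b => ?_) (h.sum_eq hl).le
  rw [← Cardinal.power_def, Cardinal.mk_out]
  calc #{ξ : Ll lam // rk ξ < b} ^ ν ≤ nu k κ b ^ ν := Cardinal.power_le_power_right (hpiece b)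
    _ ≤ κ b := (card_pow_lt (h.inacc b) (h.nu_lt b) (hν.trans (h.card_gamma_lt b))).le

/-- König's theorem -/
theorem Sq.lam_lt_prod (h : Sq γ k κ) (hl : lam = ⨆ i, κ i) :
    lam < #(∀ i : γ.ord.ToType, (κ i).out) := by
  choose s hs1 hs2 using h.exists_succ
  have hinj : Function.Injective s := by
    intro i j hij
    rcases lt_trichotomy i j with hlt | heq | hgt
    · have h3 : s i ≤ j := by
        by_contra hcon
        exact absurd (hs2 i j (not_le.mp hcon)) (not_le.mpr hlt)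
      exact absurd (hs1 j) (not_lt.mpr (hij ▸ h3))
    · exact heq
    · have h3 : s j ≤ i := by
        by_contra hcon
        exact absurd (hs2 j i (not_le.mp hcon)) (not_le.mpr hgt)
      exact absurd (hs1 i) (not_lt.mpr (hij ▸ h3))
  have hne : ∀ j, Nonempty (κ j).out := fun j => by
    rw [← Cardinal.mk_ne_zero_iff, Cardinal.mk_out]
    exact (h.inacc j).ne_zero
  have h1 : lam < Cardinal.prod (fun i => κ (s i)) := by
    rw [← h.sum_eq hl]
    exact Cardinal.sum_lt_prod _ _ fun i => h.mono (hs1 i)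
  have h2 : Cardinal.prod (fun i => κ (s i)) = #(∀ i : γ.ord.ToType, (κ (s i)).out) := by
    rw [mk_pi]
    simp only [Cardinal.mk_out]
  refine h1.trans_le ?_
  rw [h2]
  refine Cardinal.mk_le_of_surjective (f := fun (f : ∀ i : γ.ord.ToType, (κ i).out) i => f (s i)) ?_
  intro g
  let g' : ∀ j : range s, (κ j.1).out :=
    Equiv.piCongrLeft (fun j : range s => (κ j.1).out) (Equiv.ofInjective s hinj) g
  obtain ⟨G, hG⟩ := Subtype.exists_pi_extension (α := fun j => (κ j).out)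
    (p := fun j => j ∈ range s) g'
  refine ⟨G, ?_⟩
  funext i
  have h3 : G (s i) = g' ⟨s i, mem_range_self i⟩ := congrFun hG ⟨s i, mem_range_self i⟩
  have h4 : g' ⟨s i, mem_range_self i⟩ = g i :=
    Equiv.piCongrLeft_apply_apply (fun j : range s => (κ j.1).out) (Equiv.ofInjective s hinj) g i
  exact h3.trans h4

/-- the nodes of the levels of the tree of choices -/
theorem Sq.mk_nodes (h : Sq γ k κ) (i : γ.ord.ToType) :
    #(∀ j : Iic i, (κ j.1).out) ≤ κ i :=
  (card_prod_le (fun j : Iic i => (κ j.1).out) (h.card_one_le i) (h.card_iic i).le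
    (fun j => by rw [Cardinal.mk_out]; exact h.mono.monotone j.2)).trans
    (inacc_pow (h.inacc i) (h.card_gamma_lt i))

theorem Sq.two_pow_le (h : Sq γ k κ) (i : γ.ord.ToType) {ν : Cardinal.{0}} (hν : ν < κ i) :
    (2 : Cardinal.{0}) ^ ν ≤ κ i :=
  ((h.inacc i).isStrongLimit.isStrongPrelimit hν).le

end

end Pool.Agent.H638.ST
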