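import Mathlib
import Pool.Agent.H638.ST.Defs

set_option autoImplicit false
set_option linter.unusedSectionVars false
set_option linter.unusedVariables false

namespace Pool.Agent.H638.ST

open Set Cardinal Pool.Agent.Helper669.Forcing

/-- a well-ordering of the disjoint union, with monotone first coordinate -/
theorem Fusion_exists_order {G : Type} [LinearOrder G] [WellFoundedLT G] (T : G → Type) :
    ∃ _ : LinearOrder (Sigma T), WellFoundedLT (Sigma T) ∧ ∀ x y : Sigma T, x < y → x.1 ≤ y.1 := by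
  classical
  let f : Sigma T → G ×ₗ Ordinal.{0} := fun x => toLex (x.1, Ordinal.typein WellOrderingRel x.2)
  have hf : Function.Injective f := by
    rintro ⟨i, t⟩ ⟨j, s⟩ h
    have h1 : (i, Ordinal.typein WellOrderingRel t) = (j, Ordinal.typein WellOrderingRel s) :=
      toLex.injective h
    obtain ⟨rfl, h2⟩ := Prod.mk.inj h1
    have h3 : t = s := Ordinal.typein_injective WellOrderingRel h2
    rw [h3]
  refine ⟨LinearOrder.lift' f hf, ⟨InvImage.wf f (wellFounded_lt (α := G ×ₗ Ordinal.{0}))⟩, ?_⟩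
  intro x y h
  have h1 : f x < f y := h
  rcases (Prod.Lex.lt_iff).1 h1 with h2 | h2
  · exact h2.le
  · exact h2.1.le

/-- the number of tasks before `j` -/
theorem Fusion_card {G : Type} [LinearOrder G] {κ ν : G → Cardinal.{0}}
    (hν : ∀ j, Cardinal.sum (fun i : Iio j => κ i.1) ≤ ν j) (hν0 : ∀ j, ℵ₀ ≤ ν j)
    {T : G → Type} (hT : ∀ i, #(T i) ≤ κ i) (j : G) (S : Type) (f : S → Sigma T)
    (hf : Function.Injective f) (hS : ∀ s, (f s).1 < j) : #(Option S) ≤ ν j := by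
  rw [mk_option]
  refine add_le_of_le (hν0 j) ?_ (one_le_aleph0.trans (hν0 j))
  have h1 : #S ≤ #(Σ i : Iio j, T i.1) := by
    refine mk_le_of_injective (f := fun s => (⟨⟨(f s).1, hS s⟩, (f s).2⟩ : Σ i : Iio j, T i.1)) ?_
    intro s s' h
    apply hf
    have h2 : (⟨⟨(f s).1, hS s⟩, (f s).2⟩ : Σ i : Iio j, T i.1) = ⟨⟨(f s').1, hS s'⟩, (f s').2⟩ := h
    have h3 := congrArg (fun z : (Σ i : Iio j, T i.1) => (⟨z.1.1, z.2⟩ : Sigma T)) h2
    exact h3
  refine h1.trans ?_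
  rw [mk_sigma]
  exact (sum_le_sum (fun i : Iio j => #(T i.1)) (fun i : Iio j => κ i.1) fun i => hT i.1).trans (hν j)

/-- lower bounds of chains together with a top element -/
theorem Fusion_lb {lam : Cardinal.{0}} {P : Type} [Preorder P] (hP : DC lam P) {J : Type}
    [LinearOrder J] (hJ : #(Option J) ≤ lam) (p0 : P) (M : J → P) (hM0 : ∀ j, M j ≤ p0)
    (hM : ∀ j' j, j' < j → M j ≤ M j') : ∃ p ≤ p0, ∀ j, p ≤ M j := by
  obtain ⟨m, hm⟩ := hP (Option J) (fun o => match o with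
    | none => p0
    | some a => M a) hJ ⟨none⟩ (by
      rintro (_ | a) (_ | b)
      · exact ⟨none, le_rfl, le_rfl⟩
      · exact ⟨some b, hM0 b, le_rfl⟩
      · exact ⟨some a, le_rfl, hM0 a⟩
      · rcases lt_trichotomy a b with h3 | h3 | h3
        · exact ⟨some b, hM a b h3, le_rfl⟩
        · exact ⟨some a, le_rfl, by
            change M a ≤ M b
            rw [h3]⟩
        · exact ⟨some a, le_rfl, hM b a h3⟩)
  exact ⟨m, hm none, fun j => hm (some j)⟩

/-- **Fusion.** `E j` is closed under lower bounds of families of size `ν j`, at least the sum of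
the `κ i`, `i < j`. For each `i` there are at most `κ i` tasks. A task `t : T i` can be achieved
by extending the coordinates after `i` and the `P`-part, staying inside `Inv i` if the `P`-part
was in `Inv i`. Then all tasks can be achieved at once. -/
theorem fusion {G : Type} [LinearOrder G] [WellFoundedLT G] {κ ν : G → Cardinal.{0}}
    {lam : Cardinal.{0}} (h0 : ∀ i, ℵ₀ ≤ κ i)
    (hν : ∀ j, Cardinal.sum (fun i : Iio j => κ i.1) ≤ ν j) (hν0 : ∀ j, ℵ₀ ≤ ν j)
    (hl : Cardinal.sum κ ≤ lam) {E : G → Type} [∀ j, Preorder (E j)]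
    (hE : ∀ j, DC (ν j) (E j)) {P : Type} [Preorder P] (Inv : G → Set P)
    (hInv : ∀ i j, i ≤ j → Inv i ⊆ Inv j)
    (hP : ∀ (i : G) (J : Type) [LinearOrder J] [WellFoundedLT J] [Nonempty J], #J ≤ lam →
      ∀ M : J → P, (∀ j' j, j' < j → M j ≤ M j') → (∀ j, M j ∈ Inv i) →
        ∃ p ∈ Inv i, ∀ j, p ≤ M j)
    (hP' : ∀ (J : Type) [LinearOrder J] [WellFoundedLT J] [Nonempty J], #J ≤ lam →
      ∀ M : J → P, (∀ j' j, j' < j → M j ≤ M j') → ∃ p, ∀ j, p ≤ M j)
    {T : G → Type} (hT : ∀ i, #(T i) ≤ κ i)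
    (D : ∀ i, T i → (∀ j : Ioi i, E j.1) → P → Prop)
    (hmono : ∀ i t g p g' p', D i t g p → g' ≤ g → p' ≤ p → D i t g' p')
    (e0 : ∀ j, E j) (p0 : P) (hp0 : ∀ i, p0 ∈ Inv i)
    (hstep : ∀ i t (g : ∀ j : Ioi i, E j.1), (∀ j, g j ≤ e0 j.1) → ∀ p ∈ Inv i, p ≤ p0 →
      ∃ g' ≤ g, ∃ p' ≤ p, p' ∈ Inv i ∧ D i t g' p') :
    ∃ e ≤ e0, ∃ p ≤ p0, ∀ i t, D i t (fun j => e j.1) p := by
  classical
  obtain ⟨_, _, hfst⟩ := Fusion_exists_order T
  have hJ : #(Sigma T) ≤ lam := by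
    rw [mk_sigma]
    exact (sum_le_sum _ _ fun i => hT i).trans hl
  let Nx : (x : Sigma T) → ((y : Sigma T) → y < x → (∀ j, E j) × P) → (∀ j, E j) × P → Prop :=
    fun x ih s => (∀ j, s.1 j ≤ e0 j) ∧ s.2 ≤ p0 ∧ s.2 ∈ Inv x.1 ∧
      (∀ y (hy : y < x), s.2 ≤ (ih y hy).2) ∧
      (∀ y (hy : y < x), ∀ j, x.1 < j → s.1 j ≤ (ih y hy).1 j) ∧
      D x.1 x.2 (fun j : Ioi x.1 => s.1 j.1) s.2
  let F : (x : Sigma T) → ((y : Sigma T) → y < x → (∀ j, E j) × P) → (∀ j, E j) × P :=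
    fun x ih => if h : ∃ s, Nx x ih s then h.choose else (e0, p0)
  let st : Sigma T → (∀ j, E j) × P := (wellFounded_lt (α := Sigma T)).fix F
  have hst : ∀ x, st x = F x fun y _ => st y := fun x => (wellFounded_lt (α := Sigma T)).fix_eq F x
  have key : ∀ x, Nx x (fun y _ => st y) (st x) := by
    intro x
    induction x using (wellFounded_lt (α := Sigma T)).induction with
    | _ x ih =>
      have hex : ∃ s, Nx x (fun y _ => st y) s := by
        -- the `P`-part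
        have hp : ∃ p ∈ Inv x.1, p ≤ p0 ∧ ∀ y < x, p ≤ (st y).2 := by
          by_cases hne : Nonempty (Iio x)
          · obtain ⟨p, hp1, hp2⟩ := hP x.1 (Iio x) ((mk_set_le _).trans hJ)
              (fun y => (st y.1).2)
              (fun y' y hy => (ih y.1 y.2).2.2.2.1 y'.1 hy)
              (fun y => hInv _ _ (hfst y.1 x y.2) (ih y.1 y.2).2.2.1)
            obtain ⟨y0⟩ := hne
            exact ⟨p, hp1, (hp2 y0).trans (ih y0.1 y0.2).2.1, fun y hy => hp2 ⟨y, hy⟩⟩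
          · refine ⟨p0, hp0 x.1, le_rfl, fun y hy => ?_⟩
            exact absurd ⟨⟨y, hy⟩⟩ hne
        obtain ⟨p, hpI, hpp, hpy⟩ := hp
        -- the coordinates
        have hg : ∀ j : Ioi x.1, ∃ g : E j.1, g ≤ e0 j.1 ∧ ∀ y : Iio x, g ≤ (st y.1).1 j.1 := by
          intro j
          have hj : x.1 < j.1 := j.2
          refine Fusion_lb (hE j.1) ?_ (e0 j.1) (fun y : Iio x => (st y.1).1 j.1) ?_ ?_
          · refine Fusion_card hν hν0 hT j.1 (Iio x) (fun y => y.1) Subtype.val_injective ?_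
            intro y
            exact (hfst y.1 x y.2).trans_lt hj
          · intro y
            exact (ih y.1 y.2).1 j.1
          · intro y' y hy
            exact (ih y.1 y.2).2.2.2.2.1 y'.1 hy j.1 ((hfst y.1 x y.2).trans_lt hj)
        choose g hg1 hg2 using hg
        obtain ⟨g', hg', p', hp', hpI', hD⟩ := hstep x.1 x.2 g hg1 p hpI hpp
        refine ⟨(fun j => if h : j ∈ Ioi x.1 then g' ⟨j, h⟩ else e0 j, p'), ?_, hp'.trans hpp,
          hpI', fun y hy => hp'.trans (hpy y hy), ?_, ?_⟩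
        · intro j
          change (if h : j ∈ Ioi x.1 then g' ⟨j, h⟩ else e0 j) ≤ e0 j
          split_ifs with h
          · exact (hg' ⟨j, h⟩).trans (hg1 ⟨j, h⟩)
          · exact le_rfl
        · intro y hy j hj
          change (if h : j ∈ Ioi x.1 then g' ⟨j, h⟩ else e0 j) ≤ (st y).1 j
          rw [dif_pos (show j ∈ Ioi x.1 from hj)]
          exact (hg' ⟨j, hj⟩).trans (hg2 ⟨j, hj⟩ ⟨y, hy⟩)
        · have he : (fun j : Ioi x.1 => (fun j => if h : j ∈ Ioi x.1 then g' ⟨j, h⟩ else e0 j :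
              ∀ j, E j) j.1) = g' := by
            funext j
            exact dif_pos j.2
          change D x.1 x.2 (fun j : Ioi x.1 => (fun j => if h : j ∈ Ioi x.1 then g' ⟨j, h⟩ else e0 j :
              ∀ j, E j) j.1) p'
          rw [he]
          exact hD
      have h1 : st x = hex.choose := by
        rw [hst x]
        exact dif_pos hex
      rw [h1]
      exact hex.choose_spec
  -- the end
  have he : ∀ j : G, ∃ e : E j, e ≤ e0 j ∧ ∀ y : {y : Sigma T // y.1 < j}, e ≤ (st y.1).1 j := by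
    intro j
    refine Fusion_lb (hE j) ?_ (e0 j) (fun y : {y : Sigma T // y.1 < j} => (st y.1).1 j) ?_ ?_
    · exact Fusion_card hν hν0 hT j _ (fun y => y.1) Subtype.val_injective fun y => y.2
    · intro y
      exact (key y.1).1 j
    · intro y' y hy
      exact (key y.1).2.2.2.2.1 y'.1 hy j y.2
  choose e he1 he2 using he
  have hp : ∃ p ≤ p0, ∀ x, p ≤ (st x).2 := by
    by_cases hne : Nonempty (Sigma T)
    · obtain ⟨p, hp⟩ := hP' (Sigma T) hJ (fun x => (st x).2)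
        (fun y' y hy => (key y).2.2.2.1 y' hy)
      obtain ⟨x0⟩ := hne
      exact ⟨p, (hp x0).trans (key x0).2.1, hp⟩
    · exact ⟨p0, le_rfl, fun x => absurd ⟨x⟩ hne⟩
  obtain ⟨p, hp1, hp2⟩ := hp
  refine ⟨e, he1, p, hp1, fun i t => ?_⟩
  refine hmono i t _ _ _ _ (key ⟨i, t⟩).2.2.2.2.2 ?_ (hp2 ⟨i, t⟩)
  intro j
  exact he2 j.1 ⟨⟨i, t⟩, j.2⟩

/-- Fusion without invariants. -/
theorem fusion' {G : Type} [LinearOrder G] [WellFoundedLT G] {κ ν : G → Cardinal.{0}}
    {lam : Cardinal.{0}} (h0 : ∀ i, ℵ₀ ≤ κ i)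
    (hν : ∀ j, Cardinal.sum (fun i : Iio j => κ i.1) ≤ ν j) (hν0 : ∀ j, ℵ₀ ≤ ν j)
    (hl : Cardinal.sum κ ≤ lam) {E : G → Type} [∀ j, Preorder (E j)]
    (hE : ∀ j, DC (ν j) (E j)) {P : Type} [Preorder P] (hP : DC lam P)
    {T : G → Type} (hT : ∀ i, #(T i) ≤ κ i)
    (D : ∀ i, T i → (∀ j : Ioi i, E j.1) → P → Prop)
    (hmono : ∀ i t g p g' p', D i t g p → g' ≤ g → p' ≤ p → D i t g' p')
    (e0 : ∀ j, E j) (p0 : P)
    (hstep : ∀ i t (g : ∀ j : Ioi i, E j.1), (∀ j, g j ≤ e0 j.1) → ∀ p ≤ p0,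
      ∃ g' ≤ g, ∃ p' ≤ p, D i t g' p') :
    ∃ e ≤ e0, ∃ p ≤ p0, ∀ i t, D i t (fun j => e j.1) p := by
  refine fusion h0 hν hν0 hl hE (fun _ => univ) (fun _ _ _ => subset_rfl) ?_ ?_ hT D hmono
    e0 p0 (fun _ => mem_univ _) (fun i t g hg p _ hp => ?_)
  · intro i J _ _ _ hJ M hM _
    obtain ⟨p, hp⟩ := hP.lb hJ M hM
    exact ⟨p, mem_univ _, hp⟩
  · intro J _ _ _ hJ M hM
    exact hP.lb hJ M hM
  · obtain ⟨g', hg, p', hp, h⟩ := hstep i t g hg p hp
    exact ⟨g', hg, p', hp, mem_univ _, h⟩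

end Pool.Agent.H638.ST
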