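import Mathlib
import Pool.Agent.H638.ST.Fusion

set_option autoImplicit false
set_option linter.unusedSectionVars false
set_option linter.unusedVariables false

namespace Pool.Agent.H638.ST

open Set Cardinal Pool.Agent.Helper669.Forcing

section

variable {G : Type} [LinearOrder G] {E : G → Type}

/-- glue the coordinates up to `i` and the coordinates after `i` -/
private noncomputable def coverGlue (i : G) (s : ∀ j : Iic i, E j.1) (g : ∀ j : Ioi i, E j.1)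
    (j : G) : E j :=
  open Classical in if h : j ≤ i then s ⟨j, h⟩ else g ⟨j, not_le.1 h⟩

private theorem coverGlue_pos {i : G} (s : ∀ j : Iic i, E j.1) (g : ∀ j : Ioi i, E j.1)
    {j : G} (h : j ≤ i) : coverGlue i s g j = s ⟨j, h⟩ := by
  simp only [coverGlue, dif_pos h]

private theorem coverGlue_neg {i : G} (s : ∀ j : Iic i, E j.1) (g : ∀ j : Ioi i, E j.1)
    {j : G} (h : i < j) : coverGlue i s g j = g ⟨j, h⟩ := by
  simp only [coverGlue, dif_neg (not_le.2 h)]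

private theorem coverGlue_le [∀ j, Preorder (E j)] {i : G} {s : ∀ j : Iic i, E j.1}
    {g : ∀ j : Ioi i, E j.1} {e : ∀ j, E j} (hs : ∀ j, s j ≤ e j.1) (hg : ∀ j, g j ≤ e j.1) :
    coverGlue i s g ≤ e := by
  intro j
  by_cases h : j ≤ i
  · simp only [coverGlue, dif_pos h]
    exact hs ⟨j, h⟩
  · simp only [coverGlue, dif_neg h]
    exact hg ⟨j, not_le.1 h⟩

private theorem coverGlue_mono [∀ j, Preorder (E j)] {i : G} {s s' : ∀ j : Iic i, E j.1}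
    {g g' : ∀ j : Ioi i, E j.1} (hs : s' ≤ s) (hg : g' ≤ g) :
    coverGlue i s' g' ≤ coverGlue i s g := by
  intro j
  by_cases h : j ≤ i
  · simp only [coverGlue, dif_pos h]
    exact hs ⟨j, h⟩
  · simp only [coverGlue, dif_neg h]
    exact hg ⟨j, not_le.1 h⟩

private theorem coverGlue_eta (i : G) (e : ∀ j, E j) :
    coverGlue i (fun j => e j.1) (fun j => e j.1) = e := by
  funext j
  by_cases h : j ≤ i
  · simp only [coverGlue, dif_pos h]
  · simp only [coverGlue, dif_neg h]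

end

private theorem cover_rank {G : Type} {κ : G → Cardinal.{0}} {Λ : Type}
    (hΛ : #Λ ≤ Cardinal.sum κ) : ∃ rk : Λ → G, ∀ i, #{ξ // rk ξ = i} ≤ κ i := by
  have h1 : #Λ ≤ #(Σ i, (κ i).out) := by
    rw [mk_sigma]
    simpa using hΛ
  obtain ⟨f⟩ := Cardinal.le_def _ _ |>.1 h1
  refine ⟨fun ξ => (f ξ).1, fun i => ?_⟩
  have h2 : #{ξ // (f ξ).1 = i} ≤ #(κ i).out := by
    have h3 : #{s : Σ i, (κ i).out // s.1 = i} = #(κ i).out :=
      mk_congr (Equiv.sigmaSubtype i)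
    rw [← h3]
    refine mk_le_of_injective
      (f := fun ξ : {ξ // (f ξ).1 = i} => (⟨f ξ.1, ξ.2⟩ : {s : Σ i, (κ i).out // s.1 = i})) ?_
    intro a b hab
    exact Subtype.ext (f.injective (congrArg Subtype.val hab))
  simpa using h2

/-- **Covering.** Every function of the extension by `L × (∏ E j) × P`, defined on a set of size
`lam`, has its values in a ground model set of size `lam`. -/
theorem cover {G : Type} [LinearOrder G] [WellFoundedLT G] {κ ν : G → Cardinal.{0}}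
    {lam : Cardinal.{0}} (h0 : ∀ i, ℵ₀ ≤ κ i)
    (hν : ∀ j, Cardinal.sum (fun i : Iio j => κ i.1) ≤ ν j) (hν0 : ∀ j, ℵ₀ ≤ ν j)
    (hl : Cardinal.sum κ ≤ lam) {E : G → Type} [∀ j, Preorder (E j)]
    (hE : ∀ j, DC (ν j) (E j)) {P : Type} [Preorder P] (hP : DC lam P)
    {L : Type} [Preorder L] (hL : ∀ i, #(L × ∀ j : Iic i, E j.1) ≤ κ i)
    {Λ Z : Type} (hΛ : #Λ ≤ Cardinal.sum κ) (g : Λ → Z → Set (L × ((∀ j, E j) × P)))
    (q : L × ((∀ j, E j) × P)) (hq : q ∈ IsFun g) :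
    ∃ q' ≤ q, ∃ x : Set Z, #x ≤ lam ∧
      ∀ ξ z, q' ∈ fimp (meets (g ξ z)) (fground (z ∈ x)) := by
  classical
  obtain ⟨rk, hrk⟩ := cover_rank hΛ
  let T : G → Type := fun i => {ξ : Λ // rk ξ = i} × (L × ∀ j : Iic i, E j.1)
  have hT : ∀ i, #(T i) ≤ κ i := by
    intro i
    change #({ξ : Λ // rk ξ = i} × (L × ∀ j : Iic i, E j.1)) ≤ κ i
    rw [mk_prod, lift_id, lift_id]
    calc #{ξ : Λ // rk ξ = i} * #(L × ∀ j : Iic i, E j.1) ≤ κ i * κ i :=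
          mul_le_mul' (hrk i) (hL i)
      _ = κ i := mul_eq_self (h0 i)
  let C : ∀ i, T i → Prop := fun i t => t.2.1 ≤ q.1 ∧ ∀ j : Iic i, t.2.2 j ≤ q.2.1 j.1
  let D : ∀ i, T i → (∀ j : Ioi i, E j.1) → P → Prop := fun i t g' p => C i t →
    ∃ l' ≤ t.2.1, ∃ s' ≤ t.2.2, ∃ z, (l', (coverGlue i s' g', p)) ∈ meets (g t.1.1 z)
  obtain ⟨e, he, p, hp, hD⟩ := fusion' h0 hν hν0 hl hE hP hT D (by
      intro i t g1 p1 g2 p2 h hg hp hC
      obtain ⟨l', hl', s', hs', z, hz⟩ := h hC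
      refine ⟨l', hl', s', hs', z, meets_dn hz ?_⟩
      exact ⟨le_rfl, coverGlue_mono le_rfl hg, hp⟩) q.2.1 q.2.2 (by
      intro i t g1 hg1 p1 hp1
      by_cases hC : C i t
      · have hc : (t.2.1, (coverGlue i t.2.2 g1, p1)) ≤ q :=
          ⟨hC.1, coverGlue_le hC.2 hg1, hp1⟩
        obtain ⟨c, hc', z, hz⟩ := IsFun.total (down_IsFun g q hq _ hc) t.1.1
        refine ⟨fun j => c.2.1 j.1, fun j => ?_, c.2.2, hc'.2.2, fun _ =>
          ⟨c.1, hc'.1, fun j => c.2.1 j.1, fun j => ?_, z, ?_⟩⟩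
        · have h1 : c.2.1 j.1 ≤ coverGlue i t.2.2 g1 j.1 := hc'.2.1 j.1
          rw [coverGlue_neg _ _ j.2] at h1
          exact h1
        · have h1 : c.2.1 j.1 ≤ coverGlue i t.2.2 g1 j.1 := hc'.2.1 j.1
          rw [coverGlue_pos _ _ j.2] at h1
          exact h1
        · rw [coverGlue_eta]
          exact hz
      · exact ⟨g1, le_rfl, p1, le_rfl, fun h => absurd h hC⟩)
  choose! l' hl' s' hs' z hz using hD
  refine ⟨(q.1, (e, p)), ⟨le_rfl, he, hp⟩,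
    {y | ∃ t : {t : (Σ i, T i) // C t.1 t.2}, z t.1.1 t.1.2 t.2 = y}, ?_, ?_⟩
  · calc #{y | ∃ t : {t : (Σ i, T i) // C t.1 t.2}, z t.1.1 t.1.2 t.2 = y}
        ≤ #{t : (Σ i, T i) // C t.1 t.2} := mk_range_le
      _ ≤ #(Σ i, T i) := mk_subtype_le _
      _ = Cardinal.sum fun i => #(T i) := mk_sigma _
      _ ≤ Cardinal.sum κ := sum_le_sum _ _ hT
      _ ≤ lam := hl
  · intro ξ y
    refine mem_fimp.2 fun c hc hcy => ?_
    let t : T (rk ξ) := (⟨ξ, rfl⟩, (c.1, fun j => c.2.1 j.1))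
    have hC : C (rk ξ) t := ⟨hc.1, fun j => (hc.2.1 j.1).trans (he j.1)⟩
    have h1 := hz (rk ξ) t hC
    let r : L × ((∀ j, E j) × P) :=
      (l' (rk ξ) t hC, (coverGlue (rk ξ) (s' (rk ξ) t hC) (fun j => c.2.1 j.1), c.2.2))
    have hr1 : r ≤ c := by
      refine ⟨hl' (rk ξ) t hC, coverGlue_le (fun j => ?_) (fun j => le_rfl), le_rfl⟩
      exact hs' (rk ξ) t hC j
    have hr2 : r ≤ (l' (rk ξ) t hC, (coverGlue (rk ξ) (s' (rk ξ) t hC) (fun j => e j.1), p)) :=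
      ⟨le_rfl, coverGlue_mono le_rfl (fun j => hc.2.1 j.1), hc.2.2⟩
    refine ⟨r, hr1, ?_⟩
    change y ∈ {y | ∃ t : {t : (Σ i, T i) // C t.1 t.2}, z t.1.1 t.1.2 t.2 = y}
    refine ⟨⟨⟨rk ξ, t⟩, hC⟩, ?_⟩
    have hrq : r ≤ q := hr1.trans (hc.trans ⟨le_rfl, he, hp⟩)
    exact IsFun.unique (down_IsFun g q hq _ hrq) (meets_dn h1 hr2) (meets_dn hcy hr1)

/-- the same without the factor `L` -/
theorem cover' {G : Type} [LinearOrder G] [WellFoundedLT G] {κ ν : G → Cardinal.{0}}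
    {lam : Cardinal.{0}} (h0 : ∀ i, ℵ₀ ≤ κ i)
    (hν : ∀ j, Cardinal.sum (fun i : Iio j => κ i.1) ≤ ν j) (hν0 : ∀ j, ℵ₀ ≤ ν j)
    (hl : Cardinal.sum κ ≤ lam) {E : G → Type} [∀ j, Preorder (E j)]
    (hE : ∀ j, DC (ν j) (E j)) {P : Type} [Preorder P] (hP : DC lam P)
    (hL : ∀ i, #(∀ j : Iic i, E j.1) ≤ κ i)
    {Λ Z : Type} (hΛ : #Λ ≤ Cardinal.sum κ) (g : Λ → Z → Set ((∀ j, E j) × P))
    (q : (∀ j, E j) × P) (hq : q ∈ IsFun g) :
    ∃ q' ≤ q, ∃ x : Set Z, #x ≤ lam ∧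
      ∀ ξ z, q' ∈ fimp (meets (g ξ z)) (fground (z ∈ x)) := by
  have hpj : Pj (fun c : Unit × ((∀ j, E j) × P) => c.2) := pj_snd
  obtain ⟨q', hq', x, hx, h⟩ := cover (L := Unit) h0 hν hν0 hl hE hP (fun i => by
      rw [mk_prod, lift_id, lift_id, mk_unit, one_mul]
      exact hL i) hΛ (fun ξ z => pb (fun c : Unit × ((∀ j, E j) × P) => c.2) (g ξ z)) ((), q)
    (pj_isFun hpj (q := ((), q)) hq)
  refine ⟨q'.2, hq'.2, x, hx, fun ξ z => mem_fimp.2 fun r hr hrz => ?_⟩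
  obtain ⟨c, hc, hcz⟩ := mem_fimp.1 (h ξ z) ((), r) ⟨le_rfl, hr⟩ ((mem_pb hpj).2 hrz)
  exact ⟨r, le_rfl, hcz⟩

end Pool.Agent.H638.ST
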