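import Mathlib
import Pool.Agent.H638.ST.RegDef

set_option autoImplicit false
set_option linter.unusedSectionVars false
set_option linter.unusedVariables false

namespace Pool.Agent.H638.ST

open Set Cardinal Pool.Agent.Helper669.Forcing

/-! # Transport along isomorphisms -/

section

variable {P Q : Type} [Preorder P] [Preorder Q]

theorem Iso_symm_le (e : Q ≃o P) {q : Q} {p : P} (h : p ≤ e q) : e.symm p ≤ q := by
  rw [← e.le_iff_le]
  simpa using h

theorem Iso_fnot (e : Q ≃o P) {φ : Set P} {φ' : Set Q} (h : φ' = e ⁻¹' φ) :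
    fnot φ' = (e ⁻¹' (fnot φ) : Set Q) := by
  subst h
  ext q
  constructor
  · intro h p hp hφ
    refine h (e.symm p) (Iso_symm_le e hp) ?_
    change e (e.symm p) ∈ φ
    rw [e.apply_symm_apply]
    exact hφ
  · intro h q' hq' hφ
    exact h (e q') (e.monotone hq') hφ

theorem Iso_fand (e : Q ≃o P) {φ ψ : Set P} {φ' ψ' : Set Q} (h : φ' = e ⁻¹' φ)
    (h' : ψ' = e ⁻¹' ψ) : fand φ' ψ' = (e ⁻¹' (fand φ ψ) : Set Q) := by
  subst h
  subst h'
  rfl

theorem Iso_fall (e : Q ≃o P) {ι : Sort*} {φ : ι → Set P} {φ' : ι → Set Q}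
    (h : ∀ i, φ' i = e ⁻¹' (φ i)) : fall φ' = (e ⁻¹' (fall φ) : Set Q) := by
  have h1 : φ' = fun i => e ⁻¹' (φ i) := funext h
  subst h1
  rfl

theorem Iso_fground (e : Q ≃o P) (h : Prop) :
    fground h = (e ⁻¹' (fground h) : Set Q) := rfl

theorem Iso_fimp (e : Q ≃o P) {φ ψ : Set P} {φ' ψ' : Set Q} (h : φ' = e ⁻¹' φ)
    (h' : ψ' = e ⁻¹' ψ) : fimp φ' ψ' = (e ⁻¹' (fimp φ ψ) : Set Q) :=
  Iso_fnot e (Iso_fand e h (Iso_fnot e h'))

theorem Iso_fex (e : Q ≃o P) {ι : Sort*} {φ : ι → Set P} {φ' : ι → Set Q}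
    (h : ∀ i, φ' i = e ⁻¹' (φ i)) : fex φ' = (e ⁻¹' (fex φ) : Set Q) :=
  Iso_fnot e (Iso_fall e fun i => Iso_fnot e (h i))

theorem Iso_fallN (e : Q ≃o P) {ι ι' : Sort*} {φ : ι → Set P} {φ' : ι' → Set Q} (σ : ι → ι')
    (hσ : Function.Surjective σ) (h : ∀ i, φ' (σ i) = e ⁻¹' (φ i)) :
    fall φ' = (e ⁻¹' (fall φ) : Set Q) := by
  ext q
  constructor
  · intro h1 i
    have h2 := h1 (σ i)
    rw [h i] at h2
    exact h2
  · intro h1 i'
    obtain ⟨i, rfl⟩ := hσ i'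
    rw [h i]
    exact h1 i

theorem Iso_fexN (e : Q ≃o P) {ι ι' : Sort*} {φ : ι → Set P} {φ' : ι' → Set Q} (σ : ι → ι')
    (hσ : Function.Surjective σ) (h : ∀ i, φ' (σ i) = e ⁻¹' (φ i)) :
    fex φ' = (e ⁻¹' (fex φ) : Set Q) :=
  Iso_fnot e (Iso_fallN e σ hσ fun i => Iso_fnot e (h i))

theorem Iso_meets (e : Q ≃o P) {N : Set P} {N' : Set Q} (h : N' = e ⁻¹' N) :
    meets N' = (e ⁻¹' (meets N) : Set Q) := by
  subst h
  ext q
  exact mem_iso_meets e

theorem Iso_feqv (e : Q ≃o P) {φ ψ : Set P} {φ' ψ' : Set Q} (h : φ' = e ⁻¹' φ)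
    (h' : ψ' = e ⁻¹' ψ) : feqv φ' ψ' = (e ⁻¹' (feqv φ ψ) : Set Q) :=
  Iso_fand e (Iso_fimp e h h') (Iso_fimp e h' h)

theorem Iso_surj1 (e : Q ≃o P) {X : Type} :
    Function.Surjective (fun (b : X → Set P) (x : X) => (e ⁻¹' (b x) : Set Q)) := by
  intro b
  refine ⟨fun x => e.symm ⁻¹' (b x), ?_⟩
  funext x
  ext q
  simp

theorem Iso_surj2 (e : Q ≃o P) {X Y : Type} :
    Function.Surjective (fun (b : X → Y → Set P) (x : X) (y : Y) => (e ⁻¹' (b x y) : Set Q)) := by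
  intro b
  refine ⟨fun x y => e.symm ⁻¹' (b x y), ?_⟩
  funext x y
  ext q
  simp

theorem Iso_isFun (e : Q ≃o P) {X Y : Type} (R : X → Y → Set P) :
    IsFun (fun x y => (e ⁻¹' (R x y) : Set Q)) = (e ⁻¹' (IsFun R) : Set Q) :=
  Iso_fand e (Iso_fall e fun _ => Iso_fex e fun _ => Iso_meets e rfl)
    (Iso_fall e fun _ => Iso_fall e fun _ => Iso_fall e fun _ =>
      Iso_fimp e (Iso_fand e (Iso_meets e rfl) (Iso_meets e rfl)) (Iso_fground e _))

theorem Iso_isOnto (e : Q ≃o P) {X Y : Type} (R : X → Y → Set P) :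
    IsOnto (fun x y => (e ⁻¹' (R x y) : Set Q)) = (e ⁻¹' (IsOnto R) : Set Q) :=
  Iso_fall e fun _ => Iso_fex e fun _ => Iso_meets e rfl

theorem Iso_cardIn_eq (e : Q ≃o P) (c : Ordinal.{0}) :
    IsCardIn Q c = (e ⁻¹' (IsCardIn P c) : Set Q) :=
  Iso_fand e (Iso_fground e _) (Iso_fall e fun _ => Iso_fall e fun _ =>
    Iso_fnot e (Iso_fexN e _ (Iso_surj2 e) fun f =>
      Iso_fand e (Iso_isFun e f) (Iso_isOnto e f)))

theorem Iso_regIn_eq (e : Q ≃o P) (c : Ordinal.{0}) :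
    IsRegIn Q c = (e ⁻¹' (IsRegIn P c) : Set Q) :=
  Iso_fand e (Iso_cardIn_eq e c) (Iso_fall e fun _ => Iso_fall e fun _ =>
    Iso_fallN e _ (Iso_surj2 e) fun f => Iso_fimp e (Iso_isFun e f)
      (Iso_fex e fun _ => Iso_fall e fun _ => Iso_fall e fun _ =>
        Iso_fimp e (Iso_meets e rfl) (Iso_fground e _)))

theorem iso_cardIn (e : Q ≃o P) (c : Ordinal.{0}) (q : Q) :
    q ∈ IsCardIn Q c ↔ e q ∈ IsCardIn P c := by
  rw [Iso_cardIn_eq e c]
  rfl

theorem iso_regIn (e : Q ≃o P) (c : Ordinal.{0}) (q : Q) :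
    q ∈ IsRegIn Q c ↔ e q ∈ IsRegIn P c := by
  rw [Iso_regIn_eq e c]
  rfl

theorem iso_cov (e : Q ≃o P) {lam : Cardinal.{0}} (h : Cov lam P) : Cov lam Q := by
  intro Z g' q hq
  obtain ⟨g, rfl⟩ := Iso_surj2 e g'
  rw [Iso_isFun e g] at hq
  obtain ⟨p, hp, x, hx, h1⟩ := h Z g (e q) hq
  refine ⟨e.symm p, Iso_symm_le e hp, x, hx, fun ξ z => ?_⟩
  have h2 : fimp (meets (e ⁻¹' (g ξ z) : Set Q)) (fground (z ∈ x)) =
      (e ⁻¹' (fimp (meets (g ξ z)) (fground (z ∈ x))) : Set Q) :=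
    Iso_fimp e (Iso_meets e rfl) (Iso_fground e _)
  change e.symm p ∈ fimp (meets (e ⁻¹' (g ξ z) : Set Q)) (fground (z ∈ x))
  rw [h2, Set.mem_preimage, e.apply_symm_apply]
  exact h1 ξ z

end

/-! ### Transport of coherent families -/

theorem iso_coh {P Q : Type} [Preorder P] [Preorder Q] (e : Q ≃o P) {lam : Cardinal.{0}}
    {Θ : Type} (F : Sm lam Θ → Ll lam → Nm P Θ) (q : Q) :
    q ∈ CohFam lam (fun x ξ t => (e ⁻¹' (F x ξ t) : Set Q)) ↔ e q ∈ CohFam lam F := by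
  have h : CohFam lam (fun x ξ t => (e ⁻¹' (F x ξ t) : Set Q)) =
      (e ⁻¹' (CohFam lam F) : Set Q) :=
    Iso_fall e fun _ => Iso_fall e fun _ => Iso_fall e fun _ => Iso_fall e fun _ =>
      Iso_fex e fun _ => Iso_fall e fun _ => Iso_fall e fun _ =>
        Iso_feqv e (Iso_meets e rfl) (Iso_meets e rfl)
  rw [h]
  rfl

theorem iso_cbr {P Q : Type} [Preorder P] [Preorder Q] (e : Q ≃o P) {lam : Cardinal.{0}}
    {Θ : Type} (F : Sm lam Θ → Ll lam → Nm P Θ) (q : Q) :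
    (q ∈ fex fun b : Nm Q Θ => CBr lam (fun x ξ t => (e ⁻¹' (F x ξ t) : Set Q)) b) ↔
      e q ∈ fex fun b : Nm P Θ => CBr lam F b := by
  have h : (fex fun b : Nm Q Θ => CBr lam (fun x ξ t => (e ⁻¹' (F x ξ t) : Set Q)) b) =
      (e ⁻¹' (fex fun b : Nm P Θ => CBr lam F b) : Set Q) :=
    Iso_fexN e _ (Iso_surj1 e) fun b => Iso_fall e fun _ => Iso_fex e fun _ =>
      Iso_fall e fun _ => Iso_fall e fun _ => Iso_feqv e (Iso_meets e rfl) (Iso_meets e rfl)
  rw [h]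
  rfl

/-- transport of branches along an isomorphism -/
theorem iso_isSy {P Q : Type} [Preorder P] [Preorder Q] (e : Q ≃o P) {K W I : Type}
    [LinearOrder K] (R : I → K → W → K → W → Set P) (q : Q) :
    q ∈ IsSy (fun l α ξ β ζ => (e ⁻¹' (R l α ξ β ζ))) ↔ e q ∈ IsSy R := by
  have h : IsSy (fun l α ξ β ζ => (e ⁻¹' (R l α ξ β ζ) : Set Q)) = (e ⁻¹' (IsSy R) : Set Q) :=
    Iso_fand e
      (Iso_fall e fun _ => Iso_fall e fun _ => Iso_fall e fun _ => Iso_fex e fun _ =>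
        Iso_fex e fun _ => Iso_fex e fun _ => Iso_meets e rfl)
      (Iso_fall e fun _ => Iso_fall e fun _ => Iso_fall e fun _ => Iso_fall e fun _ =>
        Iso_fall e fun _ => Iso_fall e fun _ => Iso_fall e fun _ => Iso_fall e fun _ =>
        Iso_fall e fun _ => Iso_fimp e (Iso_fand e (Iso_meets e rfl) (Iso_meets e rfl))
          (Iso_meets e rfl))
  rw [h]
  rfl

theorem iso_hasCb {P Q : Type} [Preorder P] [Preorder Q] (e : Q ≃o P) {K W : Type}
    [LinearOrder K] (R : K → W → K → W → Set P) (q : Q) :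
    q ∈ HasCb (fun α ξ β ζ => (e ⁻¹' (R α ξ β ζ))) ↔ e q ∈ HasCb R := by
  have h : HasCb (fun α ξ β ζ => (e ⁻¹' (R α ξ β ζ) : Set Q)) = (e ⁻¹' (HasCb R) : Set Q) :=
    Iso_fexN e _ (Iso_surj2 e) fun B => Iso_fand e
      (Iso_fall e fun _ => Iso_fex e fun _ => Iso_fand e (Iso_fground e _)
        (Iso_fex e fun _ => Iso_meets e rfl))
      (Iso_fall e fun _ => Iso_fall e fun _ => Iso_fall e fun _ => Iso_fall e fun _ =>
        Iso_fall e fun _ => Iso_fimp e (Iso_fand e (Iso_meets e rfl) (Iso_meets e rfl))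
          (Iso_meets e rfl))
  rw [h]
  rfl

/-- The product, split at a successor index `j` of `i`. -/
theorem exists_split {G : Type} [LinearOrder G] {E : G → Type} [∀ j, Preorder (E j)] (P : Type)
    [Preorder P] {i j : G} (hij : i < j) (hj : ∀ z < j, z ≤ i) :
    Nonempty (((∀ z : Iic i, E z.1) × (E j × ((∀ z : Ioi j, E z.1) × P))) ≃o
      ((∀ z, E z) × P)) := by
  classical
  have hcase : ∀ z, z ≤ i ∨ z = j ∨ j < z := by
    intro z
    rcases lt_trichotomy z j with h | h | h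
    · exact Or.inl (hj z h)
    · exact Or.inr (Or.inl h)
    · exact Or.inr (Or.inr h)
  let B : ((∀ z, E z) × P) → ((∀ z : Iic i, E z.1) × (E j × ((∀ z : Ioi j, E z.1) × P))) :=
    fun x => (fun z => x.1 z.1, (x.1 j, (fun z => x.1 z.1, x.2)))
  have hB : Function.Bijective B := by
    constructor
    · rintro ⟨f, p⟩ ⟨g, q⟩ h
      have h1 : (fun z : Iic i => f z.1) = fun z : Iic i => g z.1 := congrArg Prod.fst h
      have h2 : f j = g j := congrArg (fun x => x.2.1) h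
      have h3 : (fun z : Ioi j => f z.1) = fun z : Ioi j => g z.1 :=
        congrArg (fun x => x.2.2.1) h
      have h4 : p = q := congrArg (fun x => x.2.2.2) h
      refine Prod.ext (funext fun z => ?_) h4
      rcases hcase z with h | h | h
      · exact congrFun h1 ⟨z, h⟩
      · subst h
        exact h2
      · exact congrFun h3 ⟨z, h⟩
    · rintro ⟨a, b, c, p⟩
      have hex : ∃ f : ∀ z, E z, (∀ z : Iic i, f z.1 = a z) ∧ f j = b ∧
          ∀ z : Ioi j, f z.1 = c z := by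
        have key : ∀ z, ∃ y : E z, (∀ h : z ≤ i, y = a ⟨z, h⟩) ∧ (∀ h : j = z, y = h ▸ b) ∧
            ∀ h : j < z, y = c ⟨z, h⟩ := by
          intro z
          rcases hcase z with h | h | h
          · exact ⟨a ⟨z, h⟩, fun _ => rfl, fun h' => absurd (h' ▸ h) (not_le.2 hij),
              fun h' => absurd (h'.trans_le h) (lt_asymm hij)⟩
          · subst h
            exact ⟨b, fun h' => absurd h' (not_le.2 hij), fun _ => rfl,
              fun h' => absurd h' (lt_irrefl _)⟩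
          · exact ⟨c ⟨z, h⟩, fun h' => absurd (h.trans_le h') (lt_asymm hij),
              fun h' => absurd h' h.ne, fun _ => rfl⟩
        choose f hf using key
        exact ⟨f, fun z => (hf z.1).1 z.2, (hf j).2.1 rfl, fun z => (hf z.1).2.2 z.2⟩
      obtain ⟨f, h1, h2, h3⟩ := hex
      refine ⟨(f, p), ?_⟩
      change ((fun z : Iic i => f z.1), (f j, ((fun z : Ioi j => f z.1), p))) = (a, b, c, p)
      rw [show (fun z : Iic i => f z.1) = a from funext h1, h2,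
        show (fun z : Ioi j => f z.1) = c from funext h3]
  have hle : ∀ x y, B x ≤ B y ↔ x ≤ y := by
    rintro ⟨f, p⟩ ⟨g, q⟩
    constructor
    · rintro ⟨h1, h2, h3, h4⟩
      refine ⟨fun z => ?_, h4⟩
      rcases hcase z with h | h | h
      · exact h1 ⟨z, h⟩
      · subst h
        exact h2
      · exact h3 ⟨z, h⟩
    · rintro ⟨h1, h2⟩
      exact ⟨fun z => h1 z.1, h1 j, fun z => h1 z.1, h2⟩
  let e : ((∀ z, E z) × P) ≃o
      ((∀ z : Iic i, E z.1) × (E j × ((∀ z : Ioi j, E z.1) × P))) :=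
    { toEquiv := Equiv.ofBijective B hB
      map_rel_iff' := fun {x y} => hle x y }
  exact ⟨e.symm⟩

end Pool.Agent.H638.ST
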