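import Mathlib
import Pool.Agent.H638.ST.Uf

set_option autoImplicit false
set_option linter.unusedSectionVars false
set_option linter.unusedVariables false

namespace Pool.Agent.H638.ST

open Set Cardinal Pool.Agent.Helper669.Forcing

/-! # Names of normal ultrafilters -/

section

variable {H X : Type} [Preorder H] {κ : Cardinal.{0}} {U : (Pk κ X → Set H) → Set H} {q r : H}

theorem nuf_fine (h : q ∈ IsNuf κ U) (hr : r ≤ q) (x : X) :
    r ∈ meets (U fun s => fground (x ∈ s.1)) := meets_dn (h.2.1 x) hr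

/-- normality -/
theorem nuf_normal (h : q ∈ IsNuf κ U) (hr : r ≤ q) (g : Pk κ X → X → Set H)
    (hg : r ∈ meets (U fun s => fex fun x : X => fand (fground (x ∈ s.1)) (meets (g s x)))) :
    ∃ r' ≤ r, ∃ x : X, r' ∈ meets (U fun s => meets (g s x)) := by
  obtain ⟨r1, hr1, h1⟩ := mem_fimp.1 (h.2.2 g) r hr hg
  obtain ⟨r2, hr2, x, h2⟩ := mem_fex.1 h1 r1 le_rfl
  exact ⟨r2, hr2.trans hr1, x, h2⟩

end

section

variable {lam k : Cardinal.{0}}

/-- the part of `s` in `Kl lam` -/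
def sK (s : Pk k (Kl lam ⊕ Ll lam)) : Set (Kl lam) := {a | Sum.inl a ∈ s.1}

/-- the part of `s` in `Ll lam` -/
def sL (s : Pk k (Kl lam ⊕ Ll lam)) : Set (Ll lam) := {a | Sum.inr a ∈ s.1}

/-- good `s` -/
structure Gd (γ χ : Cardinal.{0}) (s : Pk k (Kl lam ⊕ Ll lam)) : Prop where
  ini : ∀ β ∈ sK s, #{a // a ∈ sK s ∧ a < β} ≤ #(sL s)
  cof : ∀ g : sL s → sK s, ∃ a ∈ sK s, ∀ ξ, (g ξ).1 < a
  inf : ℵ₀ ≤ #(sL s)
  ge : χ ≤ #(sL s)
  ge' : γ ≤ #(sL s)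
  pow : ∀ ν < γ, #(sL s) ^ ν ≤ #(sL s)

end

end Pool.Agent.H638.ST
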