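import Mathlib
import Pool.Agent.H638.ST.NufDef

set_option autoImplicit false
set_option linter.unusedSectionVars false
set_option linter.unusedVariables false

namespace Pool.Agent.H638.ST

open Set Cardinal Pool.Agent.Helper669.Forcing

section

variable {lam k : Cardinal.{0}}

/-- **Data for good `s`.** -/
theorem exists_data {γ χ : Cardinal.{0}} {s : Pk k (Kl lam ⊕ Ll lam)} (hs : Gd γ χ s)
    {H B D G : Type} [Preorder H] [Preorder B] [Preorder D] (hG : #G ≤ γ)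
    (hB : #B ≤ #(sL s)) (hD : DC #(sL s) D) (hH : DC k H)
    (E : Kl lam → Ll lam → Kl lam → Ll lam → Set ((B × D) × H)) (b0 : B) (d0 : D) (q : H)
    (hE : ((b0, d0), q) ∈ IsTr E) (rk : Ll lam → G) (ρ : Kl lam) (hρ : ∀ a ∈ sK s, a ≤ ρ)
    (ζ : Ll lam) :
    ∃ q' ≤ q, ∃ i : G, ∃ b ≤ b0, ∃ S ⊆ sK s, (∀ a ∈ sK s, ∃ a' ∈ S, a ≤ a') ∧
      ∃ (ξ : Kl lam → Ll lam) (d : Kl lam → D), (∀ a ∈ S, d a ≤ d0) ∧
        (∀ a ∈ S, ∀ a' ∈ S, a ≤ a' → d a' ≤ d a) ∧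
        ∀ a ∈ S, rk (ξ a) = i ∧ ((b, d a), q') ∈ meets (E a (ξ a) ρ ζ) := by
  classical
  -- sizes
  have hLk : #(sL s) < k := by
    refine lt_of_le_of_lt ?_ s.2
    refine mk_le_of_injective (f := fun x : sL s => (⟨Sum.inr x.1, x.2⟩ : s.1)) ?_
    intro x y hxy
    have h1 := congrArg Subtype.val hxy
    exact Subtype.ext (Sum.inr_injective h1)
  have hJk : #{a // a ∈ sK s} ≤ k := by
    refine le_trans ?_ s.2.le
    refine mk_le_of_injective (f := fun x : {a // a ∈ sK s} => (⟨Sum.inl x.1, x.2⟩ : s.1)) ?_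
    intro x y hxy
    have h1 := congrArg Subtype.val hxy
    exact Subtype.ext (Sum.inl_injective h1)
  have : WellFoundedLT {a // a ∈ sK s} := inferInstance
  have hJ : ∀ j : {a // a ∈ sK s}, #(Iio j) ≤ #(sL s) := by
    intro j
    refine le_trans ?_ (hs.ini j.1 j.2)
    refine mk_le_of_injective
      (f := fun x : Iio j => (⟨x.1.1, x.1.2, x.2⟩ : {a // a ∈ sK s ∧ a < j.1})) ?_
    intro x y hxy
    have h1 := congrArg Subtype.val hxy
    exact Subtype.ext (Subtype.ext h1)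
  have hDH : DC #(sL s) (D × H) := hD.prod (hH.mono hLk.le)
  obtain ⟨M, hM1, hM2, hM3⟩ := exists_chain hs.inf hDH hJ (d0, q)
    (fun j m m' => ∃ b ≤ b0, ∃ ξ, ((b, m'.1), m'.2) ∈ meets (E j.1 ξ ρ ζ)) (by
      intro j m hm
      obtain ⟨r, hr, ξ, h⟩ := mem_fex.1 (hE.1 j.1 ρ (hρ _ j.2) ζ) ((b0, m.1), m.2)
        ⟨⟨le_rfl, hm.1⟩, hm.2⟩
      exact ⟨(r.1.2, r.2), ⟨hr.1.2, hr.2⟩, r.1.1, hr.1.1, ξ, h⟩)
  by_cases hne : Nonempty {a // a ∈ sK s}
  · have hM4 : ∀ j : {a // a ∈ sK s}, ∃ b ≤ b0, ∃ ξ,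
        ((b, (M j).1), (M j).2) ∈ meets (E j.1 ξ ρ ζ) := by
      intro j
      obtain ⟨m, _, _, _, h⟩ := hM3 j
      exact h
    choose b hb ξ hξ using hM4
    obtain ⟨q', hq'⟩ := hH.lb hJk (fun j => (M j).2) (fun j' j h => (hM2 j' j h).2)
    have hq'q : q' ≤ q := (hq' hne.some).trans (hM1 hne.some).2
    let φ : {a // a ∈ sK s} → B × G := fun j => (b j, rk (ξ j))
    have hBG : #(B × G) ≤ #(sL s) := by
      rw [mk_prod, lift_id, lift_id]
      exact (mul_le_mul' hB (hG.trans hs.ge')).trans (mul_eq_self hs.inf).le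
    have hcl : ∃ p : B × G, ∀ a ∈ sK s, ∃ a', ∃ h : a' ∈ sK s, φ ⟨a', h⟩ = p ∧ a ≤ a' := by
      by_contra hcon
      push Not at hcon
      choose u hu1 hu2 using hcon
      have : Nonempty (B × G) := ⟨(b0, rk ζ)⟩
      obtain ⟨f⟩ := hBG
      obtain ⟨a, ha, ha'⟩ := hs.cof (fun x => ⟨u (Function.invFun f x), hu1 _⟩)
      obtain ⟨x, hx⟩ := Function.invFun_surjective f.injective (φ ⟨a, ha⟩)
      have h1 := ha' x
      simp only [hx] at h1
      exact absurd h1.le (not_le.2 (hu2 (φ ⟨a, ha⟩) a ha rfl))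
    obtain ⟨p, hp⟩ := hcl
    obtain ⟨a0, ha0, h00, _⟩ := hp hne.some.1 hne.some.2
    refine ⟨q', hq'q, p.2, p.1, ?_, {a | ∃ h : a ∈ sK s, φ ⟨a, h⟩ = p}, ?_, ?_,
      fun a => if h : a ∈ sK s then ξ ⟨a, h⟩ else ζ,
      fun a => if h : a ∈ sK s then (M ⟨a, h⟩).1 else d0, ?_, ?_, ?_⟩
    · rw [← h00]
      exact hb _
    · rintro a ⟨h, _⟩
      exact h
    · intro a ha
      obtain ⟨a', h, h1, h2⟩ := hp a ha
      exact ⟨a', ⟨h, h1⟩, h2⟩
    · rintro a ⟨h, _⟩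
      simp only [dif_pos h]
      exact (hM1 _).1
    · rintro a ⟨h, _⟩ a' ⟨h', _⟩ hle
      simp only [dif_pos h, dif_pos h']
      rcases hle.lt_or_eq with h1 | h1
      · exact (hM2 ⟨a, h⟩ ⟨a', h'⟩ h1).1
      · subst h1
        exact le_rfl
    · rintro a ⟨h, h1⟩
      simp only [dif_pos h]
      refine ⟨congrArg Prod.snd h1, ?_⟩
      have h2 : b ⟨a, h⟩ = p.1 := congrArg Prod.fst h1
      rw [← h2]
      exact meets_dn (hξ ⟨a, h⟩) ⟨le_rfl, hq' _⟩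
  · refine ⟨q, le_rfl, rk ζ, b0, le_rfl, ∅, empty_subset _, ?_, fun _ => ζ, fun _ => d0, ?_, ?_, ?_⟩
    · intro a ha
      exact absurd ⟨⟨a, ha⟩⟩ hne
    · intro a ha
      exact absurd ha (notMem_empty a)
    · intro a ha
      exact absurd ha (notMem_empty a)
    · intro a ha
      exact absurd ha (notMem_empty a)

end

end Pool.Agent.H638.ST
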