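import Mathlib
import Pool.Agent.H638.ST.NufDef
import Pool.Agent.H638.ST.Card

set_option autoImplicit false
set_option linter.unusedSectionVars false
set_option linter.unusedVariables false

namespace Pool.Agent.H638.ST

open Set Cardinal Pool.Agent.Helper669.Forcing

/-! ### Ground model statements about almost all elements -/

section

variable {H X : Type} [Preorder H] {κ : Cardinal.{0}} {U : (X → Set H) → Set H} {q r : H}

theorem nufGood_mono (h : q ∈ IsUfn κ U) (hr : r ≤ q) {A A' : X → Prop}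
    (hA : r ∈ meets (U fun s => fground (A s))) (hs : ∀ s, A s → A' s) :
    r ∈ meets (U fun s => fground (A' s)) :=
  ufn_mono h hr hA fun s r' _ h' => ⟨r', le_rfl, mem_meets_fground.2 (hs s (mem_meets_fground.1 h'))⟩

theorem nufGood_ne (h : q ∈ IsUfn κ U) (hr : r ≤ q) {A : X → Prop}
    (hA : r ∈ meets (U fun s => fground (A s))) : ∃ s, A s := by
  obtain ⟨r', _, s, hs⟩ := ufn_ne h hr hA
  exact ⟨s, mem_meets_fground.1 hs⟩

theorem nufGood_inter (h : q ∈ IsUfn κ U) (hr : r ≤ q) {I : Type} (hI : #I < κ)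
    {A : I → X → Prop} (hA : ∀ i, r ∈ meets (U fun s => fground (A i s))) :
    r ∈ meets (U fun s => fground (∀ i, A i s)) :=
  ufn_mono h hr (ufn_inter h hr hI (fun i s => fground (A i s)) hA) fun s r' _ h' => by
    refine ⟨r', le_rfl, mem_meets_fground.2 fun i => ?_⟩
    obtain ⟨r1, hr1, r2, hr2, h12⟩ := h' r' le_rfl
    exact mem_meets_fground.1 (hr2 i)

theorem nufGood_and (h : q ∈ IsUfn κ U) (hκ : ℵ₀ ≤ κ) (hr : r ≤ q) {A A' : X → Prop}
    (hA : r ∈ meets (U fun s => fground (A s))) (hA' : r ∈ meets (U fun s => fground (A' s))) :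
    r ∈ meets (U fun s => fground (A s ∧ A' s)) := by
  have h1 := nufGood_inter h hr (I := Bool) (A := fun b s => cond b (A s) (A' s))
    ((lt_aleph0_of_finite _).trans_le hκ) (by
      rintro (_ | _)
      · exact hA'
      · exact hA)
  exact nufGood_mono h hr h1 fun s hs => ⟨hs true, hs false⟩

/-- proof by contradiction -/
theorem nufGood_by_contra (h : q ∈ IsUfn κ U) {A : X → Prop}
    (hA : ∀ r ≤ q, r ∉ meets (U fun s => fground (¬ A s))) :
    q ∈ meets (U fun s => fground (A s)) := by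
  refine meets_of_dense fun q' hq' => ?_
  obtain ⟨r, hr, h1 | h1⟩ := ufn_ultra h hq' (fun s => fground (A s))
  · exact ⟨r, hr, h1⟩
  · exfalso
    refine hA r (hr.trans hq') (ufn_mono h (hr.trans hq') h1 fun s r' _ h' => ?_)
    refine ⟨r', le_rfl, mem_meets_fground.2 fun hs => ?_⟩
    obtain ⟨r1, hr1, r2, hr2, h12⟩ := h' r' le_rfl
    exact hr2 r2 le_rfl (mem_meets_fground.2 hs)

end

section

variable {H X : Type} [Preorder H] {κ : Cardinal.{0}} {U : (Pk κ X → Set H) → Set H} {q r : H}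

/-- normality for ground model statements -/
theorem nufGood_normal (h : q ∈ IsNuf κ U) (hr : r ≤ q) {G : Pk κ X → X → Prop}
    (hg : r ∈ meets (U fun s => fground (∃ x ∈ s.1, G s x))) :
    ∃ r' ≤ r, ∃ x : X, r' ∈ meets (U fun s => fground (G s x)) := by
  obtain ⟨r', hr', x, h1⟩ := nuf_normal h hr (fun s x => fground (G s x))
    (ufn_mono h.1 hr hg fun s r1 _ h1 => by
      obtain ⟨x, hx, hG⟩ := mem_meets_fground.1 h1
      exact ⟨r1, le_rfl, meets_of_mem (mem_fex.2 fun r2 hr2 =>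
        ⟨r2, le_rfl, x, hx, mem_meets_fground.2 hG⟩)⟩)
  refine ⟨r', hr', x, ufn_mono h.1 (hr'.trans hr) h1 fun s r1 _ h2 => ?_⟩
  obtain ⟨r2, _, r3, hr3, _⟩ := h2 r1 le_rfl
  exact ⟨r1, le_rfl, mem_meets_fground.2 (mem_meets_fground.1 hr3)⟩

theorem nufGood_fine (h : q ∈ IsNuf κ U) (hr : r ≤ q) (x : X) :
    r ∈ meets (U fun s => fground (x ∈ s.1)) := nuf_fine h hr x

end

section

variable {lam k : Cardinal.{0}} {H : Type} [Preorder H]
  {U : (Pk k (Kl lam ⊕ Ll lam) → Set H) → Set H} {q : H}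

theorem nufGood_mk_Ll (lam : Cardinal.{0}) : #(Ll lam) = lam := mk_ord_toType lam

/-- the clause `ini` -/
theorem nufGood_ini (hk : ℵ₀ ≤ k) (hkl : k ≤ lam) (hU : q ∈ IsNuf k U) :
    q ∈ meets (U fun s => fground (∀ β ∈ sK s, #{a // a ∈ sK s ∧ a < β} ≤ #(sL s))) := by
  classical
  have h0 : ∀ β : Kl lam, ∃ j : Kl lam → Ll lam, InjOn j (Iio β) := by
    intro β
    have h1 : #(Iio β) ≤ #(Ll lam) := by
      rw [nufGood_mk_Ll]
      exact iio_Kl β
    obtain ⟨j⟩ := h1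
    have hne : Nonempty (Ll lam) := by
      rw [← mk_ne_zero_iff, nufGood_mk_Ll]
      exact (aleph0_pos.trans_le (hk.trans hkl)).ne'
    obtain ⟨x0⟩ := hne
    refine ⟨fun a => if ha : a ∈ Iio β then j ⟨a, ha⟩ else x0, fun a ha b hb hab => ?_⟩
    simp only [dif_pos ha, dif_pos hb] at hab
    exact congrArg Subtype.val (j.injective hab)
  choose J hJ using h0
  have key : q ∈ meets (U fun s => fground (∀ β ∈ sK s, ∀ a ∈ sK s, a < β → J β a ∈ sL s)) := by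
    refine nufGood_by_contra hU.1 fun r hr hbad => ?_
    obtain ⟨r1, hr1, x, h1⟩ := nufGood_normal hU hr
      (G := fun s x => ∃ β, x = Sum.inl β ∧ ∃ a ∈ sK s, a < β ∧ J β a ∉ sL s)
      (nufGood_mono hU.1 hr hbad fun s hs => by
        push Not at hs
        obtain ⟨β, hβ, a, ha, hab, hJa⟩ := hs
        exact ⟨Sum.inl β, hβ, β, rfl, a, ha, hab, hJa⟩)
    obtain ⟨_, β, rfl, _⟩ := nufGood_ne hU.1 (hr1.trans hr) h1
    obtain ⟨r2, hr2, y, h2⟩ := nufGood_normal hU (hr1.trans hr)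
      (G := fun s y => ∃ a, y = Sum.inl a ∧ a < β ∧ J β a ∉ sL s)
      (nufGood_mono hU.1 (hr1.trans hr) h1 fun s hs => by
        obtain ⟨β', hβ', a, ha, hab, hJa⟩ := hs
        rw [Sum.inl.inj hβ']
        exact ⟨Sum.inl a, ha, a, rfl, hab, hJa⟩)
    obtain ⟨_, a, rfl, _⟩ := nufGood_ne hU.1 (hr2.trans (hr1.trans hr)) h2
    obtain ⟨s, ⟨a', ha', _, hJa⟩, hs⟩ := nufGood_ne hU.1 (hr2.trans (hr1.trans hr))
      (nufGood_and hU.1 hk (hr2.trans (hr1.trans hr)) h2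
        (nufGood_fine hU (hr2.trans (hr1.trans hr)) (Sum.inr (J β a))))
    rw [Sum.inl.inj ha'] at hs
    exact hJa hs
  refine nufGood_mono hU.1 le_rfl key fun s hs β hβ => ?_
  refine mk_le_of_injective (f := fun a => ⟨J β a.1, hs β hβ a.1 a.2.1 a.2.2⟩) ?_
  rintro ⟨a, ha, haβ⟩ ⟨b, hb, hbβ⟩ hab
  have h3 : J β a = J β b := congrArg Subtype.val hab
  exact Subtype.ext (hJ β haβ hbβ h3)

/-- the clause `cof` -/
theorem nufGood_cof (hk : ℵ₀ ≤ k) (hU : q ∈ IsNuf k U)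
    (hb : ∀ (g : Ll lam → Kl lam → Set H) (q : H), q ∈ IsFun g → ∃ q' ≤ q, ∃ a : Kl lam,
      ∀ ξ b, q' ∈ fimp (meets (g ξ b)) (fground (b < a))) :
    q ∈ meets (U fun s => fground (∀ g : sL s → sK s, ∃ a ∈ sK s, ∀ ξ, (g ξ).1 < a)) := by
  classical
  refine nufGood_by_contra hU.1 fun r hr hbad => ?_
  let bad : Pk k (Kl lam ⊕ Ll lam) → Prop := fun s =>
    ∃ g : sL s → sK s, ∀ a ∈ sK s, ∃ ξ, ¬ (g ξ).1 < a
  have hbad' : r ∈ meets (U fun s => fground (bad s)) :=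
    nufGood_mono hU.1 hr hbad fun s hs => by
      push Not at hs
      obtain ⟨g, hg⟩ := hs
      exact ⟨g, fun a ha => by
        obtain ⟨ξ, hξ⟩ := hg a ha
        exact ⟨ξ, not_lt.2 hξ⟩⟩
  let R : Pk k (Kl lam ⊕ Ll lam) → Ll lam → Kl lam → Prop := fun s ξ a =>
    ∃ (hb : bad s) (hξ : ξ ∈ sL s), (hb.choose ⟨ξ, hξ⟩).1 = a
  have hRu : ∀ s ξ a a', R s ξ a → R s ξ a' → a = a' := by
    rintro s ξ a a' ⟨h1, h2, h3⟩ ⟨h4, h5, h6⟩
    rw [← h3, ← h6]
  -- densely, the value at `ξ` is constant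
  have hval : ∀ ξ : Ll lam, ∀ r1 ≤ r, ∃ r2 ≤ r1, ∃ a, r2 ∈ meets (U fun s => fground (R s ξ a)) := by
    intro ξ r1 hr1
    have h1 := nufGood_and hU.1 hk (hr1.trans hr) (meets_dn hbad' hr1)
      (nufGood_fine hU (hr1.trans hr) (Sum.inr ξ))
    obtain ⟨r2, hr2, x, h2⟩ := nufGood_normal hU (hr1.trans hr)
      (G := fun s x => ∃ a, x = Sum.inl a ∧ R s ξ a)
      (nufGood_mono hU.1 (hr1.trans hr) h1 fun s hs => by
        obtain ⟨hb1, hξ⟩ := hs
        exact ⟨Sum.inl (hb1.choose ⟨ξ, hξ⟩).1, (hb1.choose ⟨ξ, hξ⟩).2, _, rfl, hb1, hξ, rfl⟩)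
    obtain ⟨_, a, rfl, _⟩ := nufGood_ne hU.1 (hr2.trans (hr1.trans hr)) h2
    refine ⟨r2, hr2, a, nufGood_mono hU.1 (hr2.trans (hr1.trans hr)) h2 fun s hs => ?_⟩
    obtain ⟨a', ha', hR⟩ := hs
    rw [Sum.inl.inj ha']
    exact hR
  let g : Ll lam → Kl lam → Set H := fun ξ a =>
    {p | p ≤ r ∧ p ∈ meets (U fun s => fground (R s ξ a))}
  have hgd : ∀ ξ a, Down (g ξ a) := fun ξ a p hp p' hp' => ⟨hp'.trans hp.1, meets_dn hp.2 hp'⟩
  have hfun : r ∈ IsFun g := by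
    refine ⟨fun ξ => mem_fex.2 fun r1 hr1 => ?_, fun ξ a a' => mem_fimp.2 fun r1 hr1 h1 => ?_⟩
    · obtain ⟨r2, hr2, a, h2⟩ := hval ξ r1 hr1
      exact ⟨r2, hr2, a, meets_of_mem ⟨hr2.trans hr1, h2⟩⟩
    · obtain ⟨r2, hr2, h2⟩ := exists_of_meets (hgd ξ a) h1.1
      obtain ⟨r3, hr3, h3⟩ := exists_of_meets (hgd ξ a') (meets_dn h1.2 hr2)
      have h4 := hgd ξ a r2 h2 r3 hr3
      obtain ⟨s, h5, h6⟩ := nufGood_ne hU.1 (h3.1.trans hr)
        (nufGood_and hU.1 hk (h3.1.trans hr) h4.2 h3.2)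
      exact ⟨r1, le_rfl, hRu s ξ a a' h5 h6⟩
  obtain ⟨r', hr', a0, ha0⟩ := hb g r hfun
  have h1 := nufGood_and hU.1 hk (hr'.trans hr) (meets_dn hbad' hr')
      (nufGood_fine hU (hr'.trans hr) (Sum.inl a0))
  obtain ⟨r1, hr1, x, h2⟩ := nufGood_normal hU (hr'.trans hr)
      (G := fun s x => ∃ ξ, x = Sum.inr ξ ∧ ∃ b, R s ξ b ∧ ¬ b < a0)
      (nufGood_mono hU.1 (hr'.trans hr) h1 fun s hs => by
        obtain ⟨hb1, ha⟩ := hs
        obtain ⟨ξ, hξ⟩ := hb1.choose_spec a0 ha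
        exact ⟨Sum.inr ξ.1, ξ.2, ξ.1, rfl, _, ⟨hb1, ξ.2, rfl⟩, hξ⟩)
  obtain ⟨_, ξ, rfl, _⟩ := nufGood_ne hU.1 (hr1.trans (hr'.trans hr)) h2
  obtain ⟨r2, hr2, b, h3⟩ := hval ξ r1 (hr1.trans hr')
  have h4 : r2 ∈ meets (g ξ b) := meets_of_mem ⟨hr2.trans (hr1.trans hr'), h3⟩
  obtain ⟨_, _, h5⟩ := mem_fimp.1 (ha0 ξ b) r2 (hr2.trans hr1) h4
  have h5' : b < a0 := h5
  obtain ⟨s, ⟨ξ', hξ', b', hb', hlt⟩, hs⟩ := nufGood_ne hU.1 (hr2.trans (hr1.trans (hr'.trans hr)))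
    (nufGood_and hU.1 hk (hr2.trans (hr1.trans (hr'.trans hr))) (meets_dn h2 hr2) h3)
  rw [← Sum.inr.inj hξ'] at hb'
  rw [hRu s ξ b' b hb' hs] at hlt
  exact hlt h5'

/-- the clauses `inf`, `ge`, `ge'` -/
theorem nufGood_ge (hk : ℵ₀ ≤ k) (hU : q ∈ IsNuf k U) {c : Cardinal.{0}} (hc : c < k)
    (hc' : c ≤ lam) : q ∈ meets (U fun s => fground (c ≤ #(sL s))) := by
  have h1 : #c.out ≤ #(Ll lam) := by
    rw [nufGood_mk_Ll, mk_out]
    exact hc'
  obtain ⟨j⟩ := h1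
  have h2 := nufGood_inter hU.1 le_rfl (I := c.out) (A := fun i s => Sum.inr (j i) ∈ s.1)
    (by rwa [mk_out]) fun i => nufGood_fine hU le_rfl (Sum.inr (j i))
  refine nufGood_mono hU.1 le_rfl h2 fun s hs => ?_
  rw [← mk_out c]
  refine mk_le_of_injective (f := fun i => (⟨j i, hs i⟩ : sL s)) fun a b hab => ?_
  exact j.injective (congrArg Subtype.val hab)

/-- the clause `pow` for one exponent -/
theorem nufGood_pow (hk : ℵ₀ ≤ k) (hH : DC k H) (hU : q ∈ IsNuf k U) {N : Type} (hN : #N < k)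
    (hN' : lam ^ #N ≤ lam) : q ∈ meets (U fun s => fground (#(sL s) ^ #N ≤ #(sL s))) := by
  classical
  have h1 : #(N → Ll lam) ≤ #(Ll lam) := by
    rw [← power_def, nufGood_mk_Ll]
    exact hN'
  obtain ⟨cd⟩ := h1
  have key : q ∈ meets (U fun s => fground (∀ f : N → Ll lam, (∀ n, f n ∈ sL s) → cd f ∈ sL s)) := by
    refine nufGood_by_contra hU.1 fun r hr hbad => ?_
    let bad : Pk k (Kl lam ⊕ Ll lam) → Prop := fun s =>
      ∃ f : N → Ll lam, (∀ n, f n ∈ sL s) ∧ cd f ∉ sL s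
    have hbad' : r ∈ meets (U fun s => fground (bad s)) :=
      nufGood_mono hU.1 hr hbad fun s hs => by
        push Not at hs
        exact hs
    let R : Pk k (Kl lam ⊕ Ll lam) → N → Ll lam → Prop := fun s n ξ =>
      ∃ hb : bad s, hb.choose n = ξ
    have hval : ∀ n : N, ∀ r1 ≤ r, ∃ r2 ≤ r1, ∃ ξ, r2 ∈ meets (U fun s => fground (R s n ξ)) := by
      intro n r1 hr1
      obtain ⟨r2, hr2, x, h2⟩ := nufGood_normal hU (hr1.trans hr)
        (G := fun s x => ∃ ξ, x = Sum.inr ξ ∧ R s n ξ)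
        (nufGood_mono hU.1 (hr1.trans hr) (meets_dn hbad' hr1) fun s hs =>
          ⟨Sum.inr (hs.choose n), hs.choose_spec.1 n, _, rfl, hs, rfl⟩)
      obtain ⟨_, ξ, rfl, _⟩ := nufGood_ne hU.1 (hr2.trans (hr1.trans hr)) h2
      refine ⟨r2, hr2, ξ, nufGood_mono hU.1 (hr2.trans (hr1.trans hr)) h2 fun s hs => ?_⟩
      obtain ⟨ξ', hξ', hR⟩ := hs
      rw [Sum.inr.inj hξ']
      exact hR
    have hall : ∃ r1 ≤ r, ∃ F : N → Ll lam, ∀ n, r1 ∈ meets (U fun s => fground (R s n (F n))) := by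
      by_cases hne : Nonempty N
      · obtain ⟨_, _⟩ := exists_wo N
        obtain ⟨M, hM1, hM2, hM3⟩ := exists_chain hk hH (J := N)
          (fun j => (mk_set_le _).trans hN.le) r
          (fun n m m' => ∃ ξ, m' ∈ meets (U fun s => fground (R s n ξ)))
          (fun n m hm => hval n m hm)
        obtain ⟨p, hp⟩ := hH.lb hN.le M hM2
        choose F hF using fun n => (hM3 n).choose_spec.2.2.2
        obtain ⟨n0⟩ := hne
        exact ⟨p, (hp n0).trans (hM1 n0), F, fun n => meets_dn (hF n) (hp n)⟩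
      · exact ⟨r, le_rfl, fun n => (hne ⟨n⟩).elim, fun n => (hne ⟨n⟩).elim⟩
    obtain ⟨r1, hr1, F, hF⟩ := hall
    have h2 := nufGood_inter hU.1 (hr1.trans hr) hN hF
    have h3 := nufGood_and hU.1 hk (hr1.trans hr) (meets_dn hbad' hr1) h2
    have h4 := nufGood_and hU.1 hk (hr1.trans hr) h3
      (nufGood_fine hU (hr1.trans hr) (Sum.inr (cd F)))
    obtain ⟨s, ⟨hs1, hs2⟩, hs3⟩ := nufGood_ne hU.1 (hr1.trans hr) h4
    have h5 : hs1.choose = F := by
      funext n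
      obtain ⟨_, h⟩ := hs2 n
      exact h
    have h6 := hs1.choose_spec.2
    rw [h5] at h6
    exact h6 hs3
  refine nufGood_mono hU.1 le_rfl key fun s hs => ?_
  rw [power_def]
  refine mk_le_of_injective
    (f := fun f : N → sL s => (⟨cd fun n => (f n).1, hs _ fun n => (f n).2⟩ : sL s)) ?_
  intro f f' hf
  have h2 := cd.injective (congrArg Subtype.val hf)
  funext n
  exact Subtype.ext (congrFun h2 n)

end

section

variable {lam k : Cardinal.{0}}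

/-- **Almost all `s` are good.** -/
theorem good_ae {γ χ : Cardinal.{0}} {κ : γ.ord.ToType → Cardinal.{0}} (h : Sq γ k κ)
    (hl : lam = ⨆ i, κ i) (hχ : χ < k) {H : Type} [Preorder H] (hH : DC k H)
    (hb : ∀ (g : Ll lam → Kl lam → Set H) (q : H), q ∈ IsFun g → ∃ q' ≤ q, ∃ a : Kl lam,
      ∀ ξ b, q' ∈ fimp (meets (g ξ b)) (fground (b < a)))
    (U : (Pk k (Kl lam ⊕ Ll lam) → Set H) → Set H) (q : H) (hU : q ∈ IsNuf k U) :
    q ∈ meets (U fun s => fground (Gd γ χ s)) := by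
  have hk : ℵ₀ ≤ k := h.inacc_k.aleph0_lt.le
  have hkl : k ≤ lam := (h.k_lt_lam hl).le
  have h1 := nufGood_ini hk hkl hU
  have h2 := nufGood_cof hk hU hb
  have h3 := nufGood_ge hk hU h.inacc_k.aleph0_lt (hk.trans hkl)
  have h4 := nufGood_ge hk hU hχ (hχ.le.trans hkl)
  have h5 := nufGood_ge hk hU h.lt (h.lt.le.trans hkl)
  have h6 : q ∈ meets (U fun s => fground (∀ t : {t : Set γ.out // #t < γ},
      #(sL s) ^ #t.1 ≤ #(sL s))) := by
    refine nufGood_inter hU.1 le_rfl ?_ fun t =>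
      nufGood_pow hk hH hU (t.2.trans h.lt) (h.lam_pow hl t.2)
    refine (mk_subtype_le _).trans_lt ?_
    rw [mk_set, mk_out]
    exact h.inacc_k.isStrongLimit.isStrongPrelimit h.lt
  have h12 := nufGood_and hU.1 hk le_rfl h1 h2
  have h123 := nufGood_and hU.1 hk le_rfl h12 h3
  have h1234 := nufGood_and hU.1 hk le_rfl h123 h4
  have h12345 := nufGood_and hU.1 hk le_rfl h1234 h5
  refine nufGood_mono hU.1 le_rfl (nufGood_and hU.1 hk le_rfl h12345 h6) fun s hs => ?_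
  obtain ⟨⟨⟨⟨⟨a1, a2⟩, a3⟩, a4⟩, a5⟩, a6⟩ := hs
  refine ⟨a1, a2, a3, a4, a5, fun ν hν => ?_⟩
  have h7 : ν ≤ #γ.out := by
    rw [mk_out]
    exact hν.le
  obtain ⟨t, ht⟩ := le_mk_iff_exists_set.1 h7
  have h8 := a6 ⟨t, by rwa [ht]⟩
  simp only [ht] at h8
  exact h8

end

end Pool.Agent.H638.ST
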