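import Mathlib
import Pool.Agent.H638.ST.NufGood
import Pool.Agent.H638.ST.NufData

set_option autoImplicit false
set_option linter.unusedSectionVars false
set_option linter.unusedVariables false

namespace Pool.Agent.H638.ST

open Set Cardinal Pool.Agent.Helper669.Forcing

/-! ### Auxiliary facts -/

theorem nufStep_mm {P : Type} [Preorder P] {N : Set P} {p : P} (h : p ∈ meets (meets N)) :
    p ∈ meets N := (mem_meets_reg (down_meets N) (reg_meets N)).1 h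

section

variable {H X : Type} [Preorder H] {κ : Cardinal.{0}} {U : (X → Set H) → Set H} {q r : H}

/-- two large sets have a common element, below a condition -/
theorem nufStep_two (h : q ∈ IsUfn κ U) (hκ : ℵ₀ ≤ κ) (hr : r ≤ q) {A A' : X → Set H}
    (hd : ∀ a, Down (A a)) (hd' : ∀ a, Down (A' a))
    (hA : r ∈ meets (U A)) (hA' : r ∈ meets (U A')) :
    ∃ r' ≤ r, ∃ a, r' ∈ A a ∧ r' ∈ A' a := by
  obtain ⟨r1, hr1, a, h1⟩ := ufn_ne h hr (ufn_and h hκ hr hA hA')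
  obtain ⟨r2, hr2, h2⟩ := exists_of_meets (down_fand (down_meets _) (down_meets _)) h1
  obtain ⟨r3, hr3, h3⟩ := exists_of_meets (hd a) h2.1
  obtain ⟨r4, hr4, h4⟩ := exists_of_meets (hd' a) (meets_dn h2.2 hr3)
  exact ⟨r4, ((hr4.trans hr3).trans hr2).trans hr1, a, hd a _ h3 _ hr4, h4⟩

theorem nufStep_one (h : q ∈ IsUfn κ U) (hr : r ≤ q) {A : X → Set H}
    (hd : ∀ a, Down (A a)) (hA : r ∈ meets (U A)) :
    ∃ r' ≤ r, ∃ a, r' ∈ A a := by
  obtain ⟨r1, hr1, a, h1⟩ := ufn_ne h hr hA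
  obtain ⟨r3, hr3, h3⟩ := exists_of_meets (hd a) h1
  exact ⟨r3, hr3.trans hr1, a, h3⟩

end

section

variable {K W P : Type} [LinearOrder K] [Preorder P] {E : K → W → K → W → Set P} {p r : P}

theorem nufStep_tr_down (E : K → W → K → W → Set P) : Down (IsTr E) :=
  down_fand (down_fall fun _ => down_fall fun _ => down_fall fun _ => down_fall fun _ =>
      down_fex _)
    (down_fall fun _ => down_fall fun _ => down_fall fun _ => down_fall fun _ =>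
      down_fall fun _ => down_fall fun _ => down_fall fun _ => down_fall fun _ => down_fimp _ _)

theorem nufStep_tr (h : p ∈ IsTr E) (hr : r ≤ p) {α β δ : K} (h1 : α ≤ β) (h2 : β ≤ δ)
    {ξ ζ υ : W} (h3 : r ∈ meets (E α ξ δ υ)) (h4 : r ∈ meets (E β ζ δ υ)) :
    r ∈ meets (E α ξ β ζ) :=
  (mem_fimp_meets (down_fand (down_meets _) (down_meets _))).1
    (h.2 α β δ h1 h2 ξ ζ υ) r hr ⟨h3, h4⟩

/-- a node of a branch above a level -/
theorem nufStep_cb1 {Bn : K → W → Set P} (h : p ∈ IsCb E Bn) (hr : r ≤ p) (α : K) :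
    ∃ r' ≤ r, ∃ β, α ≤ β ∧ ∃ ξ, r' ∈ meets (Bn β ξ) := by
  obtain ⟨r1, hr1, β, h1, h2⟩ := mem_fex.1 (h.1 α) r hr
  obtain ⟨r2, hr2, ξ, h3⟩ := mem_fex.1 h2 r1 le_rfl
  exact ⟨r2, hr2.trans hr1, β, h1, ξ, h3⟩

theorem nufStep_cb2 {Bn : K → W → Set P} (h : p ∈ IsCb E Bn) (hr : r ≤ p) {α β : K}
    (h1 : α ≤ β) {ξ ζ : W} (h2 : r ∈ meets (Bn α ξ)) (h3 : r ∈ meets (Bn β ζ)) :
    r ∈ meets (E α ξ β ζ) :=
  (mem_fimp_meets (down_fand (down_meets _) (down_meets _))).1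
    (h.2 α β h1 ξ ζ) r hr ⟨h2, h3⟩

end

section

variable {lam k : Cardinal.{0}}

/-- tuples of data -/
structure NufStepT (lam : Cardinal.{0}) (G M : Type) (B D : M → Type) where
  m : M
  i : G
  b : B m
  S : Set (Kl lam)
  ξ : Kl lam → Ll lam
  d : Kl lam → D m

/-- The data of `exists_data` hold. -/
structure NufStepOk {H G M : Type} [Preorder H] {B D : M → Type} [∀ m, Preorder (B m)]
    [∀ m, Preorder (D m)] (E : ∀ m, Kl lam → Ll lam → Kl lam → Ll lam → Set ((B m × D m) × H))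
    (b0 : ∀ m, B m) (d0 : ∀ m, D m) (rk : Ll lam → G) (ρ : Kl lam) (ζ : Ll lam)
    (s : Pk k (Kl lam ⊕ Ll lam)) (h : H) (y : NufStepT lam G M B D) : Prop where
  hb : y.b ≤ b0 y.m
  hS : y.S ⊆ sK s
  hcof : ∀ a ∈ sK s, ∃ a' ∈ y.S, a ≤ a'
  hd : ∀ a ∈ y.S, y.d a ≤ d0 y.m
  hdm : ∀ a ∈ y.S, ∀ a' ∈ y.S, a ≤ a' → y.d a' ≤ y.d a
  hrk : ∀ a ∈ y.S, rk (y.ξ a) = y.i
  hE : ∀ a ∈ y.S, ((y.b, y.d a), h) ∈ meets (E y.m a (y.ξ a) ρ ζ)

/-- `a'` is the least element of `S` which is at least `a` -/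
def NufStepL {lam : Cardinal.{0}} (S : Set (Kl lam)) (a a' : Kl lam) : Prop :=
  a' ∈ S ∧ a ≤ a' ∧ ∀ c ∈ S, a ≤ c → a' ≤ c

theorem NufStepL.ex {S : Set (Kl lam)} {a : Kl lam} (h : ∃ c ∈ S, a ≤ c) :
    ∃ a', NufStepL S a a' := by
  obtain ⟨a', ⟨h1, h2⟩, h3⟩ := (wellFounded_lt (α := Kl lam)).has_min {c | c ∈ S ∧ a ≤ c}
    (by obtain ⟨c, hc, hac⟩ := h; exact ⟨c, hc, hac⟩)
  exact ⟨a', h1, h2, fun c hc hac => not_lt.1 fun hlt => h3 c ⟨hc, hac⟩ hlt⟩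

theorem NufStepL.eq {S : Set (Kl lam)} {a c c' : Kl lam} (h : NufStepL S a c)
    (h' : NufStepL S a c') : c = c' :=
  le_antisymm (h.2.2 c' h'.1 h'.2.1) (h'.2.2 c h.1 h.2.1)

theorem NufStepL.mono {S : Set (Kl lam)} {a b c d : Kl lam} (hab : a ≤ b)
    (h : NufStepL S a c) (h' : NufStepL S b d) : c ≤ d :=
  h.2.2 d h'.1 (hab.trans h'.2.1)

/-- **The first step.** -/
theorem step1 {γ : Cardinal.{0}} {κ : γ.ord.ToType → Cardinal.{0}} (h : Sq γ k κ)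
    (hl : lam = ⨆ i, κ i) {χ : Cardinal.{0}} (hχ : χ < k) {H : Type} [Preorder H] (hH : DC k H)
    (hb : ∀ (g : Ll lam → Kl lam → Set H) (q : H), q ∈ IsFun g → ∃ q' ≤ q, ∃ a : Kl lam,
      ∀ ξ b, q' ∈ fimp (meets (g ξ b)) (fground (b < a)))
    (U : (Pk k (Kl lam ⊕ Ll lam) → Set H) → Set H) (q0 : H) (hU : q0 ∈ IsNuf k U)
    {M : Type} (μ : M → Cardinal.{0})
    (hM : ∀ c : Cardinal.{0}, ℵ₀ ≤ c → χ ≤ c → γ ≤ c → (∀ ν < γ, c ^ ν ≤ c) → c < k →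
      ∃ m, μ m = c)
    {B D : M → Type} [∀ m, Preorder (B m)] [∀ m, Preorder (D m)] (hB : ∀ m, #(B m) ≤ μ m)
    (hD : ∀ m, DC (μ m) (D m))
    (E : ∀ m, Kl lam → Ll lam → Kl lam → Ll lam → Set ((B m × D m) × H))
    (b0 : ∀ m, B m) (d0 : ∀ m, D m) (hE : ∀ m, ((b0 m, d0 m), q0) ∈ IsTr (E m))
    (rk : Ll lam → γ.ord.ToType) :
    ∃ q ≤ q0, ∃ i : γ.ord.ToType, ∃ R : (Σ m, B m × D m) → Kl lam → {ξ // rk ξ = i} → Kl lam →
      {ξ // rk ξ = i} → Set H, q ∈ IsSy R ∧ ∀ l, ∀ q' ≤ q, q' ∈ HasCb (R l) →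
        l.2 ≤ (b0 l.1, d0 l.1) ∧ (l.2, q') ∈ HasCb (E l.1) := by
  classical
  have hk0 : ℵ₀ ≤ k := h.inacc_k.aleph0_lt.le
  have hkl : k ≤ lam := (h.k_lt_lam hl).le
  have hl0 : ℵ₀ ≤ lam := h.aleph0_le_lam hl
  have hUf : q0 ∈ IsUfn k U := hU.1
  have hgood := good_ae h hl hχ hH hb U q0 hU
  -- upper bounds
  have hρ : ∀ s : Pk k (Kl lam ⊕ Ll lam), ∃ ρ : Kl lam, ∀ a ∈ sK s, a ≤ ρ := by
    intro s
    obtain ⟨ρ, hρ⟩ := bd_Kl hl0 (sK s) (fun a => a.1) (by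
      refine le_trans ?_ hkl
      refine le_trans ?_ s.2.le
      exact mk_le_of_injective (f := fun a : sK s => (⟨Sum.inl a.1, a.2⟩ : s.1))
        (fun a b hab => Subtype.ext (Sum.inl.inj (congrArg Subtype.val hab))))
    exact ⟨ρ, fun a ha => (hρ ⟨a, ha⟩).le⟩
  choose ρ hρ using hρ
  have hLne : Nonempty (Ll lam) := by
    rw [← mk_ne_zero_iff]
    have : #(Ll lam) = lam := mk_ord_toType lam
    rw [this]
    exact (aleph0_pos.trans_le hl0).ne'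
  obtain ⟨ζ⟩ := hLne
  have hKne : Nonempty (Kl lam) := by
    rw [← mk_ne_zero_iff]
    have : #(Kl lam) = Order.succ lam := mk_ord_toType _
    rw [this]
    exact ((aleph0_pos.trans_le hl0).trans (Order.lt_succ lam)).ne'
  obtain ⟨α0⟩ := hKne
  -- the names of the data
  have hN : ∀ s : Pk k (Kl lam ⊕ Ll lam),
      ∃ N : NufStepT lam γ.ord.ToType M B D → Set H, (∀ y, Down (N y)) ∧
        (Gd γ χ s → ∀ q' ≤ q0, ∃ r ≤ q', ∃ y, r ∈ N y) ∧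
        (∀ y, ∀ r ∈ N y, NufStepOk E b0 d0 rk (ρ s) ζ s r y) ∧
        ∀ y y' r, r ∈ N y → r ∈ N y' → y = y' := by
    intro s
    by_cases hs : Gd γ χ s
    · obtain ⟨m, hm⟩ := hM #(sL s) hs.inf hs.ge hs.ge' hs.pow (by
        refine lt_of_le_of_lt ?_ s.2
        exact mk_le_of_injective (f := fun a : sL s => (⟨Sum.inr a.1, a.2⟩ : s.1))
          (fun a b hab => Subtype.ext (Sum.inr.inj (congrArg Subtype.val hab))))
      obtain ⟨N, h1, h2, h3, h4⟩ := exists_name (Y := NufStepT lam γ.ord.ToType M B D) q0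
        (fun r y => NufStepOk E b0 d0 rk (ρ s) ζ s r y) (by
          intro q' hq'
          obtain ⟨q'', hq'', i, b, hb', S, hS, hcof, ξ, d, hd, hdm, hE'⟩ := exists_data hs
            (G := γ.ord.ToType) (mk_ord_toType γ).le (by rw [← hm]; exact hB m)
            (by rw [← hm]; exact hD m) hH (E m) (b0 m) (d0 m) q'
            (nufStep_tr_down _ _ (hE m) _ ⟨le_rfl, hq'⟩) rk (ρ s) (hρ s) ζ
          exact ⟨q'', hq'', ⟨m, i, b, S, ξ, d⟩, hb', hS, hcof, hd, hdm,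
            fun a ha => (hE' a ha).1, fun a ha => (hE' a ha).2⟩)
        (by
          intro a y hy c hc
          exact ⟨hy.hb, hy.hS, hy.hcof, hy.hd, hy.hdm, hy.hrk,
            fun a' ha' => meets_dn (hy.hE a' ha') ⟨le_rfl, hc⟩⟩)
      exact ⟨N, h1, fun _ => h2, h3, h4⟩
    · exact ⟨fun _ => ∅, fun _ r hr => absurd hr (notMem_empty r), fun hs' => absurd hs' hs,
        fun _ r hr => absurd hr (notMem_empty r), fun _ _ r hr => absurd hr (notMem_empty r)⟩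
  choose N hNd hNe hNo hNu using hN
  -- the index `i` is constant
  obtain ⟨q1, hq1, i, hi⟩ := ufn_cov hUf hk0 le_rfl (I := γ.ord.ToType)
    (by rw [mk_ord_toType]; exact h.lt) (fun i s => {r | ∃ y, r ∈ N s y ∧ y.i = i}) hgood (by
      intro s r hr hs
      rw [mem_meets_fground] at hs
      obtain ⟨r', hr', y, hy⟩ := hNe s hs r hr
      exact ⟨r', hr', y.i, meets_of_mem ⟨y, hy, rfl⟩⟩)
  -- the function `α ↦ α*`
  set C : Kl lam → Kl lam → Pk k (Kl lam ⊕ Ll lam) → Set H := fun α α' s =>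
    {r | ∃ y, r ∈ N s y ∧ y.i = i ∧ NufStepL y.S α α'} with hC
  have hCd : ∀ α α' s, Down (C α α' s) := by
    rintro α α' s r ⟨y, hy, h1⟩ r' hr'
    exact ⟨y, hNd s y r hy r' hr', h1⟩
  set st : Kl lam → Kl lam → Set H := fun α α' => meets (U (C α α')) with hst
  have st1 : ∀ α, ∀ r ≤ q1, ∃ r' ≤ r, ∃ α', r' ∈ st α α' := by
    intro α r hr
    have hrq : r ≤ q0 := hr.trans hq1
    have h1 := ufn_and hUf hk0 hrq (meets_dn hi hr) (nuf_fine hU hrq (Sum.inl α))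
    obtain ⟨r', hr', x, hx⟩ := nuf_normal hU hrq
      (fun s x => Sum.elim (fun α' => C α α' s) (fun _ => ∅) x) (by
        refine ufn_mono hUf hrq h1 fun s r1 hr1 h2 => ?_
        obtain ⟨r2, hr2, h3⟩ := exists_of_meets (down_fand (down_meets _) (down_meets _)) h2
        obtain ⟨r3, hr3, y, hy, hyi⟩ := exists_of_meets (N := {r | ∃ y, r ∈ N s y ∧ y.i = i})
          (by rintro r ⟨y, hy, h1⟩ r' hr'; exact ⟨y, hNd s y r hy r' hr', h1⟩) h3.1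
        have h4 : Sum.inl α ∈ s.1 := mem_meets_fground.1 h3.2
        have hok := hNo s y r3 hy
        obtain ⟨α', hα'⟩ := NufStepL.ex (hok.hcof α h4)
        refine ⟨r3, hr3.trans hr2, meets_of_mem ?_⟩
        refine mem_fex_of_mem (Sum.inl α') (down_fand (down_fground _) (down_meets _)) ?_
        exact ⟨hok.hS hα'.1, meets_of_mem ⟨y, hy, hyi, hα'⟩⟩)
    rcases x with α' | x
    · refine ⟨r', hr', α', ufn_mono hUf (hr'.trans hrq) hx fun s r1 hr1 h2 =>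
        ⟨r1, le_rfl, nufStep_mm h2⟩⟩
    · obtain ⟨r1, hr1, s, h2⟩ := ufn_ne hUf (hr'.trans hrq) hx
      obtain ⟨r2, hr2, r3, h3, -⟩ := nufStep_mm h2 r1 le_rfl
      exact absurd h3 (notMem_empty r3)
  have st2 : ∀ {α α' α'' : Kl lam} {r : H}, r ≤ q1 → r ∈ st α α' → r ∈ st α α'' → α' = α'' := by
    intro α α' α'' r hr h1 h2
    obtain ⟨r', hr', s, ⟨y, hy, _, h3⟩, y', hy', _, h4⟩ := nufStep_two hUf hk0 (hr.trans hq1)
      (hCd α α') (hCd α α'') h1 h2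
    have := hNu s y y' r' hy hy'
    subst this
    exact h3.eq h4
  have st3 : ∀ {α α' : Kl lam} {r : H}, r ≤ q1 → r ∈ st α α' → α ≤ α' := by
    intro α α' r hr h1
    obtain ⟨r', hr', s, y, hy, _, h3⟩ := nufStep_one hUf (hr.trans hq1) (hCd α α') h1
    exact h3.2.1
  have st4 : ∀ {α β α' β' : Kl lam} {r : H}, r ≤ q1 → α ≤ β → r ∈ st α α' → r ∈ st β β' →
      α' ≤ β' := by
    intro α β α' β' r hr hαβ h1 h2
    obtain ⟨r', hr', s, ⟨y, hy, _, h3⟩, y', hy', _, h4⟩ := nufStep_two hUf hk0 (hr.trans hq1)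
      (hCd α α') (hCd β β') h1 h2
    have := hNu s y y' r' hy hy'
    subst this
    exact h3.mono hαβ h4
  -- the system
  set R : (Σ m, B m × D m) → Kl lam → {ξ // rk ξ = i} → Kl lam → {ξ // rk ξ = i} → Set H :=
    fun l α w β w' => {r | l.2 ≤ (b0 l.1, d0 l.1) ∧ ∃ α' β', r ∈ st α α' ∧ r ∈ st β β' ∧
      (l.2, r) ∈ meets (E l.1 α' w.1 β' w'.1)} with hR
  have hRd : ∀ l α w β w', Down (R l α w β w') := by
    rintro l α w β w' r ⟨h1, α', β', h2, h3, h4⟩ r' hr'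
    exact ⟨h1, α', β', meets_dn h2 hr', meets_dn h3 hr', meets_dn h4 ⟨le_rfl, hr'⟩⟩
  have hRm : ∀ {l : Σ m, B m × D m} {α β α' β' : Kl lam} {w w' : {ξ // rk ξ = i}} {r : H},
      r ≤ q1 → r ∈ st α α' → r ∈ st β β' → r ∈ meets (R l α w β w') →
      l.2 ≤ (b0 l.1, d0 l.1) ∧ (l.2, r) ∈ meets (E l.1 α' w.1 β' w'.1) := by
    intro l α β α' β' w w' r hr h1 h2 h3
    refine ⟨?_, meets_of_dense fun p hp => ?_⟩
    · obtain ⟨r1, hr1, h4⟩ := exists_of_meets (hRd l α w β w') h3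
      exact h4.1
    · obtain ⟨r1, hr1, h4, α1, β1, h5, h6, h7⟩ := exists_of_meets (hRd l α w β w')
        (meets_dn h3 hp.2)
      have hr1q : r1 ≤ q1 := (hr1.trans hp.2).trans hr
      have e1 : α' = α1 := st2 hr1q (meets_dn h1 (hr1.trans hp.2)) h5
      have e2 : β' = β1 := st2 hr1q (meets_dn h2 (hr1.trans hp.2)) h6
      subst e1 e2
      exact ⟨(p.1, r1), ⟨le_rfl, hr1⟩, meets_dn h7 ⟨hp.1, le_rfl⟩⟩
  refine ⟨q1, hq1, i, R, ⟨?_, ?_⟩, ?_⟩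
  · -- first clause
    intro α β hαβ
    have key : ∀ q' ≤ q1, ∃ r ≤ q', ∃ l w w', r ∈ R l α w β w' := by
      intro q' hq'
      obtain ⟨r1, hr1, α', h1⟩ := st1 α q' hq'
      obtain ⟨r2, hr2, β', h2⟩ := st1 β r1 (hr1.trans hq')
      have hr2q : r2 ≤ q1 := (hr2.trans hr1).trans hq'
      obtain ⟨r, hr, s, ⟨y, hy, hyi, h3⟩, y', hy', _, h4⟩ := nufStep_two hUf hk0
        (hr2q.trans hq1) (hCd α α') (hCd β β') (meets_dn h1 hr2) h2
      have e := hNu s y y' r hy hy'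
      subst e
      have hok := hNo s y r hy
      have hle : α' ≤ β' := h3.mono hαβ h4
      have hrq : r ≤ q0 := (hr.trans hr2q).trans hq1
      have hx : ((y.b, y.d β'), r) ≤ ((b0 y.m, d0 y.m), q0) :=
        ⟨⟨hok.hb, hok.hd β' h4.1⟩, hrq⟩
      have h5 : ((y.b, y.d β'), r) ∈ meets (E y.m α' (y.ξ α') (ρ s) ζ) :=
        meets_dn (hok.hE α' h3.1) ⟨⟨le_rfl, hok.hdm α' h3.1 β' h4.1 hle⟩, le_rfl⟩
      have h6 := nufStep_tr (hE y.m) hx hle (hρ s β' (hok.hS h4.1)) h5 (hok.hE β' h4.1)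
      exact ⟨r, (hr.trans hr2).trans hr1, ⟨y.m, (y.b, y.d β')⟩,
        ⟨y.ξ α', (hok.hrk α' h3.1).trans hyi⟩, ⟨y.ξ β', (hok.hrk β' h4.1).trans hyi⟩,
        ⟨hok.hb, hok.hd β' h4.1⟩, α', β', meets_dn h1 (hr.trans hr2), meets_dn h2 hr, h6⟩
    refine mem_fex.2 fun q' hq' => ?_
    obtain ⟨r, hr, l, w, w', h1⟩ := key q' hq'
    exact ⟨r, hr, l, mem_fex_of_mem w (down_fex _)
      (mem_fex_of_mem w' (down_meets _) (meets_of_mem h1))⟩
  · -- second clause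
    intro l α β δ hαβ hβδ ξ ξ' υ
    refine mem_fimp.2 fun q' hq' h1 => ?_
    obtain ⟨r1, hr1, h2, α', δ1, h3, h4, h5⟩ := exists_of_meets (hRd l α ξ δ υ) h1.1
    obtain ⟨r2, hr2, h6, β', δ2, h7, h8, h9⟩ := exists_of_meets (hRd l β ξ' δ υ)
      (meets_dn h1.2 hr1)
    have hr2q : r2 ≤ q1 := (hr2.trans hr1).trans hq'
    have e : δ1 = δ2 := st2 hr2q (meets_dn h4 hr2) h8
    subst e
    refine ⟨r2, hr2.trans hr1, meets_of_mem ⟨h2, α', β', meets_dn h3 hr2, h7, ?_⟩⟩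
    exact nufStep_tr (hE l.1) ⟨h2, hr2q.trans hq1⟩ (st4 hr2q hαβ (meets_dn h3 hr2) h7)
      (st4 hr2q hβδ h7 h8) (meets_dn h5 ⟨le_rfl, hr2⟩) h9
  · -- branches
    intro l q' hq' hcb
    have hl2 : l.2 ≤ (b0 l.1, d0 l.1) := by
      obtain ⟨q2, hq2, Bn, hBn⟩ := mem_fex.1 hcb q' le_rfl
      obtain ⟨q3, hq3, β, _, ξ, h1⟩ := nufStep_cb1 hBn le_rfl α0
      have h2 := nufStep_cb2 hBn hq3 (le_refl β) h1 h1
      obtain ⟨q4, hq4, h3⟩ := exists_of_meets (hRd l β ξ β ξ) h2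
      exact h3.1
    refine ⟨hl2, mem_fex.2 fun p hp => ?_⟩
    obtain ⟨q3, hq3, Bn, hBn⟩ := mem_fex.1 hcb p.2 hp.2
    have hq3q : q3 ≤ q1 := (hq3.trans hp.2).trans hq'
    set B' : Kl lam → Ll lam → Set ((B l.1 × D l.1) × H) := fun α' w =>
      {p | ∃ β, p.2 ∈ st β α' ∧ ∃ hw : rk w = i, p.2 ∈ meets (Bn β ⟨w, hw⟩)} with hB'
    have hB'd : ∀ α' w, Down (B' α' w) := by
      rintro α' w p ⟨β, h1, hw, h2⟩ p' hp'
      exact ⟨β, meets_dn h1 hp'.2, hw, meets_dn h2 hp'.2⟩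
    refine ⟨(p.1, q3), ⟨le_rfl, hq3⟩, B', ?_, ?_⟩
    · intro α
      refine mem_fex.2 fun p' hp' => ?_
      obtain ⟨q5, hq5, β, hαβ, ξ, h1⟩ := nufStep_cb1 hBn hp'.2 α
      obtain ⟨q6, hq6, β', h2⟩ := st1 β q5 ((hq5.trans hp'.2).trans hq3q)
      have hq6q : q6 ≤ q1 := ((hq6.trans hq5).trans hp'.2).trans hq3q
      refine ⟨(p'.1, q6), ⟨le_rfl, hq6.trans hq5⟩, β', hαβ.trans (st3 hq6q h2), ?_⟩
      exact mem_fex_of_mem ξ.1 (down_meets _)
        (meets_of_mem ⟨β, h2, ξ.2, meets_dn h1 hq6⟩)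
    · intro α' β' hαβ' w w'
      refine mem_fimp.2 fun p' hp' h1 => ?_
      obtain ⟨p1, hp1, α, h2, hw, h3⟩ := exists_of_meets (hB'd α' w) h1.1
      obtain ⟨p2, hp2, β, h4, hw', h5⟩ := exists_of_meets (hB'd β' w') (meets_dn h1.2 hp1)
      have hp2q : p2.2 ≤ q3 := (hp2.2.trans hp1.2).trans hp'.2
      have hp2l : p2 ≤ (l.2, p2.2) := ⟨((hp2.1.trans hp1.1).trans hp'.1).trans hp.1, le_rfl⟩
      have h2' := meets_dn h2 hp2.2
      have h3' := meets_dn h3 hp2.2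
      refine ⟨p2, hp2.trans hp1, ?_⟩
      rcases le_total α β with hαβ | hβα
      · have h6 := nufStep_cb2 hBn hp2q hαβ h3' h5
        exact meets_dn (hRm (hp2q.trans hq3q) h2' h4 h6).2 hp2l
      · have e : α' = β' := le_antisymm hαβ' (st4 (hp2q.trans hq3q) hβα h4 h2')
        subst e
        have h6 := nufStep_cb2 hBn hp2q hβα h5 h3'
        have h7 := nufStep_cb2 hBn hp2q (le_refl α) h3' h3'
        have h8 := (hRm (hp2q.trans hq3q) h4 h2' h6).2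
        have h9 := (hRm (hp2q.trans hq3q) h2' h2' h7).2
        have h10 := nufStep_tr (hE l.1) (r := (l.2, p2.2))
          ⟨hl2, (hp2q.trans hq3q).trans hq1⟩ (le_refl α') (le_refl α') h9 h8
        exact meets_dn h10 hp2l

end

end Pool.Agent.H638.ST
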