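import Mathlib
import Pool.Agent.H638.ST.NufDef

set_option autoImplicit false
set_option linter.unusedSectionVars false
set_option linter.unusedVariables false

namespace Pool.Agent.H638.ST

open Set Cardinal Pool.Agent.Helper669.Forcing

/-- From a normal ultrafilter on `P_κ(K)` one gets a `κ`-complete ultrafilter on `K` which
contains all final segments. -/
theorem exists_ufn {κ lam : Cardinal.{0}} (hκ : Isu κ) {H K : Type} [Preorder H] [LinearOrder K]
    (hH : DCL κ H) (hK : Bd κ K) (q : H) :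
    ∃ q' ≤ q, ∃ U : (K → Set H) → Set H, q' ∈ IsUfn κ U ∧
      ∀ a : K, q' ∈ meets (U fun b => fground (a < b)) := by
  obtain ⟨q', hq', U', hU'⟩ := mem_fex.1 (hκ.2 H hH K q) q le_rfl
  have hbd : ∀ s : Pk κ K, ∃ b, ∀ a ∈ s.1, a < b := by
    intro s
    obtain ⟨b, hb⟩ := hK s.1 (fun a => a.1) s.2.le
    exact ⟨b, fun a ha => hb ⟨a, ha⟩⟩
  choose bd hbd using hbd
  have h := hU'.1
  refine ⟨q', hq', fun A => U' fun s => A (bd s), ⟨fun A A' => ?_, fun A => ?_, ?_, ?_⟩, fun a => ?_⟩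
  · refine mem_fimp.2 fun r hr h1 => ?_
    exact ⟨r, le_rfl, ufn_mono h hr h1.1 fun s r' hr' h2 => mem_fimp.1 (h1.2 (bd s)) r' hr' h2⟩
  · exact h.2.1 fun s => A (bd s)
  · exact h.2.2.1
  · intro I hI A
    exact h.2.2.2 I hI fun i s => A i (bd s)
  · refine ufn_mono h le_rfl (hU'.2.1 a) fun s r' hr' h2 => ⟨r', le_rfl, ?_⟩
    rw [mem_meets_fground] at h2 ⊢
    exact hbd s a h2

end Pool.Agent.H638.ST
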