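import Mathlib
import Pool.Agent.H638.ST.Fusion

set_option autoImplicit false
set_option linter.unusedSectionVars false
set_option linter.unusedVariables false

namespace Pool.Agent.H638.ST

open Set Cardinal Pool.Agent.Helper669.Forcing

/-- **Pigeonhole.** `F` has at most `τ` elements and `C` is closed under lower bounds of families of
`τ` conditions. If each `y` in a set of more than `τ` elements gets, densely often, one of `τ`
values, then some condition gives the same value to two different `y`. -/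
theorem pigeon {τ : Cardinal.{0}} (h0 : ℵ₀ ≤ τ) {F C Y Z : Type} [Preorder F] [Preorder C]
    (hF : #F ≤ τ) (hC : DC τ C) (hY : τ < #Y) (hZ : #Z ≤ τ) (V : Y → Z → F → C → Prop)
    (hV : ∀ y z f c f' c', V y z f c → f' ≤ f → c' ≤ c → V y z f' c') (f0 : F) (c0 : C)
    (hd : ∀ y, ∀ f ≤ f0, ∀ c ≤ c0, ∃ f' ≤ f, ∃ c' ≤ c, ∃ z, V y z f' c') :
    ∃ f ≤ f0, ∃ c ≤ c0, ∃ y y' z, y ≠ y' ∧ V y z f c ∧ V y' z f c := by
  classical
  obtain ⟨lo, wo⟩ := exists_wo (Z × F)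
  have hJ : #(Z × F) ≤ τ := by
    rw [mk_prod, lift_id, lift_id]
    exact (mul_le_mul' hZ hF).trans (mul_eq_self h0).le
  obtain ⟨M, hM0, hM1, hM2⟩ := exists_chain h0 hC (J := Z × F)
    (fun j => (mk_set_le _).trans hJ) c0
    (fun j m m' => (∃ f' ≤ j.2, ∃ c' ≤ m, ∃ y, V y j.1 f' c') → ∃ f' ≤ j.2, ∃ y, V y j.1 f' m')
    (fun j m _ => by
      by_cases h : ∃ f' ≤ j.2, ∃ c' ≤ m, ∃ y, V y j.1 f' c'
      · obtain ⟨f', hf', c', hc', y, hy⟩ := h
        exact ⟨c', hc', fun _ => ⟨f', hf', y, hy⟩⟩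
      · exact ⟨m, le_rfl, fun h' => absurd h' h⟩)
  have hYne : Nonempty Y := by
    rw [← mk_ne_zero_iff]
    exact ((zero_le).trans_lt hY).ne'
  obtain ⟨y1⟩ := hYne
  obtain ⟨f1, _, c1, _, z1, _⟩ := hd y1 f0 le_rfl c0 le_rfl
  have hne : Nonempty (Z × F) := ⟨(z1, f0)⟩
  obtain ⟨cs, hcs⟩ := hC.lb hJ M hM1
  have hcs0 : cs ≤ c0 := (hcs (z1, f0)).trans (hM0 _)
  have key : ∀ j : Z × F, (∃ f' ≤ j.2, ∃ c' ≤ cs, ∃ y, V y j.1 f' c') →
      ∃ y, ∃ f' ≤ j.2, V y j.1 f' cs := by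
    rintro j ⟨f', hf', c', hc', y, hy⟩
    obtain ⟨m, hm0, hm1, hm2, hm3⟩ := hM2 j
    obtain ⟨f'', hf'', y', hy'⟩ := hm3 ⟨f', hf', c', (hc'.trans (hcs j)).trans hm2, y, hy⟩
    exact ⟨y', f'', hf'', hV _ _ _ _ _ _ hy' le_rfl (hcs j)⟩
  have key' : ∀ j : Z × F, ∃ y, (∃ f' ≤ j.2, ∃ c' ≤ cs, ∃ y, V y j.1 f' c') →
      ∃ f' ≤ j.2, V y j.1 f' cs := by
    intro j
    by_cases h : ∃ f' ≤ j.2, ∃ c' ≤ cs, ∃ y, V y j.1 f' c'
    · obtain ⟨y, hy⟩ := key j h
      exact ⟨y, fun _ => hy⟩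
    · exact ⟨y1, fun h' => absurd h' h⟩
  choose g hg using key'
  obtain ⟨y, hy⟩ : ∃ y, y ∉ Set.range g := by
    by_contra hcon
    push Not at hcon
    have h1 : #Y ≤ #(Z × F) := mk_le_of_surjective (f := g) hcon
    exact absurd (h1.trans hJ) (not_le.2 hY)
  obtain ⟨f', hf', c', hc', z, hz⟩ := hd y f0 le_rfl cs hcs0
  obtain ⟨f'', hf'', h1⟩ := hg (z, f') ⟨f', le_rfl, c', hc', y, hz⟩
  refine ⟨f'', hf''.trans hf', c', hc'.trans hcs0, y, g (z, f'), z, ?_, ?_, ?_⟩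
  · intro h
    exact hy ⟨_, h.symm⟩
  · exact hV _ _ _ _ _ _ hz hf'' le_rfl
  · exact hV _ _ _ _ _ _ h1 le_rfl hc'

namespace PreserveAux

theorem down_isCb {Q : Type} [Preorder Q] {K W : Type} [LinearOrder K]
    (E : K → W → K → W → Set Q) (B : K → W → Set Q) : Down (IsCb E B) :=
  down_fand (down_fall fun _ => down_fex _)
    (down_fall fun _ => down_fall fun _ => down_fall fun _ => down_fall fun _ =>
      down_fall fun _ => down_fimp _ _)

section

variable {F C D : Type} [Preorder F] [Preorder C] [Preorder D] {π : D → C}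
  {K W I : Type} [LinearOrder K]

/-- first alternative -/
def AltA (π : D → C) (R : I → K → W → K → W → Set (F × C)) (Dc : K → I → W → W → F → D → Prop)
    (l : I) (w' : W) (f : F) (d1 d2 : D) : Prop :=
  ∃ α1 α2 w1 w2, α1 ≤ α2 ∧ Dc α1 l w1 w' f d1 ∧ Dc α2 l w2 w' f d2 ∧
    (f, π d1) ∈ fnot (meets (R l α1 w1 α2 w2))

/-- second alternative -/
def AltB (Dc : K → I → W → W → F → D → Prop) (l : I) (w' : W) (f : F) (η : K) (d : D) : Prop :=
  ∀ α, η ≤ α → ∀ w, ∀ f'' ≤ f, ∀ d' ≤ d, ¬ Dc α l w w' f'' d'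

theorem claim (hπ : ∀ d d' : D, d' ≤ d → π d' ≤ π d)
    (lift : ∀ d, ∀ c ≤ π d, ∃ d' ≤ d, π d' = c)
    (R : I → K → W → K → W → Set (F × C)) (f0 : F) (d0 : D) (hR : (f0, π d0) ∈ IsSy R)
    (Dc : K → I → W → W → F → D → Prop)
    (hDc1 : ∀ α l w w' f d f' d', Dc α l w w' f d → f' ≤ f → d' ≤ d → Dc α l w w' f' d')
    (hno : ∀ f ≤ f0, ∀ c ≤ π d0, ∀ l, (f, c) ∉ HasCb (R l))
    (l : I) (w' : W) (f : F) (hf : f ≤ f0) (d1 d2 : D) (hd1 : d1 ≤ d0) (hd2 : d2 ≤ d0)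
    (hp : π d1 = π d2) :
    ∃ f' ≤ f, ∃ d1' ≤ d1, ∃ d2' ≤ d2, π d1' = π d2' ∧
      (AltA π R Dc l w' f' d1' d2' ∨ ∃ η, AltB Dc l w' f' η d1' ∨ AltB Dc l w' f' η d2') := by
  by_contra hcon
  push Not at hcon
  let B : K → W → Set (F × C) := fun α w => {x | ∃ d ≤ d1, Dc α l w w' x.1 d ∧ x.2 ≤ π d}
  have hBd : ∀ α w, ∀ x ∈ B α w, ∀ y ≤ x, y ∈ B α w := by
    rintro α w x ⟨d, hd, h1, h2⟩ y hy
    exact ⟨d, hd, hDc1 _ _ _ _ _ _ _ _ h1 hy.1 le_rfl, hy.2.trans h2⟩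
  apply hno f hf (π d1) (hπ _ _ hd1) l
  refine mem_fex_of_mem B (down_isCb _ _) ⟨?_, ?_⟩
  · intro α
    refine mem_fex.2 ?_
    rintro ⟨g, c⟩ ⟨hg, hc⟩
    change g ≤ f at hg
    change c ≤ π d1 at hc
    obtain ⟨e1, he1, hpe1⟩ := lift d1 c hc
    obtain ⟨e2, he2, hpe2⟩ := lift d2 c (hp ▸ hc)
    obtain ⟨-, hB⟩ := hcon g hg e1 he1 e2 he2 (hpe1.trans hpe2.symm)
    have h1 := (hB α).1
    unfold AltB at h1
    push Not at h1
    obtain ⟨β, hβ, w, f'', hf'', d, hd, h2⟩ := h1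
    refine ⟨(f'', π d), ⟨hf'', ?_⟩, β, hβ, ?_⟩
    · rw [← hpe1]
      exact hπ _ _ hd
    · refine mem_fex_of_mem w (down_meets _) (meets_of_mem ?_)
      exact ⟨d, hd.trans he1, h2, le_rfl⟩
  · intro α β hαβ ξ ζ
    refine (mem_fimp_meets (down_fand (down_meets _) (down_meets _))).2 ?_
    rintro q hq ⟨hq1, hq2⟩
    by_contra hq3
    obtain ⟨q1, hq1q, hq1n⟩ := not_meets hq3
    obtain ⟨q2, hq2q1, s, hs, hq2s⟩ := hq1 q1 hq1q
    obtain ⟨d', hd', hs1, hs2⟩ := hBd _ _ s hs q2 hq2s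
    obtain ⟨q3, hq3q2, t, ht, hq3t⟩ := hq2 q2 (hq2q1.trans hq1q)
    obtain ⟨d'', hd'', ht1, ht2⟩ := hBd _ _ t ht q3 hq3t
    obtain ⟨f3, c3⟩ := q3
    have hle3 : (f3, c3) ≤ (f, π d1) := ((hq3q2.trans hq2q1).trans hq1q).trans hq
    have hc3 : c3 ≤ π d1 := hle3.2
    have hf3 : f3 ≤ f := hle3.1
    -- the three conditions with projection `c3`
    obtain ⟨e2, he2, hpe2⟩ := lift d2 c3 (hp ▸ hc3)
    obtain ⟨dp, hdp, hpdp⟩ := lift d' c3 (hq3q2.2.trans hs2)
    obtain ⟨dq, hdq, hpdq⟩ := lift d'' c3 ht2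
    have hDp : Dc α l ξ w' f3 dp := hDc1 _ _ _ _ _ _ _ _ hs1 hq3q2.1 hdp
    have hDq : Dc β l ζ w' f3 dq := hDc1 _ _ _ _ _ _ _ _ ht1 le_rfl hdq
    obtain ⟨-, hB⟩ := hcon f3 hf3 dp (hdp.trans hd') e2 he2 (hpdp.trans hpe2.symm)
    have h1 := (hB β).2
    unfold AltB at h1
    push Not at h1
    obtain ⟨δ, hδ, u, f4, hf4, e3, he3, h2⟩ := h1
    have hc4 : π e3 ≤ c3 := by
      rw [← hpe2]
      exact hπ _ _ he3
    obtain ⟨dp', hdp', hpdp'⟩ := lift dp (π e3) (by rw [hpdp]; exact hc4)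
    obtain ⟨hA, -⟩ := hcon f4 (hf4.trans hf3) dp' ((hdp'.trans hdp).trans hd') e3
      (he3.trans he2) hpdp'
    have h3 : (f4, π dp') ∉ fnot (meets (R l α ξ δ u)) := by
      intro h4
      exact hA ⟨α, δ, ξ, u, hαβ.trans hδ, hDc1 _ _ _ _ _ _ _ _ hDp hf4 hdp', h2, h4⟩
    have h4 : ∃ x ≤ (f4, π dp'), x ∈ meets (R l α ξ δ u) := by
      by_contra h5
      push Not at h5
      exact h3 h5
    obtain ⟨⟨f5, c5⟩, hle5, h5⟩ := h4
    have hf5 : f5 ≤ f4 := hle5.1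
    have hc5 : c5 ≤ π e3 := by
      have : c5 ≤ π dp' := hle5.2
      rwa [hpdp'] at this
    obtain ⟨dq', hdq', hpdq'⟩ := lift dq c5 (by rw [hpdq]; exact hc5.trans hc4)
    obtain ⟨e4, he4, hpe4⟩ := lift e3 c5 hc5
    obtain ⟨hA', -⟩ := hcon f5 (hf5.trans (hf4.trans hf3)) dq' ((hdq'.trans hdq).trans hd'') e4
      (he4.trans (he3.trans he2)) (hpdq'.trans hpe4.symm)
    have h6 : (f5, π dq') ∉ fnot (meets (R l β ζ δ u)) := by
      intro h7
      exact hA' ⟨β, δ, ζ, u, hδ, hDc1 _ _ _ _ _ _ _ _ hDq (hf5.trans hf4) hdq',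
        hDc1 _ _ _ _ _ _ _ _ h2 hf5 he4, h7⟩
    have h7 : ∃ x ≤ (f5, π dq'), x ∈ meets (R l β ζ δ u) := by
      by_contra h8
      push Not at h8
      exact h6 h8
    obtain ⟨x, hx, h8⟩ := h7
    rw [hpdq'] at hx
    have hxq3 : x ≤ (f3, c3) := hx.trans ⟨hf5.trans hf4, hc5.trans hc4⟩
    have hx0 : x ≤ (f0, π d0) := hxq3.trans ⟨hf3.trans hf, hc3.trans (hπ _ _ hd1)⟩
    have h9 := (mem_fimp_meets (down_fand (down_meets _) (down_meets _))).1
      (hR.2 l α β δ hαβ hδ ξ ζ u) x hx0 ⟨meets_dn h5 hx, h8⟩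
    exact hq1n x (hxq3.trans (hq3q2.trans hq2q1)) h9

/-- the cut of a sequence after `i` -/
def cut {T : Type} [LinearOrder T] (i : T) (y : T → Bool) : T → Bool :=
  open Classical in fun k => if k ≤ i then y k else false

theorem cut_eq {T : Type} [LinearOrder T] {i : T} {y y' : T → Bool}
    (h : ∀ k ≤ i, y k = y' k) : cut i y = cut i y' := by
  classical
  funext k
  unfold cut
  split_ifs with h1
  · exact h k h1
  · rfl

theorem cut_apply {T : Type} [LinearOrder T] {i : T} (y : T → Bool) {k : T} (hk : k ≤ i) :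
    cut i y k = y k := by
  classical
  unfold cut
  rw [if_pos hk]

/-- the conditions of the fusion -/
abbrev FC (π : D → C) (d0 : D) (T : Type) : Type :=
  {x : C × ((T → Bool) → D) // ∀ y, π (x.2 y) = x.1 ∧ x.2 y ≤ d0}

/-- the conditions which depend on the part of the sequence up to `i` only -/
def FInv (π : D → C) (d0 : D) (T : Type) [LinearOrder T] (i : T) : Set (FC π d0 T) :=
  {x | ∀ y y', (∀ k ≤ i, y k = y' k) → x.1.2 y = x.1.2 y'}

/-- `y` is an extension of `s` -/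
def Ext {T : Type} [LinearOrder T] {i : T} (s : Iio i → Bool) (y : T → Bool) : Prop :=
  ∀ k : Iio i, y k.1 = s k

/-- the task `(s, l, w', f)` is achieved, with the bound `b` -/
def Done (π : D → C) (d0 : D) (T : Type) [LinearOrder T] (R : I → K → W → K → W → Set (F × C))
    (f0 : F) (Dc : K → I → W → W → F → D → Prop) (b : K) (i : T)
    (t : (Iio i → Bool) × I × W × F) (p : FC π d0 T) : Prop :=
  t.2.2.2 ≤ f0 → ∃ f' ≤ t.2.2.2,
    (∃ α1 α2 w1 w2, α1 ≤ α2 ∧ α2 ≤ b ∧ (f', p.1.1) ∈ fnot (meets (R t.2.1 α1 w1 α2 w2)) ∧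
      ∀ y, Ext t.1 y → (y i = false → Dc α1 t.2.1 w1 t.2.2.1 f' (p.1.2 y)) ∧
        (y i = true → Dc α2 t.2.1 w2 t.2.2.1 f' (p.1.2 y))) ∨
    (∃ bl : Bool, ∀ y, Ext t.1 y → y i = bl → AltB Dc t.2.1 t.2.2.1 f' b (p.1.2 y))

theorem done_mono (R : I → K → W → K → W → Set (F × C)) (f0 : F) (d0 : D)
    (Dc : K → I → W → W → F → D → Prop)
    (hDc1 : ∀ α l w w' f d f' d', Dc α l w w' f d → f' ≤ f → d' ≤ d → Dc α l w w' f' d')
    {T : Type} [LinearOrder T] (b : K) (i : T) (t : (Iio i → Bool) × I × W × F)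
    (p p' : FC π d0 T) (h : Done π d0 T R f0 Dc b i t p) (hp : p' ≤ p) :
    Done π d0 T R f0 Dc b i t p' := by
  intro h0
  obtain ⟨f', hf', h1⟩ := h h0
  refine ⟨f', hf', ?_⟩
  rcases h1 with ⟨α1, α2, w1, w2, h2, h3, h4, h5⟩ | ⟨bl, h2⟩
  · refine Or.inl ⟨α1, α2, w1, w2, h2, h3, ?_, ?_⟩
    · exact down_fnot _ _ h4 _ ⟨le_rfl, hp.1⟩
    · intro y hy
      exact ⟨fun h6 => hDc1 _ _ _ _ _ _ _ _ ((h5 y hy).1 h6) le_rfl (hp.2 y),
        fun h6 => hDc1 _ _ _ _ _ _ _ _ ((h5 y hy).2 h6) le_rfl (hp.2 y)⟩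
  · refine Or.inr ⟨bl, ?_⟩
    intro y hy hyb α hα w f'' hf'' d' hd'
    exact h2 y hy hyb α hα w f'' hf'' d' (hd'.trans (hp.2 y))

theorem step (hπ : ∀ d d' : D, d' ≤ d → π d' ≤ π d)
    (lift : ∀ d, ∀ c ≤ π d, ∃ d' ≤ d, π d' = c)
    (R : I → K → W → K → W → Set (F × C)) (f0 : F) (d0 : D) (hR : (f0, π d0) ∈ IsSy R)
    (Dc : K → I → W → W → F → D → Prop)
    (hDc1 : ∀ α l w w' f d f' d', Dc α l w w' f d → f' ≤ f → d' ≤ d → Dc α l w w' f' d')
    (hno : ∀ f ≤ f0, ∀ c ≤ π d0, ∀ l, (f, c) ∉ HasCb (R l)) (k0 : K)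
    {T : Type} [LinearOrder T] (i : T) (t : (Iio i → Bool) × I × W × F)
    (p : FC π d0 T) (hp : p ∈ FInv π d0 T i) :
    ∃ p' ≤ p, p' ∈ FInv π d0 T i ∧ ∃ b, Done π d0 T R f0 Dc b i t p' := by
  classical
  obtain ⟨s, l, w', f⟩ := t
  by_cases hf : f ≤ f0
  · let y1 : T → Bool := fun k => if h : k < i then s ⟨k, h⟩ else false
    let y2 : T → Bool := fun k => if h : k < i then s ⟨k, h⟩ else true
    have hy1 : ∀ y, Ext s y → y i = false → ∀ k ≤ i, y k = y1 k := by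
      intro y hy hyi k hk
      rcases hk.lt_or_eq with h | h
      · simp only [y1]
        rw [dif_pos h]
        exact hy ⟨k, h⟩
      · subst h
        simp only [y1]
        rw [dif_neg (lt_irrefl _), hyi]
    have hy2 : ∀ y, Ext s y → y i = true → ∀ k ≤ i, y k = y2 k := by
      intro y hy hyi k hk
      rcases hk.lt_or_eq with h | h
      · simp only [y2]
        rw [dif_pos h]
        exact hy ⟨k, h⟩
      · subst h
        simp only [y2]
        rw [dif_neg (lt_irrefl _), hyi]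
    obtain ⟨⟨c, δ⟩, hδ⟩ := p
    have hδ' : ∀ y, π (δ y) = c ∧ δ y ≤ d0 := hδ
    have hinv : ∀ y y', (∀ k ≤ i, y k = y' k) → δ y = δ y' := hp
    obtain ⟨f', hf', d1', hd1', d2', hd2', hpp, halt⟩ := claim hπ lift R f0 d0 hR Dc hDc1 hno l w' f hf
      (δ y1) (δ y2) (hδ' y1).2 (hδ' y2).2 ((hδ' y1).1.trans (hδ' y2).1.symm)
    have hc' : π d1' ≤ c := by
      rw [← (hδ' y1).1]
      exact hπ _ _ hd1'
    have hL : ∀ y, ∃ d ≤ δ y, π d = π d1' := fun y => lift (δ y) (π d1') (by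
      rw [(hδ' y).1]
      exact hc')
    choose L hL1 hL2 using hL
    let δ' : (T → Bool) → D := fun y =>
      if Ext s y then (if y i = true then d2' else d1') else L (cut i y)
    have hδ1 : ∀ y, Ext s y → y i = false → δ' y = d1' := by
      intro y hy hyi
      simp only [δ']
      rw [if_pos hy, hyi]
      simp
    have hδ2 : ∀ y, Ext s y → y i = true → δ' y = d2' := by
      intro y hy hyi
      simp only [δ']
      rw [if_pos hy, hyi]
      simp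
    have hδ3 : ∀ y, ¬ Ext s y → δ' y = L (cut i y) := by
      intro y hy
      simp only [δ']
      rw [if_neg hy]
    have hle : ∀ y, δ' y ≤ δ y := by
      intro y
      by_cases h : Ext s y
      · rcases Bool.eq_false_or_eq_true (y i) with h1 | h1
        · rw [hδ2 y h h1, hinv y y2 (hy2 y h h1)]
          exact hd2'
        · rw [hδ1 y h h1, hinv y y1 (hy1 y h h1)]
          exact hd1'
      · rw [hδ3 y h, hinv y (cut i y) (fun k hk => (cut_apply y hk).symm)]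
        exact hL1 _
    have hpr : ∀ y, π (δ' y) = π d1' := by
      intro y
      by_cases h : Ext s y
      · rcases Bool.eq_false_or_eq_true (y i) with h1 | h1
        · rw [hδ2 y h h1, hpp]
        · rw [hδ1 y h h1]
      · rw [hδ3 y h]
        exact hL2 _
    refine ⟨⟨(π d1', δ'), fun y => ⟨hpr y, (hle y).trans (hδ' y).2⟩⟩, ⟨hc', hle⟩, ?_, ?_⟩
    · intro y y' hyy
      change δ' y = δ' y'
      have h1 : Ext s y ↔ Ext s y' := by
        constructor
        · intro h k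
          rw [← hyy k.1 k.2.le]
          exact h k
        · intro h k
          rw [hyy k.1 k.2.le]
          exact h k
      by_cases h : Ext s y
      · have h' := h1.1 h
        have h2 := hyy i le_rfl
        rcases Bool.eq_false_or_eq_true (y i) with h3 | h3
        · rw [hδ2 y h h3, hδ2 y' h' (h2 ▸ h3)]
        · rw [hδ1 y h h3, hδ1 y' h' (h2 ▸ h3)]
      · have h' : ¬ Ext s y' := fun h2 => h (h1.2 h2)
        rw [hδ3 y h, hδ3 y' h', cut_eq hyy]
    · rcases halt with ⟨α1, α2, w1, w2, h1, h2, h3, h4⟩ | ⟨η, h1 | h1⟩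
      · refine ⟨α2, fun _ => ⟨f', hf', Or.inl ⟨α1, α2, w1, w2, h1, le_rfl, h4, ?_⟩⟩⟩
        intro y hy
        refine ⟨fun h5 => ?_, fun h5 => ?_⟩
        · change Dc α1 l w1 w' f' (δ' y)
          rw [hδ1 y hy h5]
          exact h2
        · change Dc α2 l w2 w' f' (δ' y)
          rw [hδ2 y hy h5]
          exact h3
      · refine ⟨η, fun _ => ⟨f', hf', Or.inr ⟨false, ?_⟩⟩⟩
        intro y hy hyi
        change AltB Dc l w' f' η (δ' y)
        rw [hδ1 y hy hyi]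
        exact h1
      · refine ⟨η, fun _ => ⟨f', hf', Or.inr ⟨true, ?_⟩⟩⟩
        intro y hy hyi
        change AltB Dc l w' f' η (δ' y)
        rw [hδ2 y hy hyi]
        exact h1
  · exact ⟨p, le_rfl, hp, k0, fun h => absurd h hf⟩

/-- all tasks are achieved by one condition -/
theorem fused {τ : Cardinal.{0}} (h0 : ℵ₀ ≤ τ) (hs : ∀ ν < τ, (2 : Cardinal.{0}) ^ ν ≤ τ)
    (hF : #F ≤ τ) (hC : DC τ C) (hπ : ∀ d d' : D, d' ≤ d → π d' ≤ π d)
    (hD : ∀ (J : Type) [LinearOrder J] [WellFoundedLT J] [Nonempty J], #J ≤ τ →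
      ∀ M : J → D, (∀ j' j, j' < j → M j ≤ M j') → ∀ c, (∀ j, c ≤ π (M j)) →
        ∃ d, π d = c ∧ ∀ j, d ≤ M j)
    (lift : ∀ d, ∀ c ≤ π d, ∃ d' ≤ d, π d' = c) (hW : #W ≤ τ) (hI : #I ≤ τ)
    (R : I → K → W → K → W → Set (F × C)) (f0 : F) (d0 : D) (hR : (f0, π d0) ∈ IsSy R)
    (Dc : K → I → W → W → F → D → Prop)
    (hDc1 : ∀ α l w w' f d f' d', Dc α l w w' f d → f' ≤ f → d' ≤ d → Dc α l w w' f' d')
    (hno : ∀ f ≤ f0, ∀ c ≤ π d0, ∀ l, (f, c) ∉ HasCb (R l)) (k0 : K) :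
    ∃ p : FC π d0 τ.ord.ToType, ∀ i t, ∃ b, Done π d0 τ.ord.ToType R f0 Dc b i t p := by
  classical
  have hT : #τ.ord.ToType = τ := mk_ord_toType τ
  have hIio : ∀ i : τ.ord.ToType, #(Iio i) < τ := fun i => by simpa using mk_Iio_lt i
  obtain ⟨e, he, p, hp, h⟩ := fusion (G := τ.ord.ToType) (κ := fun _ => τ) (ν := fun _ => τ)
    (lam := τ) (fun _ => h0) (fun j => by
      rw [sum_const, lift_id, lift_id]
      exact (mul_le_mul' (hIio j).le le_rfl).trans (mul_eq_self h0).le)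
    (fun _ => h0) (by
      rw [sum_const, lift_id, lift_id, hT]
      exact (mul_eq_self h0).le)
    (E := fun _ => PUnit.{1}) (fun _ => fun ι D _ _ _ => ⟨PUnit.unit, fun i => le_rfl⟩)
    (P := FC π d0 τ.ord.ToType) (FInv π d0 τ.ord.ToType)
    (fun i j hij x hx y y' hyy => hx y y' fun k hk => hyy k (hk.trans hij))
    (by
      intro i J _ _ _ hJ M hM hMi
      obtain ⟨c, hc⟩ := hC.lb hJ (fun j => (M j).1.1) (fun j' j hj => (hM j' j hj).1)
      have h1 : ∀ y, ∃ d, π d = c ∧ ∀ j, d ≤ (M j).1.2 y := fun y =>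
        hD J hJ (fun j => (M j).1.2 y) (fun j' j hj => (hM j' j hj).2 y) c (fun j => by
          rw [((M j).2 y).1]
          exact hc j)
      choose g hg1 hg2 using h1
      obtain ⟨j0⟩ := ‹Nonempty J›
      have h2 : ∀ y j, g (cut i y) ≤ (M j).1.2 y := by
        intro y j
        rw [hMi j y (cut i y) (fun k hk => (cut_apply y hk).symm)]
        exact hg2 _ j
      refine ⟨⟨(c, fun y => g (cut i y)), fun y => ⟨hg1 _, (h2 y j0).trans ((M j0).2 y).2⟩⟩,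
        ?_, ?_⟩
      · intro y y' hyy
        change g (cut i y) = g (cut i y')
        rw [cut_eq hyy]
      · intro j
        exact ⟨hc j, fun y => h2 y j⟩)
    (by
      intro J _ _ _ hJ M hM
      obtain ⟨c, hc⟩ := hC.lb hJ (fun j => (M j).1.1) (fun j' j hj => (hM j' j hj).1)
      have h1 : ∀ y, ∃ d, π d = c ∧ ∀ j, d ≤ (M j).1.2 y := fun y =>
        hD J hJ (fun j => (M j).1.2 y) (fun j' j hj => (hM j' j hj).2 y) c (fun j => by
          rw [((M j).2 y).1]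
          exact hc j)
      choose g hg1 hg2 using h1
      obtain ⟨j0⟩ := ‹Nonempty J›
      exact ⟨⟨(c, g), fun y => ⟨hg1 _, (hg2 y j0).trans ((M j0).2 y).2⟩⟩,
        fun j => ⟨hc j, fun y => hg2 y j⟩⟩)
    (T := fun i => (Iio i → Bool) × I × W × F) (fun i => by
      rw [mk_prod, mk_prod, mk_prod, lift_id, lift_id, lift_id, lift_id, lift_id, lift_id,
        ← power_def, mk_bool]
      refine (mul_le_mul' (hs _ (hIio i)) (mul_le_mul' hI (mul_le_mul' hW hF))).trans ?_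
      rw [mul_eq_self h0, mul_eq_self h0, mul_eq_self h0])
    (fun i t _ p => ∃ b, Done π d0 τ.ord.ToType R f0 Dc b i t p)
    (fun i t _ p _ p' h _ hp => by
      obtain ⟨b, hb⟩ := h
      exact ⟨b, done_mono R f0 d0 Dc hDc1 b i t p p' hb hp⟩)
    (fun _ => PUnit.unit) ⟨(π d0, fun _ => d0), fun y => ⟨rfl, le_rfl⟩⟩
    (fun i y y' _ => rfl)
    (fun i t g hg p hpi _ => by
      obtain ⟨p', hp', h1, h2⟩ := step hπ lift R f0 d0 hR Dc hDc1 hno k0 i t p hpi
      exact ⟨g, le_rfl, p', hp', h1, h2⟩)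
  exact ⟨p, h⟩

end

end PreserveAux

open PreserveAux in
/-- **Preservation of branches of systems.** `R` is a system in the extension by `F × C`, `F` has
at most `τ` elements and `C` is closed under lower bounds of families of `τ` conditions. `D` is
projected to `C` by `π`, and decreasing sequences of `τ` conditions of `D` have lower bounds with
any given possible projection. In the extension by `F × D` there are branches of the system:
`Dc α l w w' f d` says that `(f, d)` decides that the branch with the index `(l, w')` passes through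
the node `(α, w)`; each `α` can be decided, for some `l, w, w'`. Then one of the relations `R l`
has a cofinal branch in an extension by `F × C`. -/
theorem preserve {τ : Cardinal.{0}} (h0 : ℵ₀ ≤ τ) (hs : ∀ ν < τ, (2 : Cardinal.{0}) ^ ν ≤ τ)
    {F C D : Type} [Preorder F] [Preorder C] [Preorder D] (π : D → C) (hF : #F ≤ τ)
    (hC : DC τ C) (hπ : ∀ d d' : D, d' ≤ d → π d' ≤ π d)
    (hD : ∀ (J : Type) [LinearOrder J] [WellFoundedLT J] [Nonempty J], #J ≤ τ →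
      ∀ M : J → D, (∀ j' j, j' < j → M j ≤ M j') → ∀ c, (∀ j, c ≤ π (M j)) →
        ∃ d, π d = c ∧ ∀ j, d ≤ M j)
    {K W I : Type} [LinearOrder K] (hK : Bd τ K) (hW : #W ≤ τ) (hI : #I ≤ τ)
    (R : I → K → W → K → W → Set (F × C)) (f0 : F) (d0 : D) (hR : (f0, π d0) ∈ IsSy R)
    (Dc : K → I → W → W → F → D → Prop)
    (hDc1 : ∀ α l w w' f d f' d', Dc α l w w' f d → f' ≤ f → d' ≤ d → Dc α l w w' f' d')
    (hDc2 : ∀ α, ∀ f ≤ f0, ∀ d ≤ d0, ∃ f' ≤ f, ∃ d' ≤ d, ∃ l w w', Dc α l w w' f' d')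
    (hDc3 : ∀ α β l w v w', ∀ f ≤ f0, ∀ d ≤ d0, α ≤ β → Dc α l w w' f d → Dc β l v w' f d →
      (f, π d) ∈ meets (R l α w β v)) :
    ∃ f ≤ f0, ∃ c ≤ π d0, ∃ l, (f, c) ∈ HasCb (R l) := by
  classical
  by_contra hcon
  have hno : ∀ f ≤ f0, ∀ c ≤ π d0, ∀ l, (f, c) ∉ HasCb (R l) := by
    intro f hf c hc l h
    exact hcon ⟨f, hf, c, hc, l, h⟩
  have lift : ∀ d, ∀ c ≤ π d, ∃ d' ≤ d, π d' = c := by
    intro d c hc
    obtain ⟨d', h1, h2⟩ := hD PUnit.{1} (by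
      rw [mk_punit]
      exact one_le_aleph0.trans h0) (fun _ => d) (fun _ _ _ => le_rfl) c (fun _ => hc)
    exact ⟨d', h2 PUnit.unit, h1⟩
  obtain ⟨k0, -⟩ := hK PEmpty.{1} PEmpty.elim (by simp)
  obtain ⟨⟨⟨cs, δ⟩, hδ⟩, hdone⟩ := fused h0 hs hF hC hπ hD lift hW hI R f0 d0 hR Dc hDc1 hno k0
  have hδ' : ∀ y, π (δ y) = cs ∧ δ y ≤ d0 := hδ
  have hcs : cs ≤ π d0 := by
    have h1 := hδ' (fun _ => false)
    rw [← h1.1]
    exact hπ _ _ h1.2
  choose b hb using hdone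
  have hT : #τ.ord.ToType = τ := mk_ord_toType τ
  have hIio : ∀ i : τ.ord.ToType, #(Iio i) < τ := fun i => by simpa using mk_Iio_lt i
  obtain ⟨αs, hαs⟩ := hK (Σ i : τ.ord.ToType, ((Iio i → Bool) × I × W × F))
    (fun x => b x.1 x.2) (by
      rw [mk_sigma]
      have h1 : Cardinal.sum (fun i : τ.ord.ToType => #((Iio i → Bool) × I × W × F)) ≤
          Cardinal.sum (fun _ : τ.ord.ToType => τ) := by
        apply sum_le_sum
        intro i
        rw [mk_prod, mk_prod, mk_prod, lift_id, lift_id, lift_id, lift_id, lift_id, lift_id,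
          ← power_def, mk_bool]
        refine (mul_le_mul' (hs _ (hIio i)) (mul_le_mul' hI (mul_le_mul' hW hF))).trans ?_
        rw [mul_eq_self h0, mul_eq_self h0, mul_eq_self h0]
      refine h1.trans ?_
      rw [sum_const, lift_id, lift_id, hT]
      exact (mul_eq_self h0).le)
  -- the pigeonhole principle
  obtain ⟨f, hf, c, hc, y, y', ⟨l, w, w'⟩, hne, hV, hV'⟩ := pigeon h0 (F := F) (C := C)
    (Y := τ.ord.ToType → Bool) (Z := I × W × W) hF hC (by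
      rw [← power_def, mk_bool, hT]
      exact cantor τ) (by
      simp only [mk_prod, lift_id]
      refine (mul_le_mul' hI (mul_le_mul' hW hW)).trans ?_
      rw [mul_eq_self h0, mul_eq_self h0])
    (fun y z f c => ∃ d ≤ δ y, c ≤ π d ∧ Dc αs z.1 z.2.1 z.2.2 f d)
    (fun y z f c f' c' h hf hc => by
      obtain ⟨d, hd, h1, h2⟩ := h
      exact ⟨d, hd, hc.trans h1, hDc1 _ _ _ _ _ _ _ _ h2 hf le_rfl⟩) f0 cs
    (fun y f hf c hc => by
      obtain ⟨d, hd, hdc⟩ := lift (δ y) c (by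
        rw [(hδ' y).1]
        exact hc)
      obtain ⟨f', hf', d', hd', l, w, w', h1⟩ := hDc2 αs f hf d (hd.trans (hδ' y).2)
      refine ⟨f', hf', π d', ?_, (l, w, w'), d', hd'.trans hd, le_rfl, h1⟩
      rw [← hdc]
      exact hπ _ _ hd')
  -- the first difference
  have hex : ∃ j, y j ≠ y' j := by
    by_contra h
    push Not at h
    exact hne (funext h)
  obtain ⟨j, hj, hmin⟩ := (wellFounded_lt (α := τ.ord.ToType)).has_min {j | y j ≠ y' j} hex
  have hmin' : ∀ k < j, y k = y' k := by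
    intro k hk
    by_contra h
    exact hmin k h hk
  -- the main argument
  have main : ∀ y y' : τ.ord.ToType → Bool, (∀ k < j, y k = y' k) → y j = false → y' j = true →
      (∃ d ≤ δ y, c ≤ π d ∧ Dc αs l w w' f d) → (∃ d ≤ δ y', c ≤ π d ∧ Dc αs l w w' f d) →
      False := by
    rintro y y' hk hy hy' ⟨d, hd, hcd, h1⟩ ⟨d', hd', hcd', h1'⟩
    obtain ⟨f', hf', h2⟩ := hb j (fun k => y k.1, l, w', f) hf
    change f' ≤ f at hf'
    have hαj : b j (fun k => y k.1, l, w', f) < αs := hαs ⟨j, (fun k => y k.1, l, w', f)⟩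
    have hEy : Ext (fun k : Iio j => y k.1) y := fun k => rfl
    have hEy' : Ext (fun k : Iio j => y k.1) y' := fun k => (hk k.1 k.2).symm
    rcases h2 with ⟨α1, α2, w1, w2, h3, h4, h5, h6⟩ | ⟨bl, h3⟩
    · have a1 : Dc α1 l w1 w' f' (δ y) := (h6 y hEy).1 hy
      have a2 : Dc α2 l w2 w' f' (δ y') := (h6 y' hEy').2 hy'
      have h4' : α2 ≤ αs := h4.trans hαj.le
      have m1 : (f', π d) ∈ meets (R l α1 w1 αs w) := hDc3 α1 αs l w1 w w' f' (hf'.trans hf) d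
        (hd.trans (hδ' y).2) (h3.trans h4') (hDc1 _ _ _ _ _ _ _ _ a1 le_rfl hd)
        (hDc1 _ _ _ _ _ _ _ _ h1 hf' le_rfl)
      have m2 : (f', π d') ∈ meets (R l α2 w2 αs w) := hDc3 α2 αs l w2 w w' f' (hf'.trans hf) d'
        (hd'.trans (hδ' y').2) h4' (hDc1 _ _ _ _ _ _ _ _ a2 le_rfl hd')
        (hDc1 _ _ _ _ _ _ _ _ h1' hf' le_rfl)
      have n1 : (f', c) ∈ meets (R l α1 w1 αs w) := meets_dn m1 ⟨le_rfl, hcd⟩
      have n2 : (f', c) ∈ meets (R l α2 w2 αs w) := meets_dn m2 ⟨le_rfl, hcd'⟩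
      have n3 := (mem_fimp_meets (down_fand (down_meets _) (down_meets _))).1
        (hR.2 l α1 α2 αs h3 h4' w1 w2 w) (f', c) ⟨hf'.trans hf, hc.trans hcs⟩ ⟨n1, n2⟩
      exact h5 (f', c) ⟨le_rfl, hc⟩ n3
    · cases bl with
      | false =>
        exact h3 y hEy hy αs hαj.le w f' le_rfl d hd (hDc1 _ _ _ _ _ _ _ _ h1 hf' le_rfl)
      | true =>
        exact h3 y' hEy' hy' αs hαj.le w f' le_rfl d' hd' (hDc1 _ _ _ _ _ _ _ _ h1' hf' le_rfl)
  have hj' : y j ≠ y' j := hj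
  rcases Bool.eq_false_or_eq_true (y j) with h1 | h1
  · have h2 : y' j = false := by
      rw [h1] at hj'
      rcases Bool.eq_false_or_eq_true (y' j) with h3 | h3
      · rw [h3] at hj'
        exact absurd rfl hj'
      · exact h3
    exact main y' y (fun k hk => (hmin' k hk).symm) h2 h1 hV' hV
  · have h2 : y' j = true := by
      rw [h1] at hj'
      rcases Bool.eq_false_or_eq_true (y' j) with h3 | h3
      · exact h3
      · rw [h3] at hj'
        exact absurd rfl hj'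
    exact main y y' hmin' h1 h2 hV hV'

end Pool.Agent.H638.ST
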