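import Mathlib
import Pool.Agent.H638.ST.Uf
import Pool.Agent.H638.ST.Preserve

set_option autoImplicit false
set_option linter.unusedSectionVars false
set_option linter.unusedVariables false

namespace Pool.Agent.H638.ST

open Set Cardinal Pool.Agent.Helper669.Forcing

/-! # Germs of functions into the Levy collapse -/

section

variable {τ κ : Cardinal.{0}} {H K : Type} [Preorder H] [LinearOrder K]

/-- A germ: a condition `h ≤ h0`, a name `Φ` of a function from `K` to the Levy collapse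
`Col(τ⁺, <κ)`, and its root. -/
structure Gm (κ τ : Cardinal.{0}) (U : (K → Set H) → Set H) (h0 : H) where
  h : H
  Φ : K → Lv (Order.succ τ) κ → Set H
  c : Lv (Order.succ τ) κ
  le : h ≤ h0
  fn : h ∈ IsFun Φ
  rt : h ∈ Rt U Φ c

variable {U : (K → Set H) → Set H} {h0 : H}

/-- `d' ≤ d` if `Φ' β ≤ Φ β` for almost all `β`. -/
def Gm.Le (d' d : Gm κ τ U h0) : Prop :=
  d'.h ≤ d.h ∧ d'.c ≤ d.c ∧ d'.h ∈ meets (U fun β => fall fun c' : Lv (Order.succ τ) κ =>
    fall fun c : Lv (Order.succ τ) κ => fimp (fand (meets (d'.Φ β c')) (meets (d.Φ β c)))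
      (fground (c' ≤ c)))

end

section

variable {H X : Type} [Preorder H] {κ : Cardinal.{0}} {U : (X → Set H) → Set H} {q r : H}

/-- combination of a family of less than `κ` statements which hold almost everywhere -/
theorem step2_comb (h : q ∈ IsUfn κ U) (hr : r ≤ q) {I : Type} (hI : #I < κ)
    (A : I → X → Set H) (hA : ∀ i, r ∈ meets (U (A i))) {B : X → Set H}
    (hB : ∀ a, ∀ r' ≤ r, (∀ i, r' ∈ meets (A i a)) → ∃ r'' ≤ r', r'' ∈ meets (B a)) :
    r ∈ meets (U B) := by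
  refine ufn_mono h hr (ufn_inter h hr hI A hA) fun a r' hr' h' => ?_
  refine hB a r' hr' fun i => ?_
  exact (mem_meets_reg (down_fall fun i => down_meets _) (reg_fall fun i => reg_meets _)).1 h' i

theorem step2_all (h : q ∈ IsUfn κ U) (hκ : ℵ₀ ≤ κ) (hr : r ≤ q) {B : X → Set H}
    (hB : ∀ a, ∀ r' ≤ r, ∃ r'' ≤ r', r'' ∈ meets (B a)) : r ∈ meets (U B) := by
  refine step2_comb h hr (I := Empty) ?_ (fun i => i.elim) (fun i => i.elim)
    (fun a r' hr' _ => hB a r' hr')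
  rw [mk_empty]
  exact aleph0_pos.trans_le hκ

theorem step2_two (h : q ∈ IsUfn κ U) (hκ : ℵ₀ ≤ κ) (hr : r ≤ q) {A1 A2 B : X → Set H}
    (h1 : r ∈ meets (U A1)) (h2 : r ∈ meets (U A2))
    (hB : ∀ a, ∀ r' ≤ r, r' ∈ meets (A1 a) → r' ∈ meets (A2 a) →
      ∃ r'' ≤ r', r'' ∈ meets (B a)) : r ∈ meets (U B) := by
  refine step2_comb h hr (I := Bool) ?_ (fun i => if i then A1 else A2) ?_ ?_
  · rw [mk_bool]
    exact (natCast_lt_aleph0 (n := 2)).trans_le hκ
  · rintro (_ | _)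
    · exact h2
    · exact h1
  · intro a r' hr' h'
    exact hB a r' hr' (h' true) (h' false)

theorem step2_three (h : q ∈ IsUfn κ U) (hκ : ℵ₀ ≤ κ) (hr : r ≤ q) {A1 A2 A3 B : X → Set H}
    (h1 : r ∈ meets (U A1)) (h2 : r ∈ meets (U A2)) (h3 : r ∈ meets (U A3))
    (hB : ∀ a, ∀ r' ≤ r, r' ∈ meets (A1 a) → r' ∈ meets (A2 a) → r' ∈ meets (A3 a) →
      ∃ r'' ≤ r', r'' ∈ meets (B a)) : r ∈ meets (U B) := by
  refine step2_two h hκ hr h1 (step2_two h hκ hr h2 h3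
    (B := fun a => fand (meets (A2 a)) (meets (A3 a))) fun a r' _ h4 h5 =>
      ⟨r', le_rfl, meets_of_mem ⟨h4, h5⟩⟩) fun a r' hr' h4 h5 => ?_
  have h6 := (mem_meets_reg (down_fand (down_meets _) (down_meets _))
    (reg_fand (reg_meets _) (reg_meets _))).1 h5
  exact hB a r' hr' h4 h6.1 h6.2

end

section

variable {τ κ : Cardinal.{0}} {H K Y : Type} [Preorder H] [LinearOrder K]

/-- the sentence `Φ' β ≤ Φ β` -/
def step2_LeS [Preorder Y] (Φ' Φ : K → Y → Set H) (β : K) : Set H :=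
  fall fun c' : Y => fall fun c : Y => fimp (fand (meets (Φ' β c')) (meets (Φ β c)))
      (fground (c' ≤ c))

theorem step2_leS [Preorder Y] {Φ' Φ : K → Y → Set H} {β : K} {r : H} :
    r ∈ meets (step2_LeS Φ' Φ β) ↔ ∀ s ≤ r, ∀ c' c, s ∈ meets (Φ' β c') → s ∈ meets (Φ β c) →
      c' ≤ c := by
  have h1 : r ∈ meets (step2_LeS Φ' Φ β) ↔ r ∈ step2_LeS Φ' Φ β :=
    mem_meets_reg (down_fall fun _ => down_fall fun _ => down_fimp _ _)
      (reg_fall fun _ => reg_fall fun _ => reg_fimp _ (down_fand (down_meets _) (down_meets _)))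
  rw [h1]
  constructor
  · intro h s hs c' c h1 h2
    obtain ⟨_, _, h3⟩ := mem_fimp.1 (h c' c) s hs ⟨h1, h2⟩
    exact h3
  · intro h c' c
    exact mem_fimp.2 fun s hs h1 => ⟨s, le_rfl, h s hs c' c h1.1 h1.2⟩

/-- the sentence `Φ β` has the property `S` -/
def step2_Val (Φ : K → Y → Set H) (β : K) (S : Y → Set H) : Set H :=
  fex fun c' : Y => fand (meets (Φ β c')) (S c')

theorem step2_val {Φ : K → Y → Set H} {β : K} {S : Y → Set H} (hS : ∀ c, Down (S c)) {r : H} :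
    r ∈ meets (step2_Val Φ β S) ↔ ∀ s ≤ r, ∃ t ≤ s, ∃ c', t ∈ meets (Φ β c') ∧ t ∈ S c' := by
  unfold step2_Val
  rw [mem_meets_reg (down_fex _) (reg_fex _), mem_fex]
  rfl

theorem step2_uniq {Φ : K → Y → Set H} {h r : H} (hΦ : h ∈ IsFun Φ) (hr : r ≤ h) {β : K}
    {c c' : Y} (h1 : r ∈ meets (Φ β c)) (h2 : r ∈ meets (Φ β c')) : c = c' :=
  IsFun.unique (down_IsFun _ _ hΦ _ hr) h1 h2

theorem step2_tot {Φ : K → Y → Set H} {h r : H} (hΦ : h ∈ IsFun Φ) (hr : r ≤ h) (β : K) :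
    ∃ s ≤ r, ∃ c, s ∈ meets (Φ β c) :=
  IsFun.total (down_IsFun _ _ hΦ _ hr) β

variable {U : (K → Set H) → Set H} {h0 : H}

theorem step2_le_iff {d' d : Gm κ τ U h0} : d'.Le d ↔ d'.h ≤ d.h ∧ d'.c ≤ d.c ∧
    d'.h ∈ meets (U fun β => step2_LeS d'.Φ d.Φ β) := Iff.rfl

theorem step2_refl (hκ : ℵ₀ ≤ κ) (hU : h0 ∈ IsUfn κ U) (d : Gm κ τ U h0) : d.Le d := by
  rw [step2_le_iff]
  refine ⟨le_rfl, le_rfl, step2_all hU hκ d.le fun β r hr => ⟨r, le_rfl, ?_⟩⟩
  rw [step2_leS]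
  intro s hs c' c h1 h2
  rw [step2_uniq d.fn (hs.trans hr) h1 h2]

theorem step2_trans (hκ : ℵ₀ ≤ κ) (hU : h0 ∈ IsUfn κ U) (a b d : Gm κ τ U h0) (h1 : a.Le b)
    (h2 : b.Le d) : a.Le d := by
  rw [step2_le_iff] at h1 h2 ⊢
  refine ⟨h1.1.trans h2.1, h1.2.1.trans h2.2.1, ?_⟩
  refine step2_two hU hκ a.le h1.2.2 (meets_dn h2.2.2 h1.1) fun β r hr h3 h4 => ⟨r, le_rfl, ?_⟩
  rw [step2_leS] at h3 h4 ⊢
  intro s hs c' c h5 h6
  obtain ⟨t, ht, c'', h7⟩ := step2_tot b.fn ((hs.trans hr).trans h1.1) β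
  exact (h3 t (ht.trans hs) c' c'' (meets_dn h5 ht) h7).trans
    (h4 t (ht.trans hs) c'' c h7 (meets_dn h6 ht))

/-- the values of a family of names can be decided simultaneously -/
theorem step2_decide (h0τ : ℵ₀ ≤ τ) (hH : DC τ H) {J : Type} [LinearOrder J] [WellFoundedLT J]
    [Nonempty J] (hJ : #J ≤ τ) (Ψ : J → Y → Set H) (h : H)
    (hΨ : ∀ j, ∀ q ≤ h, ∃ r ≤ q, ∃ y, r ∈ meets (Ψ j y)) :
    ∃ r ≤ h, ∃ a : J → Y, ∀ j, r ∈ meets (Ψ j (a j)) := by
  obtain ⟨M, h1, h2, h3⟩ := exists_chain h0τ hH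
    (fun j => (mk_set_le _).trans hJ) h (fun j m m' => ∃ y, m' ∈ meets (Ψ j y))
    (fun j m hm => by
      obtain ⟨r, hr, y, hy⟩ := hΨ j m hm
      exact ⟨r, hr, y, hy⟩)
  choose m hm1 hm2 hm3 a ha using h3
  obtain ⟨p, hp⟩ := hH.lb hJ M h2
  obtain ⟨j0⟩ := (inferInstance : Nonempty J)
  exact ⟨p, (hp j0).trans (h1 j0), a, fun j => meets_dn (ha j) (hp j)⟩

/-- the union of compatible conditions -/
theorem step2_union (h0τ : ℵ₀ ≤ τ) {J : Type} (hJ : #J ≤ τ) (cc : Lv (Order.succ τ) κ) :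
    ∃ F : (J → Lv (Order.succ τ) κ) → Lv (Order.succ τ) κ, ∀ a : J → Lv (Order.succ τ) κ,
      (∀ i j x y z, (a i).f x = some y → (a j).f x = some z → y = z) →
      (∀ j x y z, cc.f x = some y → (a j).f x = some z → y = z) →
      F a ≤ cc ∧ (∀ j, F a ≤ a j) ∧
        ∀ x, (F a).f x ≠ none → (F a).f x = cc.f x ∨ ∃ j, (F a).f x = (a j).f x := by
  classical
  have h1 : ∀ a : J → Lv (Order.succ τ) κ, ∃ p : Lv (Order.succ τ) κ,
      (∀ i j x y z, (a i).f x = some y → (a j).f x = some z → y = z) →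
      (∀ j x y z, cc.f x = some y → (a j).f x = some z → y = z) →
      p ≤ cc ∧ (∀ j, p ≤ a j) ∧
        ∀ x, p.f x ≠ none → p.f x = cc.f x ∨ ∃ j, p.f x = (a j).f x := by
    intro a
    by_cases h : (∀ i j x y z, (a i).f x = some y → (a j).f x = some z → y = z) ∧
      (∀ j x y z, cc.f x = some y → (a j).f x = some z → y = z)
    · obtain ⟨h2, h3⟩ := h
      obtain ⟨p, hp1, hp2⟩ := exists_union (σ := Order.succ τ) (isRegular_succ h0τ) (J := Option J)
        (by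
          rw [mk_option]
          exact Order.lt_succ_of_le (add_le_of_le h0τ hJ (one_le_aleph0.trans h0τ)))
        (fun o => o.elim cc a) (by
          rintro (_ | i) (_ | j) x y z h4 h5
          · exact Option.some_injective _ (h4.symm.trans h5)
          · exact h3 j x y z h4 h5
          · exact (h3 i x z y h5 h4).symm
          · exact h2 i j x y z h4 h5)
      refine ⟨p, fun _ _ => ⟨hp1 none, fun j => hp1 (some j), fun x hx => ?_⟩⟩
      obtain ⟨o, ho⟩ := hp2 x hx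
      rcases o with _ | j
      · exact Or.inl ho
      · exact Or.inr ⟨j, ho⟩
    · exact ⟨cc, fun h2 h3 => absurd ⟨h2, h3⟩ h⟩
  choose F hF using h1
  exact ⟨F, hF⟩

/-- lower bounds of decreasing sequences of germs, with a given root -/
theorem step2_lb (h0τ : ℵ₀ ≤ τ) (hτ : τ < κ) (hH : DC τ H) (hU : h0 ∈ IsUfn κ U)
    {J : Type} [LinearOrder J] [WellFoundedLT J] [Nonempty J] (hJ : #J ≤ τ)
    (M : J → Gm κ τ U h0) (hM : ∀ j' j, j' < j → (M j).Le (M j')) (cc : Lv (Order.succ τ) κ)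
    (hh : H) (hcc : ∀ j, cc ≤ (M j).c) (hhh : ∀ j, hh ≤ (M j).h) :
    ∃ d : Gm κ τ U h0, (d.c, d.h) = (cc, hh) ∧ ∀ j, d.Le (M j) := by
  classical
  have hκ : ℵ₀ ≤ κ := h0τ.trans hτ.le
  obtain ⟨j0⟩ := (inferInstance : Nonempty J)
  have hh0 : hh ≤ h0 := (hhh j0).trans (M j0).le
  obtain ⟨F, hF⟩ := step2_union (κ := κ) h0τ hJ cc
  -- the values are good almost everywhere
  have hgood : ∀ x0 : κ.ord.ToType × (Order.succ τ).ord.ToType, hh ∈ meets (U fun β =>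
      {r | ∃ a : J → Lv (Order.succ τ) κ, (∀ j, r ∈ meets ((M j).Φ β (a j))) ∧
        (∀ i j x y z, (a i).f x = some y → (a j).f x = some z → y = z) ∧
        (∀ j x y z, cc.f x = some y → (a j).f x = some z → y = z) ∧
        ∀ j, (a j).f x0 = (M j).c.f x0}) := by
    intro x0
    set A : Set (κ.ord.ToType × (Order.succ τ).ord.ToType) := {x | cc.f x ≠ none} ∪ {x0} with hA
    have hAc : #A < κ := by
      refine (mk_union_le _ _).trans_lt ?_
      refine add_lt_of_lt hκ (cc.small.trans_le (Order.succ_le_of_lt hτ)) ?_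
      rw [mk_singleton]
      exact one_lt_aleph0.trans_le hκ
    refine step2_comb hU hh0 (I := (J × J) ⊕ J) ?_
      (Sum.elim (fun p β => {r | p.1 < p.2 → r ∈ meets (step2_LeS (M p.2).Φ (M p.1).Φ β)})
        (fun j β => step2_Val (M j).Φ β fun c' => fground (∀ x ∈ A, c'.f x = (M j).c.f x)))
      ?_ ?_
    · rw [mk_sum, mk_prod]
      simp only [lift_id]
      refine lt_of_le_of_lt ?_ hτ
      calc #J * #J + #J ≤ τ * τ + τ := add_le_add (mul_le_mul' hJ hJ) hJ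
        _ = τ := by rw [mul_eq_self h0τ, add_eq_self h0τ]
    · rintro (⟨i, j⟩ | j)
      · by_cases hij : i < j
        · refine ufn_mono hU hh0 (meets_dn (step2_le_iff.1 (hM i j hij)).2.2 (hhh j))
            fun β r hr h1 => ⟨r, le_rfl, ?_⟩
          exact meets_of_mem fun _ => h1
        · refine step2_all hU hκ hh0 fun β r hr => ⟨r, le_rfl, ?_⟩
          exact meets_of_mem fun h1 => absurd h1 hij
      · refine meets_dn ?_ (hhh j)
        exact Rt.on hκ (down_fand (down_fall fun _ => down_fall fun _ => down_fimp _ _)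
          (down_fand (down_fall fun _ => down_for' _ _) (down_fand (down_fnot _)
            (down_fall fun _ => down_fall fun _ => down_fall fun _ => down_fimp _ _)))
          _ hU _ (M j).le) (M j).fn (M j).rt A hAc
    · intro β r hr hAll
      have hr1 : ∀ j, r ≤ (M j).h := fun j => hr.trans (hhh j)
      obtain ⟨s, hs, a, ha⟩ := step2_decide h0τ hH hJ (fun j => (M j).Φ β) r
        (fun j q hq => step2_tot (M j).fn (hq.trans (hr1 j)) β)
      refine ⟨s, hs, meets_of_mem ?_⟩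
      have hle : ∀ i j, i < j → a j ≤ a i := by
        intro i j hij
        have h1 := hAll (Sum.inl (i, j))
        have h2 : r ∈ meets (step2_LeS (M j).Φ (M i).Φ β) := by
          refine meets_of_dense fun q hq => ?_
          obtain ⟨t, ht, u, hu, htu⟩ := h1 q hq
          exact ⟨t, ht, meets_dn (hu hij) htu⟩
        exact step2_leS.1 h2 s hs _ _ (ha j) (ha i)
      have hval : ∀ j, ∀ x ∈ A, (a j).f x = (M j).c.f x := by
        intro j
        have h1 := hAll (Sum.inr j)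
        obtain ⟨t, ht, c', h2, h3⟩ := (step2_val fun _ => down_fground _).1 h1 s hs
        have h4 : c' = a j := step2_uniq (M j).fn ((ht.trans hs).trans (hr1 j)) h2
          (meets_dn (ha j) ht)
        rw [← h4]
        exact h3
      refine ⟨a, ha, ?_, ?_, fun j => hval j x0 (Or.inr rfl)⟩
      · intro i j x y z h1 h2
        rcases lt_trichotomy i j with h3 | h3 | h3
        · have h4 := Pf.le_def.1 (hle i j h3) x y h1
          exact Option.some_injective _ (h4.symm.trans h2)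
        · subst h3
          exact Option.some_injective _ (h1.symm.trans h2)
        · have h4 := Pf.le_def.1 (hle j i h3) x z h2
          exact Option.some_injective _ (h1.symm.trans h4)
      · intro j x y z h1 h2
        have h3 : x ∈ A := Or.inl (by
          change cc.f x ≠ none
          rw [h1]
          exact Option.some_ne_none _)
        rw [hval j x h3] at h2
        have h4 := Pf.le_def.1 (hcc j) x z h2
        exact Option.some_injective _ (h1.symm.trans h4)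
  -- the new name
  set Φ : K → Lv (Order.succ τ) κ → Set H := fun β c' =>
    {r | ∃ a : J → Lv (Order.succ τ) κ, (∀ j, r ∈ meets ((M j).Φ β (a j))) ∧ c' = F a} with hΦ
  have huniq : ∀ β, ∀ r ≤ hh, ∀ c', r ∈ meets (Φ β c') → ∀ a : J → Lv (Order.succ τ) κ,
      (∀ j, r ∈ meets ((M j).Φ β (a j))) → c' = F a := by
    intro β r hr c' h1 a ha
    obtain ⟨t, ht, u, ⟨b, hb, hbc⟩, htu⟩ := h1 r le_rfl
    rw [hbc]
    congr 1
    funext j
    exact step2_uniq (M j).fn ((ht.trans hr).trans (hhh j)) (meets_dn (hb j) htu)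
      (meets_dn (ha j) ht)
  have hfn : hh ∈ IsFun Φ := by
    refine ⟨fun β => ?_, fun β c' c'' => ?_⟩
    · refine mem_fex.2 fun r hr => ?_
      obtain ⟨s, hs, a, ha⟩ := step2_decide h0τ hH hJ (fun j => (M j).Φ β) r
        (fun j q hq => step2_tot (M j).fn ((hq.trans hr).trans (hhh j)) β)
      exact ⟨s, hs, F a, meets_of_mem ⟨a, ha, rfl⟩⟩
    · refine mem_fimp.2 fun r hr h1 => ?_
      obtain ⟨t, ht, u, ⟨b, hb, hbc⟩, htu⟩ := h1.1 r le_rfl
      refine ⟨t, ht, ?_⟩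
      have h2 := huniq β t (ht.trans hr) c'' (meets_dn h1.2 ht) b fun j => meets_dn (hb j) htu
      exact hbc.trans h2.symm
  have hrt : hh ∈ Rt U Φ cc := by
    intro x0
    refine ufn_mono hU hh0 (hgood x0) fun β r hr h1 => ?_
    obtain ⟨t, ht, u, ⟨a, ha, h2, h3, h4⟩, htu⟩ := h1 r le_rfl
    obtain ⟨h5, h6, h7⟩ := hF a h2 h3
    refine ⟨t, ht, meets_of_mem ?_⟩
    refine mem_fex_of_mem (F a) (down_fand (down_meets _) (down_fground _)) ⟨?_, ?_⟩
    · exact meets_of_mem ⟨a, fun j => meets_dn (ha j) htu, rfl⟩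
    · change (F a).f x0 = cc.f x0
      by_cases h8 : (F a).f x0 = none
      · rw [h8]
        rcases h9 : cc.f x0 with _ | y
        · rfl
        · have h10 := Pf.le_def.1 h5 x0 y h9
          rw [h8] at h10
          exact absurd h10 (Option.some_ne_none _).symm
      · rcases h7 x0 h8 with h9 | ⟨j, h9⟩
        · exact h9
        · rw [h9]
          rcases h10 : (a j).f x0 with _ | y
          · rw [h9] at h8
            exact absurd h10 h8
          · have h11 := h4 j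
            rw [h10] at h11
            exact (Pf.le_def.1 (hcc j) x0 y h11.symm).symm
  refine ⟨⟨hh, Φ, cc, hh0, hfn, hrt⟩, rfl, fun j => ?_⟩
  rw [step2_le_iff]
  refine ⟨hhh j, hcc j, ?_⟩
  obtain ⟨x0⟩ : Nonempty (κ.ord.ToType × (Order.succ τ).ord.ToType) := by
    have h1 : κ.ord.ToType ≃ κ.out := (Cardinal.eq.1 (by simp)).some
    have h2 : (Order.succ τ).ord.ToType ≃ (Order.succ τ).out := (Cardinal.eq.1 (by simp)).some
    have h3 : Nonempty κ.out := by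
      rw [← mk_ne_zero_iff, mk_out]
      exact (aleph0_pos.trans_le hκ).ne'
    have h4 : Nonempty (Order.succ τ).out := by
      rw [← mk_ne_zero_iff, mk_out]
      exact (Order.bot_lt_succ τ).ne'
    exact ⟨(h1.symm h3.some, h2.symm h4.some)⟩
  refine ufn_mono hU hh0 (hgood x0) fun β r hr h1 => ⟨r, le_rfl, ?_⟩
  rw [step2_leS]
  intro s hs c' c h2 h3
  obtain ⟨t, ht, u, ⟨a, ha, h4, h5, h6⟩, htu⟩ := h1 s hs
  have h7 := huniq β t ((ht.trans hs).trans hr) c' (meets_dn h2 ht) a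
    fun j => meets_dn (ha j) htu
  have h8 : c = a j := step2_uniq (M j).fn (((ht.trans hs).trans hr).trans (hhh j))
    (meets_dn h3 ht) (meets_dn (ha j) htu)
  rw [h7, h8]
  exact (hF a h4 h5).2.1 j

theorem step2_down_ufn : Down (IsUfn κ U) :=
  down_fand (down_fall fun _ => down_fall fun _ => down_fimp _ _)
    (down_fand (down_fall fun _ => down_for' _ _) (down_fand (down_fnot _)
      (down_fall fun _ => down_fall fun _ => down_fall fun _ => down_fimp _ _)))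

variable {F W I : Type} [Preorder F]

/-- the decision predicate -/
def step2_Dc (R : I → K → W → K → W → Set (F × (Lv (Order.succ τ) κ × H))) (α : K) (l : I)
    (w w' : W) (f : F) (d : Gm κ τ U h0) : Prop :=
  d.h ∈ meets (U fun β => fand (fground (α < β)) (step2_Val d.Φ β fun c' =>
    {h' | (f, (c', h')) ∈ meets (R l α w β w')}))

theorem step2_dcAt {R : I → K → W → K → W → Set (F × (Lv (Order.succ τ) κ × H))} {α β : K}
    {l : I} {w w' : W} {f : F} {Φ : K → Lv (Order.succ τ) κ → Set H} {r : H} :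
    r ∈ meets (fand (fground (α < β)) (step2_Val Φ β fun c' =>
      {h' | (f, (c', h')) ∈ meets (R l α w β w')})) ↔ α < β ∧ ∀ s ≤ r, ∃ t ≤ s, ∃ c',
        t ∈ meets (Φ β c') ∧ (f, (c', t)) ∈ meets (R l α w β w') := by
  have hd : Down (step2_Val Φ β fun c' => {h' | (f, (c', h')) ∈ meets (R l α w β w')}) :=
    down_fex _
  have hr : Reg (step2_Val Φ β fun c' => {h' | (f, (c', h')) ∈ meets (R l α w β w')}) :=
    reg_fex _
  rw [mem_meets_reg (down_fand (down_fground _) hd) (reg_fand (reg_fground _) hr), mem_fand,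
    ← mem_meets_reg hd hr, step2_val]
  · rfl
  · intro c r h1 q hq
    exact meets_dn h1 ⟨le_rfl, le_rfl, hq⟩

theorem step2_dc1 (hκ : ℵ₀ ≤ κ) (hU : h0 ∈ IsUfn κ U)
    {R : I → K → W → K → W → Set (F × (Lv (Order.succ τ) κ × H))} {α : K}
    {l : I} {w w' : W} {f f' : F} {d d' : Gm κ τ U h0} (h : step2_Dc R α l w w' f d)
    (hf : f' ≤ f) (hd : d'.Le d) : step2_Dc R α l w w' f' d' := by
  rw [step2_le_iff] at hd
  refine step2_two hU hκ d'.le (meets_dn h hd.1) hd.2.2 fun β r hr h1 h2 => ⟨r, le_rfl, ?_⟩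
  rw [step2_dcAt] at h1 ⊢
  rw [step2_leS] at h2
  refine ⟨h1.1, fun s hs => ?_⟩
  obtain ⟨t, ht, c', h3, h4⟩ := h1.2 s hs
  obtain ⟨t', ht', c'', h5⟩ := step2_tot d'.fn ((ht.trans hs).trans hr) β
  have h6 := h2 t' ((ht'.trans ht).trans hs) c'' c' h5 (meets_dn h3 ht')
  exact ⟨t', ht'.trans ht, c'', h5, meets_dn h4 ⟨hf, h6, ht'⟩⟩

theorem step2_dc3 (h0τ : ℵ₀ ≤ τ) (hτ : τ < κ) (hU : h0 ∈ IsUfn κ U)
    {R : I → K → W → K → W → Set (F × (Lv (Order.succ τ) κ × H))}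
    {f0 : F} {c0 : Lv (Order.succ τ) κ} (hR : (f0, (c0, h0)) ∈ IsSy R) {α β : K}
    {l : I} {w v w' : W} {f : F} (hf : f ≤ f0) {d : Gm κ τ U h0} (hd : d.c ≤ c0) (hαβ : α ≤ β)
    (h1 : step2_Dc R α l w w' f d) (h2 : step2_Dc R β l v w' f d) :
    (f, (d.c, d.h)) ∈ meets (R l α w β v) := by
  have hκ : ℵ₀ ≤ κ := h0τ.trans hτ.le
  by_contra hcon
  obtain ⟨⟨f1, c1, h1'⟩, hle, hn⟩ := not_meets hcon
  obtain ⟨hf1, hc1, hh1⟩ : f1 ≤ f ∧ c1 ≤ d.c ∧ h1' ≤ d.h := ⟨hle.1, hle.2.1, hle.2.2⟩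
  set A : Set (κ.ord.ToType × (Order.succ τ).ord.ToType) := {x | c1.f x ≠ none} with hA
  have hAc : #A < κ := c1.small.trans_le (Order.succ_le_of_lt hτ)
  have hon := Rt.on hκ (step2_down_ufn _ hU _ d.le) d.fn d.rt A hAc
  have h3 : h1' ∈ meets (U fun δ => {r | (α < δ ∧ β < δ) ∧ ∃ a, r ∈ meets (d.Φ δ a) ∧
      (f, (a, r)) ∈ meets (R l α w δ w') ∧ (f, (a, r)) ∈ meets (R l β v δ w') ∧
      ∀ x ∈ A, a.f x = d.c.f x}) := by
    refine step2_three hU hκ (hh1.trans d.le) (meets_dn h1 hh1) (meets_dn h2 hh1)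
      (meets_dn hon hh1) fun δ r hr h4 h5 h6 => ?_
    rw [step2_dcAt] at h4 h5
    obtain ⟨t, ht, a, h7, h8⟩ := h4.2 r le_rfl
    obtain ⟨t1, ht1, a1, h9, h10⟩ := h5.2 t ht
    obtain ⟨t2, ht2, a2, h11, h12⟩ := (step2_val fun _ => down_fground _).1 h6 t1 (ht1.trans ht)
    have ht2d : t2 ≤ d.h := (((ht2.trans ht1).trans ht).trans hr).trans hh1
    have e1 : a1 = a := step2_uniq d.fn ht2d (meets_dn h9 ht2) (meets_dn h7 (ht2.trans ht1))
    have e2 : a2 = a := step2_uniq d.fn ht2d h11 (meets_dn h7 (ht2.trans ht1))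
    subst e1
    subst e2
    refine ⟨t2, (ht2.trans ht1).trans ht, meets_of_mem ⟨⟨h4.1, h5.1⟩, a2, h11, ?_, ?_, h12⟩⟩
    · exact meets_dn h8 ⟨le_rfl, le_rfl, ht2.trans ht1⟩
    · exact meets_dn h10 ⟨le_rfl, le_rfl, ht2⟩
  obtain ⟨r, hr, δ, h4⟩ := ufn_ne hU (hh1.trans d.le) h3
  obtain ⟨t, ht, u, ⟨h5, a, h6, h7, h8, h9⟩, htu⟩ := h4 r le_rfl
  obtain ⟨p, hp1, hp2, -⟩ := exists_join (σ := Order.succ τ) (h0τ.trans (Order.le_succ τ)) a c1
    (fun x y z h10 h11 => by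
      have hx : x ∈ A := by
        change c1.f x ≠ none
        rw [h11]
        exact Option.some_ne_none _
      have h12 := h9 x hx
      rw [h10] at h12
      have h13 := Pf.le_def.1 hc1 x y h12.symm
      exact Option.some_injective _ (h13.symm.trans h11))
  have hth : t ≤ h1' := ht.trans hr
  have h10 : (f1, (p, t)) ∈ meets (R l α w δ w') := meets_dn h7 ⟨hf1, hp1, htu⟩
  have h11 : (f1, (p, t)) ∈ meets (R l β v δ w') := meets_dn h8 ⟨hf1, hp1, htu⟩
  have h12 : (f1, (p, t)) ≤ (f0, (c0, h0)) :=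
    ⟨hf1.trans hf, (hp2.trans hc1).trans hd, (hth.trans hh1).trans d.le⟩
  obtain ⟨s, hs, h13⟩ := mem_fimp.1 (hR.2 l α β δ hαβ h5.2.le w v w') _ h12 ⟨h10, h11⟩
  refine hn s (hs.trans ⟨le_rfl, hp2, hth⟩) h13

end

/-- **The second step.** A system with at most `τ` indices and of width at most `τ` in the
extension by `F × (Col(τ⁺, <κ) × H)`, where `F` has at most `τ` elements, `H` is `κ`-directed
closed and forces that there is a uniform `κ`-complete ultrafilter on `K`, has a cofinal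
branch. -/
theorem step2 {τ σ κ : Cardinal.{0}} (h0 : ℵ₀ ≤ τ) (hs : ∀ ν < τ, (2 : Cardinal.{0}) ^ ν ≤ τ)
    (hσ : σ = Order.succ τ) (hτ : τ < κ) (hκ : κ.IsInaccessible)
    {F H K W I : Type} [Preorder F] [Preorder H] [LinearOrder K] (hF : #F ≤ τ) (hH : DCL κ H)
    (hK : Bd κ K) (hW : #W ≤ τ) (hI : #I ≤ τ) (U : (K → Set H) → Set H)
    (R : I → K → W → K → W → Set (F × (Lv σ κ × H))) (f0 : F) (c0 : Lv σ κ) (q0 : H)
    (hU : q0 ∈ IsUfn κ U) (hU' : ∀ a : K, q0 ∈ meets (U fun b => fground (a < b)))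
    (hR : (f0, (c0, q0)) ∈ IsSy R) :
    ∃ q ≤ (f0, (c0, q0)), ∃ l, q ∈ HasCb (R l) := by
  subst hσ
  have hκ0 : ℵ₀ ≤ κ := hκ.aleph0_lt.le
  have hHτ : DC τ H := hH.dc hτ
  have hsτ : Order.succ τ < κ := hκ.isSuccLimit.succ_lt hτ
  let _ : Preorder (Gm κ τ U q0) :=
    { le := Gm.Le
      le_refl := step2_refl hκ0 hU
      le_trans := fun a b c h1 h2 => step2_trans hκ0 hU a b c h1 h2 }
  -- the largest germ
  set Φ0 : K → Lv (Order.succ τ) κ → Set H := fun β c' => fground (c' = c0) with hΦ0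
  have hfn0 : q0 ∈ IsFun Φ0 := by
    refine ⟨fun β => ?_, fun β c' c'' => ?_⟩
    · exact mem_fex_of_mem c0 (down_meets _) (meets_of_mem rfl)
    · refine mem_fimp.2 fun r hr h1 => ⟨r, le_rfl, ?_⟩
      exact (mem_meets_fground.1 h1.1).trans (mem_meets_fground.1 h1.2).symm
  have hrt0 : q0 ∈ Rt U Φ0 c0 := by
    intro x
    refine step2_all hU hκ0 le_rfl fun β r hr => ⟨r, le_rfl, meets_of_mem ?_⟩
    exact mem_fex_of_mem c0 (down_fand (down_meets _) (down_fground _))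
      ⟨meets_of_mem rfl, rfl⟩
  set d0 : Gm κ τ U q0 := ⟨q0, Φ0, c0, le_rfl, hfn0, hrt0⟩ with hd0
  have hmain := preserve (F := F) (C := Lv (Order.succ τ) κ × H) (D := Gm κ τ U q0) h0 hs
    (fun d => (d.c, d.h)) hF ((dc_lv h0).prod hHτ)
    (fun d d' hd => by
      have hd' : Gm.Le d' d := hd
      exact ⟨hd'.2.1, hd'.1⟩)
    (by
      intro J _ _ _ hJ M hM c hc
      exact step2_lb h0 hτ hHτ hU hJ M (fun j' j hj => hM j' j hj) c.1 c.2
        (fun j => (hc j).1) (fun j => (hc j).2))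
    (K := K) (fun ι f hι => hK ι f (hι.trans hτ.le)) hW hI R f0 d0 hR
    (fun α l w w' f d => step2_Dc R α l w w' f d)
    (fun α l w w' f d f' d' h hf hd => step2_dc1 hκ0 hU h hf hd)
    ?_
    (fun α β l w v w' f hf d hd hαβ h1 h2 => by
      have hd' : Gm.Le d d0 := hd
      exact step2_dc3 h0 hτ hU hR hf hd'.2.1 hαβ h1 h2)
  · obtain ⟨f, hf, c, hc, l, hl⟩ := hmain
    exact ⟨(f, c), ⟨hf, hc⟩, l, hl⟩
  -- the density of the decisions
  intro α f hf d hd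
  have hd' := step2_le_iff.1 hd
  -- below `d.h`, for almost all `β`, there is a decision
  have hcov := ufn_cov hU hκ0 d.le (I := F × I × W × W) (r := d.h) (by
      simp only [mk_prod, lift_id]
      refine lt_of_le_of_lt ?_ hτ
      calc #F * (#I * (#W * #W)) ≤ τ * (τ * (τ * τ)) :=
            mul_le_mul' hF (mul_le_mul' hI (mul_le_mul' hW hW))
        _ = τ := by rw [mul_eq_self h0, mul_eq_self h0, mul_eq_self h0])
    (fun i β => {r | i.1 ≤ f ∧ ∃ c1 c', r ∈ meets (d.Φ β c') ∧ c1 ≤ c' ∧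
      (i.1, (c1, r)) ∈ meets (R i.2.1 α i.2.2.1 β i.2.2.2)})
    (B := fun β => fand (fground (α < β)) (meets (step2_LeS d.Φ Φ0 β)))
    (step2_two hU hκ0 d.le (meets_dn (hU' α) d.le) hd'.2.2 fun β r hr h1 h2 =>
      ⟨r, le_rfl, meets_of_mem ⟨mem_meets_fground.1 h1, h2⟩⟩)
    (by
      intro β r hr h1
      obtain ⟨h2, h3⟩ := (mem_meets_reg (down_fand (down_fground _) (down_meets _))
        (reg_fand (reg_fground _) (reg_meets _))).1 h1
      have h2' : α < β := h2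
      rw [step2_leS] at h3
      obtain ⟨s, hs, c', h4⟩ := step2_tot d.fn hr β
      have h5 : c' ≤ c0 := h3 s hs c' c0 h4 (meets_of_mem rfl)
      have h6 : (f, (c', s)) ≤ (f0, (c0, q0)) := ⟨hf, h5, (hs.trans hr).trans d.le⟩
      obtain ⟨p1, hp1, l, h7⟩ := mem_fex.1 (hR.1 α β h2'.le) _ h6
      obtain ⟨p2, hp2, w, h8⟩ := mem_fex.1 h7 p1 le_rfl
      obtain ⟨⟨f1, c1, r1⟩, hp3, w', h9⟩ := mem_fex.1 h8 p2 le_rfl
      obtain ⟨h10, h11, h12⟩ : f1 ≤ f ∧ c1 ≤ c' ∧ r1 ≤ s :=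
        ⟨((hp3.trans hp2).trans hp1).1, ((hp3.trans hp2).trans hp1).2.1,
          ((hp3.trans hp2).trans hp1).2.2⟩
      exact ⟨r1, h12.trans hs, (f1, l, w, w'), meets_of_mem
        ⟨h10, c1, c', meets_dn h4 h12, h11, h9⟩⟩)
  obtain ⟨h1, hh1, ⟨f1, l, w, w'⟩, hA⟩ := hcov
  simp only at hA
  set A : K → Set H := fun β => {r | f1 ≤ f ∧ ∃ c1 c', r ∈ meets (d.Φ β c') ∧ c1 ≤ c' ∧
      (f1, (c1, r)) ∈ meets (R l α w β w')} with hAdef
  have hAd : ∀ β, Down (A β) := by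
    rintro β r ⟨h2, c1, c', h3, h4, h5⟩ q hq
    exact ⟨h2, c1, c', meets_dn h3 hq, h4, meets_dn h5 ⟨le_rfl, le_rfl, hq⟩⟩
  have hf1 : f1 ≤ f := by
    obtain ⟨r, hr, β, h2⟩ := ufn_ne hU (hh1.trans d.le) hA
    obtain ⟨_, _, _, h3, _⟩ := h2 r le_rfl
    exact h3.1
  -- the new name
  have hname : ∀ β, ∃ N : Lv (Order.succ τ) κ → Set H, (∀ y, Down (N y)) ∧
      (∀ q' ≤ h1, ∃ r ≤ q', ∃ y, r ∈ N y) ∧
      (∀ y, ∀ r ∈ N y, ∃ c', r ∈ meets (d.Φ β c') ∧ y ≤ c' ∧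
        ((f1, (y, r)) ∈ meets (R l α w β w') ∨ r ∈ fnot (A β))) ∧
      ∀ y y' r, r ∈ N y → r ∈ N y' → y = y' := by
    intro β
    refine exists_name h1 (fun r y => ∃ c', r ∈ meets (d.Φ β c') ∧ y ≤ c' ∧
        ((f1, (y, r)) ∈ meets (R l α w β w') ∨ r ∈ fnot (A β))) ?_ ?_
    · intro q' hq'
      by_cases h2 : ∃ s ≤ q', s ∈ A β
      · obtain ⟨s, hs, h3, c1, c', h4, h5, h6⟩ := h2
        exact ⟨s, hs, c1, c', h4, h5, Or.inl h6⟩
      · push Not at h2
        obtain ⟨s, hs, c', h3⟩ := step2_tot d.fn (hq'.trans hh1) β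
        exact ⟨s, hs, c', c', h3, le_rfl, Or.inr fun t ht => h2 t (ht.trans hs)⟩
    · rintro r y ⟨c', h2, h3, h4⟩ q hq
      refine ⟨c', meets_dn h2 hq, h3, h4.imp (fun h5 => ?_) fun h5 => ?_⟩
      · exact meets_dn h5 ⟨le_rfl, le_rfl, hq⟩
      · exact down_fnot _ _ h5 _ hq
  choose Φ' hΦ1 hΦ2 hΦ3 hΦ4 using hname
  have hfn' : h1 ∈ IsFun Φ' := by
    refine ⟨fun β => mem_fex.2 fun q hq => ?_, fun β c' c'' => mem_fimp.2 fun q hq h2 => ?_⟩
    · obtain ⟨r, hr, y, hy⟩ := hΦ2 β q hq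
      exact ⟨r, hr, y, meets_of_mem hy⟩
    · obtain ⟨r, hr, h3⟩ := exists_of_meets (hΦ1 β c') h2.1
      obtain ⟨r', hr', h4⟩ := exists_of_meets (hΦ1 β c'') (meets_dn h2.2 hr)
      exact ⟨r', hr'.trans hr, hΦ4 β c' c'' r' (hΦ1 β c' r h3 r' hr') h4⟩
  obtain ⟨h2, hh2, c2, hc2⟩ := exists_root hκ.isRegular hsτ (h0.trans (Order.le_succ τ))
    (B := fun x : κ.ord.ToType × (Order.succ τ).ord.ToType => Iio x.1) (fun x => by
      simpa using mk_Iio_lt x.1) hH (step2_down_ufn _ hU _ (hh1.trans d.le)) Φ' hfn'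
  have hh2d : h2 ≤ d.h := hh2.trans hh1
  -- `Φ' β ≤ d.Φ β`
  have hle : ∀ β, ∀ r ≤ h2, ∀ c' c, r ∈ meets (Φ' β c') → r ∈ meets (d.Φ β c) → c' ≤ c := by
    intro β r hr c' c h3 h4
    obtain ⟨s, hs, h5⟩ := exists_of_meets (hΦ1 β c') h3
    obtain ⟨c'', h6, h7, _⟩ := hΦ3 β c' s h5
    rwa [step2_uniq d.fn ((hs.trans hr).trans hh2d) h6 (meets_dn h4 hs)] at h7
  have hc2d : c2 ≤ d.c := by
    rw [Pf.le_def]
    intro x y hxy
    have h3 : h2 ∈ meets (U fun β => {r | c2.f x = some y}) := by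
      refine step2_two hU hκ0 (hh2d.trans d.le) (hc2 x) (meets_dn (d.rt x) hh2d)
        fun β r hr h4 h5 => ?_
      obtain ⟨s, hs, c', h6, h7⟩ := (step2_val fun _ => down_fground _).1 h4 r le_rfl
      obtain ⟨t, ht, c, h8, h9⟩ := (step2_val fun _ => down_fground _).1 h5 s hs
      have h7' : c'.f x = c2.f x := h7
      have h9' : c.f x = d.c.f x := h9
      refine ⟨t, ht.trans hs, meets_of_mem ?_⟩
      have h10 := hle β t ((ht.trans hs).trans hr) c' c (meets_dn h6 ht) h8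
      change c2.f x = some y
      rw [← h7']
      exact Pf.le_def.1 h10 x y (h9'.trans hxy)
    obtain ⟨r, hr, β, h4⟩ := ufn_ne hU (hh2d.trans d.le) h3
    obtain ⟨_, _, _, h5, _⟩ := h4 r le_rfl
    exact h5
  set d' : Gm κ τ U q0 := ⟨h2, Φ', c2, hh2d.trans d.le, down_IsFun _ _ hfn' _ hh2, hc2⟩ with hd'def
  refine ⟨f1, hf1, d', ?_, l, w, w', ?_⟩
  · refine step2_le_iff.2 ⟨hh2d, hc2d, step2_all hU hκ0 d'.le fun β r hr => ⟨r, le_rfl, ?_⟩⟩
    rw [step2_leS]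
    intro s hs c' c h3 h4
    exact hle β s (hs.trans hr) c' c h3 h4
  · refine step2_two hU hκ0 d'.le (meets_dn (hU' α) d'.le) (meets_dn hA hh2)
      fun β r hr h3 h4 => ?_
    obtain ⟨r1, hr1, h5⟩ := exists_of_meets (hAd β) h4
    refine ⟨r1, hr1, step2_dcAt.2 ⟨mem_meets_fground.1 h3, fun s hs => ?_⟩⟩
    obtain ⟨t, ht, c1, h6⟩ := hΦ2 β s ((hs.trans hr1).trans (hr.trans hh2))
    refine ⟨t, ht, c1, meets_of_mem h6, ?_⟩
    obtain ⟨c', h7, h8, h9 | h9⟩ := hΦ3 β c1 t h6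
    · exact h9
    · exact absurd (hAd β _ h5 _ (ht.trans hs)) (h9 t le_rfl)

end Pool.Agent.H638.ST
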