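import Mathlib
import Pool.Agent.H638.ST.Card
import Pool.Agent.H638.ST.Cover
import Pool.Agent.H638.ST.Step2
import Pool.Agent.H638.ST.Iso
import Pool.Agent.H638.ST.NufUfn
import Pool.Agent.H638.ST.NufStep

set_option autoImplicit false
set_option linter.unusedSectionVars false
set_option linter.unusedVariables false

namespace Pool.Agent.H638.ST

open Set Cardinal Pool.Agent.Helper669.Forcing

theorem main1_down_isTr {Q K W : Type} [Preorder Q] [LinearOrder K]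
    (E : K → W → K → W → Set Q) : Down (IsTr E) :=
  down_fand
    (down_fall fun _ => down_fall fun _ => down_fall fun _ => down_fall fun _ => down_fex _)
    (down_fall fun _ => down_fall fun _ => down_fall fun _ => down_fall fun _ =>
      down_fall fun _ => down_fall fun _ => down_fall fun _ => down_fall fun _ => down_fimp _ _)

theorem main1_down_isSy {Q K W I : Type} [Preorder Q] [LinearOrder K]
    (R : I → K → W → K → W → Set Q) : Down (IsSy R) :=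
  down_fand
    (down_fall fun _ => down_fall fun _ => down_fall fun _ => down_fex _)
    (down_fall fun _ => down_fall fun _ => down_fall fun _ => down_fall fun _ =>
      down_fall fun _ => down_fall fun _ => down_fall fun _ => down_fall fun _ =>
      down_fall fun _ => down_fimp _ _)

/-- every function from `lam` to `lam⁺` of the extension by `(∏ E j) × P` is bounded -/
theorem main1_bound {γ k lam : Cardinal.{0}} {κ : γ.ord.ToType → Cardinal.{0}} (h : Sq γ k κ)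
    (hl : lam = ⨆ i, κ i) {P : Type} [Preorder P] (hP : DC lam P)
    (g : Ll lam → Kl lam → Set (EE k κ × P)) (q : EE k κ × P) (hq : q ∈ IsFun g) :
    ∃ q' ≤ q, ∃ a : Kl lam, ∀ ξ b, q' ∈ fimp (meets (g ξ b)) (fground (b < a)) := by
  obtain ⟨q', hq', x, hx, hx'⟩ := cover' (κ := κ) (ν := nu k κ) (lam := lam) (E := Ec k κ)
    (fun i => (h.inacc i).aleph0_lt.le) h.sum_le_nu
    (fun j => (h.inacc_k.aleph0_lt.le).trans (k_le_nu j)) (h.sum_eq hl).le h.dc_Ec hP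
    h.mk_EE_le (Λ := Ll lam) (Z := Kl lam) (by
      rw [h.sum_eq hl]
      exact (mk_ord_toType lam).le) g q hq
  obtain ⟨a, ha⟩ := bd_Kl (h.aleph0_le_lam hl) x (fun z => z.1) hx
  refine ⟨q', hq', a, fun ξ b => ?_⟩
  refine mem_fimp.2 fun r hr hr' => ?_
  obtain ⟨s, hs, hs'⟩ := mem_fimp.1 (hx' ξ b) r hr hr'
  exact ⟨s, hs, ha ⟨b, hs'⟩⟩

/-- **The main theorem on trees.** In the extension by `(B m × D m) × ((∏ E j) × P)`, for one
`m : M`, the tree `T m` of height `lam⁺` and width `lam` has a cofinal branch. -/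
theorem main1 {γ k lam : Cardinal.{0}} {κ : γ.ord.ToType → Cardinal.{0}} (h : Sq γ k κ)
    (hl : lam = ⨆ i, κ i) {P : Type} [Preorder P] (hP : DC lam P) {χ : Cardinal.{0}} (hχ : χ < k)
    {M : Type} (μ : M → Cardinal.{0}) (hMk : #M ≤ k)
    (hM : ∀ c : Cardinal.{0}, ℵ₀ ≤ c → χ ≤ c → γ ≤ c → (∀ ν < γ, c ^ ν ≤ c) → c < k →
      ∃ m, μ m = c)
    {B D : M → Type} [∀ m, Preorder (B m)] [∀ m, Preorder (D m)] (hB : ∀ m, #(B m) ≤ μ m)
    (hD : ∀ m, DC (μ m) (D m)) (hBD : ∀ m, #(B m × D m) ≤ k)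
    (T : ∀ m, Kl lam → Ll lam → Kl lam → Ll lam → Set ((B m × D m) × (EE k κ × P)))
    (b0 : ∀ m, B m) (d0 : ∀ m, D m) (q0 : EE k κ × P)
    (hT : ∀ m, ((b0 m, d0 m), q0) ∈ IsTr (T m)) :
    ∃ m, ∃ x ≤ (b0 m, d0 m), ∃ q ≤ q0, (x, q) ∈ HasCb (T m) := by
  have hH : DC k (EE k κ × P) := h.dc_EE.prod (hP.mono (h.k_lt_lam hl).le)
  obtain ⟨q1, hq1, U, hU⟩ :=
    mem_fex.1 (h.isuk.2 (EE k κ × P) hH.dcl (Kl lam ⊕ Ll lam) q0) q0 le_rfl
  obtain ⟨rk, hrk⟩ := h.exists_rank hl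
  obtain ⟨q2, hq2, i, R, hR, hRb⟩ := step1 h hl hχ hH (main1_bound h hl hP) U q1 hU μ hM hB hD T
    b0 d0 (fun m => main1_down_isTr (T m) _ (hT m) _ ⟨le_rfl, hq1⟩) rk
  obtain ⟨j, hij, hj⟩ := h.exists_succ i
  obtain ⟨φ⟩ := exists_split (E := Ec k κ) P hij hj
  have hF : #(∀ z : Iic i, Ec k κ z.1) ≤ κ i := h.mk_EE_le i
  have hH' : DCL (κ j) ((∀ z : Ioi j, Ec k κ z.1) × P) :=
    ((h.dc_tail j).prod (hP.mono (h.lt_lam hl j).le)).dcl
  have hK : Bd (κ j) (Kl lam) := fun ι f hι =>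
    bd_Kl (h.aleph0_le_lam hl) ι f (hι.trans (h.lt_lam hl j).le)
  have hk0 : ℵ₀ ≤ k := h.inacc_k.aleph0_lt.le
  have hI : #(Σ m, B m × D m) ≤ κ i := by
    refine le_trans ?_ (h.k_lt i).le
    rw [mk_sigma]
    calc Cardinal.sum (fun m => #(B m × D m)) ≤ Cardinal.sum (fun _ : M => k) :=
          Cardinal.sum_le_sum _ _ hBD
      _ = #M * k := Cardinal.sum_const' M k
      _ ≤ k * k := mul_le_mul_left hMk k
      _ = k := mul_eq_self hk0
  obtain ⟨⟨f0, c0, h0⟩, hx⟩ : ∃ x, φ x = q2 := ⟨φ.symm q2, by simp⟩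
  obtain ⟨h1, hh1, U', hU1, hU2⟩ := exists_ufn (lam := lam) (h.isu j) hH' hK h0
  have hle : φ (f0, c0, h1) ≤ q2 := by
    rw [← hx]
    exact φ.monotone ⟨le_rfl, le_rfl, hh1⟩
  have hR' : (f0, (c0, h1)) ∈ IsSy (fun l α ξ β ζ => (φ ⁻¹' (R l α ξ β ζ) : Set _)) :=
    (iso_isSy φ R _).2 (main1_down_isSy R _ hR _ hle)
  obtain ⟨q', hq', l, hl'⟩ := step2 (τ := κ i) (σ := Order.succ (nu k κ j)) (κ := κ j)
    (h.inacc i).aleph0_lt.le (fun ν hν => h.two_pow_le i hν) (by rw [h.nu_succ hij hj])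
    (h.mono hij) (h.inacc j) hF hH' hK (hrk i) hI U' _ f0 c0 h1 hU1 hU2 hR'
  have hq3 : φ q' ≤ q2 := (φ.monotone hq').trans hle
  obtain ⟨h3, h4⟩ := hRb l (φ q') hq3 ((iso_hasCb φ (R l) q').1 hl')
  exact ⟨l.1, l.2, h3, φ q', hq3.trans (hq2.trans hq1), h4⟩

end Pool.Agent.H638.ST
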