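import Mathlib
import Pool.Agent.H638.ST.Card
import Pool.Agent.H638.ST.Cover

set_option autoImplicit false
set_option linter.unusedSectionVars false
set_option linter.unusedVariables false

namespace Pool.Agent.H638.ST

open Set Cardinal Pool.Agent.Helper669.Forcing

/-- the projection which forgets the last factor -/
def prR {L M P R : Type} (q : L × (M × (P × R))) : L × (M × P) := (q.1, (q.2.1, q.2.2.1))

theorem pj_prR {L M P R : Type} [Preorder L] [Preorder M] [Preorder P] [Preorder R] :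
    Pj (prR (L := L) (M := M) (P := P) (R := R)) where
  mono _ _ h := ⟨h.1, h.2.1, h.2.2.1⟩
  lift q p hp := ⟨(p.1, (p.2.1, (p.2.2, q.2.2.2))), ⟨hp.1, hp.2.1, hp.2.2, le_rfl⟩, le_rfl⟩

/-- the condition with an additional last factor -/
def nonewAd {L M P R : Type} (q : L × (M × P)) (r : R) : L × (M × (P × R)) :=
  (q.1, (q.2.1, (q.2.2, r)))

section

variable {L M P R : Type} [Preorder L] [Preorder M] [Preorder P] [Preorder R]

theorem nonewAd_le {q q' : L × (M × P)} {r r' : R} (h : q ≤ q') (h' : r ≤ r') :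
    nonewAd q r ≤ nonewAd q' r' := ⟨h.1, h.2.1, h.2.2, h'⟩

theorem nonewAd_pr (q : L × (M × P)) (r : R) : prR (nonewAd q r) = q := rfl

theorem nonewAd_ex (q : L × (M × (P × R))) : q = nonewAd (prR q) q.2.2.2 := rfl

/-- the conditions `(q, r1)` and `(q, r2)` decide `b z` in opposite ways -/
def NoNewOpp {Θ : Type} (b : Nm (L × (M × (P × R))) Θ) (q : L × (M × P)) (r1 r2 : R) (z : Θ) :
    Prop :=
  (nonewAd q r1 ∈ meets (b z) ∧ nonewAd q r2 ∈ fnot (meets (b z))) ∨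
    (nonewAd q r1 ∈ fnot (meets (b z)) ∧ nonewAd q r2 ∈ meets (b z))

theorem NoNewOpp.mono {Θ : Type} {b : Nm (L × (M × (P × R))) Θ} {q q' : L × (M × P)}
    {r1 r2 r1' r2' : R} {z : Θ} (h : NoNewOpp b q r1 r2 z) (hq : q' ≤ q) (h1 : r1' ≤ r1)
    (h2 : r2' ≤ r2) : NoNewOpp b q' r1' r2' z := by
  rcases h with ⟨h3, h4⟩ | ⟨h3, h4⟩
  · exact Or.inl ⟨meets_dn h3 (nonewAd_le hq h1), down_fnot _ _ h4 _ (nonewAd_le hq h2)⟩
  · exact Or.inr ⟨down_fnot _ _ h3 _ (nonewAd_le hq h1), meets_dn h4 (nonewAd_le hq h2)⟩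

/-- **Splitting.** -/
theorem nonew_split {lam : Cardinal.{0}} {Θ : Type} {F : Sm lam Θ → Ll lam → Nm (L × (M × P)) Θ}
    {q0 : L × (M × P)} {r : R} {b : Nm (L × (M × (P × R))) Θ}
    (hb : nonewAd q0 r ∈ CBr lam (fun x ξ t => pb prR (F x ξ t)) b)
    (hcon : ∀ q ≤ q0, ∀ b' : Nm (L × (M × P)) Θ, q ∉ CBr lam F b') (q : L × (M × P))
    (hq : q ≤ q0) (r1 r2 : R) (hr1 : r1 ≤ r) (hr2 : r2 ≤ r) :
    ∃ q' ≤ q, ∃ r1' ≤ r1, ∃ r2' ≤ r2, ∃ z, NoNewOpp b q' r1' r2' z := by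
  by_contra hno
  push Not at hno
  refine hcon q hq (fun z => {q' | ∃ r1' ≤ r1, nonewAd q' r1' ∈ meets (b z)}) ?_
  intro x
  refine mem_fex.2 fun q2 hq2 => ?_
  obtain ⟨q3, hq3, ξ, h3⟩ := mem_fex.1 (hb x) (nonewAd q2 r2) (nonewAd_le (hq2.trans hq) hr2)
  have hq3' : prR q3 ≤ q2 := pj_prR.mono _ _ hq3
  have hr3 : q3.2.2.2 ≤ r2 := hq3.2.2.2
  refine ⟨prR q3, hq3', ξ, fun t ht => ?_⟩
  have h4 := mem_feqv_meets.1 (h3 t ht)
  refine mem_feqv_meets.2 fun q4 hq4 => ⟨fun h5 => ?_, fun h5 => ?_⟩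
  · by_contra h6
    obtain ⟨q5, hq5, h7⟩ := not_meets h6
    refine hno q5 (hq5.trans (hq4.trans (hq3'.trans hq2))) r1 le_rfl q3.2.2.2 hr3 t
      (Or.inr ⟨?_, ?_⟩)
    · rintro q6 hq6 h8
      refine h7 (prR q6) (pj_prR.mono _ _ hq6) (meets_of_mem ⟨q6.2.2.2, hq6.2.2.2, h8⟩)
    · have h8 : nonewAd q5 q3.2.2.2 ≤ q3 := nonewAd_le (hq5.trans hq4) le_rfl
      refine (h4 _ h8).1 ((mem_pb pj_prR).2 ?_)
      exact meets_dn h5 hq5
  · by_contra h6
    obtain ⟨q5, hq5, h7⟩ := not_meets h6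
    obtain ⟨q6, hq6, s, ⟨r1', hr1', hs⟩, hle⟩ := meets_dn h5 hq5 q5 le_rfl
    have h8 : nonewAd q6 r1' ∈ meets (b t) := meets_dn hs (nonewAd_le hle le_rfl)
    refine hno q6 (hq6.trans (hq5.trans (hq4.trans (hq3'.trans hq2)))) r1' hr1' q3.2.2.2 hr3 t
      (Or.inl ⟨h8, ?_⟩)
    rintro q7 hq7 h9
    have h10 : q7 ≤ q3 := hq7.trans (nonewAd_le (hq6.trans (hq5.trans hq4)) le_rfl)
    have h11 := (mem_pb pj_prR).1 ((h4 q7 h10).2 h9)
    exact h7 (prR q7) ((pj_prR.mono _ _ hq7).trans hq6) h11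

end

/-! ### joining the two parts of a product -/

section

variable {G : Type} [LinearOrder G] {E : G → Type}

/-- the two parts of a condition put together -/
noncomputable def nonewJn (i : G) (s : ∀ j : Iic i, E j.1) (g : ∀ j : Ioi i, E j.1) : ∀ j, E j :=
  fun j => if h : j ≤ i then s ⟨j, h⟩ else g ⟨j, not_le.1 h⟩

theorem nonewJn_self (i : G) (e : ∀ j, E j) :
    nonewJn i (fun j => e j.1) (fun j => e j.1) = e := by
  funext j
  unfold nonewJn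
  split_ifs <;> rfl

variable [∀ j, Preorder (E j)]

theorem nonewJn_le {i : G} {s s' : ∀ j : Iic i, E j.1} {g g' : ∀ j : Ioi i, E j.1}
    (h : s ≤ s') (h' : g ≤ g') : nonewJn i s g ≤ nonewJn i s' g' := by
  intro j
  unfold nonewJn
  split_ifs with h1
  · exact h _
  · exact h' _

end

/-- **Closed forcing adds no new branches of coherent families.** Let `F` be a coherent family in
the extension by `L × (∏ E j) × P`. If a further factor `R`, closed under lower bounds of families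
of `lam` conditions in the ground model, adds a branch, then there was one before. -/
theorem no_new_branch {γ k lam : Cardinal.{0}} {κ : γ.ord.ToType → Cardinal.{0}} (h : Sq γ k κ)
    (hl : lam = ⨆ i, κ i) {L P R : Type} [Preorder L] [Preorder P] [Preorder R] (hL : #L ≤ k)
    (hP : DC lam P) (hR : DC lam R) {Θ : Type}
    (F : Sm lam Θ → Ll lam → Nm (L × (EE k κ × P)) Θ) (l : L) (e : EE k κ) (p : P) (r : R)
    (hF : (l, (e, p)) ∈ CohFam lam F) (b : Nm (L × (EE k κ × (P × R))) Θ)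
    (hb : (l, (e, (p, r))) ∈ CBr lam (fun x ξ t => pb prR (F x ξ t)) b) :
    ∃ q ≤ (l, (e, p)), q ∈ fex fun b : Nm (L × (EE k κ × P)) Θ => CBr lam F b := by
  classical
  by_contra hcon0
  push Not at hcon0
  have hcon : ∀ q ≤ (l, (e, p)), ∀ b' : Nm (L × (EE k κ × P)) Θ, q ∉ CBr lam F b' := by
    intro q hq b' hb'
    refine hcon0 q hq (mem_fex_of_mem b' ?_ hb')
    exact down_fall fun _ => down_fex _
  have hsplit := nonew_split (q0 := (l, (e, p))) (r := r) hb hcon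
  -- the tree of choices
  let Y : Type := ∀ i : γ.ord.ToType, (κ i).out
  have hne : ∀ i, Nonempty (κ i).out := by
    intro i
    rw [← mk_ne_zero_iff, mk_out]
    exact (aleph0_pos.trans_le (h.inacc i).aleph0_lt.le).ne'
  let y0 : Y := fun i => (hne i).some
  have : Nonempty Θ := by
    obtain ⟨_, _, _, _, _, _, z, _⟩ := hsplit (l, (e, p)) le_rfl r r le_rfl le_rfl
    exact ⟨z⟩
  have h0 : ∀ i, ℵ₀ ≤ κ i := fun i => (h.inacc i).aleph0_lt.le
  have hν0 : ∀ j, ℵ₀ ≤ nu k κ j := fun j => h.inacc_k.aleph0_lt.le.trans (k_le_nu j)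
  have hsum : Cardinal.sum κ ≤ lam := (h.sum_eq hl).le
  let Nd : γ.ord.ToType → Type := fun i => ∀ j : Iic i, (κ j.1).out
  let Ex : ∀ i, Nd i → Y → Prop := fun i n y => ∀ j : Iic i, y j.1 = n j
  let T : γ.ord.ToType → Type := fun i => (Nd i × Nd i) × (L × ∀ j : Iic i, Ec k κ j.1)
  have hT : ∀ i, #(T i) ≤ κ i := by
    intro i
    have h1 : #(Nd i) ≤ κ i := h.mk_nodes i
    have h2 : #(L × ∀ j : Iic i, Ec k κ j.1) ≤ κ i := h.mk_prod_le i hL
    have h3 : #(T i) = #(Nd i) * #(Nd i) * #(L × ∀ j : Iic i, Ec k κ j.1) := by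
      rw [mul_def, mul_def]
    rw [h3]
    calc #(Nd i) * #(Nd i) * #(L × ∀ j : Iic i, Ec k κ j.1) ≤ κ i * κ i * κ i := by gcongr
      _ = κ i := by rw [mul_eq_self (h0 i), mul_eq_self (h0 i)]
  let Inv : γ.ord.ToType → Set (P × (Y → R)) := fun i =>
    {pr | ∀ y y' : Y, (∀ j : Iic i, y j.1 = y' j.1) → pr.2 y = pr.2 y'}
  let D : ∀ i, T i → (∀ j : Ioi i, Ec k κ j.1) → P × (Y → R) → Prop := fun i t g pr =>
    t.1.1 ≠ t.1.2 → t.2.1 ≤ l → (∀ j : Iic i, t.2.2 j ≤ e j.1) →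
      ∃ l'' ≤ t.2.1, ∃ s'' ≤ t.2.2, ∃ z : Θ, ∀ y1 y2 : Y, Ex i t.1.1 y1 → Ex i t.1.2 y2 →
        NoNewOpp b (l'', (nonewJn i s'' g, pr.1)) (pr.2 y1) (pr.2 y2) z
  have hPR : DC lam (P × (Y → R)) := hP.prod (DC.pi fun _ => hR)
  obtain ⟨e', he', pρ, hpρ, hD⟩ := fusion (G := γ.ord.ToType) (κ := κ) (ν := nu k κ) (lam := lam)
    h0 h.sum_le_nu hν0 hsum (E := Ec k κ) h.dc_Ec (P := P × (Y → R)) Inv
    (by
      intro i j hij pr hpr y y' hy
      exact hpr y y' fun a => hy ⟨a.1, a.2.trans hij⟩)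
    (by
      intro i J _ _ _ hJ M hM hMi
      obtain ⟨p1, hp1⟩ := hP.lb hJ (fun j => (M j).1) (fun j' j hj => (hM j' j hj).1)
      have h1 : ∀ f : J → R, ∃ c : R, (∀ j' j, j' < j → f j ≤ f j') → ∀ j, c ≤ f j := by
        intro f
        by_cases h2 : ∀ j' j, j' < j → f j ≤ f j'
        · obtain ⟨c, hc⟩ := hR.lb hJ f h2
          exact ⟨c, fun _ => hc⟩
        · exact ⟨r, fun h3 => absurd h3 h2⟩
      choose c hc using h1
      refine ⟨(p1, fun y => c fun j => (M j).2 y), ?_, fun j => ⟨hp1 j, fun y => ?_⟩⟩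
      · intro y y' hy
        have : (fun j => (M j).2 y) = fun j => (M j).2 y' := by
          funext j
          exact hMi j y y' hy
        simp only [this]
      · exact hc (fun j => (M j).2 y) (fun j' j hj => (hM j' j hj).2 y) j)
    (by
      intro J _ _ _ hJ M hM
      exact hPR.lb hJ M hM)
    hT D
    (by
      rintro i t g pr g' pr' hD' hg hp' h1 h2 h3
      obtain ⟨l'', hl'', s'', hs'', z, hz⟩ := hD' h1 h2 h3
      refine ⟨l'', hl'', s'', hs'', z, fun y1 y2 hy1 hy2 => ?_⟩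
      exact (hz y1 y2 hy1 hy2).mono ⟨le_rfl, nonewJn_le le_rfl hg, hp'.1⟩ (hp'.2 y1) (hp'.2 y2))
    e (p, fun _ => r) (fun i y y' _ => rfl)
    (by
      intro i t g hg pr hpr hle
      by_cases h1 : t.1.1 ≠ t.1.2 ∧ t.2.1 ≤ l ∧ ∀ j : Iic i, t.2.2 j ≤ e j.1
      · obtain ⟨h1, h2, h3⟩ := h1
        have hext : ∀ n : Nd i, ∃ y : Y, Ex i n y := by
          intro n
          refine ⟨fun j => if hj : j ≤ i then n ⟨j, hj⟩ else y0 j, fun j => ?_⟩
          have : j.1 ≤ i := j.2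
          simp only [this, dif_pos]
        obtain ⟨y1, hy1⟩ := hext t.1.1
        obtain ⟨y2, hy2⟩ := hext t.1.2
        have hq0 : ((t.2.1, (nonewJn i t.2.2 g, pr.1)) : L × (EE k κ × P)) ≤ (l, (e, p)) := by
          refine ⟨h2, fun j => ?_, hle.1⟩
          simp only [nonewJn]
          split_ifs with h4
          · exact h3 ⟨j, h4⟩
          · exact hg ⟨j, not_le.1 h4⟩
        obtain ⟨q', hq', r1', hr1', r2', hr2', z, hz⟩ := hsplit _ hq0 (pr.2 y1) (pr.2 y2)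
          (hle.2 y1) (hle.2 y2)
        refine ⟨fun j => q'.2.1 j.1, fun j => ?_, (q'.2.2, fun y => if Ex i t.1.1 y then r1' else
          if Ex i t.1.2 y then r2' else pr.2 y), ⟨hq'.2.2, fun y => ?_⟩, ?_, ?_⟩
        · have h5 := hq'.2.1 j.1
          simp only [nonewJn] at h5
          have h6 : ¬ j.1 ≤ i := not_le.2 j.2
          rw [dif_neg h6] at h5
          exact h5
        · show (if Ex i t.1.1 y then r1' else if Ex i t.1.2 y then r2' else pr.2 y) ≤ pr.2 y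
          split_ifs with h5 h6
          · rw [hpr y y1 fun j => (h5 j).trans (hy1 j).symm]
            exact hr1'
          · rw [hpr y y2 fun j => (h6 j).trans (hy2 j).symm]
            exact hr2'
          · exact le_rfl
        · intro y y' hyy
          have h5 : Ex i t.1.1 y ↔ Ex i t.1.1 y' :=
            ⟨fun h6 j => (hyy j).symm.trans (h6 j), fun h6 j => (hyy j).trans (h6 j)⟩
          have h6 : Ex i t.1.2 y ↔ Ex i t.1.2 y' :=
            ⟨fun h6 j => (hyy j).symm.trans (h6 j), fun h6 j => (hyy j).trans (h6 j)⟩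
          show (if Ex i t.1.1 y then r1' else if Ex i t.1.2 y then r2' else pr.2 y) =
            (if Ex i t.1.1 y' then r1' else if Ex i t.1.2 y' then r2' else pr.2 y')
          rw [hpr y y' hyy]
          simp only [h5, h6]
        · intro _ _ _
          refine ⟨q'.1, hq'.1, fun j => q'.2.1 j.1, fun j => ?_, z, fun y1' y2' hy1' hy2' => ?_⟩
          · have h5 := hq'.2.1 j.1
            simp only [nonewJn] at h5
            have h6 : j.1 ≤ i := j.2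
            rw [dif_pos h6] at h5
            exact h5
          · have h5 : ¬ Ex i t.1.1 y2' := by
              intro h6
              exact h1 (funext fun j => (h6 j).symm.trans (hy2' j))
            simp only [if_pos hy1', if_neg h5, if_pos hy2']
            rw [nonewJn_self]
            exact hz
      · exact ⟨g, le_rfl, pr, le_rfl, hpr, fun h2 h3 h4 => absurd ⟨h2, h3, h4⟩ h1⟩)
  obtain ⟨p', ρ⟩ := pρ
  have hp' : p' ≤ p := hpρ.1
  have hρ : ∀ y, ρ y ≤ r := hpρ.2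
  -- the set of the points used
  have hZ : ∀ it : (Σ i, T i), ∃ z : Θ, it.2.1.1 ≠ it.2.1.2 → it.2.2.1 ≤ l →
      (∀ j : Iic it.1, it.2.2.2 j ≤ e j.1) →
      ∃ l'' ≤ it.2.2.1, ∃ s'' ≤ it.2.2.2, ∀ y1 y2 : Y, Ex it.1 it.2.1.1 y1 → Ex it.1 it.2.1.2 y2 →
        NoNewOpp b (l'', (nonewJn it.1 s'' (fun j => e' j.1), p')) (ρ y1) (ρ y2) z := by
    rintro ⟨i, t⟩
    by_cases h1 : t.1.1 ≠ t.1.2 ∧ t.2.1 ≤ l ∧ ∀ j : Iic i, t.2.2 j ≤ e j.1
    · obtain ⟨l'', hl'', s'', hs'', z, hz⟩ := hD i t h1.1 h1.2.1 h1.2.2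
      exact ⟨z, fun _ _ _ => ⟨l'', hl'', s'', hs'', hz⟩⟩
    · exact ⟨Classical.arbitrary Θ, fun h2 h3 h4 => absurd ⟨h2, h3, h4⟩ h1⟩
  choose Z hZ using hZ
  have hx : #(range Z) ≤ lam := by
    refine mk_range_le.trans ?_
    rw [mk_sigma]
    exact (sum_le_sum _ _ hT).trans hsum
  let x : Sm lam Θ := ⟨range Z, hx⟩
  have hopp : ∀ y y' : Y, y ≠ y' → ∀ q ≤ ((l, (e', p')) : L × (EE k κ × P)),
      ∃ q' ≤ q, ∃ z ∈ x.1, NoNewOpp b q' (ρ y) (ρ y') z := by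
    intro y y' hyy q hq
    obtain ⟨i, hi⟩ := Function.ne_iff.1 hyy
    let t : T i := ((fun j => y j.1, fun j => y' j.1), (q.1, fun j => q.2.1 j.1))
    obtain ⟨l'', hl'', s'', hs'', h1⟩ := hZ ⟨i, t⟩ (by
      intro h1
      have := congrFun h1 (⟨i, le_refl i⟩ : Iic i)
      exact hi this) hq.1 (fun j => (hq.2.1 j.1).trans (he' j.1))
    have h2 := h1 y y' (fun j => rfl) (fun j => rfl)
    refine ⟨(l'', (nonewJn i s'' (fun j => q.2.1 j.1), q.2.2)), ⟨hl'', fun j => ?_, le_rfl⟩,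
      Z ⟨i, t⟩, ⟨_, rfl⟩, h2.mono ⟨le_rfl, nonewJn_le le_rfl fun j => hq.2.1 j.1, hq.2.2⟩
        le_rfl le_rfl⟩
    simp only [nonewJn]
    split_ifs with h4
    · exact hs'' ⟨j, h4⟩
    · exact le_rfl
  let hit : Y → Ll lam → Set (L × (EE k κ × P)) := fun y ξ =>
    {q | ∃ r' ≤ ρ y, ∀ t ∈ x.1, nonewAd q r' ∈ feqv (meets (pb prR (F x ξ t))) (meets (b t))}
  have hitdn : ∀ y ξ, Down (hit y ξ) := by
    rintro y ξ q ⟨r', hr', h1⟩ q' hq'
    exact ⟨r', hr', fun t ht => down_feqv _ _ _ (h1 t ht) _ (nonewAd_le hq' le_rfl)⟩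
  have hopp2 : ∀ (ξ : Ll lam) (q : L × (EE k κ × P)) (z : Θ) (ra rb ra' rb' : R), z ∈ x.1 →
      nonewAd q ra ∈ meets (b z) → nonewAd q rb ∈ fnot (meets (b z)) → ra' ≤ ra → rb' ≤ rb →
      nonewAd q ra' ∈ feqv (meets (pb prR (F x ξ z))) (meets (b z)) →
      nonewAd q rb' ∈ feqv (meets (pb prR (F x ξ z))) (meets (b z)) → False := by
    intro ξ q z ra rb ra' rb' hz h1 h2 ha hb' h3 h4
    have h5 : nonewAd q ra' ∈ meets (b z) := meets_dn h1 (nonewAd_le le_rfl ha)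
    have h6 := (mem_pb pj_prR).1 ((mem_feqv_meets.1 h3 _ le_rfl).2 h5)
    have h7 : nonewAd q rb' ∈ meets (pb prR (F x ξ z)) := (mem_pb pj_prR).2 h6
    have h8 := (mem_feqv_meets.1 h4 _ le_rfl).1 h7
    exact h2 _ (nonewAd_le le_rfl hb') h8
  have hdisj : ∀ y y' ξ, ∀ q ≤ ((l, (e', p')) : L × (EE k κ × P)), q ∈ hit y ξ → q ∈ hit y' ξ →
      y = y' := by
    rintro y y' ξ q hq ⟨ra, hra, h1⟩ ⟨rb, hrb, h2⟩
    by_contra hyy
    obtain ⟨q', hq', z, hz, h3⟩ := hopp y y' hyy q hq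
    have h4 := down_feqv _ _ _ (h1 z hz) _ (nonewAd_le hq' le_rfl)
    have h5 := down_feqv _ _ _ (h2 z hz) _ (nonewAd_le hq' le_rfl)
    rcases h3 with ⟨h6, h7⟩ | ⟨h6, h7⟩
    · exact hopp2 ξ q' z _ _ _ _ hz h6 h7 hra hrb h4 h5
    · exact hopp2 ξ q' z _ _ _ _ hz h7 h6 hrb hra h5 h4
  have htot : ∀ y, ∀ q ≤ ((l, (e', p')) : L × (EE k κ × P)), ∃ q' ≤ q, ∃ ξ, q' ∈ hit y ξ := by
    intro y q hq
    obtain ⟨q3, hq3, ξ, h3⟩ := mem_fex.1 (hb x) (nonewAd q (ρ y))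
      ⟨hq.1, hq.2.1.trans he', hq.2.2.trans hp', hρ y⟩
    exact ⟨prR q3, pj_prR.mono _ _ hq3, ξ, q3.2.2.2, hq3.2.2.2, fun t ht => h3 t ht⟩
  let g : Ll lam → Y → Set (L × (EE k κ × P)) := fun ξ y =>
    {q | q ∈ hit y ξ ∨ (y = y0 ∧ ∀ y', q ∈ fnot (hit y' ξ))}
  have gdn : ∀ ξ y, Down (g ξ y) := by
    rintro ξ y q (h1 | ⟨h1, h2⟩) q' hq'
    · exact Or.inl (hitdn y ξ q h1 q' hq')
    · exact Or.inr ⟨h1, fun y' => down_fnot _ _ (h2 y') _ hq'⟩
  obtain ⟨q', hq', X, hX, hcov⟩ := cover (G := γ.ord.ToType) (κ := κ) (ν := nu k κ) (lam := lam)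
    h0 h.sum_le_nu hν0 hsum (E := Ec k κ) h.dc_Ec hP (L := L) (fun i => h.mk_prod_le i hL)
    (Λ := Ll lam) (Z := Y) (by
      rw [h.sum_eq hl, mk_toType, card_ord]) g (l, (e', p')) (by
      refine ⟨fun ξ => mem_fex.2 fun q hq => ?_, fun ξ y y' => mem_fimp.2 fun q hq h1 => ?_⟩
      · by_cases h1 : ∃ y, ∃ q' ≤ q, q' ∈ hit y ξ
        · obtain ⟨y, q', hq', h2⟩ := h1
          exact ⟨q', hq', y, meets_of_mem (Or.inl h2)⟩
        · push Not at h1
          exact ⟨q, le_rfl, y0, meets_of_mem (Or.inr ⟨rfl, h1⟩)⟩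
      · refine ⟨q, le_rfl, ?_⟩
        obtain ⟨q1, hq1, h2⟩ := exists_of_meets (gdn ξ y) h1.1
        obtain ⟨q2, hq2, h3⟩ := exists_of_meets (gdn ξ y') (meets_dn h1.2 hq1)
        have h4 := gdn ξ y _ h2 _ hq2
        rcases h4 with h4 | ⟨h4, h5⟩
        · rcases h3 with h3 | ⟨h3, h6⟩
          · exact hdisj y y' ξ q2 (hq2.trans (hq1.trans hq)) h4 h3
          · exact absurd h4 (h6 y q2 le_rfl)
        · rcases h3 with h3 | ⟨h3, h6⟩
          · exact absurd h3 (h5 y' q2 le_rfl)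
          · exact h4.trans h3.symm)
  have hex : ∃ y : Y, y ∉ X := by
    by_contra h1
    push Not at h1
    have h2 : X = Set.univ := eq_univ_of_forall h1
    rw [h2, mk_univ] at hX
    exact absurd (h.lam_lt_prod hl) (not_lt.2 hX)
  obtain ⟨y, hy⟩ := hex
  obtain ⟨q'', hq'', ξ, h1⟩ := htot y q' hq'
  obtain ⟨r', _, h2⟩ := mem_fimp.1 (hcov ξ y) q'' hq'' (meets_of_mem (Or.inl h1))
  exact hy h2

end Pool.Agent.H638.ST
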