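import Mathlib
import Pool.Agent.H638.ST.Card

set_option autoImplicit false
set_option linter.unusedSectionVars false
set_option linter.unusedVariables false

namespace Pool.Agent.H638.ST

open Set Cardinal Pool.Agent.Helper669.Forcing

section Tree_aux

variable {lam : Cardinal.{0}} {Θ : Type}

/-- the values on the initial segment `β` -/
def treeIm (c : Pf (Kl lam) Θ (fun _ => univ) (Order.succ lam)) (β : Kl lam) : Set Θ :=
  {t | ∃ a < β, c.f a = some t}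

/-- all values on the initial segment `β` are decided -/
def treeTot (c : Pf (Kl lam) Θ (fun _ => univ) (Order.succ lam)) (β : Kl lam) : Prop :=
  ∀ a < β, c.f a ≠ none

theorem mk_treeIm [Nonempty Θ] (c : Pf (Kl lam) Θ (fun _ => univ) (Order.succ lam))
    (β : Kl lam) : #(treeIm c β) ≤ lam := by
  classical
  have h1 : treeIm c β ⊆ (fun a => (c.f a).getD (Classical.arbitrary Θ)) '' (Iio β) := by
    rintro t ⟨a, ha, h2⟩
    exact ⟨a, ha, by simp [h2]⟩
  exact (mk_le_mk_of_subset h1).trans (mk_image_le.trans (iio_Kl β))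

/-- the values on the initial segment `β`, a small set -/
def treeSm [Nonempty Θ] (c : Pf (Kl lam) Θ (fun _ => univ) (Order.succ lam))
    (β : Kl lam) : Sm lam Θ := ⟨treeIm c β, mk_treeIm c β⟩

theorem treeIm_mono (c : Pf (Kl lam) Θ (fun _ => univ) (Order.succ lam)) {α β : Kl lam}
    (h : α ≤ β) : treeIm c α ⊆ treeIm c β := by
  rintro t ⟨a, ha, h1⟩
  exact ⟨a, ha.trans_le h, h1⟩

theorem treeTot_mono {c : Pf (Kl lam) Θ (fun _ => univ) (Order.succ lam)} {α β : Kl lam}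
    (h : α ≤ β) (hc : treeTot c β) : treeTot c α := fun a ha => hc a (ha.trans_le h)

theorem treeTot_le {c c' : Pf (Kl lam) Θ (fun _ => univ) (Order.succ lam)} (h : c' ≤ c)
    {β : Kl lam} (hc : treeTot c β) : treeTot c' β := by
  intro a ha
  obtain ⟨y, hy⟩ := Option.ne_none_iff_exists'.1 (hc a ha)
  rw [h a y hy]
  simp

theorem treeIm_le {c c' : Pf (Kl lam) Θ (fun _ => univ) (Order.succ lam)} (h : c' ≤ c)
    (β : Kl lam) : treeIm c β ⊆ treeIm c' β := by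
  rintro t ⟨a, ha, h1⟩
  exact ⟨a, ha, h a t h1⟩

theorem treeIm_eq {c c' : Pf (Kl lam) Θ (fun _ => univ) (Order.succ lam)} (h : c' ≤ c)
    {β : Kl lam} (hc : treeTot c β) : treeIm c' β = treeIm c β := by
  refine Subset.antisymm ?_ (treeIm_le h β)
  rintro t ⟨a, ha, h1⟩
  obtain ⟨y, hy⟩ := Option.ne_none_iff_exists'.1 (hc a ha)
  have h2 := h a y hy
  rw [h1] at h2
  rw [Option.some.inj h2]
  exact ⟨a, ha, hy⟩

theorem treeSm_eq [Nonempty Θ] {c c' : Pf (Kl lam) Θ (fun _ => univ) (Order.succ lam)}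
    (h : c' ≤ c) {β : Kl lam} (hc : treeTot c β) : treeSm c' β = treeSm c β :=
  Subtype.ext (treeIm_eq h hc)

variable {Q : Type} [Preorder Q] {g : Q → Pf (Kl lam) Θ (fun _ => univ) (Order.succ lam)}

theorem tree_dense1 (h0 : ℵ₀ ≤ lam) [Nonempty Θ] (hg : Pj g) (q : Q) (β : Kl lam) :
    ∃ q' ≤ q, treeTot (g q') β := by
  obtain ⟨c, hc, h1⟩ := exists_ext_set (h0.trans (Order.le_succ lam)) (g q) (Iio β)
    (Order.lt_succ_of_le (iio_Kl β)) (fun _ _ => Set.univ_nonempty)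
  obtain ⟨q', hq', h2⟩ := hg.lift q c hc
  exact ⟨q', hq', treeTot_le h2 fun a ha => h1 a ha⟩

theorem tree_dense2 (h0 : ℵ₀ ≤ lam) [Nonempty Θ] (hg : Pj g) (q : Q) (x : Sm lam Θ) :
    ∃ q' ≤ q, ∃ β, treeTot (g q') β ∧ x.1 ⊆ treeIm (g q') β := by
  classical
  obtain ⟨β0, hβ0⟩ := bd_Kl h0 {a : Kl lam // (g q).f a ≠ none} Subtype.val
    (Order.le_of_lt_succ (g q).small)
  have h1 : lam < #(Ici β0) := by
    by_contra h
    push Not at h
    obtain ⟨b, hb⟩ := bd_Kl h0 (Ici β0) Subtype.val h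
    exact lt_irrefl _ (hb ⟨b, Set.mem_Ici.2 (hb ⟨β0, Set.mem_Ici.2 le_rfl⟩).le⟩)
  obtain ⟨e⟩ := Cardinal.le_def _ _ |>.1 (x.2.trans h1.le)
  obtain ⟨β1, hβ1⟩ := bd_Kl h0 x.1 (fun t => (e t).1) x.2
  let rf : Kl lam → Option Θ := fun a =>
    if h : ∃ t : x.1, (e t).1 = a then some (h.choose).1 else none
  have hrf : ∀ t : x.1, rf (e t).1 = some t.1 := by
    intro t
    have h : ∃ t' : x.1, (e t').1 = (e t).1 := ⟨t, rfl⟩
    have h2 : rf (e t).1 = some (h.choose).1 := dif_pos h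
    rw [h2]
    have h3 := h.choose_spec
    rw [e.injective (Subtype.ext h3)]
  have hrf' : ∀ a, rf a ≠ none → ∃ t : x.1, (e t).1 = a := by
    intro a ha
    by_contra h
    exact ha (dif_neg h)
  let r : Pf (Kl lam) Θ (fun _ => univ) (Order.succ lam) :=
    { f := rf
      small := by
        refine Order.lt_succ_of_le (le_trans ?_ x.2)
        refine mk_le_of_surjective (f := fun t : x.1 =>
          (⟨(e t).1, by rw [hrf t]; simp⟩ : {a : Kl lam // rf a ≠ none})) ?_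
        rintro ⟨a, ha⟩
        obtain ⟨t, ht⟩ := hrf' a ha
        exact ⟨t, Subtype.ext ht⟩
      mem := fun _ _ _ => Set.mem_univ _ }
  obtain ⟨c, hc1, hc2, _⟩ := exists_join (h0.trans (Order.le_succ lam)) (g q) r (by
    intro a y z hy hz
    exfalso
    have h2 : a < β0 := hβ0 ⟨a, by rw [hy]; simp⟩
    have h3 : rf a ≠ none := by
      change rf a = some z at hz
      rw [hz]
      simp
    obtain ⟨t, ht⟩ := hrf' a h3
    rw [← ht] at h2
    exact absurd h2 (not_lt.2 (e t).2))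
  obtain ⟨q1, hq1, h2⟩ := hg.lift q c hc1
  obtain ⟨q2, hq2, h3⟩ := tree_dense1 h0 hg q1 β1
  refine ⟨q2, hq2.trans hq1, β1, h3, fun t ht => ⟨(e ⟨t, ht⟩).1, hβ1 ⟨t, ht⟩, ?_⟩⟩
  exact (hg.mono _ _ hq2) _ _ (h2 _ _ (hc2 _ _ (hrf ⟨t, ht⟩)))

/-- the tree -/
def treeE [Nonempty Θ] (g : Q → Pf (Kl lam) Θ (fun _ => univ) (Order.succ lam))
    (F : Sm lam Θ → Ll lam → Nm Q Θ) : Kl lam → Ll lam → Kl lam → Ll lam → Set Q :=
  fun α ξ β ζ => {q | α ≤ β ∧ treeTot (g q) β ∧ ∀ t ∈ treeIm (g q) α,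
    q ∈ feqv (meets (F (treeSm (g q) α) ξ t)) (meets (F (treeSm (g q) β) ζ t))}

theorem down_treeE [Nonempty Θ] (hg : Pj g) (F : Sm lam Θ → Ll lam → Nm Q Θ)
    (α : Kl lam) (ξ : Ll lam) (β : Kl lam) (ζ : Ll lam) : Down (treeE g F α ξ β ζ) := by
  rintro q ⟨h1, h2, h3⟩ q' hq'
  have h4 := hg.mono _ _ hq'
  refine ⟨h1, treeTot_le h4 h2, fun t ht => ?_⟩
  rw [treeSm_eq h4 h2, treeSm_eq h4 (treeTot_mono h1 h2)]
  rw [treeIm_eq h4 (treeTot_mono h1 h2)] at ht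
  exact down_feqv _ _ _ (h3 t ht) _ hq'

end Tree_aux

/-- **From coherent families to trees.** Let `Q` be projected to the forcing which adds a function
from `lam⁺` onto `Θ` by conditions of size `lam`. A coherent family `F` on `Θ` induces a tree of
height `lam⁺`: the level `α` is given by the sets `F x ξ`, where `x` is the image of `α`. A cofinal
branch of the tree gives a branch of the family. -/
theorem tree_of_coh {lam : Cardinal.{0}} (h0 : ℵ₀ ≤ lam) {Q : Type} [Preorder Q] {Θ : Type}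
    [Nonempty Θ] (g : Q → Pf (Kl lam) Θ (fun _ => univ) (Order.succ lam)) (hg : Pj g)
    (F : Sm lam Θ → Ll lam → Nm Q Θ) :
    ∃ E : Kl lam → Ll lam → Kl lam → Ll lam → Set Q, ∀ q ∈ CohFam lam F, q ∈ IsTr E ∧
      ∀ q' ≤ q, q' ∈ HasCb E → q' ∈ fex fun b : Nm Q Θ => CBr lam F b := by
  classical
  have hD := down_treeE hg F
  refine ⟨treeE g F, fun q hq => ⟨⟨?_, ?_⟩, ?_⟩⟩
  · intro α β hαβ ζ
    refine mem_fex.2 fun q' hq' => ?_
    obtain ⟨q1, hq1, h1⟩ := tree_dense1 h0 hg q' β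
    obtain ⟨r, hr, ξ, h2⟩ := mem_fex.1 (hq (treeSm (g q1) α) (treeSm (g q1) β)
      (treeIm_mono _ hαβ) ζ) q1 (hq1.trans hq')
    refine ⟨r, hr.trans hq1, ξ, meets_of_mem ?_⟩
    have h3 := hg.mono _ _ hr
    refine ⟨hαβ, treeTot_le h3 h1, fun t ht => ?_⟩
    rw [treeSm_eq h3 h1, treeSm_eq h3 (treeTot_mono hαβ h1)]
    rw [treeIm_eq h3 (treeTot_mono hαβ h1)] at ht
    exact h2 t ht
  · intro α β δ hαβ hβδ ξ ζ υ
    refine (mem_fimp_meets (down_fand (down_meets _) (down_meets _))).2 fun q' hq' h1 => ?_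
    refine meets_of_dense' fun q1 hq1 => ?_
    obtain ⟨q2, hq2, h2⟩ := exists_of_meets (hD α ξ δ υ) (meets_dn h1.1 hq1)
    obtain ⟨q3, hq3, h3⟩ := exists_of_meets (hD β ζ δ υ) (meets_dn h1.2 (hq2.trans hq1))
    have h4 := hD α ξ δ υ q2 h2 q3 hq3
    refine ⟨q3, hq3.trans hq2, hαβ, treeTot_mono hβδ h3.2.1, fun t ht => ?_⟩
    refine mem_feqv_meets.2 fun s hs => ?_
    rw [mem_feqv_meets.1 (h4.2.2 t ht) s hs,
      mem_feqv_meets.1 (h3.2.2 t (treeIm_mono _ hαβ ht)) s hs]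
  · intro q' hq' hb
    refine mem_fex.2 fun q1 hq1 => ?_
    obtain ⟨r, hr, B, hB⟩ := mem_fex.1 hb q1 hq1
    let b : Nm Q Θ := fun t => {s | ∃ β ζ, treeTot (g s) β ∧ t ∈ treeIm (g s) β ∧
      s ∈ meets (B β ζ) ∧ s ∈ meets (F (treeSm (g s) β) ζ t)}
    have hbd : ∀ t, Down (b t) := by
      rintro t s ⟨β, ζ, h1, h2, h3, h4⟩ s' hs'
      have h5 := hg.mono _ _ hs'
      refine ⟨β, ζ, treeTot_le h5 h1, treeIm_le h5 β h2, meets_dn h3 hs', ?_⟩
      rw [treeSm_eq h5 h1]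
      exact meets_dn h4 hs'
    refine ⟨r, hr, b, fun x => mem_fex.2 fun q2 hq2 => ?_⟩
    obtain ⟨q3, hq3, β0, h1, h2⟩ := tree_dense2 h0 hg q2 x
    obtain ⟨q4, hq4, β, h3, h4⟩ := mem_fex.1 (hB.1 β0) q3 (hq3.trans hq2)
    obtain ⟨q5, hq5, ζ, h5⟩ := mem_fex.1 h4 q4 le_rfl
    obtain ⟨q6, hq6, h6⟩ := tree_dense1 h0 hg q5 β
    have h63 : g q6 ≤ g q3 := hg.mono _ _ (hq6.trans (hq5.trans hq4))
    have h7 : x.1 ⊆ treeIm (g q6) β :=
      h2.trans ((treeIm_le h63 β0).trans (treeIm_mono _ h3))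
    have h6r : q6 ≤ r := hq6.trans (hq5.trans (hq4.trans (hq3.trans hq2)))
    obtain ⟨q7, hq7, ξ, h8⟩ := mem_fex.1 (hq x (treeSm (g q6) β) h7 ζ) q6
      (h6r.trans (hr.trans (hq1.trans hq')))
    refine ⟨q7, hq7.trans (hq6.trans (hq5.trans (hq4.trans hq3))), ξ, fun t ht => ?_⟩
    refine mem_feqv_meets.2 fun s hs => ?_
    rw [mem_feqv_meets.1 (h8 t ht) s hs]
    have hs6 : g s ≤ g q6 := hg.mono _ _ (hs.trans hq7)
    constructor
    · intro h9
      refine meets_of_mem ⟨β, ζ, treeTot_le hs6 h6, treeIm_le hs6 β (h7 ht),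
        meets_dn h5 (hs.trans (hq7.trans hq6)), ?_⟩
      rw [treeSm_eq hs6 h6]
      exact h9
    · intro h9
      refine meets_of_dense fun u hu => ?_
      obtain ⟨v, hv, β', ζ', h10, h11, h12, h13⟩ := exists_of_meets (hbd t) (meets_dn h9 hu)
      have hvs : v ≤ s := hv.trans hu
      have hvr : v ≤ r := hvs.trans (hs.trans (hq7.trans h6r))
      have h14 : v ∈ meets (B β ζ) := meets_dn h5 (hvs.trans (hs.trans (hq7.trans hq6)))
      rcases le_total β β' with hββ | hββ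
      · have h15 := (mem_fimp_meets (down_fand (down_meets _) (down_meets _))).1
          (hB.2 β β' hββ ζ ζ') v hvr ⟨h14, h12⟩
        obtain ⟨w, hw, h16⟩ := exists_of_meets (hD _ _ _ _) h15
        have hwv : g w ≤ g v := hg.mono _ _ hw
        have hw6 : g w ≤ g q6 := (hg.mono _ _ (hw.trans hvs)).trans hs6
        refine ⟨w, hw.trans hv, ?_⟩
        have h17 := mem_feqv_meets.1 (h16.2.2 t (treeIm_le hw6 β (h7 ht))) w le_rfl
        rw [treeSm_eq hw6 h6, treeSm_eq hwv h10] at h17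
        exact h17.2 (meets_dn h13 hw)
      · have h15 := (mem_fimp_meets (down_fand (down_meets _) (down_meets _))).1
          (hB.2 β' β hββ ζ' ζ) v hvr ⟨h12, h14⟩
        obtain ⟨w, hw, h16⟩ := exists_of_meets (hD _ _ _ _) h15
        have hwv : g w ≤ g v := hg.mono _ _ hw
        have hw6 : g w ≤ g q6 := (hg.mono _ _ (hw.trans hvs)).trans hs6
        refine ⟨w, hw.trans hv, ?_⟩
        have h17 := mem_feqv_meets.1 (h16.2.2 t (treeIm_le hwv β' h11)) w le_rfl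
        rw [treeSm_eq hw6 h6, treeSm_eq hwv h10] at h17
        exact h17.1 (meets_dn h13 hw)

/-- the trivial case -/
theorem coh_empty {lam : Cardinal.{0}} (h0 : ℵ₀ ≤ lam) {Q : Type} [Preorder Q] {Θ : Type}
    [IsEmpty Θ] (F : Sm lam Θ → Ll lam → Nm Q Θ) (q : Q) :
    q ∈ fex fun b : Nm Q Θ => CBr lam F b := by
  have h1 : Nonempty (Ll lam) := by
    rw [← mk_ne_zero_iff, mk_ord_toType]
    exact (aleph0_pos.trans_le h0).ne'
  obtain ⟨ξ⟩ := h1
  exact mem_fex.2 fun q' _ => ⟨q', le_rfl, fun _ => ∅, fun x => mem_fex.2 fun q'' _ =>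
    ⟨q'', le_rfl, ξ, fun t => isEmptyElim t⟩⟩

end Pool.Agent.H638.ST
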