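import Mathlib
import Pool.Agent.H638.ST.Main1
import Pool.Agent.H638.ST.NoNew
import Pool.Agent.H638.ST.Tree

set_option autoImplicit false
set_option linter.unusedSectionVars false
set_option linter.unusedVariables false

namespace Pool.Agent.H638.ST

open Set Cardinal Pool.Agent.Helper669.Forcing

/-- the small part of the forcing of a block: `A`, then the collapse of `μ` to `γ`, then the Levy
collapse `Col(μ⁺, <k)` -/
abbrev Lk (A : Type) (γ k μ : Cardinal.{0}) : Type := (A × Cg γ μ) × Lv (Order.succ μ) k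

/-- the requirements on `μ` -/
structure Mu (A : Type) (γ k μ : Cardinal.{0}) : Prop where
  inf : ℵ₀ ≤ μ
  ge : #A ≤ μ
  ge' : γ ≤ μ
  pow : ∀ ν < γ, μ ^ ν ≤ μ
  lt : μ < k

theorem existsM_mk_B {A : Type} {γ k μ : Cardinal.{0}} (h : Mu A γ k μ) :
    #(A × Cg γ μ) ≤ μ := by
  rw [mk_prod, lift_id, lift_id]
  exact (mul_le_mul' h.ge (mk_cg_le h.inf h.ge' h.pow)).trans (mul_eq_self h.inf).le

theorem Mu.mk_Lk {A : Type} {γ k μ : Cardinal.{0}} (h : Mu A γ k μ) (hk : k.IsInaccessible) :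
    #(Lk A γ k μ) ≤ k := by
  rw [mk_prod, lift_id, lift_id]
  exact (mul_le_mul' ((existsM_mk_B h).trans h.lt.le) (mk_lv_le hk h.lt)).trans
    (mul_eq_self (h.inf.trans h.lt.le)).le

/-- the elements of `k` are counted by the cardinals below `k` -/
theorem existsM_elt {k c : Cardinal.{0}} (h : c < k) : ∃ m : k.ord.ToType, #(Iio m) = c := by
  have h1 : c.ord < Ordinal.type (α := k.ord.ToType) (· < ·) := by
    rw [Ordinal.type_toType]
    exact ord_lt_ord.2 h
  obtain ⟨m, hm⟩ := Ordinal.typein_surj (α := k.ord.ToType) (· < ·) h1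
  refine ⟨m, ?_⟩
  have h2 : #(Iio m) = (Ordinal.typein (α := k.ord.ToType) (· < ·) m).card := by
    rw [Ordinal.card_typein]
    rfl
  rw [h2, hm, card_ord]

/-- the empty condition of the product of Levy collapses -/
theorem existsM_ne {γ k : Cardinal.{0}} {κ : γ.ord.ToType → Cardinal.{0}} : Nonempty (EE k κ) := by
  refine ⟨fun j => ⟨fun _ => none, ?_, ?_⟩⟩
  · have h : #{x : (κ j).ord.ToType × (Order.succ (nu k κ j)).ord.ToType //
        (none : Option (κ j).ord.ToType) ≠ none} = 0 := by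
      rw [mk_eq_zero_iff]
      exact ⟨fun x => x.2 rfl⟩
    rw [h]
    exact (zero_le).trans_lt (Order.lt_succ _)
  · intro x y h
    exact absurd h (by simp)

theorem existsM_pf_ne {X Y : Type} {ν : Cardinal.{0}} :
    Nonempty (Pf X Y (fun _ => univ) (Order.succ ν)) := by
  refine ⟨⟨fun _ => none, ?_, ?_⟩⟩
  · have h : #{x : X // (none : Option Y) ≠ none} = 0 := by
      rw [mk_eq_zero_iff]
      exact ⟨fun x => x.2 rfl⟩
    rw [h]
    exact (zero_le).trans_lt (Order.lt_succ _)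
  · intro x y h
    exact absurd h (by simp)

theorem existsM_down_coh {Q : Type} [Preorder Q] {lam : Cardinal.{0}} {Θ : Type}
    (F : Sm lam Θ → Ll lam → Nm Q Θ) : Down (CohFam lam F) :=
  down_fall fun _ => down_fall fun _ => down_fall fun _ => down_fall fun _ => down_fex _

/-- coherent families pass to extensions -/
theorem existsM_pj_coh {P Q : Type} [Preorder P] [Preorder Q] {π : Q → P} (h : Pj π)
    {lam : Cardinal.{0}} {Θ : Type} {F : Sm lam Θ → Ll lam → Nm P Θ} {q : Q}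
    (hq : π q ∈ CohFam lam F) : q ∈ CohFam lam (fun x ξ t => pb π (F x ξ t)) := by
  intro x y hxy ζ
  refine pj_fex h (hq x y hxy ζ) id ?_ ?_
  · intro ξ q' hq' t ht
    exact pj_feqv h (hq' t ht)
  · intro ξ
    exact down_fall fun _ => down_fall fun _ => down_feqv _ _

/-- branches pass to extensions -/
theorem existsM_pj_cbr {P Q R : Type} [Preorder P] [Preorder Q] [Preorder R] {ρ : Q → P}
    (hρ : Pj ρ) {ε : R → Q} (hε : Pj ε) {σ : R → P} (hσ : Pj σ) (hc : ∀ r, ρ (ε r) = σ r)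
    {lam : Cardinal.{0}} {Θ : Type} {F : Sm lam Θ → Ll lam → Nm P Θ} {b : Nm Q Θ} {r : R}
    (hr : ε r ∈ CBr lam (fun x ξ t => pb ρ (F x ξ t)) b) :
    r ∈ CBr lam (fun x ξ t => pb σ (F x ξ t)) (fun t => pb ε (b t)) := by
  intro x
  refine pj_fex hε (hr x) id ?_ ?_
  · intro ξ q' hq' t ht
    refine mem_feqv_meets.2 fun s hs => ?_
    have h1 := mem_feqv_meets.1 (hq' t ht) (ε s) (hε.mono _ _ hs)
    rw [mem_pb hσ, mem_pb hε, ← hc, ← h1, mem_pb hρ]
    rfl
  · intro ξ
    exact down_fall fun _ => down_fall fun _ => down_feqv _ _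

section

variable {M : Type} {L E : Type} [Preorder L] [Preorder E] {P G : M → Type}
  [∀ m, Preorder (P m)] [∀ m, Preorder (G m)]

/-- the projection to the coordinate `m` -/
def existsMro (m : M) (q : L × (E × (∀ m, P m × G m))) : L × (E × P m) :=
  (q.1, (q.2.1, (q.2.2 m).1))

theorem existsM_pj_ro (m : M) : Pj (existsMro (L := L) (E := E) (P := P) (G := G) m) := by
  classical
  constructor
  · intro q q' h
    exact ⟨h.1, h.2.1, (h.2.2 m).1⟩
  · intro q p h
    refine ⟨(p.1, (p.2.1, Function.update q.2.2 m (p.2.2, (q.2.2 m).2))), ⟨h.1, h.2.1, ?_⟩, ?_⟩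
    · intro m'
      by_cases hm : m' = m
      · subst hm
        show Function.update q.2.2 m' (p.2.2, (q.2.2 m').2) m' ≤ q.2.2 m'
        rw [Function.update_self]
        exact ⟨h.2.2, le_rfl⟩
      · show Function.update q.2.2 m (p.2.2, (q.2.2 m).2) m' ≤ q.2.2 m'
        rw [Function.update_of_ne hm]
    · refine ⟨le_rfl, le_rfl, ?_⟩
      show (Function.update q.2.2 m (p.2.2, (q.2.2 m).2) m).1 ≤ p.2.2
      rw [Function.update_self]

theorem existsM_pj_g (m : M) : Pj (fun q : L × (E × (∀ m, P m × G m)) => (q.2.2 m).2) := by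
  classical
  constructor
  · intro q q' h
    exact (h.2.2 m).2
  · intro q p h
    refine ⟨(q.1, (q.2.1, Function.update q.2.2 m ((q.2.2 m).1, p))), ⟨le_rfl, le_rfl, ?_⟩, ?_⟩
    · intro m'
      by_cases hm : m' = m
      · subst hm
        show Function.update q.2.2 m' ((q.2.2 m').1, p) m' ≤ q.2.2 m'
        rw [Function.update_self]
        exact ⟨le_rfl, h⟩
      · show Function.update q.2.2 m ((q.2.2 m).1, p) m' ≤ q.2.2 m'
        rw [Function.update_of_ne hm]
    · show (Function.update q.2.2 m ((q.2.2 m).1, p) m).2 ≤ p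
      rw [Function.update_self]

open Classical in
/-- the coordinate `m` is replaced -/
noncomputable def existsMep (m : M) (q : L × (E × (P m × (∀ m, P m × G m)))) :
    L × (E × (∀ m, P m × G m)) :=
  (q.1, (q.2.1, Function.update q.2.2.2 m (q.2.2.1, (q.2.2.2 m).2)))

theorem existsM_pj_ep (m : M) : Pj (existsMep (L := L) (E := E) (P := P) (G := G) m) := by
  classical
  constructor
  · intro q q' h
    refine ⟨h.1, h.2.1, ?_⟩
    intro m'
    by_cases hm : m' = m
    · subst hm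
      show Function.update q'.2.2.2 m' (q'.2.2.1, (q'.2.2.2 m').2) m' ≤
        Function.update q.2.2.2 m' (q.2.2.1, (q.2.2.2 m').2) m'
      rw [Function.update_self, Function.update_self]
      exact ⟨h.2.2.1, (h.2.2.2 m').2⟩
    · show Function.update q'.2.2.2 m (q'.2.2.1, (q'.2.2.2 m).2) m' ≤
        Function.update q.2.2.2 m (q.2.2.1, (q.2.2.2 m).2) m'
      rw [Function.update_of_ne hm, Function.update_of_ne hm]
      exact h.2.2.2 m'
  · intro q z h
    have h2 : ∀ m', z.2.2 m' ≤ Function.update q.2.2.2 m (q.2.2.1, (q.2.2.2 m).2) m' := h.2.2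
    have h3 : z.2.2 m ≤ (q.2.2.1, (q.2.2.2 m).2) := by
      have := h2 m
      rwa [Function.update_self] at this
    refine ⟨(z.1, (z.2.1, ((z.2.2 m).1, Function.update z.2.2 m ((q.2.2.2 m).1, (z.2.2 m).2)))),
      ⟨h.1, h.2.1, h3.1, ?_⟩, ⟨le_rfl, le_rfl, ?_⟩⟩
    · intro m'
      by_cases hm : m' = m
      · subst hm
        show Function.update z.2.2 m' ((q.2.2.2 m').1, (z.2.2 m').2) m' ≤ q.2.2.2 m'
        rw [Function.update_self]
        exact ⟨le_rfl, h3.2⟩
      · show Function.update z.2.2 m ((q.2.2.2 m).1, (z.2.2 m).2) m' ≤ q.2.2.2 m'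
        rw [Function.update_of_ne hm]
        have := h2 m'
        rwa [Function.update_of_ne hm] at this
    · intro m'
      by_cases hm : m' = m
      · subst hm
        show Function.update (Function.update z.2.2 m' ((q.2.2.2 m').1, (z.2.2 m').2)) m'
          ((z.2.2 m').1, (Function.update z.2.2 m' ((q.2.2.2 m').1, (z.2.2 m').2) m').2) m' ≤
            z.2.2 m'
        rw [Function.update_self, Function.update_self]
      · show Function.update (Function.update z.2.2 m ((q.2.2.2 m).1, (z.2.2 m).2)) m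
          ((z.2.2 m).1, (Function.update z.2.2 m ((q.2.2.2 m).1, (z.2.2 m).2) m).2) m' ≤
            z.2.2 m'
        rw [Function.update_of_ne hm, Function.update_of_ne hm]

theorem existsM_ro_ep (m : M) (q : L × (E × (P m × (∀ m, P m × G m)))) :
    existsMro m (existsMep m q) = prR q := by
  classical
  show (q.1, (q.2.1, (Function.update q.2.2.2 m (q.2.2.1, (q.2.2.2 m).2) m).1)) = _
  rw [Function.update_self]
  rfl

theorem existsM_ep_self (m : M) (q : L × (E × (∀ m, P m × G m))) :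
    existsMep m (q.1, (q.2.1, ((q.2.2 m).1, q.2.2))) = q := by
  classical
  show (q.1, (q.2.1, Function.update q.2.2 m ((q.2.2 m).1, (q.2.2 m).2))) = _
  have h : Function.update q.2.2 m ((q.2.2 m).1, (q.2.2 m).2) = q.2.2 :=
    Function.update_eq_self m q.2.2
  rw [h]

end

/-- a counterexample -/
structure existsMD (A : Type) [Preorder A] (γ k lam μ : Cardinal.{0})
    (κ : γ.ord.ToType → Cardinal.{0}) where
  P : Type
  inst : Preorder P
  dc : DC lam P
  Θ : Type
  F : Sm lam Θ → Ll lam → Nm (Lk A γ k μ × (EE k κ × P)) Θ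
  l : Lk A γ k μ
  e : EE k κ
  p : P
  coh : (l, (e, p)) ∈ CohFam lam F
  bad : ∀ r ≤ (l, (e, p)), ∀ b, r ∉ CBr lam F b

/-- **The choice of `μ`.** For some `μ < k` and some condition `e`: in all extensions by
`Lk A γ k μ × ((∏ E j) × P)`, with `P` closed under lower bounds of families of `lam` conditions,
all coherent families have branches, below `e`. -/
theorem exists_mu {γ k lam : Cardinal.{0}} {κ : γ.ord.ToType → Cardinal.{0}} (h : Sq γ k κ)
    (hl : lam = ⨆ i, κ i) (A : Type) [Preorder A] (hA : #A < k) :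
    ∃ μ, Mu A γ k μ ∧ ∃ e : EE k κ, ∀ (P : Type) [Preorder P], DC lam P → ∀ (Θ : Type)
      (F : Sm lam Θ → Ll lam → Nm (Lk A γ k μ × (EE k κ × P)) Θ)
      (q : Lk A γ k μ × (EE k κ × P)), q.2.1 ≤ e → q ∈ CohFam lam F →
        q ∈ fex fun b : Nm (Lk A γ k μ × (EE k κ × P)) Θ => CBr lam F b := by
  classical
  by_contra hcon
  have hD : ∀ μ, Mu A γ k μ → ∀ e : EE k κ, ∃ d : existsMD A γ k lam μ κ, d.e ≤ e := by
    intro μ hμ e
    by_contra hno
    refine hcon ⟨μ, hμ, e, fun P _ hP Θ F q hq hF => ?_⟩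
    by_contra hb
    rw [mem_fex] at hb
    push Not at hb
    obtain ⟨q', hq', hbad⟩ := hb
    exact hno ⟨⟨P, inferInstance, hP, Θ, F, q'.1, q'.2.1, q'.2.2,
      existsM_down_coh F _ hF _ hq', fun r hr b => hbad r hr b⟩, (hq'.2.1).trans hq⟩
  set M : Type := {m : k.ord.ToType // Mu A γ k #(Iio m)} with hM
  have hk0 : ℵ₀ ≤ k := h.inacc_k.aleph0_lt.le
  have hlam0 : ℵ₀ ≤ lam := h.aleph0_le_lam hl
  obtain ⟨p0⟩ := existsM_ne (γ := γ) (k := k) (κ := κ)
  have hMc : #M ≤ k := (mk_subtype_le _).trans (mk_ord_toType k).le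
  obtain ⟨S, hS0, hS1, hS2⟩ := exists_chain hk0 h.dc_EE (J := M)
    (fun j => (mk_set_le _).trans hMc) p0
    (fun m _ e' => ∃ d : existsMD A γ k lam #(Iio m.1) κ, d.e = e')
    (fun m e _ => by
      obtain ⟨d, hd⟩ := hD _ m.2 e
      exact ⟨d.e, hd, d, rfl⟩)
  have hS3 : ∀ m, ∃ d : existsMD A γ k lam #(Iio m.1) κ, d.e = S m := fun m => by
    obtain ⟨_, _, _, _, h1⟩ := hS2 m
    exact h1
  choose d hd using hS3
  obtain ⟨e, he⟩ : ∃ e, ∀ m, e ≤ S m := by
    rcases isEmpty_or_nonempty M with hE | hE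
    · exact ⟨p0, fun m => isEmptyElim m⟩
    · exact h.dc_EE.lb hMc S hS1
  let _ : ∀ m, Preorder (d m).P := fun m => (d m).inst
  have hΘ : ∀ m, Nonempty (d m).Θ := by
    intro m
    by_contra hne
    rw [not_nonempty_iff] at hne
    have h1 := coh_empty hlam0 (d m).F ((d m).l, ((d m).e, (d m).p))
    obtain ⟨r, hr, b, hb⟩ := mem_fex.1 h1 _ le_rfl
    exact (d m).bad r hr b hb
  have hg0 : ∀ m, Nonempty (Pf (Kl lam) (d m).Θ (fun _ => univ) (Order.succ lam)) :=
    fun m => existsM_pf_ne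
  set Ps : Type := ∀ m, (d m).P × Pf (Kl lam) (d m).Θ (fun _ => univ) (Order.succ lam) with hPs
  have hPsdc : DC lam Ps := DC.pi fun m =>
    (d m).dc.prod (dc_pf (isRegular_succ hlam0) (Order.lt_succ lam))
  set ps : Ps := fun m => ((d m).p, (hg0 m).some) with hps
  have htree : ∀ m, ∃ E : Kl lam → Ll lam → Kl lam → Ll lam →
      Set (Lk A γ k #(Iio m.1) × (EE k κ × Ps)),
      ∀ q ∈ CohFam lam (fun x ξ t => pb (existsMro m) ((d m).F x ξ t)), q ∈ IsTr E ∧
        ∀ q' ≤ q, q' ∈ HasCb E → q' ∈ fex fun b : Nm (Lk A γ k #(Iio m.1) × (EE k κ × Ps)) (d m).Θ =>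
          CBr lam (fun x ξ t => pb (existsMro m) ((d m).F x ξ t)) b := by
    intro m
    have := hΘ m
    exact tree_of_coh hlam0 (Θ := (d m).Θ) _
      (existsM_pj_g (L := Lk A γ k #(Iio m.1)) (E := EE k κ) (P := fun m => (d m).P)
        (G := fun m => Pf (Kl lam) (d m).Θ (fun _ => univ) (Order.succ lam)) m) _
  choose T hT using htree
  have hle : ∀ m, ((d m).l, (e, (d m).p)) ≤ ((d m).l, ((d m).e, (d m).p)) := fun m =>
    ⟨le_rfl, (he m).trans (hd m).ge, le_rfl⟩
  have hcoh : ∀ m, (((d m).l, (e, ps)) : Lk A γ k #(Iio m.1) × (EE k κ × Ps)) ∈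
      CohFam lam (fun x ξ t => pb (existsMro m) ((d m).F x ξ t)) := fun m =>
    existsM_pj_coh (existsM_pj_ro m) (existsM_down_coh _ _ (d m).coh _ (hle m))
  obtain ⟨m, x, hx, q, hq, hbr⟩ := main1 h hl hPsdc hA (M := M) (fun m => #(Iio m.1)) hMc
    (fun c hc1 hc2 hc3 hc4 hc5 => by
      obtain ⟨m, hm⟩ := existsM_elt hc5
      subst hm
      exact ⟨⟨m, ⟨hc1, hc2, hc3, hc4, hc5⟩⟩, rfl⟩)
    (B := fun m => A × Cg γ #(Iio m.1)) (D := fun m => Lv (Order.succ #(Iio m.1)) k)
    (fun m => existsM_mk_B m.2) (fun m => dc_lv m.2.inf) (fun m => m.2.mk_Lk h.inacc_k)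
    T (fun m => (d m).l.1) (fun m => (d m).l.2) (e, ps) (fun m => (hT m _ (hcoh m)).1)
  have h1 := (hT m _ (hcoh m)).2 (x, q) ⟨hx, hq⟩ hbr
  obtain ⟨s, hs, b, hb⟩ := mem_fex.1 h1 _ le_rfl
  have hs' : s ≤ ((d m).l, (e, ps)) := hs.trans ⟨hx, hq⟩
  have hs2 : (s.2.2 m).1 ≤ (d m).p := (hs'.2.2 m).1
  have h2 : (s.1, (s.2.1, (s.2.2 m).1)) ≤ ((d m).l, ((d m).e, (d m).p)) :=
    ⟨hs'.1, (hs'.2.1).trans ((he m).trans (hd m).ge), hs2⟩
  have h3 : existsMep m (s.1, (s.2.1, ((s.2.2 m).1, s.2.2))) ∈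
      CBr lam (fun x ξ t => pb (existsMro m) ((d m).F x ξ t)) b := by
    rw [existsM_ep_self]
    exact hb
  have h4 := existsM_pj_cbr (existsM_pj_ro m) (existsM_pj_ep m) pj_prR (existsM_ro_ep m) h3
  obtain ⟨q', hq', h5⟩ := no_new_branch h hl (m.2.mk_Lk h.inacc_k) (d m).dc hPsdc (d m).F s.1 s.2.1
    (s.2.2 m).1 s.2.2 (existsM_down_coh _ _ (d m).coh _ h2) _ h4
  obtain ⟨r, hr, b', hb'⟩ := mem_fex.1 h5 _ le_rfl
  exact (d m).bad r (hr.trans (hq'.trans h2)) b' hb'

end Pool.Agent.H638.ST
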