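import Mathlib
import Pool.Agent.H638.ST.ExistsM

set_option autoImplicit false
set_option linter.unusedSectionVars false
set_option linter.unusedVariables false

namespace Pool.Agent.H638.ST

open Set Cardinal Pool.Agent.Helper669.Forcing

/-! # The blocks of the forcing -/

/-- the cardinals of one block -/
structure Bk where
  χ : Cardinal.{0}
  τ : Cardinal.{0}
  k : Cardinal.{0}
  κ : (Order.succ τ).ord.ToType → Cardinal.{0}
  μ : Cardinal.{0}
  e : EE k κ

/-- the singular cardinal of the block -/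
noncomputable def Bk.lam (b : Bk) : Cardinal.{0} := ⨆ i, b.κ i

/-- the forcing of a block -/
abbrev BP (b : Bk) : Type :=
  Cg b.χ b.τ × (Cg (Order.succ b.τ) b.μ × (Lv (Order.succ b.μ) b.k × EE b.k b.κ))

/-- a block is good over the small forcing `A` -/
structure Bk.Ok (b : Bk) (A : Type) [Preorder A] : Prop where
  reg : b.χ.IsRegular
  le : b.χ ≤ b.τ
  sz : #A ≤ b.τ
  pow : ∀ ν < b.χ, b.τ ^ ν ≤ b.τ
  sq : Sq (Order.succ b.τ) b.k b.κ
  mu : Mu (A × Cg b.χ b.τ) (Order.succ b.τ) b.k b.μ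
  br : ∀ (P : Type) [Preorder P], DC b.lam P → ∀ (Θ : Type)
      (F : Sm b.lam Θ → Ll b.lam →
        Nm (Lk (A × Cg b.χ b.τ) (Order.succ b.τ) b.k b.μ × (EE b.k b.κ × P)) Θ)
      (q : Lk (A × Cg b.χ b.τ) (Order.succ b.τ) b.k b.μ × (EE b.k b.κ × P)), q.2.1 ≤ b.e →
      q ∈ CohFam b.lam F →
        q ∈ fex fun c : Nm (Lk (A × Cg b.χ b.τ) (Order.succ b.τ) b.k b.μ × (EE b.k b.κ × P)) Θ =>
          CBr b.lam F c

/-- an increasing sequence of indestructibly supercompact cardinals above `k` -/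
theorem blk_exists_seq (H : ∀ c : Cardinal.{0}, ∃ κ > c, Isu κ) (k : Cardinal.{0}) (G : Type)
    [LinearOrder G] [WellFoundedLT G] :
    ∃ κ : G → Cardinal.{0}, (∀ i, Isu (κ i)) ∧ ∀ i, max k (⨆ j : Iio i, κ j.1) < κ i := by
  classical
  let F : (i : G) → ((j : G) → j < i → Cardinal.{0}) → Cardinal.{0} := fun i ih =>
    (H (max k (⨆ j : Iio i, ih j.1 j.2))).choose
  let κ : G → Cardinal.{0} := (wellFounded_lt (α := G)).fix F
  have hκ : ∀ i, κ i = F i fun j _ => κ j := fun i => (wellFounded_lt (α := G)).fix_eq F i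
  have hs : ∀ i, max k (⨆ j : Iio i, κ j.1) < F i (fun j _ => κ j) ∧
      Isu (F i (fun j _ => κ j)) := fun i => (H (max k (⨆ j : Iio i, κ j.1))).choose_spec
  refine ⟨κ, fun i => ?_, fun i => ?_⟩
  · rw [hκ i]; exact (hs i).2
  · rw [hκ i]; exact (hs i).1

/-- One block. (`τ` is `2 ^ max #A χ`; `k` and the `κ i` are chosen by recursion, `μ` and `e` by
`exists_mu`.) -/
theorem exists_block (H : ∀ c : Cardinal.{0}, ∃ κ > c, Isu κ) {χ : Cardinal.{0}}
    (hχ : χ.IsRegular) (A : Type) [Preorder A] : ∃ b : Bk, b.χ = χ ∧ b.Ok A := by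
  classical
  have h0 : ℵ₀ ≤ χ := hχ.aleph0_le
  let c : Cardinal.{0} := max #A χ
  have hc : ℵ₀ ≤ c := h0.trans (le_max_right _ _)
  let τ : Cardinal.{0} := 2 ^ c
  have hcτ : c ≤ τ := (cantor c).le
  have hτ0 : ℵ₀ ≤ τ := hc.trans hcτ
  have hχτ : χ ≤ τ := (le_max_right _ _).trans hcτ
  have hAτ : #A ≤ τ := (le_max_left _ _).trans hcτ
  have hpow : ∀ ν < χ, τ ^ ν ≤ τ := by
    intro ν hν
    have h1 : c * ν ≤ c := by
      calc c * ν ≤ c * c := mul_le_mul_right (hν.le.trans (le_max_right _ _)) c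
        _ = c := mul_eq_self hc
    calc τ ^ ν = 2 ^ (c * ν) := (power_mul).symm
      _ ≤ 2 ^ c := power_le_power_left two_ne_zero h1
  obtain ⟨k, hk, hki⟩ := H (Order.succ τ)
  obtain ⟨κ, hκ1, hκ2⟩ := blk_exists_seq H k (Order.succ τ).ord.ToType
  have hsq : Sq (Order.succ τ) k κ :=
    { reg := isRegular_succ hτ0
      lt := hk
      isuk := hki
      isu := hκ1
      k_lt := fun i => (le_max_left _ _).trans_lt (hκ2 i)
      mono := by
        intro i j hij
        refine lt_of_le_of_lt ?_ (hκ2 j)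
        refine le_trans ?_ (le_max_right _ _)
        exact le_ciSup (f := fun z : Iio j => κ z.1) (bddAbove_of_small) ⟨i, hij⟩ }
  have hA : #(A × Cg χ τ) < k := by
    have h1 : #(A × Cg χ τ) ≤ τ := by
      rw [mk_prod, lift_id, lift_id]
      calc #A * #(Cg χ τ) ≤ τ * τ := mul_le_mul' hAτ (mk_cg_le hτ0 hχτ hpow)
        _ = τ := mul_eq_self hτ0
    exact h1.trans_lt ((Order.lt_succ τ).trans hk)
  obtain ⟨μ, hμ, e, he⟩ := exists_mu hsq rfl (A × Cg χ τ) hA
  refine ⟨⟨χ, τ, k, κ, μ, e⟩, rfl, ?_⟩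
  exact
    { reg := hχ
      le := hχτ
      sz := hAτ
      pow := hpow
      sq := hsq
      mu := hμ
      br := he }

/-- The sequence of blocks. -/
theorem exists_blocks (H : ∀ c : Cardinal.{0}, ∃ κ > c, Isu κ) :
    ∃ b : ℕ → Bk, (b 0).χ = ℵ₀ ∧ (∀ n, (b (n + 1)).χ = Order.succ (b n).lam) ∧
      ∀ n, (b n).Ok (∀ m : Iio n, BP (b m.1)) := by
  classical
  have step : ∀ (n : ℕ) (c : (m : ℕ) → m < n → Bk), ∃ b : Bk,
      (n = 0 → b.χ = ℵ₀) ∧ (∀ m (hm : m + 1 = n),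
        b.χ = Order.succ (max ℵ₀ (c m (by omega)).lam)) ∧
      b.Ok (∀ m : Iio n, BP (c m.1 m.2)) := by
    intro n c
    rcases n with _ | n
    · obtain ⟨b, hb1, hb2⟩ := exists_block H isRegular_aleph0
        (∀ m : Iio 0, BP (c m.1 m.2))
      exact ⟨b, fun _ => hb1, fun m hm => absurd hm (by omega), hb2⟩
    · obtain ⟨b, hb1, hb2⟩ := exists_block H
        (isRegular_succ (le_max_left ℵ₀ (c n (Nat.lt_succ_self n)).lam))
        (∀ m : Iio (n + 1), BP (c m.1 m.2))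
      refine ⟨b, fun h => absurd h (by omega), fun m hm => ?_, hb2⟩
      obtain rfl : m = n := by omega
      exact hb1
  let G : (n : ℕ) → ((m : ℕ) → m < n → Bk) → Bk := fun n c => (step n c).choose
  have hG : ∀ n c, (n = 0 → (G n c).χ = ℵ₀) ∧ (∀ m (hm : m + 1 = n),
        (G n c).χ = Order.succ (max ℵ₀ (c m (by omega)).lam)) ∧
      (G n c).Ok (∀ m : Iio n, BP (c m.1 m.2)) := fun n c => (step n c).choose_spec
  let b : ℕ → Bk := (wellFounded_lt (α := ℕ)).fix G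
  have hb : ∀ n, b n = G n fun m _ => b m := fun n => (wellFounded_lt (α := ℕ)).fix_eq G n
  have hOk : ∀ n, (b n).Ok (∀ m : Iio n, BP (b m.1)) := by
    intro n
    have h1 := (hG n fun m _ => b m).2.2
    rw [← hb n] at h1
    exact h1
  refine ⟨b, ?_, fun n => ?_, hOk⟩
  · have h1 := (hG 0 fun m _ => b m).1 rfl
    rw [← hb 0] at h1
    exact h1
  · have h1 := (hG (n + 1) fun m _ => b m).2.1 n rfl
    rw [← hb (n + 1)] at h1
    rw [h1, max_eq_right]
    exact (hOk n).sq.aleph0_le_lam rfl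

/-- The splitting of the forcing at the block `n`. -/
theorem exists_spl (b : ℕ → Bk) (n : ℕ) :
    ∃ s : (∀ m, BP (b m)) ≃o
        Lk ((∀ m : Iio n, BP (b m.1)) × Cg (b n).χ (b n).τ) (Order.succ (b n).τ) (b n).k (b n).μ ×
          (EE (b n).k (b n).κ × ∀ m : Ioi n, BP (b m.1)),
      ∀ q, (s q).2.1 = (q n).2.2.2 ∧ (s q).1.1.1.2 = (q n).1 := by
  classical
  let f : (∀ m, BP (b m)) →
      Lk ((∀ m : Iio n, BP (b m.1)) × Cg (b n).χ (b n).τ) (Order.succ (b n).τ) (b n).k (b n).μ ×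
          (EE (b n).k (b n).κ × ∀ m : Ioi n, BP (b m.1)) := fun q =>
    (((((fun m : Iio n => q m.1), (q n).1), (q n).2.1), (q n).2.2.1),
      ((q n).2.2.2, fun m : Ioi n => q m.1))
  have hinj : Function.Injective f := by
    intro q q' h
    have h1 : (f q).1.1.1.1 = (f q').1.1.1.1 := by rw [h]
    have h2 : (f q).1.1.1.2 = (f q').1.1.1.2 := by rw [h]
    have h3 : (f q).1.1.2 = (f q').1.1.2 := by rw [h]
    have h4 : (f q).1.2 = (f q').1.2 := by rw [h]
    have h5 : (f q).2.1 = (f q').2.1 := by rw [h]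
    have h6 : (f q).2.2 = (f q').2.2 := by rw [h]
    funext m
    rcases lt_trichotomy m n with hm | hm | hm
    · exact congrFun h1 ⟨m, hm⟩
    · subst hm
      exact Prod.ext h2 (Prod.ext h3 (Prod.ext h4 h5))
    · exact congrFun h6 ⟨m, hm⟩
  have hsur : Function.Surjective f := by
    rintro ⟨⟨⟨⟨g, a⟩, a'⟩, a''⟩, ⟨e, h⟩⟩
    let q : ∀ m, BP (b m) := fun m =>
      if h1 : m < n then g ⟨m, h1⟩ else if h2 : n < m then h ⟨m, h2⟩ else
        (show n = m by omega) ▸ (a, a', a'', e)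
    have hq1 : ∀ m : Iio n, q m.1 = g m := fun m => dif_pos m.2
    have hq2 : ∀ m : Ioi n, q m.1 = h m := fun m => by
      have hm : n < m.1 := m.2
      show (if h1 : m.1 < n then g ⟨m.1, h1⟩ else if h2 : n < m.1 then h ⟨m.1, h2⟩ else
        (show n = m.1 by omega) ▸ (a, a', a'', e)) = h m
      rw [dif_neg (by omega), dif_pos hm]
    have hq3 : q n = (a, a', a'', e) := by
      show (if h1 : n < n then g ⟨n, h1⟩ else if h2 : n < n then h ⟨n, h2⟩ else
        (show n = n by omega) ▸ (a, a', a'', e)) = (a, a', a'', e)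
      rw [dif_neg (lt_irrefl n), dif_neg (lt_irrefl n)]
    refine ⟨q, ?_⟩
    have e1 : (fun m : Iio n => q m.1) = g := funext hq1
    have e2 : (fun m : Ioi n => q m.1) = h := funext hq2
    show (((((fun m : Iio n => q m.1), (q n).1), (q n).2.1), (q n).2.2.1),
      ((q n).2.2.2, fun m : Ioi n => q m.1)) = _
    rw [e1, e2, hq3]
  refine ⟨⟨Equiv.ofBijective f ⟨hinj, hsur⟩, ?_⟩, fun q => ⟨rfl, rfl⟩⟩
  intro q q'
  constructor
  · intro h
    have h' : f q ≤ f q' := h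
    intro m
    rcases lt_trichotomy m n with hm | hm | hm
    · exact h'.1.1.1.1 ⟨m, hm⟩
    · subst hm
      exact ⟨h'.1.1.1.2, h'.1.1.2, h'.1.2, h'.2.1⟩
    · exact h'.2.2 ⟨m, hm⟩
  · intro h
    show f q ≤ f q'
    exact ⟨⟨⟨⟨fun m => h m.1, (h n).1⟩, (h n).2.1⟩, (h n).2.2.1⟩,
      ⟨(h n).2.2.2, fun m => h m.1⟩⟩

/-- the later blocks are closed -/
theorem dc_later {b : ℕ → Bk} (h1 : ∀ n, (b (n + 1)).χ = Order.succ (b n).lam)
    (h : ∀ n, (b n).Ok (∀ m : Iio n, BP (b m.1))) (n : ℕ) :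
    DC (b n).lam (∀ m : Ioi n, BP (b m.1)) := by
  have hτ : ∀ m, (b m).χ ≤ (b m).τ := fun m => (h m).le
  have hk : ∀ m, (b m).τ < (b m).k := fun m =>
    (Order.lt_succ _).trans (h m).sq.lt
  have hkl : ∀ m, (b m).k < (b m).lam := fun m => (h m).sq.k_lt_lam rfl
  have hmono : Monotone fun m => (b m).lam := by
    refine monotone_nat_of_le_succ fun m => ?_
    have h2 : (b m).lam < (b (m + 1)).χ := by
      rw [h1 m]
      exact Order.lt_succ _
    exact (h2.le.trans ((hτ _).trans ((hk _).le.trans (hkl _).le)))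
  refine DC.pi fun m => ?_
  have hm : n < m.1 := m.2
  generalize m.1 = j at hm
  obtain ⟨i, rfl⟩ : ∃ i, j = i + 1 := ⟨j - 1, by omega⟩
  have h3 : (b n).lam < (b (i + 1)).χ := by
    rw [h1 i]
    exact lt_of_le_of_lt (hmono (show n ≤ i by omega)) (Order.lt_succ _)
  have h4 : (b n).lam ≤ (b (i + 1)).τ := h3.le.trans (hτ _)
  have h5 : ℵ₀ ≤ (b (i + 1)).τ := (h (i + 1)).reg.aleph0_le.trans (hτ _)
  have h6 : (b n).lam < Order.succ (b (i + 1)).τ := h4.trans_lt (Order.lt_succ _)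
  refine DC.prod (dc_pf (h (i + 1)).reg h3) (DC.prod (dc_pf (isRegular_succ h5) h6)
    (DC.prod ((dc_lv (h (i + 1)).mu.inf).mono (h6.le.trans (h (i + 1)).mu.ge'))
      ((h (i + 1)).sq.dc_EE.mono (h4.trans (hk _).le))))

end Pool.Agent.H638.ST
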