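import Mathlib
import Pool.Agent.H638.ST.RegDef
import Pool.Agent.H638.ST.Pf

set_option autoImplicit false
set_option linter.unusedSectionVars false
set_option linter.unusedVariables false

namespace Pool.Agent.H638.ST

open Set Cardinal Pool.Agent.Helper669.Forcing

section

variable {P Q : Type} [Preorder P] [Preorder Q]

/-! ### Helper lemmas -/

theorem reg1_cardIn_of {c : Ordinal.{0}} (hc : Ordinal.omega0 ≤ c) {p : P}
    (h : ∀ b < c, ∀ f : b.ToType → c.ToType → Set P, ∀ r ≤ p, r ∈ IsFun f → r ∈ IsOnto f →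
      False) : p ∈ IsCardIn P c := by
  refine ⟨hc, fun b hb q hq hf => ?_⟩
  obtain ⟨r, hr, f, h1, h2⟩ := mem_fex.1 hf q le_rfl
  exact h b hb f r (hr.trans hq) h1 h2

theorem reg1_not_cardIn {c b : Ordinal.{0}} (hb : b < c) {p : P}
    (f : b.ToType → c.ToType → Set P) (h1 : p ∈ IsFun f) (h2 : p ∈ IsOnto f) :
    p ∈ fnot (IsCardIn P c) := by
  intro q hq h
  refine h.2 b hb q le_rfl (mem_fex_of_mem f (down_fand (down_IsFun _) (down_IsOnto _)) ?_)
  exact ⟨down_IsFun _ _ h1 _ hq, down_IsOnto _ _ h2 _ hq⟩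

theorem reg1_fimp {φ : Set P} {h : Prop} {p q : P} (hp : p ∈ fimp φ (fground h)) (hq : q ≤ p)
    (h1 : q ∈ φ) : h := by
  obtain ⟨r, _, hr⟩ := mem_fimp.1 hp q hq h1
  exact hr

theorem reg1_onto {X Y : Type} {f : X → Y → Set P} {p : P} (h : p ∈ IsOnto f) (y : Y) {q : P}
    (hq : q ≤ p) : ∃ r ≤ q, ∃ x, r ∈ meets (f x y) := mem_fex.1 (h y) q hq

theorem reg1_total {X Y : Type} {f : X → Y → Set P} {p : P} (h : p ∈ IsFun f) (x : X) {q : P}
    (hq : q ≤ p) : ∃ r ≤ q, ∃ y, r ∈ meets (f x y) := mem_fex.1 (h.1 x) q hq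

theorem reg1_unique {X Y : Type} {f : X → Y → Set P} {p : P} (h : p ∈ IsFun f) {q : P}
    (hq : q ≤ p) {x : X} {y y' : Y} (h1 : q ∈ meets (f x y)) (h2 : q ∈ meets (f x y')) :
    y = y' := IsFun.unique (down_IsFun _ _ h _ hq) h1 h2

/-- composition with a map of the ground model -/
def reg1Comp {X Y Z : Type} (f : X → Y → Set P) (ρ : Y → Z) (x : X) (z : Z) : Set P :=
  {q | ∃ y, q ∈ meets (f x y) ∧ ρ y = z}

theorem reg1_comp_elim {X Y Z : Type} {f : X → Y → Set P} {ρ : Y → Z} {x : X} {z : Z} {q : P}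
    (h : q ∈ meets (reg1Comp f ρ x z)) : ∃ r ≤ q, ∃ y, r ∈ meets (f x y) ∧ ρ y = z := by
  obtain ⟨r, hr, s, ⟨y, hy, hz⟩, hrs⟩ := h q le_rfl
  exact ⟨r, hr, y, meets_dn hy hrs, hz⟩

theorem reg1_comp_isFun {X Y Z : Type} {f : X → Y → Set P} (ρ : Y → Z) {p : P}
    (h : p ∈ IsFun f) : p ∈ IsFun (reg1Comp f ρ) := by
  refine ⟨fun x => mem_fex.2 fun q hq => ?_, fun x z z' => mem_fimp.2 fun q hq hz => ?_⟩
  · obtain ⟨r, hr, y, hy⟩ := reg1_total h x hq
    exact ⟨r, hr, ρ y, meets_of_mem ⟨y, hy, rfl⟩⟩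
  · obtain ⟨r, hr, y, hy, hyz⟩ := reg1_comp_elim hz.1
    obtain ⟨r', hr', y', hy', hyz'⟩ := reg1_comp_elim (meets_dn hz.2 hr)
    refine ⟨r', hr'.trans hr, ?_⟩
    have h1 := reg1_unique h (hr'.trans (hr.trans hq)) (meets_dn hy hr') hy'
    change z = z'
    rw [← hyz, ← hyz', h1]

theorem reg1_comp_isOnto {X Y Z : Type} {f : X → Y → Set P} {ρ : Y → Z}
    (hρ : Function.Surjective ρ) {p : P} (h : p ∈ IsOnto f) : p ∈ IsOnto (reg1Comp f ρ) := by
  intro z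
  obtain ⟨y, rfl⟩ := hρ z
  refine mem_fex.2 fun q hq => ?_
  obtain ⟨r, hr, x, hx⟩ := reg1_onto h y hq
  exact ⟨r, hr, x, meets_of_mem ⟨y, hx, rfl⟩⟩

/-- families of at most `ν` elements of the successor of `ν` are bounded -/
theorem reg1_bd {ν : Cardinal.{0}} (h0 : ℵ₀ ≤ ν) {J : Type} (hJ : #J ≤ ν)
    (g : J → (Order.succ ν).ord.ToType) : ∃ d, ∀ j, g j ≤ d := by
  have hlt : (⨆ j, ((g j).toOrd : Ordinal.{0})) < (Order.succ ν).ord := by
    refine Ordinal.iSup_lt_of_lt_cof ?_ fun j => (g j).toOrd.2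
    rw [(isRegular_succ h0).cof_ord]
    exact hJ.trans_lt (Order.lt_succ ν)
  refine ⟨Ordinal.ToType.mk ⟨_, hlt⟩, fun j => ?_⟩
  rw [← Ordinal.ToType.mk.symm.le_iff_le, OrderIso.symm_apply_apply]
  exact Ordinal.le_iSup (fun j => ((g j).toOrd : Ordinal.{0})) j

/-- from bounds to regularity -/
theorem reg1_of_bound {ν : Cardinal.{0}} (h0 : ℵ₀ ≤ ν) {q : P}
    (h : ∀ b < (Order.succ ν).ord, ∀ f : b.ToType → (Order.succ ν).ord.ToType → Set P,
      ∀ r ≤ q, r ∈ IsFun f → ∃ r' ≤ r, ∃ d, ∀ i v, r' ∈ fimp (meets (f i v)) (fground (v ≤ d))) :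
    q ∈ IsRegIn P (Order.succ ν).ord := by
  have h1 : ℵ₀ ≤ Order.succ ν := h0.trans (Order.le_succ ν)
  refine ⟨reg1_cardIn_of (omega0_le_ord.2 h1) fun b hb f r hr hf ho => ?_, fun b hb f => ?_⟩
  · obtain ⟨r', hr', d, hd⟩ := h b hb f r hr hf
    have := noMaxOrder h1
    obtain ⟨d', hd'⟩ := exists_gt d
    obtain ⟨r'', hr'', i, hi⟩ := reg1_onto ho d' hr'
    exact absurd (reg1_fimp (hd i d') hr'' hi) (not_le.2 hd')
  · refine mem_fimp.2 fun r hr hf => ?_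
    obtain ⟨r', hr', d, hd⟩ := h b hb f r hr hf
    exact ⟨r', hr', mem_fex_of_mem d (down_fall fun i => down_fall fun v => down_fimp _ _)
      fun i v => hd i v⟩

theorem reg1_nonempty {ν : Cardinal.{0}} : Nonempty (Order.succ ν).ord.ToType :=
  nonempty_ord_toType (Order.succ_ne_bot ν)

theorem reg1_mk_le {ν : Cardinal.{0}} {b : Ordinal.{0}} (hb : b < (Order.succ ν).ord) :
    #b.ToType ≤ ν := by
  rw [mk_toType]
  exact Order.lt_succ_iff.1 (lt_ord.1 hb)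

/-- `ω` is a cardinal in all extensions -/
theorem cardIn_omega (p : P) : p ∈ IsCardIn P Ordinal.omega0 := by
  classical
  refine reg1_cardIn_of le_rfl fun b hb f r hr hf ho => ?_
  have hfin : Finite b.ToType := by
    rw [← lt_aleph0_iff_finite, mk_toType]
    rw [← ord_aleph0, lt_ord] at hb
    exact hb
  have hinf : Infinite Ordinal.omega0.ToType := by
    rw [← aleph0_le_mk_iff, mk_toType, Ordinal.card_omega0]
  have := Fintype.ofFinite b.ToType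
  have key : ∀ s : Finset b.ToType, ∃ r' ≤ r, ∀ i ∈ s, ∃ v, r' ∈ meets (f i v) := by
    intro s
    induction s using Finset.induction_on with
    | empty => exact ⟨r, le_rfl, fun i hi => absurd hi (Finset.notMem_empty i)⟩
    | insert a s ha ih =>
      obtain ⟨r', hr', h1⟩ := ih
      obtain ⟨r'', hr'', v, hv⟩ := reg1_total hf a hr'
      refine ⟨r'', hr''.trans hr', fun i hi => ?_⟩
      rcases Finset.mem_insert.1 hi with rfl | hi
      · exact ⟨v, hv⟩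
      · obtain ⟨w, hw⟩ := h1 i hi
        exact ⟨w, meets_dn hw hr''⟩
  obtain ⟨r', hr', h1⟩ := key Finset.univ
  choose F hF using fun i => h1 i (Finset.mem_univ i)
  obtain ⟨v, hv⟩ := (Set.finite_range F).exists_notMem
  obtain ⟨r'', hr'', i, hi⟩ := reg1_onto ho v hr'
  exact hv ⟨i, reg1_unique hf (hr''.trans hr') (meets_dn (hF i) hr'') hi⟩

/-- small forcing times closed forcing -/
theorem regIn_small {ν : Cardinal.{0}} (h0 : ℵ₀ ≤ ν) {F H : Type} [Preorder F] [Preorder H]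
    (hF : #F ≤ ν) (hH : DC ν H) (q : F × H) : q ∈ IsRegIn (F × H) (Order.succ ν).ord := by
  classical
  refine reg1_of_bound h0 fun b hb f r hr hf => ?_
  obtain ⟨d0⟩ := reg1_nonempty (ν := ν)
  have hJ : #(b.ToType × F) ≤ ν := by
    rw [mk_prod, lift_id, lift_id]
    exact mul_le_of_le h0 (reg1_mk_le hb) hF
  obtain ⟨i1, i2⟩ := exists_wo (b.ToType × F)
  obtain ⟨M, hM1, hM2, hM3⟩ := exists_chain (J := b.ToType × F) h0 hH
    (fun j => (mk_set_le _).trans hJ) r.2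
    (fun j m m' => ∀ a' ≤ j.2, ∀ h' ≤ m', ∀ v, (a', h') ∈ meets (f j.1 v) →
      ∃ a'' ≤ j.2, ∃ v', (a'', m') ∈ meets (f j.1 v')) (by
    intro j m hm
    by_cases h : ∃ a' ≤ j.2, ∃ h' ≤ m, ∃ v, (a', h') ∈ meets (f j.1 v)
    · obtain ⟨a', ha', h', hh', v, hv⟩ := h
      exact ⟨h', hh', fun _ _ _ _ _ _ => ⟨a', ha', v, hv⟩⟩
    · exact ⟨m, le_rfl, fun a' ha' h' hh' v hv => absurd ⟨a', ha', h', hh', v, hv⟩ h⟩)
  by_cases hne : Nonempty (b.ToType × F)
  swap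
  · exact ⟨r, le_rfl, d0, fun i => absurd ⟨(i, r.1)⟩ hne⟩
  obtain ⟨hs, hhs⟩ := hH.lb hJ M hM2
  have hg : ∀ j : b.ToType × F, ∃ w, (∃ a'' ≤ j.2, ∃ v', (a'', M j) ∈ meets (f j.1 v')) →
      ∃ a'' ≤ j.2, (a'', M j) ∈ meets (f j.1 w) := by
    intro j
    by_cases h : ∃ a'' ≤ j.2, ∃ v', (a'', M j) ∈ meets (f j.1 v')
    · obtain ⟨a'', h1, v', h2⟩ := h
      exact ⟨v', fun _ => ⟨a'', h1, h2⟩⟩
    · exact ⟨d0, fun h' => absurd h' h⟩
  choose g hg using hg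
  obtain ⟨d, hd⟩ := reg1_bd h0 hJ g
  obtain ⟨j0⟩ := hne
  have hle : (r.1, hs) ≤ r := ⟨le_rfl, (hhs j0).trans (hM1 j0)⟩
  refine ⟨(r.1, hs), hle, d, fun i v => mem_fimp.2 fun s hsle hv => ⟨s, le_rfl, ?_⟩⟩
  change v ≤ d
  obtain ⟨m, _, _, _, h4⟩ := hM3 (i, s.1)
  have h5 : s.2 ≤ M (i, s.1) := hsle.2.trans (hhs _)
  obtain ⟨a'', ha'', h6⟩ := hg (i, s.1) (h4 s.1 le_rfl s.2 h5 v hv)
  have h7 : (a'', s.2) ≤ s := ⟨ha'', le_rfl⟩
  have h8 : (a'', s.2) ≤ (a'', M (i, s.1)) := ⟨le_rfl, h5⟩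
  have h9 : v = g (i, s.1) :=
    reg1_unique hf (h7.trans (hsle.trans hle)) (meets_dn hv h7) (meets_dn h6 h8)
  rw [h9]
  exact hd _

/-- the successor of `lam`, by covering -/
theorem regIn_cov {lam : Cardinal.{0}} (h0 : ℵ₀ ≤ lam) (h : Cov lam P) (p : P) :
    p ∈ IsRegIn P (Order.succ lam).ord := by
  refine reg1_of_bound h0 fun b hb f r hr hf => ?_
  obtain ⟨d0⟩ := reg1_nonempty (ν := lam)
  by_cases hne : Nonempty b.ToType
  swap
  · exact ⟨r, le_rfl, d0, fun i => absurd ⟨i⟩ hne⟩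
  obtain ⟨s, hs⟩ : ∃ s : Ll lam → b.ToType, Function.Surjective s := by
    have h1 : #b.ToType ≤ #(Ll lam) := by
      rw [mk_ord_toType]
      exact reg1_mk_le hb
    obtain ⟨e⟩ := h1
    exact ⟨Function.invFun e, Function.invFun_surjective e.injective⟩
  obtain ⟨q', hq', x, hx, h1⟩ := h _ (fun ξ z => f (s ξ) z) r
    ⟨fun ξ => hf.1 (s ξ), fun ξ => hf.2 (s ξ)⟩
  obtain ⟨d, hd⟩ := reg1_bd h0 hx (fun z : x => z.1)
  refine ⟨q', hq', d, fun i v => mem_fimp.2 fun t ht hv => ⟨t, le_rfl, ?_⟩⟩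
  obtain ⟨ξ, rfl⟩ := hs i
  exact hd ⟨v, reg1_fimp (h1 ξ v) ht hv⟩

/-- limits of cardinals -/
theorem cardIn_limit (c : Ordinal.{0}) (hc : Ordinal.omega0 ≤ c) (p : P)
    (h : ∀ b < c, ∃ d < c, b < d ∧ p ∈ IsCardIn P d) : p ∈ IsCardIn P c := by
  refine reg1_cardIn_of hc fun b hb f r hr hf ho => ?_
  obtain ⟨d, hdc, hbd, hd⟩ := h b hb
  have hne : Nonempty d.ToType := Ordinal.nonempty_toType_iff.2 (bot_le.trans_lt hbd).ne'
  obtain ⟨ρ, hρ⟩ : ∃ ρ : c.ToType → d.ToType, Function.Surjective ρ := by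
    have h1 : #d.ToType ≤ #c.ToType := by
      rw [mk_toType, mk_toType]
      exact Ordinal.card_le_card hdc.le
    obtain ⟨e⟩ := h1
    exact ⟨Function.invFun e, Function.invFun_surjective e.injective⟩
  refine hd.2 b hbd r hr (mem_fex_of_mem (reg1Comp f ρ)
    (down_fand (down_IsFun _) (down_IsOnto _)) ⟨reg1_comp_isFun ρ hf, reg1_comp_isOnto hρ ho⟩)

/-- ordinals which are no cardinals of the ground model -/
theorem not_cardIn_ground (c : Ordinal.{0}) (hc : c.card.ord ≠ c) (p : P) :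
    p ∈ fnot (IsCardIn P c) := by
  have hb : c.card.ord < c := lt_of_le_of_ne (ord_card_le c) hc
  have e : Nonempty (c.card.ord.ToType ≃ c.ToType) := by
    rw [← Cardinal.eq, mk_ord_toType, mk_toType]
  obtain ⟨F⟩ := e
  refine reg1_not_cardIn hb (fun i v => fground (F i = v)) ⟨fun i => ?_, fun i v w => ?_⟩
    fun v => ?_
  · exact mem_fex_of_mem (F i) (down_meets _) (mem_meets_fground.2 rfl)
  · refine mem_fimp.2 fun q hq h => ⟨q, le_rfl, ?_⟩
    change v = w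
    rw [← mem_meets_fground.1 h.1, ← mem_meets_fground.1 h.2]
  · exact mem_fex_of_mem (F.symm v) (down_meets _) (mem_meets_fground.2 (F.apply_symm_apply v))

theorem not_cardIn_of_lt_omega (c : Ordinal.{0}) (hc : c < Ordinal.omega0) (p : P) :
    p ∈ fnot (IsCardIn P c) := fun q hq h => absurd h.1 (not_le.2 hc)

/-- The generic function of a forcing with small partial functions. -/
theorem reg1_generic {X Y Z ι : Type} {B : X → Set Y} {σ : Cardinal.{0}} (hσ : ℵ₀ ≤ σ)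
    {g : Q → Pf X Y B σ} (hg : Pj g) (e : ι → X) (he : Function.Injective e) (hι : σ ≤ #ι)
    (t : Y → Z) [Nonempty Z] (ht : ∀ i z, ∃ y ∈ B (e i), t y = z) (q : Q) :
    q ∈ IsFun (fun (i : ι) (z : Z) => {q : Q | ∃ y, (g q).f (e i) = some y ∧ t y = z}) ∧
    q ∈ IsOnto (fun (i : ι) (z : Z) => {q : Q | ∃ y, (g q).f (e i) = some y ∧ t y = z}) := by
  have ext : ∀ (q : Q) (i : ι) (z : Z), (g q).f (e i) = none →
      ∃ q' ≤ q, ∃ y, (g q').f (e i) = some y ∧ t y = z := by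
    intro q i z hi
    obtain ⟨y, hy, hz⟩ := ht i z
    obtain ⟨p', hp', h1⟩ := exists_ext_at hσ (g q) (e i) y hi hy
    obtain ⟨q', hq', h2⟩ := hg.lift q p' hp'
    exact ⟨q', hq', y, h2 _ _ h1, hz⟩
  have hel : ∀ (q : Q) (i : ι) (z : Z),
      q ∈ meets {q : Q | ∃ y, (g q).f (e i) = some y ∧ t y = z} →
      ∃ r ≤ q, ∃ y, (g r).f (e i) = some y ∧ t y = z := by
    intro q i z h
    obtain ⟨r, hr, s, ⟨y, h1, h2⟩, hrs⟩ := h q le_rfl
    exact ⟨r, hr, y, hg.mono _ _ hrs _ _ h1, h2⟩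
  refine ⟨⟨fun i => mem_fex.2 fun q' hq' => ?_, fun i z z' => mem_fimp.2 fun q' hq' hz => ?_⟩,
    fun z => mem_fex.2 fun q' hq' => ?_⟩
  · cases h : (g q').f (e i) with
    | none =>
      obtain ⟨z⟩ := ‹Nonempty Z›
      obtain ⟨r, hr, y, h1, h2⟩ := ext q' i z h
      exact ⟨r, hr, z, meets_of_mem ⟨y, h1, h2⟩⟩
    | some y => exact ⟨q', le_rfl, t y, meets_of_mem ⟨y, h, rfl⟩⟩
  · obtain ⟨r, hr, y, h1, h2⟩ := hel q' i z hz.1
    obtain ⟨r', hr', y', h1', h2'⟩ := hel r i z' (meets_dn hz.2 hr)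
    refine ⟨r', hr'.trans hr, ?_⟩
    have h3 := hg.mono _ _ hr' _ _ h1
    rw [h1'] at h3
    change z = z'
    rw [← h2, ← h2', Option.some.inj h3]
  · have hex : ∃ i, (g q').f (e i) = none := by
      by_contra hcon
      push Not at hcon
      have h1 : #ι ≤ #{x : X // (g q').f x ≠ none} :=
        mk_le_of_injective (f := fun i => (⟨e i, hcon i⟩ : {x : X // (g q').f x ≠ none}))
          fun i j hij => he (congrArg Subtype.val hij)
      exact absurd (hι.trans h1) (not_le.2 (g q').small)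
    obtain ⟨i, hi⟩ := hex
    obtain ⟨r, hr, y, h1, h2⟩ := ext q' i z hi
    exact ⟨r, hr, i, meets_of_mem ⟨y, h1, h2⟩⟩

/-- the Levy collapse of the ordinals below `κ` to `σ` -/
theorem not_cardIn_levy {σ κ : Cardinal.{0}} (hσ : ℵ₀ ≤ σ) (g : Q → Lv σ κ) (hg : Pj g)
    (c : Ordinal.{0}) (h1 : σ.ord < c) (h2 : c < κ.ord) (q : Q) :
    q ∈ fnot (IsCardIn Q c) := by
  classical
  have hne : Nonempty c.ToType := Ordinal.nonempty_toType_iff.2 (bot_le.trans_lt h1).ne'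
  let a : κ.ord.ToType := Ordinal.ToType.mk ⟨c, h2⟩
  have e : Nonempty (c.ToType ≃ Iio a) := by
    refine ⟨⟨fun v => ⟨Ordinal.ToType.mk ⟨(v.toOrd : Ordinal.{0}),
      lt_trans (mem_Iio.1 v.toOrd.2) h2⟩, ?_⟩,
      fun y => Ordinal.ToType.mk ⟨(y.1.toOrd : Ordinal.{0}), ?_⟩, fun v => ?_, fun y => ?_⟩⟩
    · change _ < Ordinal.ToType.mk _
      rw [OrderIso.lt_iff_lt]
      exact v.toOrd.2
    · have h3 : y.1 < Ordinal.ToType.mk ⟨c, h2⟩ := y.2
      rw [← Ordinal.ToType.mk.symm.lt_iff_lt, OrderIso.symm_apply_apply] at h3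
      exact h3
    · simp
    · apply Subtype.ext
      simp
  obtain ⟨e⟩ := e
  let z0 : c.ToType := hne.some
  have h3 := reg1_generic (ι := σ.ord.ToType) hσ hg (fun i => (a, i))
    (fun i j hij => congrArg Prod.snd hij) (by rw [mk_ord_toType])
    (fun y => if h : y ∈ Iio a then e.symm ⟨y, h⟩ else z0) (fun i z => ?_) q
  · exact reg1_not_cardIn h1 _ h3.1 h3.2
  · refine ⟨(e z).1, (e z).2, ?_⟩
    rw [dif_pos (e z).2]
    simp

/-- the collapse of `μ` to `γ` -/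
theorem not_cardIn_cg {γ μ : Cardinal.{0}} (hγ : ℵ₀ ≤ γ) (g : Q → Cg γ μ) (hg : Pj g)
    (c : Ordinal.{0}) (h1 : γ.ord < c) (h2 : c < (Order.succ μ).ord) (q : Q) :
    q ∈ fnot (IsCardIn Q c) := by
  have hne : Nonempty c.ToType := Ordinal.nonempty_toType_iff.2 (bot_le.trans_lt h1).ne'
  obtain ⟨s, hs⟩ : ∃ s : μ.ord.ToType → c.ToType, Function.Surjective s := by
    have h1 : #c.ToType ≤ #μ.ord.ToType := by
      rw [mk_ord_toType]
      exact reg1_mk_le h2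
    obtain ⟨e⟩ := h1
    exact ⟨Function.invFun e, Function.invFun_surjective e.injective⟩
  have h3 := reg1_generic (ι := γ.ord.ToType) hγ hg id Function.injective_id
    (by rw [mk_ord_toType]) s (fun i z => ?_) q
  · exact reg1_not_cardIn h1 _ h3.1 h3.2
  · obtain ⟨y, hy⟩ := hs z
    exact ⟨y, mem_univ y, hy⟩

end

end Pool.Agent.H638.ST
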