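import Mathlib
import Pool.Agent.H638.ST.RegDef
import Pool.Agent.H638.ST.Uf

set_option autoImplicit false
set_option linter.unusedSectionVars false
set_option linter.unusedVariables false
set_option linter.deprecated false

namespace Pool.Agent.H638.ST

open Set Cardinal Pool.Agent.Helper669.Forcing

section

/-- small subsets of a regular cardinal are bounded -/
theorem reg2_bound {κ : Cardinal.{0}} (hκ : κ.IsRegular) (s : Set κ.ord.ToType) (hs : #s < κ) :
    ∃ b : κ.ord.ToType, ∀ a ∈ s, a < b := by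
  have hcof : #s < Order.cof κ.ord.ToType := by
    have h1 : Order.cof κ.ord.ToType = κ.ord.cof := Ordinal.cof_toType _
    rw [h1, hκ.cof_ord]
    exact hs
  by_contra hcon
  push Not at hcon
  exact absurd (Order.cof_le (s := s) hcon) (not_le.2 hcof)

/-- A `κ`-complete ultrafilter on `κ` which contains the final segments. -/
theorem reg2_uf {κ : Cardinal.{0}} (hκ : Isu κ) : ∃ U : Set (Set κ.ord.ToType),
    (∀ A B : Set κ.ord.ToType, A ∈ U → A ⊆ B → B ∈ U) ∧ (∀ A : Set κ.ord.ToType, A ∈ U ∨ Aᶜ ∈ U) ∧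
    (∅ : Set κ.ord.ToType) ∉ U ∧
    (∀ (I : Type), #I < κ → ∀ A : I → Set κ.ord.ToType, (∀ i, A i ∈ U) →
      {b | ∀ i, b ∈ A i} ∈ U) ∧
    ∀ a, Ioi a ∈ U := by
  have hreg : κ.IsRegular := hκ.1.isRegular
  have hdcl : DCL κ PUnit.{1} := fun ι D _ _ _ => ⟨PUnit.unit, fun i => le_of_eq (Subsingleton.elim _ _)⟩
  obtain ⟨r, -, U0, hU0⟩ := mem_fex.1 (hκ.2 PUnit.{1} hdcl κ.ord.ToType PUnit.unit) PUnit.unit le_rfl
  have hr : ∀ x y : PUnit.{1}, x ≤ y := fun x y => le_of_eq (Subsingleton.elim _ _)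
  choose b hb using fun s : Pk κ κ.ord.ToType => reg2_bound hreg s.1 s.2
  obtain ⟨hu, hf, -⟩ := hU0
  have hmono : ∀ (N N' : Pk κ κ.ord.ToType → Set PUnit.{1}), r ∈ meets (U0 N) →
      (∀ s, (∃ x, x ∈ meets (N s)) → ∃ x, x ∈ meets (N' s)) → r ∈ meets (U0 N') := by
    intro N N' h1 h2
    refine ufn_mono hu le_rfl h1 fun s r' _ h' => ?_
    obtain ⟨x, hx⟩ := h2 s ⟨r', h'⟩
    exact ⟨x, hr _ _, hx⟩
  refine ⟨{A | r ∈ meets (U0 fun s => fground (b s ∈ A))}, ?_, ?_, ?_, ?_, ?_⟩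
  · intro A B hA hAB
    refine hmono _ _ hA fun s h => ?_
    obtain ⟨x, hx⟩ := h
    exact ⟨x, mem_meets_fground.2 (hAB (mem_meets_fground.1 hx))⟩
  · intro A
    obtain ⟨r', -, h | h⟩ := ufn_ultra hu le_rfl fun s => fground (b s ∈ A)
    · left
      have : r' = r := Subsingleton.elim _ _
      rw [this] at h
      exact h
    · right
      have : r' = r := Subsingleton.elim _ _
      rw [this] at h
      refine hmono _ _ h fun s h' => ?_
      obtain ⟨x, hx⟩ := h'
      obtain ⟨_, _, t, ht, _⟩ := hx x le_rfl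
      refine ⟨x, mem_meets_fground.2 fun hbA => ?_⟩
      exact ht t le_rfl (mem_meets_fground.2 hbA)
  · intro h
    obtain ⟨_, _, s, hs⟩ := ufn_ne hu le_rfl h
    exact mem_meets_fground.1 hs
  · intro I hI A hA
    have h1 := ufn_inter hu le_rfl hI (fun i s => fground (b s ∈ A i)) hA
    refine hmono _ _ h1 fun s h' => ?_
    obtain ⟨x, hx⟩ := h'
    obtain ⟨_, _, t, ht, _⟩ := hx x le_rfl
    exact ⟨x, mem_meets_fground.2 fun i => mem_meets_fground.1 (ht i)⟩
  · intro a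
    refine hmono _ _ (hf a) fun s h' => ?_
    obtain ⟨x, hx⟩ := h'
    exact ⟨x, mem_meets_fground.2 (hb s a (mem_meets_fground.1 hx))⟩

/-- the covering property -/
theorem reg2_cov {κ : Cardinal.{0}} {U : Set (Set κ.ord.ToType)}
    (h1 : ∀ A B : Set κ.ord.ToType, A ∈ U → A ⊆ B → B ∈ U)
    (h2 : ∀ A : Set κ.ord.ToType, A ∈ U ∨ Aᶜ ∈ U) (h3 : (∅ : Set κ.ord.ToType) ∉ U)
    (h4 : ∀ (I : Type), #I < κ → ∀ A : I → Set κ.ord.ToType, (∀ i, A i ∈ U) →
      {b | ∀ i, b ∈ A i} ∈ U) {I : Type} (hI : #I < κ) (g : κ.ord.ToType → I) :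
    ∃ i, {b | g b = i} ∈ U := by
  by_contra hcon
  push Not at hcon
  have h5 : ∀ i, {b | g b = i}ᶜ ∈ U := fun i => (h2 _).resolve_left (hcon i)
  refine h3 (h1 _ _ (h4 I hI _ h5) ?_)
  intro b hb
  exact hb (g b) rfl

end

section

variable {P Q : Type} [Preorder P] [Preorder Q]

/-- `κ` remains regular in the extension by the Levy collapse `Col(σ, <κ)`, together with
a forcing with less than `κ` conditions and a closed forcing. (The proof uses a `κ`-complete
ultrafilter on `κ` in place of the `Δ`-system lemma.) -/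
theorem regIn_levy {σ κ : Cardinal.{0}} (hκ : Isu κ) (hσ : ℵ₀ ≤ σ) (hσκ : σ < κ) {F H : Type}
    [Preorder F] [Preorder H] (hF : #F < κ) (hH : DC κ H) (q : F × (Lv σ κ × H)) :
    q ∈ IsRegIn (F × (Lv σ κ × H)) κ.ord := by
  classical
  have hreg : κ.IsRegular := hκ.1.isRegular
  have hκ0 : ℵ₀ ≤ κ := hreg.aleph0_le
  have hKne : Nonempty κ.ord.ToType := by
    rw [← mk_ne_zero_iff, mk_toType, card_ord]
    exact (aleph0_pos.trans_le hκ0).ne'
  obtain ⟨U, u1, u2, u3, u4, u5⟩ := reg2_uf hκ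
  have ucov : ∀ {I : Type} (hI : #I < κ) (g : κ.ord.ToType → I), ∃ i, {b | g b = i} ∈ U :=
    fun hI g => reg2_cov u1 u2 u3 u4 hI g
  have une : ∀ A ∈ U, ∃ a, a ∈ A := by
    intro A hA
    by_contra hcon
    push Not at hcon
    have : A = ∅ := Set.eq_empty_of_forall_notMem hcon
    rw [this] at hA
    exact u3 hA
  have uand : ∀ A ∈ U, ∀ B ∈ U, A ∩ B ∈ U := by
    intro A hA B hB
    have h := u4 Bool (by
      refine lt_of_lt_of_le ?_ hκ0
      exact mk_lt_aleph0) (fun i => bif i then A else B) (by rintro (_ | _) <;> assumption)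
    exact u1 _ _ h fun b hb => ⟨hb true, hb false⟩
  have main : ∀ b : Ordinal.{0}, b < κ.ord → ∀ f : b.ToType → κ.ord.ToType →
      Set (F × (Lv σ κ × H)), ∀ q', q' ∈ IsFun f → ∃ q'' ≤ q', ∃ d : κ.ord.ToType,
        ∀ i v, ∀ r ≤ q'', r ∈ meets (f i v) → v ≤ d := by
    intro b hb f q' hq'
    by_contra hcon
    push Not at hcon
    have hbc : #b.ToType < κ := by
      rw [mk_toType]
      exact lt_ord.1 hb
    obtain ⟨M, hM1, hM2, hM3⟩ := exists_chain (P := H) hκ0 hH (J := κ.ord.ToType)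
      (fun j => by
        have h := mk_Iio_toType_ord_lt j
        exact h.le) q'.2.2
      (fun β m m' => ∃ (f' : F) (c' : Lv σ κ) (i : b.ToType) (v : κ.ord.ToType),
        (f', (c', m')) ≤ q' ∧ β < v ∧ ((f', (c', m')) : F × (Lv σ κ × H)) ∈ meets (f i v))
      (fun β m hm => by
        obtain ⟨i, v, r, hr, hr2, hv⟩ := hcon (q'.1, (q'.2.1, m)) ⟨le_rfl, le_rfl, hm⟩ β
        exact ⟨r.2.2, hr.2.2, r.1, r.2.1, i, v, hr.trans ⟨le_rfl, le_rfl, hm⟩, hv, hr2⟩)
    choose m0 _ _ _ fb cb ib vb hle hlt hmt using hM3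
    obtain ⟨hs, hhs⟩ := DC.lb hH (J := κ.ord.ToType) (by rw [mk_toType, card_ord]) M hM2
    -- the first coordinates
    obtain ⟨⟨fs, is⟩, hfi⟩ := ucov (I := F × b.ToType) (by
      rw [mk_prod, lift_id, lift_id]
      exact mul_lt_of_lt hκ0 hF hbc) (fun β => (fb β, ib β))
    -- the root
    have hroot : ∀ x : κ.ord.ToType × σ.ord.ToType, ∃ w : Option κ.ord.ToType,
        {β | (cb β).f x = w} ∈ U := by
      intro x
      have hI : #(Option (Iio x.1)) < κ := by
        rw [mk_option]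
        exact add_lt_of_lt hκ0 (mk_Iio_toType_ord_lt x.1) (one_lt_aleph0.trans_le hκ0)
      obtain ⟨w, hw⟩ := ucov hI (fun β => match h : (cb β).f x with
        | none => none
        | some y => some ⟨y, (cb β).mem x y h⟩)
      refine ⟨w.map Subtype.val, u1 _ _ hw ?_⟩
      intro β hβ
      change _ = w at hβ
      change (cb β).f x = w.map Subtype.val
      rw [← hβ]
      split
      · rename_i h
        exact h
      · rename_i y h
        exact h
    choose w hw using hroot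
    have hws : #{x : κ.ord.ToType × σ.ord.ToType // w x ≠ none} < σ := by
      by_contra hge
      push Not at hge
      have hge' : #σ.out ≤ #{x : κ.ord.ToType × σ.ord.ToType // w x ≠ none} := by
        rw [mk_out]; exact hge
      obtain ⟨g⟩ := hge'
      obtain ⟨β, hβ⟩ := une _ (u4 σ.out (by rw [mk_out]; exact hσκ)
        (fun j => {β | (cb β).f (g j).1 = w (g j).1}) fun j => hw _)
      have h1 : #σ.out ≤ #{x : κ.ord.ToType × σ.ord.ToType // (cb β).f x ≠ none} := by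
        refine ⟨⟨fun j => ⟨(g j).1, ?_⟩, ?_⟩⟩
        · have h2 : (cb β).f (g j).1 = w (g j).1 := hβ j
          rw [h2]
          exact (g j).2
        · intro j j' h
          exact g.injective (Subtype.ext (congrArg (fun z => z.1) h))
      rw [mk_out] at h1
      exact absurd (cb β).small (not_lt.2 h1)
    let cs : Lv σ κ := ⟨w, hws, fun x y hxy => by
      obtain ⟨β, hβ⟩ := une _ (hw x)
      have h2 : (cb β).f x = w x := hβ
      exact (cb β).mem x y (h2.trans hxy)⟩
    have hps : ((fs, (cs, hs)) : F × (Lv σ κ × H)) ≤ q' := by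
      refine ⟨?_, ?_, (hhs (Classical.arbitrary _)).trans (hM1 _)⟩
      · obtain ⟨β, hβ⟩ := une _ hfi
        have h2 : (fb β, ib β) = (fs, is) := hβ
        have h3 : fb β = fs := congrArg Prod.fst h2
        rw [← h3]
        exact (hle β).1
      · intro x y hxy
        obtain ⟨β, hβ⟩ := une _ (hw x)
        have h2 : (cb β).f x = w x := hβ
        have h3 := (hle β).2.1 x y hxy
        exact h2.symm.trans h3
    have hfun := down_IsFun f q' hq' _ hps
    obtain ⟨p1, hp1, v, hv⟩ := IsFun.total hfun is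
    -- agreement on the domain
    have hA : {β | ∀ x : {x : κ.ord.ToType × σ.ord.ToType // p1.2.1.f x ≠ none},
        β ∈ {β | (cb β).f x.1 = w x.1}} ∈ U :=
      u4 _ (p1.2.1.small.trans hσκ) _ fun x => hw _
    obtain ⟨β, ⟨hβ1, hβ2⟩, hβ3⟩ := une _ (uand _ (uand _ hA _ hfi) _ (u5 v))
    have hβ2' : (fb β, ib β) = (fs, is) := hβ2
    have hβf : fb β = fs := congrArg Prod.fst hβ2'
    have hβi : ib β = is := congrArg Prod.snd hβ2'
    obtain ⟨r, hr1, hr2, -⟩ := exists_join hσ (cb β) p1.2.1 (by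
      intro x y z hy hz
      have h2 : (cb β).f x = w x := hβ1 ⟨x, by rw [hz]; simp⟩
      have h3 : cs.f x = some y := h2.symm.trans hy
      have h4 := hp1.2.1 x y h3
      rw [hz] at h4
      exact (Option.some.inj h4).symm)
    have hs1 : ((p1.1, (r, p1.2.2)) : F × (Lv σ κ × H)) ≤ p1 := ⟨le_rfl, hr2, le_rfl⟩
    have hs2 : ((p1.1, (r, p1.2.2)) : F × (Lv σ κ × H)) ≤ (fb β, (cb β, M β)) := by
      refine ⟨?_, hr1, hp1.2.2.trans (hhs β)⟩
      rw [hβf]
      exact hp1.1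
    have hm1 := meets_dn hv hs1
    have hm2 := meets_dn (hmt β) hs2
    rw [hβi] at hm2
    have heq := IsFun.unique (down_IsFun f _ hfun _ (hs1.trans hp1)) hm1 hm2
    have h5 : v < β := hβ3
    have h6 := h5.trans (hlt β)
    rw [← heq] at h6
    exact lt_irrefl _ h6
  refine ⟨⟨?_, ?_⟩, ?_⟩
  · show Ordinal.omega0 ≤ κ.ord
    rw [← ord_aleph0]
    exact ord_le_ord.2 hκ0
  · intro b hb q' hq' hex
    obtain ⟨r, hr, f, hf1, hf2⟩ := mem_fex.1 hex q' le_rfl
    obtain ⟨r', hr', d, hd⟩ := main b hb f r hf1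
    obtain ⟨v, hv⟩ := reg2_bound hreg {d} (by
      rw [mk_singleton]
      exact one_lt_aleph0.trans_le hκ0)
    obtain ⟨r'', hr'', i, hi⟩ := mem_fex.1 (hf2 v) r' hr'
    exact absurd (hd i v r'' hr'' hi) (not_le.2 (hv d rfl))
  · intro b hb f
    refine mem_fimp.2 fun q' hq' hf => ⟨q', le_rfl, mem_fex.2 fun q1 hq1 => ?_⟩
    obtain ⟨q2, hq2, d, hd⟩ := main b hb f q1 (down_IsFun f _ hf _ hq1)
    refine ⟨q2, hq2, d, fun i v => mem_fimp.2 fun r hr h => ⟨r, le_rfl, hd i v r hr h⟩⟩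

end

end Pool.Agent.H638.ST
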