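import Mathlib
import Pool.Agent.H638.ST.ExistsM
import Pool.Agent.H638.ST.Iso
import Pool.Agent.H638.ST.Reg1
import Pool.Agent.H638.ST.Reg2

set_option autoImplicit false
set_option linter.unusedSectionVars false
set_option linter.unusedVariables false

namespace Pool.Agent.H638.ST

open Set Cardinal Pool.Agent.Helper669.Forcing

/-! ### auxiliary order isomorphisms -/

/-- regrouping -/
def blkp_e1 (X Y Z W : Type) [Preorder X] [Preorder Y] [Preorder Z] [Preorder W] :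
    (((X × Y) × Z) × W) ≃o (X × (Y × (Z × W))) where
  toFun a := (a.1.1.1, (a.1.1.2, (a.1.2, a.2)))
  invFun a := (((a.1, a.2.1), a.2.2.1), a.2.2.2)
  left_inv _ := rfl
  right_inv _ := rfl
  map_rel_iff' := by
    rintro ⟨⟨⟨a, b⟩, c⟩, d⟩ ⟨⟨⟨a', b'⟩, c'⟩, d'⟩
    constructor
    · rintro ⟨h1, h2, h3, h4⟩
      exact ⟨⟨⟨h1, h2⟩, h3⟩, h4⟩
    · rintro ⟨⟨⟨h1, h2⟩, h3⟩, h4⟩
      exact ⟨h1, h2, h3, h4⟩

/-- regrouping -/
def blkp_e2 (X Y Z : Type) [Preorder X] [Preorder Y] [Preorder Z] :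
    ((X × Y) × Z) ≃o (X × (Y × Z)) where
  toFun a := (a.1.1, (a.1.2, a.2))
  invFun a := ((a.1, a.2.1), a.2.2)
  left_inv _ := rfl
  right_inv _ := rfl
  map_rel_iff' := by
    rintro ⟨⟨a, b⟩, c⟩ ⟨⟨a', b'⟩, c'⟩
    constructor
    · rintro ⟨h1, h2, h3⟩
      exact ⟨⟨h1, h2⟩, h3⟩
    · rintro ⟨⟨h1, h2⟩, h3⟩
      exact ⟨h1, h2, h3⟩

/-- splitting a product before an index -/
noncomputable def blkp_spl {G : Type} [LinearOrder G] (E : G → Type) [∀ j, Preorder (E j)]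
    (L P : Type) [Preorder L] [Preorder P] (i : G) :
    (L × ((∀ z, E z) × P)) ≃o
      (L × ((∀ z : Iio i, E z.1) × ((∀ z : Ici i, E z.1) × P))) where
  toFun a := (a.1, (fun z => a.2.1 z.1, (fun z => a.2.1 z.1, a.2.2)))
  invFun a := (a.1, (fun z => if h : z < i then a.2.1 ⟨z, mem_Iio.2 h⟩ else
    a.2.2.1 ⟨z, mem_Ici.2 (not_lt.1 h)⟩,
    a.2.2.2))
  left_inv := by
    rintro ⟨a, b, c⟩
    refine Prod.ext rfl (Prod.ext (funext fun z => ?_) rfl)
    dsimp only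
    split_ifs <;> rfl
  right_inv := by
    rintro ⟨a, b, c, d⟩
    refine Prod.ext rfl (Prod.ext (funext fun z => ?_) (Prod.ext (funext fun z => ?_) rfl))
    · have hz : z.1 < i := mem_Iio.1 z.2
      dsimp only
      rw [dif_pos hz]
    · have hz : i ≤ z.1 := mem_Ici.1 z.2
      dsimp only
      rw [dif_neg (not_lt.2 hz)]
  map_rel_iff' := by
    rintro ⟨a, b, c⟩ ⟨a', b', c'⟩
    constructor
    · rintro ⟨h1, h2, h3, h4⟩
      refine ⟨h1, fun z => ?_, h4⟩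
      by_cases h : z < i
      · exact h2 ⟨z, h⟩
      · exact h3 ⟨z, not_lt.1 h⟩
    · rintro ⟨h1, h2, h3⟩
      exact ⟨h1, fun z => h2 z.1, fun z => h2 z.1, h3⟩

/-- splitting off one coordinate -/
noncomputable def blkp_one {G : Type} [LinearOrder G] (E : G → Type) [∀ j, Preorder (E j)]
    (L P : Type) [Preorder L] [Preorder P] (i : G) :
    (L × ((∀ z, E z) × P)) ≃o
      ((L × (∀ z : Iio i, E z.1)) × (E i × ((∀ z : Ioi i, E z.1) × P))) where
  toFun a := ((a.1, fun z => a.2.1 z.1), (a.2.1 i, (fun z => a.2.1 z.1, a.2.2)))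
  invFun a := (a.1.1, (fun z => if h : z < i then a.1.2 ⟨z, mem_Iio.2 h⟩ else
    if h' : i < z then a.2.2.1 ⟨z, mem_Ioi.2 h'⟩ else (le_antisymm (not_lt.1 h) (not_lt.1 h')) ▸ a.2.1,
    a.2.2.2))
  left_inv := by
    rintro ⟨a, b, c⟩
    refine Prod.ext rfl (Prod.ext (funext fun z => ?_) rfl)
    dsimp only
    split_ifs with h h'
    · rfl
    · rfl
    · obtain rfl := le_antisymm (not_lt.1 h) (not_lt.1 h')
      rfl
  right_inv := by
    rintro ⟨⟨a, b⟩, c, d, e⟩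
    refine Prod.ext (Prod.ext rfl (funext fun z => ?_))
      (Prod.ext ?_ (Prod.ext (funext fun z => ?_) rfl))
    · have hz : z.1 < i := mem_Iio.1 z.2
      dsimp only
      rw [dif_pos hz]
    · dsimp only
      rw [dif_neg (lt_irrefl i), dif_neg (lt_irrefl i)]
    · have hz : i < z.1 := mem_Ioi.1 z.2
      dsimp only
      rw [dif_neg (not_lt.2 hz.le), dif_pos hz]
  map_rel_iff' := by
    rintro ⟨a, b, c⟩ ⟨a', b', c'⟩
    constructor
    · rintro ⟨⟨h1, h2⟩, h3, h4, h5⟩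
      refine ⟨h1, fun z => ?_, h5⟩
      rcases lt_trichotomy z i with h | h | h
      · exact h2 ⟨z, h⟩
      · subst h
        exact h3
      · exact h4 ⟨z, h⟩
    · rintro ⟨h1, h2, h3⟩
      exact ⟨⟨h1, fun z => h2 z.1⟩, h2 i, fun z => h2 z.1, h3⟩

/-- reindexing of sums -/
theorem blkp_sum {G : Type} [LinearOrder G] (κ : G → Cardinal.{0}) (i : G) (j : Iio i) :
    Cardinal.sum (fun z : Iio j => κ z.1.1) = Cardinal.sum (fun z : Iio j.1 => κ z.1) := by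
  let e : (Iio j) ≃ (Iio j.1) :=
    { toFun := fun z => ⟨z.1.1, z.2⟩
      invFun := fun z => ⟨⟨z.1, lt_trans z.2 j.2⟩, z.2⟩
      left_inv := fun _ => rfl
      right_inv := fun _ => rfl }
  exact mk_sigma_congr e fun _ => rfl

theorem blkp_pi {G : Type} [LinearOrder G] (E : G → Type) (L : Type) (i : G) (j : Iio i) :
    #(L × ∀ z : Iic j, E z.1.1) = #(L × ∀ z : Iic j.1, E z.1) := by
  let e : (Iic j) ≃ (Iic j.1) :=
    { toFun := fun z => ⟨z.1.1, z.2⟩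
      invFun := fun z => ⟨⟨z.1, lt_of_le_of_lt z.2 j.2⟩, z.2⟩
      left_inv := fun _ => rfl
      right_inv := fun _ => rfl }
  rw [Cardinal.mk_prod, Cardinal.mk_prod]
  congr 2
  exact mk_pi_congr e fun _ => rfl

/-! # The cardinals of one block which are preserved -/

section

variable {τ k μ lam : Cardinal.{0}} {κ : (Order.succ τ).ord.ToType → Cardinal.{0}}
  {A T : Type} [Preorder A] [Preorder T]

theorem blkp_mk_fst {γ : Cardinal.{0}} (hμ : Mu A γ k μ) : #(A × Cg γ μ) ≤ μ := by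
  rw [Cardinal.mk_prod, Cardinal.lift_id, Cardinal.lift_id]
  exact mul_le_of_le hμ.inf hμ.ge (mk_cg_le hμ.inf hμ.ge' hμ.pow)

theorem blkp_mk_lt (h : Sq (Order.succ τ) k κ) (hμ : Mu A (Order.succ τ) k μ)
    (i : (Order.succ τ).ord.ToType) :
    #(Lk A (Order.succ τ) k μ × ∀ z : Iio i, Ec k κ z.1) < κ i := by
  rw [Cardinal.mk_prod, Cardinal.lift_id, Cardinal.lift_id]
  exact mul_lt_of_lt (h.inacc i).aleph0_lt.le ((hμ.mk_Lk h.inacc_k).trans_lt (h.k_lt i))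
    (h.mk_EE_lt i)

theorem blk_cov (h : Sq (Order.succ τ) k κ) (hl : lam = ⨆ i, κ i)
    (hμ : Mu A (Order.succ τ) k μ) (hT : DC lam T) :
    Cov lam (Lk A (Order.succ τ) k μ × (EE k κ × T)) := by
  intro Z g q hq
  refine cover (κ := κ) (ν := nu k κ) (lam := lam) (fun i => (h.inacc i).aleph0_lt.le)
    h.sum_le_nu (fun j => h.inacc_k.aleph0_lt.le.trans (k_le_nu j)) (h.sum_eq hl).le
    h.dc_Ec hT (fun i => h.mk_prod_le i (hμ.mk_Lk h.inacc_k)) ?_ g q hq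
  rw [h.sum_eq hl]
  exact (mk_ord_toType lam).le

theorem blk_gamma (h : Sq (Order.succ τ) k κ) (hl : lam = ⨆ i, κ i) (h0 : ℵ₀ ≤ τ) (hA : #A ≤ τ)
    (hμ : Mu A (Order.succ τ) k μ) (hT : DC lam T)
    (q : Lk A (Order.succ τ) k μ × (EE k κ × T)) :
    q ∈ IsRegIn (Lk A (Order.succ τ) k μ × (EE k κ × T)) (Order.succ τ).ord := by
  have hτμ : τ ≤ μ := (Order.le_succ τ).trans hμ.ge'
  have hτk : τ ≤ k := (Order.le_succ τ).trans h.lt.le
  have hτl : τ ≤ lam := hτk.trans (h.k_lt_lam hl).le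
  refine (iso_regIn (blkp_e1 A (Cg (Order.succ τ) μ) (Lv (Order.succ μ) k) (EE k κ × T)) _ q).2
    (regIn_small h0 hA ?_ _)
  exact (dc_pf (isRegular_succ h0) (Order.lt_succ τ)).prod
    (((dc_lv hμ.inf).mono hτμ).prod ((h.dc_EE.mono hτk).prod (hT.mono hτl)))

theorem blk_mu (h : Sq (Order.succ τ) k κ) (hl : lam = ⨆ i, κ i)
    (hμ : Mu A (Order.succ τ) k μ) (hT : DC lam T)
    (q : Lk A (Order.succ τ) k μ × (EE k κ × T)) :
    q ∈ IsCardIn (Lk A (Order.succ τ) k μ × (EE k κ × T)) (Order.succ μ).ord := by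
  have hμk : μ ≤ k := hμ.lt.le
  have hμl : μ ≤ lam := hμk.trans (h.k_lt_lam hl).le
  refine (iso_cardIn (blkp_e2 (A × Cg (Order.succ τ) μ) (Lv (Order.succ μ) k) (EE k κ × T)) _ q).2
    (regIn_small hμ.inf (blkp_mk_fst hμ) ?_ _).1
  exact (dc_lv hμ.inf).prod ((h.dc_EE.mono hμk).prod (hT.mono hμl))

theorem blk_k (h : Sq (Order.succ τ) k κ) (hl : lam = ⨆ i, κ i)
    (hμ : Mu A (Order.succ τ) k μ) (hT : DC lam T)
    (q : Lk A (Order.succ τ) k μ × (EE k κ × T)) :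
    q ∈ IsCardIn (Lk A (Order.succ τ) k μ × (EE k κ × T)) k.ord := by
  refine (iso_cardIn (blkp_e2 (A × Cg (Order.succ τ) μ) (Lv (Order.succ μ) k) (EE k κ × T)) _ q).2
    (regIn_levy h.isuk (hμ.inf.trans (Order.le_succ μ)) (h.inacc_k.isSuccLimit.succ_lt hμ.lt)
      ((blkp_mk_fst hμ).trans_lt hμ.lt) ?_ _).1
  exact h.dc_EE.prod (hT.mono (h.k_lt_lam hl).le)

theorem blk_kappa (h : Sq (Order.succ τ) k κ) (hl : lam = ⨆ i, κ i)
    (hμ : Mu A (Order.succ τ) k μ) (hT : DC lam T) (i : (Order.succ τ).ord.ToType)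
    (q : Lk A (Order.succ τ) k μ × (EE k κ × T)) :
    q ∈ IsCardIn (Lk A (Order.succ τ) k μ × (EE k κ × T)) (κ i).ord := by
  have h0 : ℵ₀ ≤ nu k κ i := h.inacc_k.aleph0_lt.le.trans (k_le_nu i)
  refine (iso_cardIn (blkp_one (Ec k κ) (Lk A (Order.succ τ) k μ) T i) _ q).2
    (regIn_levy (h.isu i) (h0.trans (Order.le_succ _))
      ((h.inacc i).isSuccLimit.succ_lt (h.nu_lt i)) (blkp_mk_lt h hμ i) ?_ _).1
  exact (h.dc_tail i).prod (hT.mono (h.lt_lam hl i).le)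

/-- `nu k κ i` is `k`, or a `κ j`, or a limit of `κ j` -/
theorem blk_nu (h : Sq (Order.succ τ) k κ) (hl : lam = ⨆ i, κ i)
    (hμ : Mu A (Order.succ τ) k μ) (hT : DC lam T) (i : (Order.succ τ).ord.ToType)
    (q : Lk A (Order.succ τ) k μ × (EE k κ × T)) :
    q ∈ IsCardIn (Lk A (Order.succ τ) k μ × (EE k κ × T)) (nu k κ i).ord := by
  have h0 : ℵ₀ ≤ nu k κ i := h.inacc_k.aleph0_lt.le.trans (k_le_nu i)
  by_cases hi : ∃ j, j < i
  · by_cases hs : ∃ j < i, ∀ z < i, z ≤ j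
    · obtain ⟨j, hj, hz⟩ := hs
      rw [h.nu_succ hj hz]
      exact blk_kappa h hl hμ hT j q
    · push Not at hs
      refine cardIn_limit _ ?_ q fun b hb => ?_
      · rw [← ord_aleph0]
        exact ord_le_ord.2 h0
      · rw [lt_ord] at hb
        have hne : Nonempty (Iio i) := hi.elim fun j hj => ⟨⟨j, hj⟩⟩
        have hex : ∃ z, z < i ∧ b.card < κ z := by
          rcases lt_max_iff.1 hb with hb' | hb'
          · obtain ⟨j, hj⟩ := hi
            exact ⟨j, hj, hb'.trans (h.k_lt j)⟩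
          · obtain ⟨z, hz⟩ := exists_lt_of_lt_ciSup hb'
            exact ⟨z.1, z.2, hz⟩
        obtain ⟨z, hz, hbz⟩ := hex
        obtain ⟨z', hz', hzz'⟩ := hs z hz
        refine ⟨(κ z).ord, ord_lt_ord.2 ((h.mono hzz').trans_le (h.le_nu hz')), lt_ord.2 hbz,
          blk_kappa h hl hμ hT z q⟩
  · have hemp : IsEmpty (Iio i) := ⟨fun z => hi ⟨z.1, z.2⟩⟩
    have hnu : nu k κ i = k := by
      unfold nu
      rw [Cardinal.iSup_of_empty]
      exact max_eq_left bot_le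
    rw [hnu]
    exact blk_k h hl hμ hT q

/-- The successor of `nu k κ i`. (If `i` is the least index or a successor index, then the forcing
up to `i` has at most `nu k κ i` conditions; if `i` is a limit, `cover` can be used.) -/
theorem blk_nu_succ (h : Sq (Order.succ τ) k κ) (hl : lam = ⨆ i, κ i)
    (hμ : Mu A (Order.succ τ) k μ) (hT : DC lam T) (i : (Order.succ τ).ord.ToType)
    (q : Lk A (Order.succ τ) k μ × (EE k κ × T)) :
    q ∈ IsCardIn (Lk A (Order.succ τ) k μ × (EE k κ × T)) (Order.succ (nu k κ i)).ord := by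
  have h0 : ℵ₀ ≤ nu k κ i := h.inacc_k.aleph0_lt.le.trans (k_le_nu i)
  have hnl : nu k κ i ≤ lam := ((h.nu_lt i).trans (h.lt_lam hl i)).le
  have htail : DC (nu k κ i) ((∀ z : Ici i, Ec k κ z.1) × T) := by
    refine DC.prod (DC.pi fun z => ?_) (hT.mono hnl)
    rcases eq_or_lt_of_le (mem_Ici.1 z.2) with hz | hz
    · rw [← hz]
      exact h.dc_Ec i
    · exact (h.dc_Ec z.1).mono ((h.nu_lt i).le.trans (h.le_nu hz))
  by_cases hi : ∃ j, j < i
  · -- covering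
    refine (iso_cardIn (blkp_spl (Ec k κ) (Lk A (Order.succ τ) k μ) T i) _ q).2
      (regIn_cov h0 ?_ _).1
    intro Z g q hq
    refine cover (G := Iio i) (κ := fun z => κ z.1) (ν := fun z => nu k κ z.1)
      (lam := nu k κ i) (fun j => (h.inacc j.1).aleph0_lt.le)
      (fun j => ?_) (fun j => h.inacc_k.aleph0_lt.le.trans (k_le_nu j.1)) (h.sum_le_nu i)
      (E := fun z => Ec k κ z.1) (fun j => h.dc_Ec j.1) htail (fun j => ?_) ?_ g q hq
    · rw [blkp_sum κ i j]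
      exact h.sum_le_nu j.1
    · rw [blkp_pi (Ec k κ) _ i j]
      exact h.mk_prod_le j.1 (hμ.mk_Lk h.inacc_k)
    · rw [show #(Ll (nu k κ i)) = nu k κ i from mk_ord_toType _]
      obtain ⟨j, hj⟩ := hi
      refine max_le ?_ (Cardinal.iSup_le_sum _)
      exact (h.k_lt j).le.trans (Cardinal.le_sum (fun z : Iio i => κ z.1) ⟨j, hj⟩)
  · have hemp : IsEmpty (Iio i) := ⟨fun z => hi ⟨z.1, z.2⟩⟩
    refine (iso_cardIn ((blkp_spl (Ec k κ) (Lk A (Order.succ τ) k μ) T i).trans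
      (blkp_e2 _ _ _).symm) _ q).2 (regIn_small h0 ?_ htail _).1
    rw [Cardinal.mk_prod, Cardinal.lift_id, Cardinal.lift_id]
    refine mul_le_of_le h0 ((hμ.mk_Lk h.inacc_k).trans (k_le_nu i)) ?_
    rw [Cardinal.mk_eq_one]
    exact one_le_aleph0.trans h0

theorem blk_lam (h : Sq (Order.succ τ) k κ) (hl : lam = ⨆ i, κ i)
    (hμ : Mu A (Order.succ τ) k μ) (hT : DC lam T)
    (q : Lk A (Order.succ τ) k μ × (EE k κ × T)) :
    q ∈ IsCardIn (Lk A (Order.succ τ) k μ × (EE k κ × T)) lam.ord := by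
  refine cardIn_limit _ ?_ q fun b hb => ?_
  · rw [← ord_aleph0]
    exact ord_le_ord.2 (h.aleph0_le_lam hl)
  · rw [lt_ord] at hb
    obtain ⟨i, hi⟩ := h.exists_of_lt_lam hl hb
    exact ⟨(κ i).ord, ord_lt_ord.2 (h.lt_lam hl i), lt_ord.2 hi, blk_kappa h hl hμ hT i q⟩

theorem blk_lam_succ (h : Sq (Order.succ τ) k κ) (hl : lam = ⨆ i, κ i)
    (hμ : Mu A (Order.succ τ) k μ) (hT : DC lam T)
    (q : Lk A (Order.succ τ) k μ × (EE k κ × T)) :
    q ∈ IsCardIn (Lk A (Order.succ τ) k μ × (EE k κ × T)) (Order.succ lam).ord :=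
  (regIn_cov (h.aleph0_le_lam hl) (blk_cov h hl hμ hT) q).1

end

end Pool.Agent.H638.ST
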