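import Mathlib
import Pool.Agent.H638.ST.BlkP
import Pool.Agent.H638.ST.Alph

set_option autoImplicit false
set_option linter.unusedSectionVars false
set_option linter.unusedVariables false

namespace Pool.Agent.H638.ST

open Set Cardinal Pool.Agent.Helper669.Forcing

/-! # The cardinals of one block: classification and order type -/

section

variable {τ k μ lam : Cardinal.{0}} {κ : (Order.succ τ).ord.ToType → Cardinal.{0}}

/-- the list of the cardinals of the extension between `γ = τ⁺` and `lam` -/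
def Cl (τ k μ : Cardinal.{0}) (κ : (Order.succ τ).ord.ToType → Cardinal.{0})
    (x : Ordinal.{0}) : Prop :=
  x = (Order.succ τ).ord ∨ x = (Order.succ μ).ord ∨ x = k.ord ∨
    ∃ i, x = (nu k κ i).ord ∨ x = (Order.succ (nu k κ i)).ord ∨ x = (κ i).ord

/-- the least index -/
theorem BlkC_least {G : Type} [LinearOrder G] [WellFoundedLT G] {κ : G → Cardinal.{0}}
    {c : Cardinal.{0}} (h : ∃ i, c < κ i) : ∃ i, c ≤ κ i ∧ ∀ z < i, κ z < c := by
  obtain ⟨i, hi⟩ := h
  obtain ⟨j, hj1, hj2⟩ := (wellFounded_lt (α := G)).has_min {i | c ≤ κ i} ⟨i, hi.le⟩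
  exact ⟨j, hj1, fun z hz => not_le.1 fun h' => hj2 z h' hz⟩

/-- evaluation is a projection -/
theorem BlkC_pj_eval {G : Type} {Q : G → Type} [∀ i, Preorder (Q i)] (i : G) :
    Pj (fun q : ∀ i, Q i => q i) where
  mono _ _ h := h i
  lift q p hp := by
    classical
    refine ⟨Function.update q i p, fun j => ?_, ?_⟩
    · by_cases hj : j = i
      · subst hj
        simpa using hp
      · simp [Function.update_of_ne hj]
    · simp

/-- The classification of the cardinals `c` in the interval of one block, in the ground model: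
they are in the list, or in one of the intervals which are collapsed. -/
theorem cl_cases (h : Sq (Order.succ τ) k κ) (hl : lam = ⨆ i, κ i) (hμ : Order.succ τ ≤ μ)
    (hμk : μ < k) (x : Ordinal.{0}) (hx : x.card.ord = x) (h1 : (Order.succ τ).ord ≤ x)
    (h2 : x ≤ (Order.succ lam).ord) :
    Cl τ k μ κ x ∨ x = lam.ord ∨ x = (Order.succ lam).ord ∨
      ((Order.succ τ).ord < x ∧ x < (Order.succ μ).ord) ∨
      ((Order.succ μ).ord < x ∧ x < k.ord) ∨
      ∃ i, (Order.succ (nu k κ i)).ord < x ∧ x < (κ i).ord := by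
  obtain ⟨c, rfl⟩ : ∃ c : Cardinal.{0}, x = c.ord := ⟨x.card, hx.symm⟩
  simp only [Cl, ord_le_ord, ord_lt_ord, ord_inj] at *
  rcases h1.lt_or_eq with h3 | h3
  swap
  · exact Or.inl (Or.inl h3.symm)
  rcases lt_trichotomy c (Order.succ μ) with h4 | h4 | h4
  · exact Or.inr (Or.inr (Or.inr (Or.inl ⟨h3, h4⟩)))
  · exact Or.inl (Or.inr (Or.inl h4))
  rcases lt_trichotomy c k with h5 | h5 | h5
  · exact Or.inr (Or.inr (Or.inr (Or.inr (Or.inl ⟨h4, h5⟩))))
  · exact Or.inl (Or.inr (Or.inr (Or.inl h5)))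
  rcases lt_trichotomy c lam with h6 | h6 | h6
  · obtain ⟨i, hi1, hi2⟩ := BlkC_least (h.exists_of_lt_lam hl h6)
    have h7 : nu k κ i ≤ c := max_le h5.le (ciSup_le' fun z => (hi2 z.1 z.2).le)
    rcases h7.lt_or_eq with h8 | h8
    swap
    · exact Or.inl (Or.inr (Or.inr (Or.inr ⟨i, Or.inl h8.symm⟩)))
    rcases (Order.succ_le_of_lt h8).lt_or_eq with h9 | h9
    swap
    · exact Or.inl (Or.inr (Or.inr (Or.inr ⟨i, Or.inr (Or.inl h9.symm)⟩)))
    rcases hi1.lt_or_eq with h10 | h10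
    swap
    · exact Or.inl (Or.inr (Or.inr (Or.inr ⟨i, Or.inr (Or.inr h10)⟩)))
    exact Or.inr (Or.inr (Or.inr (Or.inr (Or.inr ⟨i, h9, h10⟩))))
  · exact Or.inr (Or.inl h6)
  · exact Or.inr (Or.inr (Or.inl (le_antisymm h2 (Order.succ_le_of_lt h6))))

/-- The cardinals of the extension in the interval of one block. -/
theorem blk_cases {A T : Type} [Preorder A] [Preorder T] (h : Sq (Order.succ τ) k κ)
    (hl : lam = ⨆ i, κ i) (h0 : ℵ₀ ≤ τ) (hA : #A ≤ τ) (hμ : Mu A (Order.succ τ) k μ)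
    (hT : DC lam T) (q : Lk A (Order.succ τ) k μ × (EE k κ × T)) (x : Ordinal.{0})
    (h1 : (Order.succ τ).ord ≤ x) (h2 : x ≤ (Order.succ lam).ord) :
    q ∈ fnot (IsCardIn (Lk A (Order.succ τ) k μ × (EE k κ × T)) x) ∨
      (q ∈ IsCardIn (Lk A (Order.succ τ) k μ × (EE k κ × T)) x ∧
        (Cl τ k μ κ x ∨ x = lam.ord ∨ x = (Order.succ lam).ord)) := by
  by_cases hx : x.card.ord = x
  swap
  · exact Or.inl (not_cardIn_ground x hx q)
  rcases cl_cases h hl hμ.ge' hμ.lt x hx h1 h2 with h3 | h3 | h3 | ⟨h3, h4⟩ | ⟨h3, h4⟩ | ⟨i, h3, h4⟩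
  · refine Or.inr ⟨?_, Or.inl h3⟩
    rcases h3 with rfl | rfl | rfl | ⟨i, rfl | rfl | rfl⟩
    · exact (blk_gamma h hl h0 hA hμ hT q).1
    · exact blk_mu h hl hμ hT q
    · exact blk_k h hl hμ hT q
    · exact blk_nu h hl hμ hT i q
    · exact blk_nu_succ h hl hμ hT i q
    · exact blk_kappa h hl hμ hT i q
  · subst h3
    exact Or.inr ⟨blk_lam h hl hμ hT q, Or.inr (Or.inl rfl)⟩
  · subst h3
    exact Or.inr ⟨blk_lam_succ h hl hμ hT q, Or.inr (Or.inr rfl)⟩
  · exact Or.inl (not_cardIn_cg (h0.trans (Order.le_succ τ))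
      (fun q : Lk A (Order.succ τ) k μ × (EE k κ × T) => q.1.1.2)
      (pj_snd.comp (pj_fst.comp pj_fst)) x h3 h4 q)
  · exact Or.inl (not_cardIn_levy (hμ.inf.trans (Order.le_succ μ))
      (fun q : Lk A (Order.succ τ) k μ × (EE k κ × T) => q.1.2)
      (pj_snd.comp pj_fst) x h3 h4 q)
  · exact Or.inl (not_cardIn_levy
      ((h.inacc_k.aleph0_lt.le.trans (k_le_nu i)).trans (Order.le_succ _))
      (fun q : Lk A (Order.succ τ) k μ × (EE k κ × T) => q.2.1 i)
      ((BlkC_pj_eval i).comp (pj_fst.comp pj_snd)) x h3 h4 q)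

/-- a set which contains the cardinals of the extension below `κ i` -/
def BlkC_B (τ k μ : Cardinal.{0}) (κ : (Order.succ τ).ord.ToType → Cardinal.{0})
    (i : (Order.succ τ).ord.ToType) : Set Ordinal.{0} :=
  Iio (Order.succ τ.ord) ∪ ({(Order.succ τ).ord, (Order.succ μ).ord, k.ord} ∪
    (range (fun j : Iic i => (nu k κ j.1).ord) ∪
      (range (fun j : Iic i => (Order.succ (nu k κ j.1)).ord) ∪
        range (fun j : Iic i => (κ j.1).ord))))

theorem BlkC_mk_range (h : Sq (Order.succ τ) k κ) (h0 : ℵ₀ ≤ τ) (i : (Order.succ τ).ord.ToType)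
    (f : Iic i → Ordinal.{0}) : #(range f) ≤ Cardinal.lift.{1} τ := by
  have h1 : #(Iio i) ≤ τ := Order.lt_succ_iff.1 (h.iio i)
  have h2 : #(Iic i) ≤ τ := by
    have h3 : Iic i = insert i (Iio i) := by
      ext z
      simp [le_iff_eq_or_lt]
    rw [h3]
    exact mk_insert_le.trans (add_le_of_le h0 h1 (one_le_aleph0.trans h0))
  have h4 := mk_range_le_lift (f := f)
  rw [lift_id'.{0, 1}] at h4
  exact h4.trans (lift_le.2 h2)

theorem BlkC_mk (h : Sq (Order.succ τ) k κ) (h0 : ℵ₀ ≤ τ) (i : (Order.succ τ).ord.ToType) :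
    #(BlkC_B τ k μ κ i) ≤ Cardinal.lift.{1} τ := by
  have h1 : ℵ₀ ≤ Cardinal.lift.{1} τ := aleph0_le_lift.2 h0
  have h2 := BlkC_mk_range h h0 i
  refine (mk_union_le _ _).trans (add_le_of_le h1 ?_ ?_)
  · rw [mk_Iio_ordinal, lift_le, Ordinal.card_succ, card_ord]
    exact add_le_of_le h0 le_rfl (one_le_aleph0.trans h0)
  refine (mk_union_le _ _).trans (add_le_of_le h1 ?_ ?_)
  · exact ((Set.toFinite _).lt_aleph0).le.trans h1
  refine (mk_union_le _ _).trans (add_le_of_le h1 (h2 _) ?_)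
  exact (mk_union_le _ _).trans (add_le_of_le h1 (h2 _) (h2 _))

/-- The order type of the set of the cardinals of the extension below `lam`. -/
theorem cl_iso (h : Sq (Order.succ τ) k κ) (hl : lam = ⨆ i, κ i) (h0 : ℵ₀ ≤ τ)
    (S : Set Ordinal.{0}) (hκ : ∀ i, (κ i).ord ∈ S)
    (hS : ∀ x ∈ S, x < lam.ord → x ≤ τ.ord ∨ Cl τ k μ κ x) :
    Nonempty ((Order.succ τ).ord.ToType ≃o {x : Ordinal.{0} // x ∈ S ∧ x < lam.ord}) := by
  refine exists_iso_of_card (h0.trans (Order.le_succ τ)) lam.ord S (fun x hx => ?_) ?_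
  · obtain ⟨i, hi⟩ := h.exists_of_lt_lam hl (lt_ord.1 hx)
    refine lt_of_le_of_lt ?_ (lift_lt.2 (Order.lt_succ τ))
    refine (mk_le_mk_of_subset (t := BlkC_B τ k μ κ i) ?_).trans (BlkC_mk h h0 i)
    rintro y ⟨hy1, hy2⟩
    rcases hS y hy1 (hy2.trans hx) with h1 | h1 | h1 | h1 | ⟨j, h1⟩
    · exact Or.inl (lt_of_le_of_lt h1 (Order.lt_succ _))
    · exact Or.inr (Or.inl (Or.inl h1))
    · exact Or.inr (Or.inl (Or.inr (Or.inl h1)))
    · exact Or.inr (Or.inl (Or.inr (Or.inr h1)))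
    · have hji : j ≤ i := by
        by_contra hij
        have h2 : κ i ≤ nu k κ j := h.le_nu (not_le.1 hij)
        have h3 : (κ i).ord ≤ y := by
          rcases h1 with rfl | rfl | rfl
          · exact ord_le_ord.2 h2
          · exact ord_le_ord.2 (h2.trans (Order.le_succ _))
          · exact ord_le_ord.2 (h2.trans (h.nu_lt j).le)
        exact absurd (lt_ord.2 hi) (not_lt.2 (h3.trans hy2.le))
      rcases h1 with h1 | h1 | h1
      · exact Or.inr (Or.inr (Or.inl ⟨⟨j, hji⟩, h1.symm⟩))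
      · exact Or.inr (Or.inr (Or.inr (Or.inl ⟨⟨j, hji⟩, h1.symm⟩)))
      · exact Or.inr (Or.inr (Or.inr (Or.inr ⟨⟨j, hji⟩, h1.symm⟩)))
  · have h1 := lift_mk_le_lift_mk_of_injective (f := fun i : (Order.succ τ).ord.ToType =>
      (⟨(κ i).ord, hκ i, ord_lt_ord.2 (h.lt_lam hl i)⟩ :
        {x : Ordinal.{0} // x ∈ S ∧ x < lam.ord})) (fun i j hij =>
          h.mono.injective (ord_injective (congrArg Subtype.val hij)))
    rwa [mk_ord_toType, lift_id'.{0, 1}] at h1

end

end Pool.Agent.H638.ST
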