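import Mathlib
import Pool.Agent.H638.ST.Card

set_option autoImplicit false
set_option linter.unusedSectionVars false
set_option linter.unusedVariables false

namespace Pool.Agent.H638.ST

open Set Cardinal Pool.Agent.Helper669.Forcing

section ListCohApi

variable {P : Type} [Preorder P] {Θ : Type}

/-- the canonical name of a ground model set -/
def listCohCk (x : Set Θ) : Nm P Θ := fun t => fground (t ∈ x)

theorem listCoh_mem_ck {x : Set Θ} {t : Θ} {q : P} :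
    q ∈ meets (listCohCk (P := P) x t) ↔ t ∈ x := mem_meets_fground

theorem listCoh_mem_fsub {x y : Nm P Θ} {q : P} :
    q ∈ fsub x y ↔ ∀ t, ∀ r ≤ q, r ∈ meets (x t) → r ∈ meets (y t) := by
  constructor
  · intro h t
    exact (mem_fimp_meets (down_meets _)).1 (h t)
  · intro h t
    exact (mem_fimp_meets (down_meets _)).2 (h t)

theorem listCoh_mem_ninter {x y : Nm P Θ} {t : Θ} {q : P} :
    q ∈ meets (ninter x y t) ↔ q ∈ meets (x t) ∧ q ∈ meets (y t) :=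
  mem_meets_reg (down_fand (down_meets _) (down_meets _)) (reg_fand (reg_meets _) (reg_meets _))

theorem listCoh_mem_feq {x y : Nm P Θ} {q : P} :
    q ∈ feq x y ↔ ∀ t, ∀ r ≤ q, (r ∈ meets (x t) ↔ r ∈ meets (y t)) := by
  constructor
  · rintro ⟨h1, h2⟩ t r hr
    exact ⟨listCoh_mem_fsub.1 h1 t r hr, listCoh_mem_fsub.1 h2 t r hr⟩
  · intro h
    exact ⟨listCoh_mem_fsub.2 fun t r hr => (h t r hr).1,
      listCoh_mem_fsub.2 fun t r hr => (h t r hr).2⟩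

/-- the names agree on `x` -/
def listCohEq (x : Set Θ) (a b : Nm P Θ) : Set P :=
  fall fun t : Θ => fall fun _ : t ∈ x => feqv (meets (a t)) (meets (b t))

theorem listCoh_mem_eq {x : Set Θ} {a b : Nm P Θ} {q : P} :
    q ∈ listCohEq x a b ↔ ∀ t ∈ x, ∀ r ≤ q, (r ∈ meets (a t) ↔ r ∈ meets (b t)) := by
  constructor
  · intro h t ht
    exact mem_feqv_meets.1 (h t ht)
  · intro h t ht
    exact mem_feqv_meets.2 (h t ht)

theorem listCoh_down_eq (x : Set Θ) (a b : Nm P Θ) : Down (listCohEq x a b) :=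
  down_fall fun _ => down_fall fun _ => down_feqv _ _

theorem listCoh_eq_symm {x : Set Θ} {a b : Nm P Θ} {q : P} (h : q ∈ listCohEq x a b) :
    q ∈ listCohEq x b a :=
  listCoh_mem_eq.2 fun t ht r hr => (listCoh_mem_eq.1 h t ht r hr).symm

theorem listCoh_eq_trans {x : Set Θ} {a b c : Nm P Θ} {q : P} (h : q ∈ listCohEq x a b)
    (h' : q ∈ listCohEq x b c) : q ∈ listCohEq x a c :=
  listCoh_mem_eq.2 fun t ht r hr =>
    (listCoh_mem_eq.1 h t ht r hr).trans (listCoh_mem_eq.1 h' t ht r hr)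

theorem listCoh_eq_mono {x y : Set Θ} (hxy : x ⊆ y) {a b : Nm P Θ} {q : P}
    (h : q ∈ listCohEq y a b) : q ∈ listCohEq x a b :=
  fun t ht => h t (hxy ht)

theorem listCoh_down_fsub (x y : Nm P Θ) : Down (fsub x y) := down_fall fun _ => down_fimp _ _

theorem listCoh_down_small (κ : Cardinal.{0}) (x : Nm P Θ) : Down (SmallN κ x) := down_fex _

theorem listCoh_ck_fsub {x y : Set Θ} (h : x ⊆ y) {q : P} :
    q ∈ fsub (listCohCk (P := P) x) (listCohCk y) :=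
  listCoh_mem_fsub.2 fun t r _ hr => listCoh_mem_ck.2 (h (listCoh_mem_ck.1 hr))

theorem listCoh_fsub_trans {x y z : Nm P Θ} {q : P} (h : q ∈ fsub x y) (h' : q ∈ fsub y z) :
    q ∈ fsub x z :=
  listCoh_mem_fsub.2 fun t r hr h1 =>
    listCoh_mem_fsub.1 h' t r hr (listCoh_mem_fsub.1 h t r hr h1)

/-- ground model sets with at most `lam` elements are small -/
theorem listCoh_small_ck {lam : Cardinal.{0}} (x : Set Θ) (hx : #x ≤ lam) (q : P) :
    q ∈ SmallN (Order.succ lam) (listCohCk (P := P) x) := by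
  have he : Nonempty ((#x).out ≃ x) := Cardinal.eq.1 (Cardinal.mk_out _)
  obtain ⟨e⟩ := he
  refine mem_fex_of_mem (#x) (down_fand (down_fground _) (down_fex _))
    ⟨Order.lt_succ_of_le hx, ?_⟩
  refine mem_fex_of_mem (fun i t => fground (t = (e i).1))
    (down_fand (down_IsFun _) (down_fall fun _ => down_fimp _ _)) ⟨⟨?_, ?_⟩, ?_⟩
  · intro i
    exact mem_fex_of_mem (e i).1 (down_meets _) (mem_meets_fground.2 rfl)
  · intro i t t'
    refine mem_fimp.2 fun r hr h => ⟨r, le_rfl, ?_⟩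
    exact (mem_meets_fground.1 h.1).trans (mem_meets_fground.1 h.2).symm
  · intro t
    refine mem_fimp.2 fun r hr h => ⟨r, le_rfl, ?_⟩
    have ht : t ∈ x := listCoh_mem_ck.1 h
    refine mem_fex_of_mem (e.symm ⟨t, ht⟩) (down_meets _) (mem_meets_fground.2 ?_)
    rw [Equiv.apply_symm_apply]

/-- the covering property, for functions on smaller cardinals -/
theorem listCoh_cov {lam : Cardinal.{0}}
    (hcov : ∀ (Z : Type) (g : Ll lam → Z → Set P) (q : P), q ∈ IsFun g → ∃ q' ≤ q,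
      ∃ x : Set Z, #x ≤ lam ∧ ∀ ξ z, q' ∈ fimp (meets (g ξ z)) (fground (z ∈ x)))
    {Z : Type} {ν : Cardinal.{0}} (hν : ν < Order.succ lam) (f : ν.out → Z → Set P) (q : P)
    (hf : q ∈ IsFun f) :
    ∃ q' ≤ q, ∃ x : Set Z, #x ≤ lam ∧ ∀ i z, ∀ s ≤ q', s ∈ meets (f i z) → z ∈ x := by
  rcases isEmpty_or_nonempty ν.out with hem | hne
  · exact ⟨q, le_rfl, ∅, by simp, fun i => (hem.false i).elim⟩
  · have hle : #ν.out ≤ #(Ll lam) := by
      rw [Cardinal.mk_out, Cardinal.mk_ord_toType]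
      exact Order.lt_succ_iff.1 hν
    obtain ⟨em⟩ := hle
    have hsurj : Function.Surjective (Function.invFun em) := Function.invFun_surjective em.2
    obtain ⟨q', hq', x, hx, h⟩ := hcov Z (fun ξ z => f (Function.invFun em ξ) z) q
      ⟨fun ξ => hf.1 _, fun ξ => hf.2 _⟩
    refine ⟨q', hq', x, hx, fun i z s hs h1 => ?_⟩
    obtain ⟨ξ, hξ⟩ := hsurj i
    obtain ⟨r, _, hr⟩ := mem_fimp.1 (h ξ z) s hs (by
      rw [hξ]
      exact h1)
    exact hr

/-- each small set is contained in a small set of the ground model -/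
theorem listCoh_cover {lam : Cardinal.{0}}
    (hcov : ∀ (Z : Type) (g : Ll lam → Z → Set P) (q : P), q ∈ IsFun g → ∃ q' ≤ q,
      ∃ x : Set Z, #x ≤ lam ∧ ∀ ξ z, q' ∈ fimp (meets (g ξ z)) (fground (z ∈ x)))
    {w : Nm P Θ} {q : P} (hw : q ∈ SmallN (Order.succ lam) w) :
    ∃ r ≤ q, ∃ x : Sm lam Θ, r ∈ fsub w (listCohCk x.1) := by
  obtain ⟨q1, hq1, ν, hν, h1⟩ := mem_fex.1 hw q le_rfl
  obtain ⟨q2, hq2, f, hf, h2⟩ := mem_fex.1 h1 q1 le_rfl
  obtain ⟨q3, hq3, x, hx, h3⟩ := listCoh_cov hcov (mem_fground.1 hν) f q2 hf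
  refine ⟨q3, hq3.trans (hq2.trans hq1), ⟨x, hx⟩, listCoh_mem_fsub.2 fun t r hr h4 => ?_⟩
  obtain ⟨r1, hr1, h5⟩ := mem_fimp.1 (h2 t) r (hr.trans hq3) h4
  obtain ⟨r2, hr2, i, h6⟩ := mem_fex.1 h5 r1 le_rfl
  exact listCoh_mem_ck.2 (h3 i t r2 (hr2.trans (hr1.trans hr)) h6)

/-- the sentence `N x a`: for all `y ⊇ x` there is a small `z ⊇ y` such that `d z` and `a` agree
on `x` -/
def listCohN (lam : Cardinal.{0}) (d : Nm P Θ → Nm P Θ) (x : Set Θ) (a : Nm P Θ) : Set P :=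
  fall fun y : Sm lam Θ => fall fun _ : x ⊆ y.1 => fex fun z : Nm P Θ =>
    fand (SmallN (Order.succ lam) z) (fand (fsub (listCohCk y.1) z) (listCohEq x (d z) a))

theorem listCoh_down_body (lam : Cardinal.{0}) (d : Nm P Θ → Nm P Θ) (x : Set Θ) (a : Nm P Θ)
    (y : Set Θ) (z : Nm P Θ) :
    Down (fand (SmallN (Order.succ lam) z) (fand (fsub (listCohCk y) z) (listCohEq x (d z) a))) :=
  down_fand (listCoh_down_small _ _) (down_fand (listCoh_down_fsub _ _) (listCoh_down_eq _ _ _))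

theorem listCoh_down_N (lam : Cardinal.{0}) (d : Nm P Θ → Nm P Θ) (x : Set Θ) (a : Nm P Θ) :
    Down (listCohN lam d x a) :=
  down_fall fun _ => down_fall fun _ => down_fex _

theorem listCoh_reg_N (lam : Cardinal.{0}) (d : Nm P Θ → Nm P Θ) (x : Set Θ) (a : Nm P Θ) :
    Reg (listCohN lam d x a) :=
  reg_fall fun _ => reg_fall fun _ => reg_fex _

theorem listCoh_N_congr {lam : Cardinal.{0}} {d : Nm P Θ → Nm P Θ} {x : Set Θ} {a b : Nm P Θ}
    {q : P} (h : q ∈ listCohN lam d x a) (hab : q ∈ listCohEq x a b) :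
    q ∈ listCohN lam d x b := by
  intro y hy
  refine mem_fex.2 fun q' hq' => ?_
  obtain ⟨r, hr, z, h1, h2, h3⟩ := mem_fex.1 (h y hy) q' hq'
  exact ⟨r, hr, z, h1, h2, listCoh_eq_trans h3 (listCoh_down_eq _ _ _ _ hab _ (hr.trans hq'))⟩

/-- the restriction of a good set is good -/
theorem listCoh_N_mono {lam : Cardinal.{0}} (h0 : ℵ₀ ≤ lam) {d : Nm P Θ → Nm P Θ}
    {x y : Sm lam Θ} (hxy : x.1 ⊆ y.1) {a : Nm P Θ} {q : P} (h : q ∈ listCohN lam d y.1 a) :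
    q ∈ listCohN lam d x.1 a := by
  intro w hw
  have hwy : #(w.1 ∪ y.1 : Set Θ) ≤ lam :=
    (Cardinal.mk_union_le _ _).trans (Cardinal.add_le_of_le h0 w.2 y.2)
  refine mem_fex.2 fun q' hq' => ?_
  obtain ⟨r, hr, z, h1, h2, h3⟩ := mem_fex.1 (h ⟨w.1 ∪ y.1, hwy⟩ subset_union_right) q' hq'
  exact ⟨r, hr, z, h1, listCoh_fsub_trans (listCoh_ck_fsub subset_union_left) h2,
    listCoh_eq_mono hxy h3⟩

/-- the enumeration property at a condition -/
def listCohG (lam : Cardinal.{0}) (d : Nm P Θ → Nm P Θ) (x : Set Θ) (F : Ll lam → Nm P Θ) :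
    Set P :=
  fand (fall fun ξ => listCohN lam d x (F ξ))
    (fall fun a : Nm P Θ => fimp (listCohN lam d x a) (fex fun ξ => listCohEq x a (F ξ)))

theorem listCoh_down_G (lam : Cardinal.{0}) (d : Nm P Θ → Nm P Θ) (x : Set Θ)
    (F : Ll lam → Nm P Θ) : Down (listCohG lam d x F) :=
  down_fand (down_fall fun _ => listCoh_down_N _ _ _ _) (down_fall fun _ => down_fimp _ _)

theorem listCoh_reg_G (lam : Cardinal.{0}) (d : Nm P Θ → Nm P Θ) (x : Set Θ)
    (F : Ll lam → Nm P Θ) : Reg (listCohG lam d x F) :=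
  reg_fand (reg_fall fun _ => listCoh_reg_N _ _ _ _)
    (reg_fall fun _ => reg_fimp _ (listCoh_down_N _ _ _ _))

theorem listCoh_G_congr {lam : Cardinal.{0}} {d : Nm P Θ → Nm P Θ} {x : Set Θ}
    {F F' : Ll lam → Nm P Θ} {q : P} (h : q ∈ listCohG lam d x F)
    (hF : ∀ ξ, q ∈ listCohEq x (F ξ) (F' ξ)) : q ∈ listCohG lam d x F' := by
  refine ⟨fun ξ => listCoh_N_congr (h.1 ξ) (hF ξ), fun a => ?_⟩
  refine mem_fimp.2 fun q' hq' h1 => ?_
  obtain ⟨r, hr, h2⟩ := mem_fimp.1 (h.2 a) q' hq' h1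
  refine ⟨r, hr, mem_fex.2 fun r' hr' => ?_⟩
  obtain ⟨s, hs, ξ, h3⟩ := mem_fex.1 h2 r' hr'
  exact ⟨s, hs, ξ, listCoh_eq_trans h3
    (listCoh_down_eq _ _ _ _ (hF ξ) _ (hs.trans (hr'.trans (hr.trans hq'))))⟩

/-- Key lemma: below each condition there is an enumeration of the good sets. -/
theorem listCoh_key {lam : Cardinal.{0}} (h0 : ℵ₀ ≤ lam)
    (hcov : ∀ (Z : Type) (g : Ll lam → Z → Set P) (q : P), q ∈ IsFun g → ∃ q' ≤ q,
      ∃ x : Set Z, #x ≤ lam ∧ ∀ ξ z, q' ∈ fimp (meets (g ξ z)) (fground (z ∈ x)))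
    {d : Nm P Θ → Nm P Θ} {C : Nm P Θ → Set P} {q : P} (hC : q ∈ IsClubN (Order.succ lam) C)
    (hT : q ∈ fall fun y : Nm P Θ => fimp (fand (SmallN (Order.succ lam) y) (meets (C y)))
      (fex fun ν : Cardinal.{0} => fand (fground (ν < Order.succ lam))
        (fex fun F : ν.out → Nm P Θ =>
          fall fun x : Nm P Θ => fimp (fand (SmallN (Order.succ lam) x) (fsub y x))
            (fex fun i => feq (ninter (d x) y) (F i)))))
    (x : Sm lam Θ) :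
    ∃ r ≤ q, ∃ F : Ll lam → Nm P Θ, r ∈ listCohG lam d x.1 F := by
  classical
  -- a small `y ⊇ x` in the club
  obtain ⟨q1, hq1, h1⟩ := mem_fimp.1 (hC.2.1 (listCohCk x.1)) q le_rfl
    (listCoh_small_ck x.1 x.2 q)
  obtain ⟨q2, hq2, y, hys, hxy, hyC⟩ := mem_fex.1 h1 q1 le_rfl
  -- thinness
  obtain ⟨q3, hq3, h3⟩ := mem_fimp.1 (hT y) q2 (hq2.trans hq1) ⟨hys, hyC⟩
  obtain ⟨q4, hq4, ν, hν, h4⟩ := mem_fex.1 h3 q3 le_rfl
  obtain ⟨q5, hq5, F0, h5⟩ := mem_fex.1 h4 q4 le_rfl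
  have hν' : ν < Order.succ lam := mem_fground.1 hν
  have hq52 : q5 ≤ q2 := hq5.trans (hq4.trans hq3)
  -- cover `y`
  obtain ⟨q6, hq6, y0, hy0⟩ := listCoh_cover hcov
    (listCoh_down_small _ _ _ hys _ hq52)
  have hq62 : q6 ≤ q2 := hq6.trans hq52
  have hxy6 : q6 ∈ fsub (listCohCk x.1) y := listCoh_down_fsub _ _ _ hxy _ hq62
  have hxy0 : x.1 ⊆ y0.1 := by
    intro t ht
    exact listCoh_mem_ck.1 (listCoh_mem_fsub.1 (listCoh_fsub_trans hxy6 hy0) t q6 le_rfl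
      (listCoh_mem_ck.2 ht))
  -- the consequence of thinness on `x`
  have hthin : ∀ s ≤ q6, ∀ z : Nm P Θ, s ∈ SmallN (Order.succ lam) z →
      s ∈ fsub (listCohCk y0.1) z → ∃ s' ≤ s, ∃ i, s' ∈ listCohEq x.1 (d z) (F0 i) := by
    intro s hs z hz1 hz2
    have hyz : s ∈ fsub y z :=
      listCoh_fsub_trans (listCoh_down_fsub _ _ _ hy0 _ hs) hz2
    obtain ⟨s1, hs1, h6⟩ := mem_fimp.1 (h5 z) s (hs.trans hq6) ⟨hz1, hyz⟩
    obtain ⟨s2, hs2, i, h7⟩ := mem_fex.1 h6 s1 le_rfl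
    refine ⟨s2, hs2.trans hs1, i, listCoh_mem_eq.2 fun t ht r hr => ?_⟩
    have h8 := listCoh_mem_feq.1 h7 t r hr
    rw [listCoh_mem_ninter] at h8
    have h9 : r ∈ meets (y t) := listCoh_mem_fsub.1 hxy6 t r
      (hr.trans (hs2.trans (hs1.trans hs))) (listCoh_mem_ck.2 ht)
    exact ⟨fun h => h8.1 ⟨h, h9⟩, fun h => (h8.2 h).1⟩
  have hcovN : ∀ s ≤ q6, ∀ a : Nm P Θ, s ∈ listCohN lam d x.1 a →
      ∃ s' ≤ s, ∃ i, s' ∈ listCohEq x.1 a (F0 i) := by
    intro s hs a ha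
    obtain ⟨s1, hs1, z, hz1, hz2, hz3⟩ := mem_fex.1 (ha y0 hxy0) s le_rfl
    obtain ⟨s2, hs2, i, h6⟩ := hthin s1 (hs1.trans hs) z hz1 hz2
    exact ⟨s2, hs2.trans hs1, i,
      listCoh_eq_trans (listCoh_eq_symm (listCoh_down_eq _ _ _ _ hz3 _ hs2)) h6⟩
  -- some `F0 i` is good
  have hexi : ∃ r ≤ q6, ∃ i, r ∈ listCohN lam d x.1 (F0 i) := by
    by_contra hcon
    push Not at hcon
    have hno : ∀ i, ∀ r ≤ q6, ∃ a ≤ r, ∃ y' : Sm lam Θ, ∀ z : Nm P Θ,
        a ∈ fnot (fand (SmallN (Order.succ lam) z)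
          (fand (fsub (listCohCk y'.1) z) (listCohEq x.1 (d z) (F0 i)))) := by
      intro i r hr
      have h6 := hcon r hr i
      have h7 : ∃ y' : Sm lam Θ, ∃ _ : x.1 ⊆ y'.1, r ∉ fex fun z : Nm P Θ =>
          fand (SmallN (Order.succ lam) z)
            (fand (fsub (listCohCk y'.1) z) (listCohEq x.1 (d z) (F0 i))) := by
        by_contra hc
        push Not at hc
        exact h6 fun y' hy' => hc y' hy'
      obtain ⟨y', _, h8⟩ := h7
      rw [mem_fex] at h8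
      push Not at h8
      obtain ⟨a, ha, h9⟩ := h8
      exact ⟨a, ha, y', fun z b hb => h9 b hb z⟩
    choose N hN1 hN2 hN3 hN4 using fun i => exists_name (Y := Sm lam Θ) q6
      (fun a y' => ∀ z : Nm P Θ, a ∈ fnot (fand (SmallN (Order.succ lam) z)
          (fand (fsub (listCohCk y'.1) z) (listCohEq x.1 (d z) (F0 i)))))
      (hno i) (fun a y' h b hb z => down_fnot _ _ (h z) _ hb)
    have hNfun : q6 ∈ IsFun N := by
      refine ⟨fun i => mem_fex.2 fun q' hq' => ?_, fun i y1 y2 => mem_fimp.2 fun q' hq' h6 => ?_⟩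
      · obtain ⟨r, hr, y1, h6⟩ := hN2 i q' hq'
        exact ⟨r, hr, y1, meets_of_mem h6⟩
      · obtain ⟨r, hr, h7⟩ := exists_of_meets (hN1 i y1) h6.1
        obtain ⟨s, hs, h8⟩ := exists_of_meets (hN1 i y2) (meets_dn h6.2 hr)
        exact ⟨s, hs.trans hr, hN4 i y1 y2 s (hN1 i y1 _ h7 _ hs) h8⟩
    obtain ⟨q7, hq7, X, hX, h6⟩ := listCoh_cov hcov hν' N q6 hNfun
    have hwc : #(y0.1 ∪ ⋃ y' : X, y'.1.1 : Set Θ) ≤ lam := by
      refine (Cardinal.mk_union_le _ _).trans (Cardinal.add_le_of_le h0 y0.2 ?_)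
      refine (Cardinal.mk_iUnion_le _).trans ?_
      calc #X * ⨆ y' : X, #(y'.1.1 : Set Θ) ≤ lam * lam :=
            mul_le_mul' hX (ciSup_le' fun y' => y'.1.2)
        _ = lam := Cardinal.mul_eq_self h0
    set w : Set Θ := y0.1 ∪ ⋃ y' : X, y'.1.1 with hw
    obtain ⟨s, hs, i, h7⟩ := hthin q7 hq7 (listCohCk w) (listCoh_small_ck w hwc q7)
      (listCoh_ck_fsub subset_union_left)
    obtain ⟨r, hr, y', h8⟩ := hN2 i s (hs.trans hq7)
    have hyX : y' ∈ X := h6 i y' r (hr.trans hs) (meets_of_mem h8)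
    have hyw : y'.1 ⊆ w := fun t ht => Or.inr (Set.mem_iUnion.2 ⟨⟨y', hyX⟩, ht⟩)
    exact hN3 i y' r h8 (listCohCk w) r le_rfl
      ⟨listCoh_small_ck w hwc r, listCoh_ck_fsub hyw, listCoh_down_eq _ _ _ _ h7 _ hr⟩
  obtain ⟨r, hr, i0, hi0⟩ := hexi
  have hrq : r ≤ q := hr.trans (hq62.trans (hq2.trans hq1))
  -- the enumeration
  have hle : #ν.out ≤ #(Ll lam) := by
    rw [Cardinal.mk_out, Cardinal.mk_ord_toType]
    exact Order.lt_succ_iff.1 hν'
  obtain ⟨em⟩ := hle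
  have : Nonempty ν.out := ⟨i0⟩
  have hsurj : Function.Surjective (Function.invFun em) := Function.invFun_surjective em.2
  set e : Ll lam → ν.out := Function.invFun em with he
  let F : Ll lam → Nm P Θ := fun ξ t =>
    {s | (s ∈ listCohN lam d x.1 (F0 (e ξ)) ∧ s ∈ meets (F0 (e ξ) t)) ∨
      (s ∈ fnot (listCohN lam d x.1 (F0 (e ξ))) ∧ s ∈ meets (F0 i0 t))}
  have hF1 : ∀ ξ s, s ∈ listCohN lam d x.1 (F0 (e ξ)) → s ∈ listCohEq x.1 (F0 (e ξ)) (F ξ) := by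
    intro ξ s hs
    refine listCoh_mem_eq.2 fun t ht u hu => ⟨fun h => ?_, fun h => ?_⟩
    · exact meets_of_mem (Or.inl ⟨listCoh_down_N _ _ _ _ _ hs _ hu, h⟩)
    · refine meets_of_dense fun v hv => ?_
      obtain ⟨a, ha, b, hb, hab⟩ := h v hv
      rcases hb with hb | hb
      · exact ⟨a, ha, meets_dn hb.2 hab⟩
      · exact absurd (listCoh_down_N _ _ _ _ _ hs _ (ha.trans (hv.trans hu))) (hb.1 a hab)
  have hF2 : ∀ ξ s, s ∈ fnot (listCohN lam d x.1 (F0 (e ξ))) →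
      s ∈ listCohEq x.1 (F0 i0) (F ξ) := by
    intro ξ s hs
    refine listCoh_mem_eq.2 fun t ht u hu => ⟨fun h => ?_, fun h => ?_⟩
    · exact meets_of_mem (Or.inr ⟨down_fnot _ _ hs _ hu, h⟩)
    · refine meets_of_dense fun v hv => ?_
      obtain ⟨a, ha, b, hb, hab⟩ := h v hv
      rcases hb with hb | hb
      · exact absurd (listCoh_down_N _ _ _ _ _ hb.1 _ hab) (hs a (ha.trans (hv.trans hu)))
      · exact ⟨a, ha, meets_dn hb.2 hab⟩
  refine ⟨r, hrq, F, fun ξ => ?_, fun a => mem_fimp.2 fun s hs ha => ?_⟩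
  · refine listCoh_reg_N _ _ _ _ r fun s hs => ?_
    obtain ⟨u, hu, h6 | h6⟩ := decide_of (listCohN lam d x.1 (F0 (e ξ))) s
    · exact ⟨u, hu, listCoh_N_congr h6 (hF1 ξ u h6)⟩
    · exact ⟨u, hu, listCoh_N_congr (listCoh_down_N _ _ _ _ _ hi0 _ (hu.trans hs)) (hF2 ξ u h6)⟩
  · obtain ⟨s1, hs1, i, h6⟩ := hcovN s (hs.trans hr) a ha
    obtain ⟨ξ, hξ⟩ := hsurj i
    have h7 : s1 ∈ listCohEq x.1 a (F0 (e ξ)) := by rw [hξ]; exact h6
    have h8 : s1 ∈ listCohN lam d x.1 (F0 (e ξ)) :=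
      listCoh_N_congr (listCoh_down_N _ _ _ _ _ ha _ hs1) h7
    exact ⟨s1, hs1, mem_fex_of_mem ξ (listCoh_down_eq _ _ _)
      (listCoh_eq_trans h7 (hF1 ξ s1 h8))⟩

end ListCohApi

/-- **From thin lists to coherent families.** `P` has the covering property for functions on
`lam`. If (below `p`) all coherent families have branches in the extension by `P`, then the
successor of `lam` has the strong tree property there. -/
theorem strongTP_of_coh {lam : Cardinal.{0}} (h0 : ℵ₀ ≤ lam) {P : Type} [Preorder P]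
    (hcov : ∀ (Z : Type) (g : Ll lam → Z → Set P) (q : P), q ∈ IsFun g → ∃ q' ≤ q,
      ∃ x : Set Z, #x ≤ lam ∧ ∀ ξ z, q' ∈ fimp (meets (g ξ z)) (fground (z ∈ x)))
    (p : P) (hb : ∀ (Θ : Type) (F : Sm lam Θ → Ll lam → Nm P Θ), ∀ q ≤ p, q ∈ CohFam lam F →
      q ∈ fex fun b : Nm P Θ => CBr lam F b) :
    p ∈ StrongTP P (Order.succ lam) := by
  classical
  intro Θ d
  refine mem_fimp.2 fun q hq hlt => ?_
  obtain ⟨q1, hq1, C, hC, hT⟩ := mem_fex.1 hlt.2 q le_rfl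
  -- mixing of the enumerations
  have hkey : ∀ x : Sm lam Θ, ∀ q' ≤ q1, ∃ a ≤ q', ∃ F : Ll lam → Nm P Θ,
      a ∈ listCohG lam d x.1 F := by
    intro x q' hq'
    refine listCoh_key h0 hcov (C := C) ?_ ?_ x
    · exact down_fand (down_fall fun _ => down_fall fun _ => down_fimp _ _)
        (down_fand (down_fall fun _ => down_fimp _ _)
          (down_fall fun _ => down_fall fun _ => down_fall fun _ => down_fall fun _ =>
            down_fall fun _ => down_fall fun _ => down_fimp _ _)) _ hC _ hq'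
    · exact down_fall (fun _ => down_fimp _ _) _ hT _ hq'
  have hmix : ∀ x : Sm lam Θ, ∃ F : Ll lam → Nm P Θ, q1 ∈ listCohG lam d x.1 F := by
    intro x
    obtain ⟨D, hD1, hD2, hD3, hD4⟩ := exists_rg q1 {a | ∃ F : Ll lam → Nm P Θ,
      a ∈ listCohG lam d x.1 F} (hkey x)
    have h1 : ∀ a : P, ∃ F : Ll lam → Nm P Θ, (∃ F : Ll lam → Nm P Θ,
        a ∈ listCohG lam d x.1 F) → a ∈ listCohG lam d x.1 F := by
      intro a
      by_cases h : ∃ F : Ll lam → Nm P Θ, a ∈ listCohG lam d x.1 F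
      · obtain ⟨F, hF⟩ := h
        exact ⟨F, fun _ => hF⟩
      · exact ⟨fun _ _ => ∅, fun h' => absurd h' h⟩
    choose Fa hFa using h1
    refine ⟨fun ξ => mx D (fun a => Fa a ξ), listCoh_reg_G _ _ _ _ q1 fun q' hq' => ?_⟩
    obtain ⟨r, hr, a, ha⟩ := hD1 q' hq'
    obtain ⟨h2, h3⟩ := hD2 a r ha
    refine ⟨r, hr, listCoh_G_congr (listCoh_down_G _ _ _ _ _ (hFa a h3) _ h2) fun ξ => ?_⟩
    refine listCoh_mem_eq.2 fun t ht s hs => ?_
    exact (mem_mx (N := fun a => Fa a ξ) (x := t) hD3 hD4 (hD3 a r ha s hs)).symm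
  choose F hF using hmix
  -- coherence
  have hcoh : q1 ∈ CohFam lam F := by
    intro x y hxy ζ
    have h1 : q1 ∈ listCohN lam d x.1 (F y ζ) := listCoh_N_mono h0 hxy ((hF y).1 ζ)
    refine mem_fex.2 fun q' hq' => ?_
    obtain ⟨r, hr, h2⟩ := mem_fimp.1 ((hF x).2 (F y ζ)) q' hq' (listCoh_down_N _ _ _ _ _ h1 _ hq')
    obtain ⟨s, hs, ξ, h3⟩ := mem_fex.1 h2 r le_rfl
    exact ⟨s, hs.trans hr, ξ, listCoh_eq_symm h3⟩
  obtain ⟨r, hr, b, hbr⟩ := mem_fex.1 (hb Θ F q1 (hq1.trans hq) hcoh) q1 le_rfl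
  refine ⟨r, hr.trans hq1, mem_fex_of_mem b (down_fall fun _ => down_fimp _ _) fun w => ?_⟩
  refine mem_fimp.2 fun s hs hw => ?_
  obtain ⟨s1, hs1, x, h1⟩ := listCoh_cover hcov hw
  obtain ⟨s2, hs2, ξ, h2⟩ := mem_fex.1 (hbr x) s1 (hs1.trans hs)
  have h2' : s2 ∈ listCohEq x.1 (F x ξ) b := h2
  have hs2q : s2 ≤ q1 := hs2.trans (hs1.trans (hs.trans hr))
  obtain ⟨s3, hs3, z, hz1, hz2, hz3⟩ := mem_fex.1 ((hF x).1 ξ x subset_rfl) s2 hs2q
  refine ⟨s3, hs3.trans (hs2.trans hs1), mem_fex_of_mem z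
    (down_fand (listCoh_down_small _ _) (down_fand (listCoh_down_fsub _ _)
      (down_fand (listCoh_down_fsub _ _) (listCoh_down_fsub _ _)))) ⟨hz1, ?_, ?_⟩⟩
  · exact listCoh_fsub_trans (listCoh_down_fsub _ _ _ h1 _ (hs3.trans hs2)) hz2
  · refine listCoh_mem_feq.2 fun t u hu => ?_
    rw [listCoh_mem_ninter, listCoh_mem_ninter]
    have h3 : u ∈ meets (w t) → (u ∈ meets (d z t) ↔ u ∈ meets (b t)) := by
      intro h4
      have ht : t ∈ x.1 := listCoh_mem_ck.1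
        (listCoh_mem_fsub.1 h1 t u (hu.trans (hs3.trans hs2)) h4)
      exact (listCoh_mem_eq.1 hz3 t ht u hu).trans
        (listCoh_mem_eq.1 h2' t ht u (hu.trans hs3))
    constructor
    · rintro ⟨h4, h5⟩
      exact ⟨(h3 h5).1 h4, h5⟩
    · rintro ⟨h4, h5⟩
      exact ⟨(h3 h5).2 h4, h5⟩

end Pool.Agent.H638.ST
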