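import Mathlib
import Pool.Agent.H638.ST.Blk
import Pool.Agent.H638.ST.BlkC
import Pool.Agent.H638.ST.ListCoh

set_option autoImplicit false
set_option linter.unusedSectionVars false
set_option linter.unusedVariables false

namespace Pool.Agent.H638.ST

open Set Cardinal Pool.Agent.Helper669.Forcing

section

variable {b : ℕ → Bk}

/-- the forcing of the theorem -/
abbrev PP (b : ℕ → Bk) : Type := ∀ m, BP (b m)

/-- the forcing, split at the block `n` -/
abbrev SP (b : ℕ → Bk) (n : ℕ) : Type :=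
  Lk ((∀ m : Iio n, BP (b m.1)) × Cg (b n).χ (b n).τ) (Order.succ (b n).τ) (b n).k (b n).μ ×
    (EE (b n).k (b n).κ × ∀ m : Ioi n, BP (b m.1))

theorem Bk.Ok.aleph0_le_tau {b : Bk} {A : Type} [Preorder A] (h : b.Ok A) : ℵ₀ ≤ b.τ :=
  h.reg.aleph0_le.trans h.le

theorem Bk.Ok.mkA {b : Bk} {A : Type} [Preorder A] (h : b.Ok A) :
    #(A × Cg b.χ b.τ) ≤ b.τ := by
  rw [mk_prod, lift_id, lift_id]
  exact mul_le_of_le h.aleph0_le_tau h.sz (mk_cg_le h.aleph0_le_tau h.le h.pow)

theorem fin_cov (h1 : ∀ n, (b (n + 1)).χ = Order.succ (b n).lam)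
    (h : ∀ n, (b n).Ok (∀ m : Iio n, BP (b m.1))) (n : ℕ) : Cov (b n).lam (PP b) := by
  obtain ⟨s, hs⟩ := exists_spl b n
  exact iso_cov s (blk_cov (h n).sq rfl (h n).mu (dc_later h1 h n))

theorem fin_step (h1 : ∀ n, (b (n + 1)).χ = Order.succ (b n).lam)
    (h : ∀ n, (b n).Ok (∀ m : Iio n, BP (b m.1))) (n : ℕ) (p : PP b) (x : Ordinal.{0})
    (hx : x ≤ (Order.succ (b n).lam).ord)
    (key : x ≤ (b n).χ.ord → p ∈ fnot (IsCardIn (PP b) x) ∨ p ∈ IsCardIn (PP b) x) :
    p ∈ fnot (IsCardIn (PP b) x) ∨ (p ∈ IsCardIn (PP b) x ∧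
      (x ≤ (b n).τ.ord ∨ Cl (b n).τ (b n).k (b n).μ (b n).κ x ∨ x = (b n).lam.ord ∨
        x = (Order.succ (b n).lam).ord)) := by
  obtain ⟨s, hs⟩ := exists_spl b n
  by_cases hx1 : (Order.succ (b n).τ).ord ≤ x
  · rcases blk_cases (h n).sq rfl (h n).aleph0_le_tau (h n).mkA (h n).mu (dc_later h1 h n)
      (s p) x hx1 hx with h2 | ⟨h2, h3⟩
    · left
      intro q hq hq'
      exact h2 (s q) (s.monotone hq) ((iso_cardIn s x q).1 hq')
    · right
      exact ⟨(iso_cardIn s x p).2 h2, Or.inr h3⟩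
  · push Not at hx1
    by_cases hx2 : (b n).χ.ord < x
    · left
      have hg : Pj (fun q : PP b => (q n).1) := by
        constructor
        · intro q q' hq
          exact (hq n).1
        · intro q p hp
          refine ⟨Function.update q n (p, (q n).2), ?_, ?_⟩
          · intro m
            by_cases hm : m = n
            · subst hm
              simp only [Function.update_self]
              exact ⟨hp, le_rfl⟩
            · simp only [Function.update_of_ne hm]
              exact le_rfl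
          · simp
      exact not_cardIn_cg (h n).reg.aleph0_le (fun q : PP b => (q n).1) hg x hx2 hx1 p
    · push Not at hx2
      have hτ : x ≤ (b n).τ.ord := hx2.trans (ord_le_ord.2 (h n).le)
      rcases key hx2 with h2 | h2
      · exact Or.inl h2
      · exact Or.inr ⟨h2, Or.inl hτ⟩

/-- the cardinals of the extension up to the block `n` -/
theorem fin_dec (h0 : (b 0).χ = ℵ₀) (h1 : ∀ n, (b (n + 1)).χ = Order.succ (b n).lam)
    (h : ∀ n, (b n).Ok (∀ m : Iio n, BP (b m.1))) (n : ℕ) (p : PP b) (x : Ordinal.{0})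
    (hx : x ≤ (Order.succ (b n).lam).ord) :
    p ∈ fnot (IsCardIn (PP b) x) ∨ (p ∈ IsCardIn (PP b) x ∧
      (x ≤ (b n).τ.ord ∨ Cl (b n).τ (b n).k (b n).μ (b n).κ x ∨ x = (b n).lam.ord ∨
        x = (Order.succ (b n).lam).ord)) := by
  induction n with
  | zero =>
    exact fin_step h1 h 0 p x hx fun hx2 => by
      rw [h0, ord_aleph0] at hx2
      rcases hx2.lt_or_eq with h2 | h2
      · exact Or.inl (not_cardIn_of_lt_omega x h2 p)
      · rw [h2]
        exact Or.inr (cardIn_omega p)
  | succ n ih =>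
    exact fin_step h1 h (n + 1) p x hx fun hx2 => by
      rw [h1 n] at hx2
      rcases ih hx2 with h2 | h2
      · exact Or.inl h2
      · exact Or.inr h2.1

theorem fin_succ_le (h1 : ∀ n, (b (n + 1)).χ = Order.succ (b n).lam)
    (h : ∀ n, (b n).Ok (∀ m : Iio n, BP (b m.1))) (n : ℕ) : (b n).τ < (b (n + 1)).τ := by
  have h2 : (b n).τ < (b n).lam :=
    (Order.lt_succ _).trans ((h n).sq.lt.trans ((h n).sq.k_lt_lam rfl))
  calc (b n).τ < (b n).lam := h2
    _ ≤ Order.succ (b n).lam := Order.le_succ _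
    _ = (b (n + 1)).χ := (h1 n).symm
    _ ≤ (b (n + 1)).τ := (h (n + 1)).le

/-- **The strong tree property at successors of singular cardinals of infinitely many
cofinalities.** -/
theorem main (H : ∀ c : Cardinal.{0}, ∃ κ > c, Isu κ) :
    ∃ (P : Type) (_ : Preorder P) (p : P) (γ al : ℕ → Cardinal.{0}), Function.Injective γ ∧
      ∀ n, p ∈ IsRegIn P (γ n).ord ∧ γ n < al n ∧ p ∈ IsAlephIn P (γ n).ord (al n).ord ∧
        p ∈ IsAlephIn P ((γ n).ord + 1) (Order.succ (al n)).ord ∧
        p ∈ StrongTP P (Order.succ (al n)) := by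
  obtain ⟨b, h0, h1, h⟩ := exists_blocks H
  let p : PP b := fun m => (⟨fun _ => none, by
      have : IsEmpty {x : (b m).χ.ord.ToType // (none : Option (b m).τ.ord.ToType) ≠ none} :=
        ⟨fun x => x.2 rfl⟩
      rw [mk_eq_zero]
      exact (h m).reg.pos, by
      intro x y hxy
      exact absurd hxy (by simp)⟩, (⟨fun _ => none, by
      rw [mk_eq_zero_iff.2 ⟨fun x => x.2 rfl⟩]
      exact (isRegular_succ (h m).aleph0_le_tau).pos, by
      intro x y hxy
      exact absurd hxy (by simp)⟩, (⟨fun _ => none, by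
      rw [mk_eq_zero_iff.2 ⟨fun x => x.2 rfl⟩]
      exact (isRegular_succ (h m).mu.inf).pos, by
      intro x y hxy
      exact absurd hxy (by simp)⟩, (b m).e)))
  have hpe : ∀ m, (p m).2.2.2 = (b m).e := fun m => rfl
  clear_value p
  have hdec := fin_dec h0 h1 h
  refine ⟨PP b, inferInstance, p, fun n => Order.succ (b n).τ, fun n => (b n).lam, ?_, ?_⟩
  · intro m n hmn
    have h2 : StrictMono fun n => (b n).τ := strictMono_nat_of_lt_succ (fin_succ_le h1 h)
    exact h2.injective (Order.succ_injective hmn)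
  · intro n
    have hsq := (h n).sq
    have hlam0 : ℵ₀ ≤ (b n).lam := hsq.aleph0_le_lam rfl
    obtain ⟨s, hs⟩ := exists_spl b n
    have hdcl := dc_later h1 h n
    have hcard_lam : p ∈ IsCardIn (PP b) (b n).lam.ord :=
      (iso_cardIn s _ p).2 (blk_lam hsq rfl (h n).mu hdcl (s p))
    have hcard_succ : p ∈ IsCardIn (PP b) (Order.succ (b n).lam).ord :=
      (iso_cardIn s _ p).2 (blk_lam_succ hsq rfl (h n).mu hdcl (s p))
    have hiso : Nonempty ((Order.succ (b n).τ).ord.ToType ≃o
        {x : Ordinal.{0} // x ∈ {x | p ∈ IsCardIn (PP b) x} ∧ x < (b n).lam.ord}) := by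
      refine cl_iso (μ := (b n).μ) hsq rfl (h n).aleph0_le_tau _ (fun i => ?_) (fun x hx hx' => ?_)
      · exact (iso_cardIn s _ p).2 (blk_kappa hsq rfl (h n).mu hdcl i (s p))
      · have h2 : x ≤ (Order.succ (b n).lam).ord :=
          hx'.le.trans (ord_le_ord.2 (Order.le_succ _))
        rcases hdec n p x h2 with h3 | ⟨_, h3⟩
        · exact absurd hx (h3 p le_rfl)
        · rcases h3 with h3 | h3 | h3 | h3
          · exact Or.inl h3
          · exact Or.inr h3
          · exact absurd h3 hx'.ne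
          · rw [h3] at hx'
            exact absurd (ord_lt_ord.1 hx') (not_lt.2 (Order.le_succ _))
    have hlt : (b n).lam.ord < (Order.succ (b n).lam).ord := ord_lt_ord.2 (Order.lt_succ _)
    refine ⟨(iso_regIn s _ p).2 (blk_gamma hsq rfl (h n).aleph0_le_tau (h n).mkA (h n).mu hdcl (s p)),
      hsq.lt.trans (hsq.k_lt_lam rfl), ?_, ?_, ?_⟩
    · refine alephIn_of_iso p _ _ {x | p ∈ IsCardIn (PP b) x} (fun x _ hx => hx)
        (fun x hx hx' => ?_) hcard_lam hiso
      rcases hdec n p x (hx.le.trans hlt.le) with h3 | ⟨h3, _⟩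
      · exact h3
      · exact absurd h3 hx'
    · refine alephIn_of_iso p _ _ {x | p ∈ IsCardIn (PP b) x} (fun x _ hx => hx)
        (fun x hx hx' => ?_) hcard_succ (exists_iso_succ hiso hcard_lam hlt fun x hx hx' => ?_)
      · rcases hdec n p x hx.le with h3 | ⟨h3, _⟩
        · exact h3
        · exact absurd h3 hx'
      · by_contra hcon
        push Not at hcon
        by_cases h3 : x.card.ord = x
        · rw [← h3] at hcon hx'
          exact absurd (Order.succ_le_of_lt (ord_lt_ord.1 hx')) (not_le.2 (ord_lt_ord.1 hcon))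
        · exact not_cardIn_ground x h3 p p le_rfl hx
    · refine strongTP_of_coh hlam0 (fin_cov h1 h n) p (fun Θ F q hq hF => ?_)
      have h2 : F = fun x ξ t => (s ⁻¹' (s.symm ⁻¹' (F x ξ t)) : Set (PP b)) := by
        funext x ξ t
        ext r
        simp
      rw [h2] at hF ⊢
      rw [iso_coh s (fun x ξ t => s.symm ⁻¹' (F x ξ t)) q] at hF
      rw [iso_cbr s (fun x ξ t => s.symm ⁻¹' (F x ξ t)) q]
      refine (h n).br _ hdcl Θ _ (s q) ?_ hF
      rw [(hs q).1, ← hpe n]
      exact (hq n).2.2.2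

end

end Pool.Agent.H638.ST
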